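import Pool.Agent.TypBlk.NdA

/-!
# Collapsing the pairs of sets to pairs of rough numbers
-/

namespace Pool.Agent.TypBlk

open Finset Pool.Agent.ZGap.Res

namespace ColAux

variable {R : ResData} {T : ℝ}

lemma mem_of_aa_ne (hT : 1 < T) {S : Finset ℕ} (h : aa R T S ≠ 0) {p : ℕ} (hp : p ∈ S) :
    R.ep * Real.log T < Real.log p := by
  have hL := Real.log_pos hT
  have h1 : ∏ p ∈ S, cc R T p ≠ 0 := right_ne_zero_of_mul h
  have h2 : cc R T p ≠ 0 := (prod_ne_zero_iff.mp h1) p hp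
  have h3 : R.f (Real.log p / Real.log T) ≠ 0 := by
    intro h0
    apply h2
    unfold cc
    rw [h0]
    ring
  have h4 := large_of_f_ne hT h3
  rwa [lt_div_iff₀ hL] at h4

lemma Rg_pr (hT : 1 < T) {S S' : Finset ℕ} (hS : S ⊆ PP T) (hS' : S' ⊆ PP T)
    (h : aa R T S ≠ 0) (h' : aa R T S' ≠ 0) : Rg R T (pr S * pr S') := by
  have hTp : 0 < T := by linarith
  refine ⟨Nat.mul_pos (pr_pos hS) (pr_pos hS'), fun p hp hd => ?_⟩
  have key : ∀ A : Finset ℕ, A ⊆ PP T → aa R T A ≠ 0 → p ∣ pr A →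
      R.ep * Real.log T < Real.log p ∧ (p : ℝ) ≤ T := by
    intro A hA ha hdA
    obtain ⟨q, hq, hpq⟩ := (hp.prime.dvd_finsetProd_iff _).mp hdA
    have hqP := mem_PP.mp (hA hq)
    have := (Nat.prime_dvd_prime_iff_eq hp hqP.1).mp hpq
    subst this
    exact ⟨mem_of_aa_ne hT ha hq, (Nat.cast_le.mpr hqP.2).trans (Nat.floor_le hTp.le)⟩
  rcases hp.dvd_mul.mp hd with h1 | h1
  · exact key S hS h h1
  · exact key S' hS' h' h1

lemma pr_mul_le (hT : 1 < T) {S S' : Finset ℕ} (hS : S ⊆ PP T) (hS' : S' ⊆ PP T)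
    (h : aa R T S ≠ 0) (h' : aa R T S' ≠ 0) : ((pr S * pr S' : ℕ) : ℝ) ≤ T := by
  have hL := Real.log_pos hT
  have hTp : 0 < T := by linarith
  have h1 := ell_lt_of_aa_ne hT h
  have h2 := ell_lt_of_aa_ne hT h'
  rw [ell_eq hS] at h1
  rw [ell_eq hS'] at h2
  have q1 : (0:ℝ) < pr S := by exact_mod_cast pr_pos hS
  have q2 : (0:ℝ) < pr S' := by exact_mod_cast pr_pos hS'
  push_cast
  rw [← Real.log_le_log_iff (by positivity) hTp, Real.log_mul q1.ne' q2.ne']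
  have := R.th_lt
  nlinarith

/-- The number of primes of a set with nonzero coefficient. -/
lemma card_le (hT : 1 < T) {S : Finset ℕ} (h : aa R T S ≠ 0) :
    S.card ≤ ⌈1 / R.ep⌉₊ := by
  have hL := Real.log_pos hT
  have hep := R.ep_pos
  have h1 := ell_lt_of_aa_ne hT h
  have h2 : (S.card : ℝ) * (R.ep * Real.log T) ≤ ell S := by
    unfold ell
    rw [← nsmul_eq_mul]
    exact card_nsmul_le_sum _ _ _ fun p hp => (mem_of_aa_ne hT h hp).le
  have h3 : (S.card : ℝ) * R.ep ≤ 1 := by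
    have h4 : (S.card : ℝ) * R.ep * Real.log T ≤ R.th * Real.log T := by
      calc _ = (S.card : ℝ) * (R.ep * Real.log T) := by ring
        _ ≤ _ := h2.trans h1.le
    have h5 := le_of_mul_le_mul_right h4 hL
    linarith [R.th_lt]
  have h6 : (S.card : ℝ) ≤ 1 / R.ep := by rwa [le_div_iff₀ hep]
  exact_mod_cast h6.trans (Nat.le_ceil _)

lemma abs_aa_le' (hT : 1 < T) (hF : ∀ x, 0 ≤ x → R.F x ≤ 1) (S : Finset ℕ) :
    |aa R T S| ≤ (max 1 |R.r|) ^ ⌈1 / R.ep⌉₊ / Real.sqrt (pr S) := by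
  by_cases h : aa R T S = 0
  · rw [h, abs_zero]
    positivity
  have hm : 1 ≤ max 1 |R.r| := le_max_left _ _
  have h1 : ∏ p ∈ S, |cc R T p| ≤ ∏ p ∈ S, (max 1 |R.r| / Real.sqrt p) := by
    apply prod_le_prod (fun _ _ => abs_nonneg _)
    intro p hp
    unfold cc
    rw [abs_div, abs_mul, abs_of_nonneg (Real.sqrt_nonneg _)]
    apply div_le_div_of_nonneg_right _ (Real.sqrt_nonneg _)
    calc |R.r| * |R.f (Real.log p / Real.log T)| ≤ |R.r| * 1 := by
          apply mul_le_mul_of_nonneg_left _ (abs_nonneg _)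
          rw [abs_of_nonneg (R.f_nonneg _)]
          exact R.f_le _
      _ ≤ _ := by rw [mul_one]; exact le_max_right _ _
  refine ((abs_aa_le hT hF S).trans h1).trans ?_
  rw [prod_div_distrib, prod_const]
  have h2 : ∏ p ∈ S, Real.sqrt (p : ℝ) = Real.sqrt (pr S) := by
    unfold pr
    push_cast
    rw [Real.sqrt_prod _ (fun _ _ => Nat.cast_nonneg _)]
  rw [h2]
  apply div_le_div_of_nonneg_right _ (Real.sqrt_nonneg _)
  exact pow_le_pow_right₀ hm (card_le hT h)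

lemma subset_primeFactors {S : Finset ℕ} (hS : S ⊆ PP T) {m : ℕ} (hm : 0 < m) (h : pr S ∣ m) :
    S ⊆ m.primeFactors := by
  intro p hp
  rw [Nat.mem_primeFactors]
  exact ⟨(mem_PP.mp (hS hp)).1, (dvd_prod_of_mem _ hp).trans h, hm.ne'⟩

lemma pr_injOn {S S' : Finset ℕ} (hS : S ⊆ PP T) (hS' : S' ⊆ PP T) (h : pr S = pr S') : S = S' := by
  have key : ∀ A B : Finset ℕ, A ⊆ PP T → B ⊆ PP T → pr A = pr B → A ⊆ B := by
    intro A B hA hB hAB p hp
    have hpp := (mem_PP.mp (hA hp)).1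
    have hd : p ∣ pr B := by
      rw [← hAB]
      exact dvd_prod_of_mem _ hp
    obtain ⟨x, hx, hpx⟩ := (hpp.prime.dvd_finsetProd_iff _).mp hd
    have := (Nat.prime_dvd_prime_iff_eq hpp (mem_PP.mp (hB hx)).1).mp hpx
    subst this
    exact hx
  exact (key _ _ hS hS' h).antisymm (key _ _ hS' hS h.symm)

lemma card_primeFactors_le (hT : 1 < T) {m : ℕ} (hm : Rg R T m) (hmT : (m : ℝ) ≤ T) :
    m.primeFactors.card ≤ ⌈1 / R.ep⌉₊ := by
  have h1 := hm.card_le hT (B := 1) (by rw [Real.rpow_one]; exact hmT)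
  have h2 : (m.primeFactors.card : ℝ) ≤ m.primeFactorsList.length := by
    exact_mod_cast List.toFinset_card_le _
  exact_mod_cast (h2.trans h1).trans (Nat.le_ceil _)

/-- The number of pairs of index pairs with given products. -/
lemma card_fiber_le (hT : 1 < T) {H M : ℕ} (hH : Rg R T H) (hM : Rg R T M) (hHT : (H : ℝ) ≤ T)
    (hMT : (M : ℝ) ≤ T) :
    ((QQ T ×ˢ QQ T).filter (fun x => pr x.1.1 * pr x.2.2 = H ∧ pr x.1.2 * pr x.2.1 = M)).card ≤
      2 ^ ⌈1 / R.ep⌉₊ * 2 ^ ⌈1 / R.ep⌉₊ := by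
  classical
  have h1 : ((QQ T ×ˢ QQ T).filter (fun x => pr x.1.1 * pr x.2.2 = H ∧
      pr x.1.2 * pr x.2.1 = M)).card ≤ (H.primeFactors.powerset ×ˢ M.primeFactors.powerset).card := by
    apply card_le_card_of_injOn (fun x => (x.1.1, x.1.2))
    · intro x hx
      rw [mem_coe, mem_filter, mem_product] at hx
      obtain ⟨⟨h1, h2⟩, h3, h4⟩ := hx
      obtain ⟨a1, a2, _⟩ := mem_QQ.mp h1
      rw [mem_coe, mem_product, mem_powerset, mem_powerset]
      exact ⟨subset_primeFactors a1 hH.1 (h3 ▸ dvd_mul_right _ _),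
        subset_primeFactors a2 hM.1 (h4 ▸ dvd_mul_right _ _)⟩
    · intro x hx y hy hxy
      rw [mem_coe, mem_filter, mem_product] at hx hy
      obtain ⟨⟨h1, h2⟩, h3, h4⟩ := hx
      obtain ⟨⟨g1, g2⟩, g3, g4⟩ := hy
      obtain ⟨a1, a2, _⟩ := mem_QQ.mp h1
      obtain ⟨b1, b2, _⟩ := mem_QQ.mp h2
      obtain ⟨c1, c2, _⟩ := mem_QQ.mp g1
      obtain ⟨d1, d2, _⟩ := mem_QQ.mp g2
      simp only [Prod.mk.injEq] at hxy
      obtain ⟨e1, e2⟩ := hxy
      have f1 : pr x.2.2 = pr y.2.2 := by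
        have : pr x.1.1 * pr x.2.2 = pr x.1.1 * pr y.2.2 := by rw [h3, e1, g3]
        exact Nat.eq_of_mul_eq_mul_left (pr_pos a1) this
      have f2 : pr x.2.1 = pr y.2.1 := by
        have : pr x.1.2 * pr x.2.1 = pr x.1.2 * pr y.2.1 := by rw [h4, e2, g4]
        exact Nat.eq_of_mul_eq_mul_left (pr_pos a2) this
      exact Prod.ext (Prod.ext e1 e2) (Prod.ext (pr_injOn b1 d1 f2) (pr_injOn b2 d2 f1))
  refine h1.trans ?_
  rw [card_product, card_powerset, card_powerset]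
  exact Nat.mul_le_mul (Nat.pow_le_pow_right (by norm_num) (card_primeFactors_le hT hH hHT))
    (Nat.pow_le_pow_right (by norm_num) (card_primeFactors_le hT hM hMT))

end ColAux

open ColAux in
theorem exists_col (R : ResData) (hF : ∀ x, 0 ≤ x → R.F x ≤ 1) : ∃ C : ℝ, 0 < C ∧
    ∀ T : ℝ, Real.exp 3 ≤ T → ∀ n a b : ℕ, 0 < n → 0 < a → 0 < b →
      ee R T n a b ≤ C * hh R T n a b := by
  classical
  set J := ⌈1 / R.ep⌉₊ with hJ
  set A := (max 1 |R.r|) ^ J with hA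
  have hA0 : 0 < A := by
    have : 0 < max 1 |R.r| := lt_of_lt_of_le one_pos (le_max_left _ _)
    positivity
  refine ⟨A ^ 4 * (2 ^ J * 2 ^ J), by positivity, fun T hTe n a b hn ha hb => ?_⟩
  have hT : 1 < T := lt_of_lt_of_le (Real.one_lt_exp_iff.mpr (by norm_num)) hTe
  have hTp : 0 < T := by linarith
  -- the support
  set X := (QQ T ×ˢ QQ T).filter (fun x => al R T x.1 ≠ 0 ∧ al R T x.2 ≠ 0 ∧
    pr x.1.1 * pr x.2.2 * b = n * (pr x.1.2 * pr x.2.1) * a) with hX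
  set g : (Finset ℕ × Finset ℕ) × (Finset ℕ × Finset ℕ) → ℕ × ℕ := fun x =>
    (pr x.1.1 * pr x.2.2, pr x.1.2 * pr x.2.1) with hg
  have e1 : ee R T n a b = ∑ x ∈ X, |al R T x.1| * |al R T x.2| := by
    unfold ee
    rw [← sum_product', hX, sum_filter]
    refine sum_congr rfl fun x _ => ?_
    by_cases h1 : al R T x.1 = 0
    · simp [h1]
    by_cases h2 : al R T x.2 = 0
    · simp [h2]
    by_cases h3 : pr x.1.1 * pr x.2.2 * b = n * (pr x.1.2 * pr x.2.1) * a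
    · rw [if_pos h3, if_pos ⟨h1, h2, h3⟩]
    · rw [if_neg h3, if_neg (fun h => h3 h.2.2)]
  have hXf : ∀ x ∈ X, Rg R T (g x).1 ∧ Rg R T (g x).2 ∧ ((g x).1 : ℝ) ≤ T ∧ ((g x).2 : ℝ) ≤ T ∧
      (g x).1 * b = n * (g x).2 * a ∧
      |al R T x.1| * |al R T x.2| ≤ A ^ 4 * (1 / Real.sqrt ((g x).1 * (g x).2)) := by
    intro x hx
    rw [hX, mem_filter, mem_product] at hx
    obtain ⟨⟨h1, h2⟩, h3, h4, h5⟩ := hx
    obtain ⟨a1, a2, _⟩ := mem_QQ.mp h1
    obtain ⟨b1, b2, _⟩ := mem_QQ.mp h2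
    have c1 := left_ne_zero_of_mul h3
    have c2 := right_ne_zero_of_mul h3
    have c3 := left_ne_zero_of_mul h4
    have c4 := right_ne_zero_of_mul h4
    refine ⟨Rg_pr hT a1 b2 c1 c4, Rg_pr hT a2 b1 c2 c3, pr_mul_le hT a1 b2 c1 c4,
      pr_mul_le hT a2 b1 c2 c3, h5, ?_⟩
    have d1 := abs_aa_le' hT hF x.1.1
    have d2 := abs_aa_le' hT hF x.1.2
    have d3 := abs_aa_le' hT hF x.2.1
    have d4 := abs_aa_le' hT hF x.2.2
    have q1 : (0:ℝ) < pr x.1.1 := by exact_mod_cast pr_pos a1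
    have q2 : (0:ℝ) < pr x.1.2 := by exact_mod_cast pr_pos a2
    have q3 : (0:ℝ) < pr x.2.1 := by exact_mod_cast pr_pos b1
    have q4 : (0:ℝ) < pr x.2.2 := by exact_mod_cast pr_pos b2
    unfold al
    rw [abs_mul, abs_mul]
    calc |aa R T x.1.1| * |aa R T x.1.2| * (|aa R T x.2.1| * |aa R T x.2.2|) ≤
          (A / Real.sqrt (pr x.1.1)) * (A / Real.sqrt (pr x.1.2)) *
            ((A / Real.sqrt (pr x.2.1)) * (A / Real.sqrt (pr x.2.2))) := by gcongr
      _ = A ^ 4 * (1 / Real.sqrt ((g x).1 * (g x).2)) := by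
          simp only [hg]
          push_cast
          rw [Real.sqrt_mul (by positivity), Real.sqrt_mul q1.le, Real.sqrt_mul q2.le]
          have s1 := (Real.sqrt_pos.mpr q1).ne'
          have s2 := (Real.sqrt_pos.mpr q2).ne'
          have s3 := (Real.sqrt_pos.mpr q3).ne'
          have s4 := (Real.sqrt_pos.mpr q4).ne'
          field_simp
  have e2 : ∑ x ∈ X, |al R T x.1| * |al R T x.2| ≤
      ∑ x ∈ X, A ^ 4 * (1 / Real.sqrt ((g x).1 * (g x).2)) :=
    sum_le_sum fun x hx => (hXf x hx).2.2.2.2.2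
  have e3 : ∑ x ∈ X, A ^ 4 * (1 / Real.sqrt (((g x).1 : ℝ) * (g x).2)) =
      ∑ i ∈ X.image g, ((X.filter (fun x => g x = i)).card : ℝ) *
        (A ^ 4 * (1 / Real.sqrt ((i.1 : ℝ) * i.2))) := by
    rw [← sum_fiberwise_of_maps_to (s := X) (t := X.image g) (g := g)
      (fun x hx => mem_image_of_mem g hx)]
    refine sum_congr rfl fun i _ => ?_
    rw [← nsmul_eq_mul, ← sum_const]
    refine sum_congr rfl fun x hx => ?_
    rw [(mem_filter.mp hx).2]
  have e4 : ∀ i ∈ X.image g, ((X.filter (fun x => g x = i)).card : ℝ) *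
        (A ^ 4 * (1 / Real.sqrt ((i.1 : ℝ) * i.2))) ≤ A ^ 4 * (2 ^ J * 2 ^ J) *
        (if Rg R T i.1 ∧ Rg R T i.2 ∧ i.1 * b = n * i.2 * a then
          1 / Real.sqrt ((i.1 : ℝ) * i.2) else 0) := by
    intro i hi
    obtain ⟨x, hx, rfl⟩ := mem_image.mp hi
    obtain ⟨f1, f2, f3, f4, f5, _⟩ := hXf x hx
    rw [if_pos ⟨f1, f2, f5⟩]
    have h1 : ((X.filter (fun y => g y = g x)).card : ℝ) ≤ 2 ^ J * 2 ^ J := by
      have h2 := card_fiber_le hT f1 f2 f3 f4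
      have h3 : (X.filter (fun y => g y = g x)).card ≤
          ((QQ T ×ˢ QQ T).filter (fun y => pr y.1.1 * pr y.2.2 = (g x).1 ∧
            pr y.1.2 * pr y.2.1 = (g x).2)).card := by
        apply card_le_card
        intro y hy
        rw [mem_filter] at hy ⊢
        rw [hX, mem_filter] at hy
        have h4 := hy.2
        simp only [hg] at h4
        exact ⟨hy.1.1, (Prod.mk.inj h4).1, (Prod.mk.inj h4).2⟩
      exact_mod_cast h3.trans h2
    have h5 : 0 ≤ A ^ 4 * (1 / Real.sqrt (((g x).1 : ℝ) * (g x).2)) := by positivity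
    calc _ ≤ (2 ^ J * 2 ^ J) * (A ^ 4 * (1 / Real.sqrt (((g x).1 : ℝ) * (g x).2))) :=
          mul_le_mul_of_nonneg_right h1 h5
      _ = _ := by ring
  have e5 : hh R T n a b = ∑ i ∈ Icc 1 ⌊T⌋₊ ×ˢ Icc 1 ⌊T⌋₊,
      (if Rg R T i.1 ∧ Rg R T i.2 ∧ i.1 * b = n * i.2 * a then
          1 / Real.sqrt ((i.1 : ℝ) * i.2) else 0) := by
    unfold hh
    rw [← sum_product']
  rw [e1, e5]
  refine e2.trans ?_
  rw [e3]
  refine (sum_le_sum e4).trans ?_
  rw [← mul_sum]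
  apply mul_le_mul_of_nonneg_left _ (by positivity)
  apply sum_le_sum_of_subset_of_nonneg
  · intro i hi
    obtain ⟨x, hx, rfl⟩ := mem_image.mp hi
    obtain ⟨f1, f2, f3, f4, _, _⟩ := hXf x hx
    rw [mem_product, mem_Icc, mem_Icc]
    exact ⟨⟨f1.1, Nat.le_floor f3⟩, ⟨f2.1, Nat.le_floor f4⟩⟩
  · intro i _ _
    split_ifs
    · positivity
    · exact le_rfl

end Pool.Agent.TypBlk
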