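import Pool.Agent.TypBlk.NdA
import Pool.Agent.Lib.ANT.MertensE

/-!
# The bound of the coefficients of the ratios, part 2: the sum over `n`
-/

namespace Pool.Agent.TypBlk

open Finset Pool.Agent.ZGap.Res

namespace EBb

open ArithmeticFunction

lemma Rg.one (R : ResData) (T : ℝ) : Rg R T 1 :=
  ⟨one_pos, fun _ hp h => absurd (Nat.dvd_one.mp h) hp.ne_one⟩

lemma Rg.mul {R : ResData} {T : ℝ} {m n : ℕ} (hm : Rg R T m) (hn : Rg R T n) : Rg R T (m * n) := by
  refine ⟨Nat.mul_pos hm.1 hn.1, fun p hp h => ?_⟩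
  rcases (hp.dvd_mul).mp h with h | h
  · exact hm.2 p hp h
  · exact hn.2 p hp h

lemma Rg.dvd {R : ResData} {T : ℝ} {m n : ℕ} (hn : Rg R T n) (h : m ∣ n) : Rg R T m :=
  ⟨Nat.pos_of_dvd_of_pos h hn.1, fun p hp hpm => hn.2 p hp (hpm.trans h)⟩

open Classical in
/-- The number of rough prime powers `n ≤ T` whose prime divides `b`. -/
lemma card_pp (R : ResData) {T : ℝ} (hT : Real.exp 3 ≤ T) {b : ℕ} (hb : Rg R T b)
    (hbT : (b : ℝ) ≤ T ^ (3 : ℕ)) :
    ((((Icc 1 ⌊T⌋₊).filter fun n => IsPrimePow n ∧ Rg R T n ∧ n.minFac ∣ b).card : ℕ) : ℝ) ≤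
      (3 / R.ep) * (1 / R.ep) := by
  have hT1 : 1 < T := lt_of_lt_of_le (Real.one_lt_exp_iff.mpr (by norm_num)) hT
  have hT0 : 0 < T := by linarith
  set A := (Icc 1 ⌊T⌋₊).filter fun n => IsPrimePow n ∧ Rg R T n ∧ n.minFac ∣ b with hA
  set J : ℕ := ⌊1 / R.ep⌋₊ with hJ
  have h1 : A.card ≤ (b.primeFactors ×ˢ Icc 1 J).card := by
    apply Finset.card_le_card_of_injOn (fun n => (n.minFac, n.factorization n.minFac))
    · intro n hn
      simp only [hA, coe_filter, Set.mem_ofPred_eq, mem_Icc] at hn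
      obtain ⟨⟨hn1, hnT⟩, hpp, hrg, hdvd⟩ := hn
      have hp : n.minFac.Prime := Nat.minFac_prime hpp.ne_one
      simp only [coe_product, Set.mem_prod, mem_coe, Nat.mem_primeFactors, mem_Icc]
      refine ⟨⟨hp, hdvd, hb.1.ne'⟩, ?_, ?_⟩
      · exact (hp.dvd_iff_one_le_factorization hrg.1.ne').mp (Nat.minFac_dvd n)
      · apply Nat.le_floor
        have h2 : (n : ℝ) ≤ T ^ (1 : ℝ) := by
          rw [Real.rpow_one]
          exact (Nat.le_floor_iff hT0.le).mp hnT
        have h3 := hrg.card_le hT1 h2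
        have h4 : n.factorization n.minFac ≤ n.primeFactorsList.length := by
          rw [← Nat.primeFactorsList_count_eq]
          exact List.count_le_length
        exact le_trans (by exact_mod_cast h4) h3
    · intro n hn m hm h
      simp only [hA, coe_filter, Set.mem_ofPred_eq, mem_Icc] at hn hm
      simp only [Prod.mk.injEq] at h
      rw [← hn.2.1.minFac_pow_factorization_eq, ← hm.2.1.minFac_pow_factorization_eq, h.2, h.1]
  have h5 : ((b.primeFactors.card : ℕ) : ℝ) ≤ 3 / R.ep := by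
    have h6 : (b : ℝ) ≤ T ^ (3 : ℝ) := by
      rw [show (3 : ℝ) = ((3 : ℕ) : ℝ) by norm_num, Real.rpow_natCast]
      exact hbT
    refine le_trans ?_ (hb.card_le hT1 h6)
    exact_mod_cast (List.toFinset_card_le b.primeFactorsList)
  have h7 : (J : ℝ) ≤ 1 / R.ep := Nat.floor_le (by have := R.ep_pos; positivity)
  have h8 : ((A.card : ℕ) : ℝ) ≤ ((b.primeFactors.card * J : ℕ) : ℝ) := by
    rw [Finset.card_product, Nat.card_Icc, Nat.add_sub_cancel] at h1
    exact_mod_cast h1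
  refine h8.trans ?_
  push_cast
  exact mul_le_mul h5 h7 (by positivity) (by have := R.ep_pos; positivity)

lemma term_nonneg (T : ℝ) (hT : 0 < Real.log T) (n : ℕ) : 0 ≤ vonMangoldt n / Real.log T :=
  div_nonneg vonMangoldt_nonneg hT.le

open Classical in
/-- The termwise bound. -/
lemma term_le (R : ResData) {T : ℝ} (hT : Real.exp 3 ≤ T) {n b : ℕ} (hn : n ∈ Icc 1 ⌊T⌋₊)
    (hb : 0 < b) :
    kb T n * (if Rg R T (n / n.gcd b) ∧ Rg R T (b / n.gcd b) then
      (n.gcd b : ℝ) / Real.sqrt n else 0) ≤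
    (if n = 1 ∧ Rg R T b then 1 else 0) +
    (if Rg R T b then vonMangoldt n / (n * Real.log T) else 0) +
    (if Rg R T b ∧ IsPrimePow n ∧ Rg R T n ∧ n.minFac ∣ b then 1 else 0) +
    (if n ∣ b ∧ Rg R T (b / n) ∧ ¬ Rg R T n then vonMangoldt n / Real.log T else 0) := by
  have hT1 : 1 < T := lt_of_lt_of_le (Real.one_lt_exp_iff.mpr (by norm_num)) hT
  have hT0 : 0 < T := by linarith
  have hL : 0 < Real.log T := Real.log_pos hT1
  rw [mem_Icc] at hn
  obtain ⟨hn1, hnT⟩ := hn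
  have hnT' : (n : ℝ) ≤ T := (Nat.le_floor_iff hT0.le).mp hnT
  have hn0 : (0 : ℝ) < n := by exact_mod_cast hn1
  have hA : (0 : ℝ) ≤ (if n = 1 ∧ Rg R T b then 1 else 0) := by split_ifs <;> norm_num
  have hB : (0 : ℝ) ≤ (if Rg R T b then vonMangoldt n / (n * Real.log T) else 0) := by
    split_ifs
    · exact div_nonneg vonMangoldt_nonneg (by positivity)
    · exact le_rfl
  have hC : (0 : ℝ) ≤ (if Rg R T b ∧ IsPrimePow n ∧ Rg R T n ∧ n.minFac ∣ b then 1 else 0) := by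
    split_ifs <;> norm_num
  have hD : (0 : ℝ) ≤ (if n ∣ b ∧ Rg R T (b / n) ∧ ¬ Rg R T n then
      vonMangoldt n / Real.log T else 0) := by
    split_ifs
    · exact term_nonneg T hL n
    · exact le_rfl
  by_cases h : Rg R T (n / n.gcd b) ∧ Rg R T (b / n.gcd b)
  swap
  · rw [if_neg h, mul_zero]
    linarith
  rw [if_pos h]
  have hg0 : 0 < n.gcd b := Nat.gcd_pos_of_pos_left b hn1
  by_cases hn1' : n = 1
  · subst hn1'
    have h2 : Rg R T b := by simpa using h.2
    rw [if_pos (show (1 = 1 ∧ Rg R T b) from ⟨rfl, h2⟩)]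
    have : kb T 1 * (((1 : ℕ).gcd b : ℝ) / Real.sqrt ((1 : ℕ) : ℝ)) = 1 := by
      simp [kb]
    refine (le_of_eq this).trans ?_
    generalize (if Rg R T b then vonMangoldt 1 / (((1 : ℕ) : ℝ) * Real.log T) else 0) = x at hB ⊢
    generalize (if Rg R T b ∧ IsPrimePow 1 ∧ Rg R T 1 ∧ Nat.minFac 1 ∣ b then (1 : ℝ) else 0) = y
      at hC ⊢
    generalize (if 1 ∣ b ∧ Rg R T (b / 1) ∧ ¬ Rg R T 1 then vonMangoldt 1 / Real.log T else 0) = z
      at hD ⊢
    linarith
  have hkb : kb T n * ((n.gcd b : ℝ) / Real.sqrt n) =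
      vonMangoldt n / Real.log T * ((n.gcd b : ℝ) / n) := by
    unfold kb
    rw [if_neg hn1']
    have hs : Real.sqrt n * Real.sqrt n = n := Real.mul_self_sqrt hn0.le
    have hs0 : 0 < Real.sqrt n := Real.sqrt_pos.mpr hn0
    field_simp
    rw [sq, hs]
  rw [hkb]
  by_cases hpp : IsPrimePow n
  swap
  · rw [vonMangoldt_eq_zero_iff.mpr hpp]
    simp only [zero_div, zero_mul]
    rw [vonMangoldt_eq_zero_iff.mpr hpp] at hB hD
    simp only [zero_div] at hB hD
    linarith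
  by_cases hrn : Rg R T n
  · -- rough `n`
    have hrb : Rg R T b := by
      have h3 := Rg.mul (Rg.dvd hrn (Nat.gcd_dvd_left n b)) h.2
      rwa [Nat.mul_div_cancel' (Nat.gcd_dvd_right n b)] at h3
    by_cases hmf : n.minFac ∣ b
    · rw [if_pos (show Rg R T b ∧ IsPrimePow n ∧ Rg R T n ∧ n.minFac ∣ b from
        ⟨hrb, hpp, hrn, hmf⟩)]
      have h4 : vonMangoldt n / Real.log T ≤ 1 := by
        rw [div_le_one hL]
        exact vonMangoldt_le_log.trans (Real.log_le_log hn0 hnT')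
      have h5 : (n.gcd b : ℝ) / n ≤ 1 := by
        rw [div_le_one hn0]
        exact_mod_cast Nat.gcd_le_left b hn1
      have h6 : vonMangoldt n / Real.log T * ((n.gcd b : ℝ) / n) ≤ 1 * 1 :=
        mul_le_mul h4 h5 (by positivity) zero_le_one
      linarith
    · -- coprime
      have hcop : n.gcd b = 1 := by
        rw [← Nat.coprime_iff_gcd_eq_one, ← hpp.minFac_pow_factorization_eq]
        apply Nat.Coprime.pow_left
        exact (Nat.Prime.coprime_iff_not_dvd (Nat.minFac_prime hn1')).mpr hmf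
      rw [if_pos hrb, hcop]
      rw [if_pos hrb] at hB
      have h7 : vonMangoldt n / Real.log T * (((1 : ℕ) : ℝ) / n) =
          vonMangoldt n / (n * Real.log T) := by
        field_simp
        simp
      linarith
  · -- not rough
    have hng : n / n.gcd b = 1 := by
      by_contra hne
      obtain ⟨p, hp, hpd⟩ := Nat.exists_prime_and_dvd hne
      apply hrn
      have h8 := h.1.2 p hp hpd
      have hpn : p ∣ n := hpd.trans (Nat.div_dvd_of_dvd (Nat.gcd_dvd_left n b))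
      refine ⟨hn1, fun q hq hqn => ?_⟩
      have h9 : q = p := by
        rw [← hpp.minFac_pow_factorization_eq] at hqn hpn
        have hm := Nat.minFac_prime hn1'
        rw [(Nat.prime_dvd_prime_iff_eq hq hm).mp (hq.dvd_of_dvd_pow hqn),
          (Nat.prime_dvd_prime_iff_eq hp hm).mp (hp.dvd_of_dvd_pow hpn)]
      rw [h9]
      exact h8
    have hgn : n.gcd b = n := by
      have h10 := Nat.div_mul_cancel (Nat.gcd_dvd_left n b)
      rw [hng, one_mul] at h10
      exact h10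
    have hnb : n ∣ b := by
      rw [← hgn]
      exact Nat.gcd_dvd_right n b
    rw [hgn] at h ⊢
    rw [if_pos (show n ∣ b ∧ Rg R T (b / n) ∧ ¬ Rg R T n from ⟨hnb, h.2, hrn⟩), div_self hn0.ne',
      mul_one]
    linarith

end EBb

open Classical in
/-- The sum over `n`. -/
theorem exists_sumn (R : ResData) : ∃ C : ℝ, 0 < C ∧ ∀ T : ℝ, Real.exp 3 ≤ T → ∀ b : ℕ,
    0 < b → (b : ℝ) ≤ T ^ (3 : ℕ) →
    ∑ n ∈ Icc 1 ⌊T⌋₊, kb T n * (if Rg R T (n / n.gcd b) ∧ Rg R T (b / n.gcd b) then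
      (n.gcd b : ℝ) / Real.sqrt n else 0) ≤ C * ZZ R T b := by
  obtain ⟨C1, hC1, hM⟩ := Pool.Agent.ANTE.mertens_one
  have hep := R.ep_pos
  refine ⟨1 + (1 + C1) + (3 / R.ep) * (1 / R.ep), by positivity, fun T hT b hb hbT => ?_⟩
  have hT1 : 1 < T := lt_of_lt_of_le (Real.one_lt_exp_iff.mpr (by norm_num)) hT
  have hT0 : 0 < T := by linarith
  have hL3 : 3 ≤ Real.log T := by
    rw [Real.le_log_iff_exp_le hT0]
    exact hT
  have hL : 0 < Real.log T := by linarith
  set D : ℝ := ∑ n ∈ Finset.Icc 1 ⌊T⌋₊,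
    if n ∣ b ∧ Rg R T (b / n) ∧ ¬ Rg R T n then ArithmeticFunction.vonMangoldt n / Real.log T else 0
    with hD
  have hD0 : 0 ≤ D := by
    apply Finset.sum_nonneg
    intro n _
    split_ifs
    · exact EBb.term_nonneg T hL n
    · exact le_rfl
  refine le_trans (Finset.sum_le_sum fun n hn => EBb.term_le R hT hn hb) ?_
  rw [Finset.sum_add_distrib, Finset.sum_add_distrib, Finset.sum_add_distrib, ← hD]
  have hZ : ZZ R T b = (if Rg R T b then 1 else 0) + D := rfl
  rw [hZ]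
  by_cases hrb : Rg R T b
  · have h1 : ∑ n ∈ Icc 1 ⌊T⌋₊, (if n = 1 ∧ Rg R T b then (1 : ℝ) else 0) ≤ 1 := by
      simp only [hrb, and_true]
      rw [Finset.sum_ite_eq']
      split_ifs <;> norm_num
    have h2 : ∑ n ∈ Icc 1 ⌊T⌋₊, (if Rg R T b then
        ArithmeticFunction.vonMangoldt n / (n * Real.log T) else 0) ≤ 1 + C1 := by
      simp only [hrb, if_true]
      have hfl : 1 ≤ ⌊T⌋₊ := Nat.le_floor (by simpa using hT1.le)
      have h3 := (abs_le.mp (hM ⌊T⌋₊ hfl)).2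
      have h4 : Real.log ⌊T⌋₊ ≤ Real.log T :=
        Real.log_le_log (by exact_mod_cast hfl) (Nat.floor_le hT0.le)
      have h5 : ∑ n ∈ Icc 1 ⌊T⌋₊, ArithmeticFunction.vonMangoldt n / (n * Real.log T) =
          (∑ n ∈ Icc 1 ⌊T⌋₊, ArithmeticFunction.vonMangoldt n / (n : ℝ)) / Real.log T := by
        rw [Finset.sum_div]
        exact Finset.sum_congr rfl fun n _ => by rw [div_div]
      rw [h5, div_le_iff₀ hL]
      nlinarith
    have h6 : ∑ n ∈ Icc 1 ⌊T⌋₊, (if Rg R T b ∧ IsPrimePow n ∧ Rg R T n ∧ n.minFac ∣ b then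
        (1 : ℝ) else 0) ≤ (3 / R.ep) * (1 / R.ep) := by
      simp only [hrb, true_and]
      rw [← Finset.sum_filter, Finset.sum_const, nsmul_eq_mul, mul_one]
      exact EBb.card_pp R hT hrb hbT
    rw [if_pos hrb]
    have h7 : 0 ≤ ((1 + C1) + (3 / R.ep) * (1 / R.ep)) * D := by positivity
    nlinarith
  · have h1 : ∑ n ∈ Icc 1 ⌊T⌋₊, (if n = 1 ∧ Rg R T b then (1 : ℝ) else 0) = 0 :=
      Finset.sum_eq_zero fun n _ => if_neg fun h => hrb h.2
    have h2 : ∑ n ∈ Icc 1 ⌊T⌋₊, (if Rg R T b then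
        ArithmeticFunction.vonMangoldt n / (n * Real.log T) else 0) = 0 :=
      Finset.sum_eq_zero fun n _ => if_neg hrb
    have h6 : ∑ n ∈ Icc 1 ⌊T⌋₊, (if Rg R T b ∧ IsPrimePow n ∧ Rg R T n ∧ n.minFac ∣ b then
        (1 : ℝ) else 0) = 0 :=
      Finset.sum_eq_zero fun n _ => if_neg fun h => hrb h.1
    rw [h1, h2, h6, if_neg hrb]
    have h7 : 0 ≤ ((1 + C1) + (3 / R.ep) * (1 / R.ep)) * D := by positivity
    nlinarith

end Pool.Agent.TypBlk
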