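import Pool.Agent.TypBlk.EBa
import Pool.Agent.TypBlk.EBb

/-!
# The bound of the coefficients of the ratios
-/
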