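import Mathlib

/-!
# Grouping terms by their ratio
-/

namespace Pool.Agent.TypBlk

open Finset

/-- Grouping a double sum over an involution. -/
theorem group_le {X ι : Type} [DecidableEq ι] (s : Finset X) (f : X → ι) (σ : ι → ι)
    (hσ : ∀ i, σ (σ i) = i) (u : X → ℝ) (hu : ∀ x, 0 ≤ u x) :
    ∑ x ∈ s, ∑ y ∈ s, (if f y = f x ∨ f y = σ (f x) then u x * u y else 0) ≤
      2 * ∑ i ∈ s.image f, (∑ x ∈ s.filter (fun x => f x = i), u x) ^ 2 := by
  classical
  set E : ι → ℝ := fun i => ∑ x ∈ s.filter (fun x => f x = i), u x with hE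
  have hE0 : ∀ i, 0 ≤ E i := fun i => sum_nonneg fun x _ => hu x
  have hin : ∀ j, ∑ y ∈ s, (if f y = j then u y else 0) = E j := by
    intro j
    rw [hE]
    simp only
    rw [sum_filter]
  -- fibrewise
  have hfib : ∀ g : ι → ℝ, ∑ x ∈ s, u x * g (f x) = ∑ i ∈ s.image f, E i * g i := by
    intro g
    rw [← sum_fiberwise_of_maps_to (s := s) (t := s.image f) (g := f)
      (fun x hx => mem_image_of_mem f hx)]
    refine sum_congr rfl fun i _ => ?_
    rw [hE]
    simp only
    rw [sum_mul]
    refine sum_congr rfl fun x hx => ?_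
    rw [(mem_filter.mp hx).2]
  have h1 : ∑ x ∈ s, ∑ y ∈ s, (if f y = f x ∨ f y = σ (f x) then u x * u y else 0) ≤
      ∑ x ∈ s, u x * E (f x) + ∑ x ∈ s, u x * E (σ (f x)) := by
    rw [← sum_add_distrib]
    refine sum_le_sum fun x _ => ?_
    rw [← hin (f x), ← hin (σ (f x)), mul_sum, mul_sum, ← sum_add_distrib]
    refine sum_le_sum fun y _ => ?_
    have hxy := mul_nonneg (hu x) (hu y)
    by_cases a1 : f y = f x
    · rw [if_pos (Or.inl a1), if_pos a1]
      have : 0 ≤ u x * (if f y = σ (f x) then u y else 0) := by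
        split_ifs
        · exact hxy
        · rw [mul_zero]
      linarith
    · by_cases a2 : f y = σ (f x)
      · rw [if_pos (Or.inr a2), if_neg a1, if_pos a2]
        linarith
      · rw [if_neg (by tauto), if_neg a1, if_neg a2]
        simp
  rw [hfib E, hfib (fun i => E (σ i))] at h1
  have h2 : ∑ i ∈ s.image f, E (σ i) ^ 2 ≤ ∑ i ∈ s.image f, E i ^ 2 := by
    have hinj : Set.InjOn σ (s.image f : Set ι) := by
      intro a _ b _ hab
      rw [← hσ a, hab, hσ b]
    rw [← sum_image (f := fun i => E i ^ 2) (g := σ) hinj]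
    have e1 : ∑ i ∈ (s.image f).image σ, E i ^ 2 =
        ∑ i ∈ ((s.image f).image σ).filter (fun i => i ∈ s.image f), E i ^ 2 := by
      rw [sum_filter]
      refine sum_congr rfl fun i _ => ?_
      split_ifs with h
      · rfl
      · have : E i = 0 := by
          rw [hE]
          simp only
          apply sum_eq_zero
          intro x hx
          exfalso
          apply h
          rw [← (mem_filter.mp hx).2]
          exact mem_image_of_mem f (mem_filter.mp hx).1
        rw [this]
        norm_num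
    rw [e1]
    apply sum_le_sum_of_subset_of_nonneg
    · intro i hi
      exact (mem_filter.mp hi).2
    · intro i _ _
      positivity
  have h3 : ∑ i ∈ s.image f, E i * E (σ i) ≤ ∑ i ∈ s.image f, (E i ^ 2 + E (σ i) ^ 2) / 2 := by
    refine sum_le_sum fun i _ => ?_
    nlinarith [sq_nonneg (E i - E (σ i))]
  have h4 : ∑ i ∈ s.image f, E i * E i = ∑ i ∈ s.image f, E i ^ 2 :=
    sum_congr rfl fun i _ => by ring
  have h5 : ∑ i ∈ s.image f, (E i ^ 2 + E (σ i) ^ 2) / 2 =
      (∑ i ∈ s.image f, E i ^ 2 + ∑ i ∈ s.image f, E (σ i) ^ 2) / 2 := by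
    rw [← sum_add_distrib, sum_div]
  rw [h4] at h1
  rw [h5] at h3
  show _ ≤ 2 * ∑ i ∈ s.image f, E i ^ 2
  linarith

end Pool.Agent.TypBlk
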