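import Pool.Agent.TypBlk.Defs

/-!
# Mean squares of finite cosine sums with separated frequencies
-/

namespace Pool.Agent.TypBlk

open MeasureTheory Finset Pool.Agent.ZGap.Res

namespace MSAux

lemma WW_pos_near : ∃ c1 s1 : ℝ, 0 < c1 ∧ 0 < s1 ∧ ∀ s : ℝ, |s| ≤ s1 → c1 ≤ WW s := by
  have h0 : 0 < WW 0 := by
    have h1 : 0 < chat bmp 0 := by
      unfold chat
      simp only [mul_zero, Real.cos_zero, mul_one]
      exact bmp.integral_pos
    have := cW_pos
    unfold WW
    positivity
  have hc : Filter.Tendsto WW (nhds 0) (nhds (WW 0)) := WW_continuous.tendsto 0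
  have hev := hc.eventually (lt_mem_nhds (half_lt_self h0))
  obtain ⟨r, hr, h⟩ := Metric.eventually_nhds_iff.1 hev
  refine ⟨WW 0 / 2, r / 2, by positivity, by positivity, fun s hs => ?_⟩
  refine (h ?_).le
  rw [Real.dist_eq, sub_zero]
  linarith

lemma int_cos (l : ℝ) : Integrable (fun s => WW s * Real.cos (l * s)) := by
  have hc := WW_continuous
  refine WW_integrable.norm.mono' (Continuous.aestronglyMeasurable (by fun_prop))
    (Filter.Eventually.of_forall fun x => ?_)
  rw [norm_mul, Real.norm_eq_abs (Real.cos _)]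
  exact mul_le_of_le_one_right (norm_nonneg _) (Real.abs_cos_le_one _)

lemma int_sin (l : ℝ) : Integrable (fun s => WW s * Real.sin (l * s)) := by
  have hc := WW_continuous
  refine WW_integrable.norm.mono' (Continuous.aestronglyMeasurable (by fun_prop))
    (Filter.Eventually.of_forall fun x => ?_)
  rw [norm_mul, Real.norm_eq_abs (Real.sin _)]
  exact mul_le_of_le_one_right (norm_nonneg _) (Real.abs_sin_le_one _)

/-- change of variables -/
lemma cov (k a : ℝ) (hk : 0 < k) (l : ℝ) :
    ∫ t : ℝ, WW ((t - a) * k) * Real.cos (t * l) =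
      k⁻¹ * ∫ v : ℝ, WW v * Real.cos ((v / k + a) * l) := by
  have h1 := integral_sub_right_eq_self (fun u : ℝ => WW (u * k) * Real.cos ((u + a) * l)) a
    (μ := volume)
  simp only [sub_add_cancel] at h1
  rw [h1]
  have h2 := Measure.integral_comp_mul_right
    (fun v : ℝ => WW v * Real.cos ((v / k + a) * l)) k
  rw [abs_of_pos (by positivity : 0 < k⁻¹), smul_eq_mul] at h2
  rw [← h2]
  refine integral_congr_ae (Filter.Eventually.of_forall fun u => ?_)
  simp only
  rw [mul_div_cancel_right₀ _ hk.ne']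

lemma cov_zero (k a : ℝ) (hk : 0 < k) (l : ℝ) (hl : k ≤ |l|) :
    ∫ t : ℝ, WW ((t - a) * k) * Real.cos (t * l) = 0 := by
  rw [cov k a hk l]
  have e : ∀ v : ℝ, WW v * Real.cos ((v / k + a) * l) =
      Real.cos (a * l) * (WW v * Real.cos ((l / k) * v)) -
        Real.sin (a * l) * (WW v * Real.sin ((l / k) * v)) := by
    intro v
    have : (v / k + a) * l = a * l + (l / k) * v := by ring
    rw [this, Real.cos_add]
    ring
  simp_rw [e]
  have hl' : 1 ≤ |l / k| := by
    rw [abs_div, abs_of_pos hk, le_div_iff₀ hk, one_mul]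
    exact hl
  rw [integral_sub ((int_cos _).const_mul _) ((int_sin _).const_mul _),
    MeasureTheory.integral_const_mul, MeasureTheory.integral_const_mul, WW_cos hl', WW_sin]
  ring

lemma int_shift (k a : ℝ) (hk : 0 < k) : Integrable (fun t : ℝ => WW ((t - a) * k)) :=
  (WW_integrable.comp_mul_right' hk.ne').comp_sub_right a

lemma int_shift_cos (k a : ℝ) (hk : 0 < k) (l : ℝ) :
    Integrable (fun t : ℝ => WW ((t - a) * k) * Real.cos (t * l)) := by
  have hc := WW_continuous
  refine (int_shift k a hk).norm.mono' (Continuous.aestronglyMeasurable (by fun_prop))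
    (Filter.Eventually.of_forall fun x => ?_)
  rw [norm_mul, Real.norm_eq_abs (Real.cos _)]
  exact mul_le_of_le_one_right (norm_nonneg _) (Real.abs_cos_le_one _)

lemma int_shift_eq (k a : ℝ) (hk : 0 < k) : ∫ t : ℝ, WW ((t - a) * k) = k⁻¹ := by
  have h := cov k a hk 0
  simp only [mul_zero, Real.cos_zero, mul_one] at h
  rw [h, WW_integral, mul_one]

lemma cov_abs (k a : ℝ) (hk : 0 < k) (l : ℝ) :
    |∫ t : ℝ, WW ((t - a) * k) * Real.cos (t * l)| ≤ k⁻¹ := by
  rw [← int_shift_eq k a hk]
  refine (MeasureTheory.abs_integral_le_integral_abs).trans ?_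
  refine integral_mono_of_nonneg (Filter.Eventually.of_forall fun t => abs_nonneg _)
    (int_shift k a hk) (Filter.Eventually.of_forall fun t => ?_)
  simp only
  rw [abs_mul, abs_of_nonneg (WW_nonneg _)]
  exact mul_le_of_le_one_right (WW_nonneg _) (Real.abs_cos_le_one _)

lemma expand {ι : Type} (s : Finset ι) (c l : ι → ℝ) (t : ℝ) :
    (∑ x ∈ s, c x * Real.cos (t * l x)) ^ 2 =
      ∑ x ∈ s, ∑ y ∈ s, (c x * c y / 2) *
        (Real.cos (t * (l x - l y)) + Real.cos (t * (l x + l y))) := by
  rw [sq, Finset.sum_mul_sum]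
  refine Finset.sum_congr rfl fun x _ => Finset.sum_congr rfl fun y _ => ?_
  have h1 : Real.cos (t * (l x - l y)) = Real.cos (t * l x) * Real.cos (t * l y) +
      Real.sin (t * l x) * Real.sin (t * l y) := by rw [mul_sub, Real.cos_sub]
  have h2 : Real.cos (t * (l x + l y)) = Real.cos (t * l x) * Real.cos (t * l y) -
      Real.sin (t * l x) * Real.sin (t * l y) := by rw [mul_add, Real.cos_add]
  rw [h1, h2]
  ring

end MSAux

open MSAux in
/-- The mean square of a cosine sum whose frequencies are equal up to sign or separated. -/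
theorem exists_ms : ∃ C C0 : ℝ, 0 < C ∧ 0 < C0 ∧ ∀ {ι : Type} (s : Finset ι) (c l : ι → ℝ) (T : ℝ),
    1 ≤ T → (∀ x ∈ s, ∀ y ∈ s, c x ≠ 0 → c y ≠ 0 → |l x| ≠ |l y| →
      C0 / T ≤ |l x - l y| ∧ C0 / T ≤ |l x + l y|) →
    ∫ t in T..(2 * T), (∑ x ∈ s, c x * Real.cos (t * l x)) ^ 2 ≤
      C * T * ∑ x ∈ s, ∑ y ∈ s, if |l x| = |l y| then |c x| * |c y| else 0 := by
  obtain ⟨c1, s1, hc1, hs1, hW⟩ := WW_pos_near
  refine ⟨1 / (2 * s1 * c1), 2 * s1, by positivity, by positivity, ?_⟩
  intro ι s c l T hT hsep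
  have hT0 : 0 < T := by linarith
  set k : ℝ := 2 * s1 / T with hk
  set a : ℝ := 3 * T / 2 with ha
  have hk0 : 0 < k := by positivity
  set S : ℝ → ℝ := fun t => ∑ x ∈ s, c x * Real.cos (t * l x) with hS
  have hScont : Continuous S := by
    simp only [hS]
    fun_prop
  have hWc := WW_continuous
  -- the weighted integral
  have hterm : ∀ x y : ι, Integrable (fun t : ℝ => WW ((t - a) * k) * ((c x * c y / 2) *
      (Real.cos (t * (l x - l y)) + Real.cos (t * (l x + l y))))) := by
    intro x y
    have h1 := ((int_shift_cos k a hk0 (l x - l y)).add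
      (int_shift_cos k a hk0 (l x + l y))).const_mul (c x * c y / 2)
    refine h1.congr (Filter.Eventually.of_forall fun t => ?_)
    simp only [Pi.add_apply]
    ring
  have hexp : ∀ t : ℝ, WW ((t - a) * k) * S t ^ 2 = ∑ x ∈ s, ∑ y ∈ s,
      WW ((t - a) * k) * ((c x * c y / 2) *
        (Real.cos (t * (l x - l y)) + Real.cos (t * (l x + l y)))) := by
    intro t
    simp only [hS]
    rw [expand, Finset.mul_sum]
    refine Finset.sum_congr rfl fun x _ => ?_
    rw [Finset.mul_sum]
  have hint : Integrable (fun t : ℝ => WW ((t - a) * k) * S t ^ 2) := by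
    simp_rw [hexp]
    exact integrable_finsetSum _ fun x _ => integrable_finsetSum _ fun y _ => hterm x y
  -- step 1
  have step1 : ∫ t in T..(2 * T), S t ^ 2 ≤ c1⁻¹ * ∫ t : ℝ, WW ((t - a) * k) * S t ^ 2 := by
    have h1 : ∫ t in T..(2 * T), S t ^ 2 ≤
        ∫ t in T..(2 * T), c1⁻¹ * (WW ((t - a) * k) * S t ^ 2) := by
      apply intervalIntegral.integral_mono_on (by linarith)
      · exact (hScont.pow 2).intervalIntegrable _ _
      · exact Continuous.intervalIntegrable (by fun_prop) _ _
      · intro t ht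
        have h2 : |(t - a) * k| ≤ s1 := by
          rw [abs_mul, abs_of_pos hk0]
          have h3 : |t - a| ≤ T / 2 := by
            rw [abs_le]
            constructor <;> [skip; skip] <;> simp only [ha] <;> linarith [ht.1, ht.2]
          calc |t - a| * k ≤ T / 2 * k := by gcongr
            _ = s1 := by rw [hk]; field_simp
        have h4 := hW _ h2
        calc S t ^ 2 = c1⁻¹ * (c1 * S t ^ 2) := by field_simp
          _ ≤ c1⁻¹ * (WW ((t - a) * k) * S t ^ 2) := by gcongr
    refine h1.trans ?_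
    rw [intervalIntegral.integral_const_mul, intervalIntegral.integral_of_le (by linarith)]
    have h5 := setIntegral_le_integral (s := Set.Ioc T (2 * T)) hint
      (Filter.Eventually.of_forall fun t => mul_nonneg (WW_nonneg _) (sq_nonneg _))
    gcongr
  -- step 2
  have step2 : ∫ t : ℝ, WW ((t - a) * k) * S t ^ 2 =
      ∑ x ∈ s, ∑ y ∈ s, (c x * c y / 2) *
        ((∫ t : ℝ, WW ((t - a) * k) * Real.cos (t * (l x - l y))) +
          ∫ t : ℝ, WW ((t - a) * k) * Real.cos (t * (l x + l y))) := by
    simp_rw [hexp]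
    rw [integral_finsetSum _ fun x _ => integrable_finsetSum _ fun y _ => hterm x y]
    refine Finset.sum_congr rfl fun x _ => ?_
    rw [integral_finsetSum _ fun y _ => hterm x y]
    refine Finset.sum_congr rfl fun y _ => ?_
    rw [← integral_add (int_shift_cos k a hk0 _) (int_shift_cos k a hk0 _),
      ← MeasureTheory.integral_const_mul]
    refine integral_congr_ae (Filter.Eventually.of_forall fun t => ?_)
    simp only
    ring
  -- step 3
  have step3 : ∀ x ∈ s, ∀ y ∈ s, (c x * c y / 2) *
        ((∫ t : ℝ, WW ((t - a) * k) * Real.cos (t * (l x - l y))) +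
          ∫ t : ℝ, WW ((t - a) * k) * Real.cos (t * (l x + l y))) ≤
      k⁻¹ * (if |l x| = |l y| then |c x| * |c y| else 0) := by
    intro x hx y hy
    by_cases hxy : |l x| = |l y|
    · rw [if_pos hxy]
      refine (le_abs_self _).trans ?_
      rw [abs_mul]
      have h1 := cov_abs k a hk0 (l x - l y)
      have h2 := cov_abs k a hk0 (l x + l y)
      have h3 := abs_add_le (∫ t : ℝ, WW ((t - a) * k) * Real.cos (t * (l x - l y)))
        (∫ t : ℝ, WW ((t - a) * k) * Real.cos (t * (l x + l y)))
      have h4 : |c x * c y / 2| = |c x| * |c y| / 2 := by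
        rw [abs_div, abs_mul, abs_two]
      rw [h4]
      calc |c x| * |c y| / 2 * _ ≤ |c x| * |c y| / 2 * (k⁻¹ + k⁻¹) := by
            gcongr
            linarith
        _ = _ := by ring
    · rw [if_neg hxy]
      by_cases hcx : c x = 0
      · simp [hcx]
      by_cases hcy : c y = 0
      · simp [hcy]
      obtain ⟨h1, h2⟩ := hsep x hx y hy hcx hcy hxy
      rw [cov_zero k a hk0 _ h1, cov_zero k a hk0 _ h2]
      simp
  calc ∫ t in T..(2 * T), S t ^ 2 ≤ c1⁻¹ * ∫ t : ℝ, WW ((t - a) * k) * S t ^ 2 := step1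
    _ ≤ c1⁻¹ * ∑ x ∈ s, ∑ y ∈ s, k⁻¹ * (if |l x| = |l y| then |c x| * |c y| else 0) := by
        rw [step2]
        have := Finset.sum_le_sum fun x hx => Finset.sum_le_sum fun y hy => step3 x hx y hy
        gcongr
    _ = _ := by
        simp_rw [← Finset.mul_sum]
        rw [hk]
        field_simp

end Pool.Agent.TypBlk
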