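import Pool.Agent.TypBlk.NdA

/-!
# The near-diagonal sum
-/

namespace Pool.Agent.TypBlk

open Finset Pool.Agent.ZGap.Res

namespace NdBAux

/-- Comparison of two sums along an injective map. -/
lemma sum_le_of_inj {ι κ : Type*} (s : Finset ι) (t : Finset κ) (P : ι → Prop) (Q : κ → Prop)
    [DecidablePred P] [DecidablePred Q]
    (f : ι → ℝ) (g : κ → ℝ) (φ : ι → κ) (hg : ∀ k ∈ t, Q k → 0 ≤ g k)
    (hφ : ∀ i ∈ s, P i → φ i ∈ t ∧ Q (φ i) ∧ f i = g (φ i))
    (hinj : ∀ i ∈ s, ∀ j ∈ s, P i → P j → φ i = φ j → i = j) :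
    ∑ i ∈ s, (if P i then f i else 0) ≤ ∑ k ∈ t, (if Q k then g k else 0) := by
  classical
  rw [← Finset.sum_filter, ← Finset.sum_filter]
  have h1 : ∑ i ∈ s.filter P, f i = ∑ k ∈ (s.filter P).image φ, g k := by
    rw [Finset.sum_image]
    · refine Finset.sum_congr rfl fun i hi => ?_
      rw [Finset.mem_filter] at hi
      exact (hφ i hi.1 hi.2).2.2
    · intro i hi j hj hij
      rw [Finset.coe_filter] at hi hj
      exact hinj i hi.1 j hj.1 hi.2 hj.2 hij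
  rw [h1]
  refine Finset.sum_le_sum_of_subset_of_nonneg ?_ ?_
  · intro k hk
    rw [Finset.mem_image] at hk
    obtain ⟨i, hi, rfl⟩ := hk
    rw [Finset.mem_filter] at hi
    rw [Finset.mem_filter]
    exact ⟨(hφ i hi.1 hi.2).1, (hφ i hi.1 hi.2).2.1⟩
  · intro k hk _
    rw [Finset.mem_filter] at hk
    exact hg k hk.1 hk.2

lemma Rg_div {R : ResData} {T : ℝ} {a p : ℕ} (h : Rg R T a) (hp : p ∣ a) : Rg R T (a / p) := by
  obtain ⟨h0, h1⟩ := h
  have hp0 : 0 < p := Nat.pos_of_dvd_of_pos hp h0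
  refine ⟨Nat.div_pos (Nat.le_of_dvd h0 hp) hp0, fun q hq hqa => ?_⟩
  exact h1 q hq (hqa.trans (Nat.div_dvd_of_dvd hp))

open Classical in
/-- Rough numbers other than one in a short interval. -/
theorem exists_Rg_interval (R : ResData) : ∃ C : ℝ, 0 < C ∧ ∀ T : ℝ, Real.exp 3 ≤ T →
    ∀ N : ℕ, ∀ y w : ℝ, 0 ≤ w →
    ∑ a ∈ Icc 1 N, (if Rg R T a ∧ a ≠ 1 ∧ |Real.log a - y| ≤ w then 1 / (a : ℝ) else 0) ≤
      C * (w + 1) / Real.log T := by
  obtain ⟨C1, hC1, h1⟩ := exists_Rg_sum R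
  obtain ⟨C2, hC2, h2⟩ := exists_prime_interval R
  refine ⟨C1 * C2, mul_pos hC1 hC2, ?_⟩
  intro T hT N y w hw
  have hL : 0 < Real.log T := by
    have : Real.log (Real.exp 3) ≤ Real.log T := Real.log_le_log (Real.exp_pos _) hT
    rw [Real.log_exp] at this
    linarith
  have hE : 0 ≤ C2 * (w + 1) / Real.log T := by positivity
  have step1 : ∑ a ∈ Icc 1 N, (if Rg R T a ∧ a ≠ 1 ∧ |Real.log a - y| ≤ w then 1 / (a : ℝ) else 0) ≤
      ∑ k ∈ (Icc 1 N ×ˢ PP T), (if Rg R T k.1 ∧ R.ep * Real.log T < Real.log k.2 ∧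
        |Real.log k.2 - (y - Real.log k.1)| ≤ w then 1 / (k.1 : ℝ) * (1 / (k.2 : ℝ)) else 0) := by
    refine sum_le_of_inj _ _ _ _ (fun a : ℕ => 1 / (a : ℝ))
      (fun k : ℕ × ℕ => 1 / (k.1 : ℝ) * (1 / (k.2 : ℝ))) (fun a : ℕ => (a / a.minFac, a.minFac))
      ?_ ?_ ?_
    · intro k _ _
      positivity
    · rintro a ha ⟨hRa, ha1, hay⟩
      rw [Finset.mem_Icc] at ha
      have hp : a.minFac.Prime := Nat.minFac_prime ha1
      have hpa : a.minFac ∣ a := Nat.minFac_dvd a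
      have hmul : a / a.minFac * a.minFac = a := Nat.div_mul_cancel hpa
      have hR' := Rg_div hRa hpa
      obtain ⟨hep, hpT⟩ := hRa.2 _ hp hpa
      have hpos : (0 : ℝ) < ((a / a.minFac : ℕ) : ℝ) := by exact_mod_cast hR'.1
      have hppos : (0 : ℝ) < (a.minFac : ℝ) := by exact_mod_cast hp.pos
      have hcast : (a : ℝ) = ((a / a.minFac : ℕ) : ℝ) * (a.minFac : ℝ) := by
        rw [← Nat.cast_mul, hmul]
      refine ⟨?_, ⟨hR', hep, ?_⟩, ?_⟩
      · rw [Finset.mem_product, Finset.mem_Icc]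
        refine ⟨⟨hR'.1, (Nat.div_le_self _ _).trans ha.2⟩, ?_⟩
        rw [PP, Finset.mem_filter, Finset.mem_Icc]
        exact ⟨⟨hp.one_le, Nat.le_floor hpT⟩, hp⟩
      · rw [hcast, Real.log_mul hpos.ne' hppos.ne'] at hay
        have e : Real.log (a.minFac : ℝ) - (y - Real.log ((a / a.minFac : ℕ) : ℝ)) =
            Real.log ((a / a.minFac : ℕ) : ℝ) + Real.log (a.minFac : ℝ) - y := by ring
        rw [e]
        exact hay
      · change 1 / (a : ℝ) = 1 / ((a / a.minFac : ℕ) : ℝ) * (1 / (a.minFac : ℝ))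
        rw [one_div_mul_one_div, ← hcast]
    · rintro a _ b _ ⟨_, ha1, _⟩ ⟨_, hb1, _⟩ hab
      have h3 : a / a.minFac = b / b.minFac := congrArg Prod.fst hab
      have h4 : a.minFac = b.minFac := congrArg Prod.snd hab
      rw [← Nat.div_mul_cancel (Nat.minFac_dvd a), ← Nat.div_mul_cancel (Nat.minFac_dvd b), h3, h4]
  refine step1.trans ?_
  rw [Finset.sum_product]
  have step2 : ∀ c ∈ Icc 1 N, ∑ p ∈ PP T, (if Rg R T c ∧ R.ep * Real.log T < Real.log p ∧
        |Real.log p - (y - Real.log c)| ≤ w then 1 / (c : ℝ) * (1 / (p : ℝ)) else 0) ≤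
      (if Rg R T c then 1 / (c : ℝ) else 0) * (C2 * (w + 1) / Real.log T) := by
    intro c _
    by_cases hc : Rg R T c
    · rw [if_pos hc]
      refine le_trans (le_of_eq ?_) (mul_le_mul_of_nonneg_left (h2 T hT (y - Real.log c) w hw)
        (by positivity))
      rw [Finset.mul_sum]
      refine Finset.sum_congr rfl fun p _ => ?_
      by_cases hp : R.ep * Real.log T < Real.log p ∧ |Real.log p - (y - Real.log c)| ≤ w
      · rw [if_pos ⟨hc, hp⟩, if_pos hp]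
      · rw [if_neg (fun h => hp h.2), if_neg hp, mul_zero]
    · rw [if_neg hc, zero_mul]
      refine (Finset.sum_eq_zero fun p _ => ?_).le
      rw [if_neg (fun h => hc h.1)]
  refine (Finset.sum_le_sum step2).trans ?_
  rw [← Finset.sum_mul]
  refine (mul_le_mul_of_nonneg_right (h1 T hT N) hE).trans (le_of_eq ?_)
  ring

/-- The prime factors outside the range divide exactly one divisor. -/
lemma dvd_of_cond {R : ResData} {T : ℝ} {b n n' : ℕ} (hn0 : 1 ≤ n) (hnT : (n : ℝ) ≤ T)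
    (hnb : n ∣ b) (hR : ¬ Rg R T n) (hL : ArithmeticFunction.vonMangoldt n ≠ 0)
    (hn'b : n' ∣ b) (hR' : Rg R T (b / n')) : n ∣ n' := by
  rw [ArithmeticFunction.vonMangoldt_ne_zero_iff, isPrimePow_nat_iff] at hL
  obtain ⟨p, j, hp, hj, rfl⟩ := hL
  have hpn : p ∣ p ^ j := dvd_pow_self p hj.ne'
  have hlow : ¬ (R.ep * Real.log T < Real.log p) := by
    intro h
    apply hR
    refine ⟨hn0, fun q hq hqn => ?_⟩
    have hqp : q = p := (Nat.prime_dvd_prime_iff_eq hq hp).1 (hq.dvd_of_dvd_pow hqn)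
    subst hqp
    refine ⟨h, le_trans ?_ hnT⟩
    exact_mod_cast Nat.le_of_dvd hn0 hpn
  have hcop : Nat.Coprime (p ^ j) (b / n') := by
    apply Nat.Coprime.pow_left
    rw [Nat.Prime.coprime_iff_not_dvd hp]
    intro hpd
    exact hlow (hR'.2 p hp hpd).1
  have hb : b = n' * (b / n') := (Nat.mul_div_cancel' hn'b).symm
  rw [hb] at hnb
  exact hcop.dvd_of_dvd_mul_right hnb

/-- The square of a sum with at most one nonzero term. -/
lemma sq_sum_le {ι : Type*} (s : Finset ι) (f : ι → ℝ)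
    (h : ∀ i ∈ s, ∀ j ∈ s, f i ≠ 0 → f j ≠ 0 → i = j) :
    (∑ i ∈ s, f i) ^ 2 ≤ ∑ i ∈ s, f i ^ 2 := by
  by_cases h0 : ∃ i ∈ s, f i ≠ 0
  · obtain ⟨i, hi, hfi⟩ := h0
    have h1 : ∀ j ∈ s, j ≠ i → f j = 0 := by
      intro j hj hji
      by_contra hfj
      exact hji (h j hj i hi hfj hfi)
    rw [Finset.sum_eq_single_of_mem i hi h1]
    exact Finset.single_le_sum (f := fun i => f i ^ 2) (fun j _ => sq_nonneg _) hi
  · push Not at h0
    rw [Finset.sum_eq_zero h0]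
    have : (0 : ℝ) ^ 2 = 0 := by norm_num
    rw [this]
    exact Finset.sum_nonneg fun i _ => sq_nonneg _

open Classical in
/-- The square part of the weight. -/
noncomputable def YY (R : ResData) (T : ℝ) (b : ℕ) : ℝ :=
  ∑ n ∈ Finset.Icc 1 ⌊T⌋₊, if n ∣ b ∧ Rg R T (b / n) then
    (ArithmeticFunction.vonMangoldt n / Real.log T) ^ 2 else 0

lemma YY_nonneg (R : ResData) (T : ℝ) (b : ℕ) : 0 ≤ YY R T b := by
  refine Finset.sum_nonneg fun n _ => ?_
  split_ifs
  · positivity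
  · exact le_refl 0

open Classical in
lemma ZZ_sq_le (R : ResData) {T : ℝ} (hT : Real.exp 3 ≤ T) (b : ℕ) :
    ZZ R T b ^ 2 ≤ 2 * (if Rg R T b then 1 else 0) + 2 * YY R T b := by
  have hT0 : 0 ≤ T := (Real.exp_pos 3).le.trans hT
  have h1 : (∑ n ∈ Finset.Icc 1 ⌊T⌋₊,
      if n ∣ b ∧ Rg R T (b / n) ∧ ¬ Rg R T n then
        ArithmeticFunction.vonMangoldt n / Real.log T else 0) ^ 2 ≤ YY R T b := by
    refine (sq_sum_le _ _ ?_).trans (Finset.sum_le_sum fun n _ => ?_)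
    · intro n hn n' hn' hfn hfn'
      rw [Finset.mem_Icc] at hn hn'
      have hc : n ∣ b ∧ Rg R T (b / n) ∧ ¬ Rg R T n := by
        by_contra hcon
        exact hfn (if_neg hcon)
      have hc' : n' ∣ b ∧ Rg R T (b / n') ∧ ¬ Rg R T n' := by
        by_contra hcon
        exact hfn' (if_neg hcon)
      rw [if_pos hc] at hfn
      rw [if_pos hc'] at hfn'
      have hv : ArithmeticFunction.vonMangoldt n ≠ 0 := fun h => hfn (by rw [h, zero_div])
      have hv' : ArithmeticFunction.vonMangoldt n' ≠ 0 := fun h => hfn' (by rw [h, zero_div])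
      have hnT : (n : ℝ) ≤ T := (Nat.cast_le.2 hn.2).trans (Nat.floor_le hT0)
      have hnT' : (n' : ℝ) ≤ T := (Nat.cast_le.2 hn'.2).trans (Nat.floor_le hT0)
      exact Nat.dvd_antisymm (dvd_of_cond hn.1 hnT hc.1 hc.2.2 hv hc'.1 hc'.2.1)
        (dvd_of_cond hn'.1 hnT' hc'.1 hc'.2.2 hv' hc.1 hc.2.1)
    · by_cases hc : n ∣ b ∧ Rg R T (b / n) ∧ ¬ Rg R T n
      · rw [if_pos hc, if_pos ⟨hc.1, hc.2.1⟩]
      · rw [if_neg hc]
        have : (0 : ℝ) ^ 2 = 0 := by norm_num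
        rw [this]
        split_ifs
        · positivity
        · exact le_refl 0
  unfold ZZ
  set u : ℝ := if Rg R T b then 1 else 0 with hu
  have hu2 : u ^ 2 = u := by
    rw [hu]
    split_ifs <;> norm_num
  set v : ℝ := ∑ n ∈ Finset.Icc 1 ⌊T⌋₊,
      if n ∣ b ∧ Rg R T (b / n) ∧ ¬ Rg R T n then
        ArithmeticFunction.vonMangoldt n / Real.log T else 0
  have h2 : (u + v) ^ 2 ≤ 2 * u ^ 2 + 2 * v ^ 2 := by nlinarith [sq_nonneg (u - v)]
  rw [hu2] at h2
  linarith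

open Classical in
/-- Sums over multiples. -/
lemma sum_mult_le (R : ResData) {T : ℝ} {C1 : ℝ} (N : ℕ)
    (h1 : ∑ m ∈ Icc 1 N, (if Rg R T m then 1 / (m : ℝ) else 0) ≤ C1) {n : ℕ} (hn : 1 ≤ n) :
    ∑ b ∈ Icc 1 N, (if n ∣ b ∧ Rg R T (b / n) then 1 / (b : ℝ) else 0) ≤ C1 / n := by
  have hn0 : (0 : ℝ) < n := by exact_mod_cast hn
  have h2 : ∑ b ∈ Icc 1 N, (if n ∣ b ∧ Rg R T (b / n) then 1 / (b : ℝ) else 0) ≤
      ∑ c ∈ Icc 1 N, (if Rg R T c then 1 / (n : ℝ) * (1 / (c : ℝ)) else 0) := by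
    refine sum_le_of_inj _ _ _ _ (fun b : ℕ => 1 / (b : ℝ))
      (fun c : ℕ => 1 / (n : ℝ) * (1 / (c : ℝ))) (fun b : ℕ => b / n) ?_ ?_ ?_
    · intro c _ _
      positivity
    · rintro b hb ⟨hnb, hR⟩
      rw [Finset.mem_Icc] at hb
      refine ⟨?_, hR, ?_⟩
      · rw [Finset.mem_Icc]
        exact ⟨hR.1, (Nat.div_le_self _ _).trans hb.2⟩
      · rw [one_div_mul_one_div, ← Nat.cast_mul, Nat.mul_div_cancel' hnb]
    · rintro b _ b' _ ⟨hb, _⟩ ⟨hb', _⟩ hbb
      rw [← Nat.mul_div_cancel' hb, ← Nat.mul_div_cancel' hb']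
      exact congrArg _ hbb
  refine h2.trans ?_
  have h3 : ∑ c ∈ Icc 1 N, (if Rg R T c then 1 / (n : ℝ) * (1 / (c : ℝ)) else 0) =
      1 / (n : ℝ) * ∑ c ∈ Icc 1 N, (if Rg R T c then 1 / (c : ℝ) else 0) := by
    rw [Finset.mul_sum]
    refine Finset.sum_congr rfl fun c _ => ?_
    split_ifs
    · rfl
    · rw [mul_zero]
  rw [h3, div_eq_mul_one_div C1, mul_comm C1]
  exact mul_le_mul_of_nonneg_left h1 (by positivity)

open Classical in
/-- Sums of the square part. -/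
lemma sum_YY_le (R : ResData) {T : ℝ} {C1 : ℝ} (N : ℕ)
    (h1 : ∑ m ∈ Icc 1 N, (if Rg R T m then 1 / (m : ℝ) else 0) ≤ C1) (Q : ℕ → Prop) (Q' : ℕ → Prop)
    (hQ : ∀ n b : ℕ, 1 ≤ n → 1 ≤ b → n ∣ b → Q b → Q' n) :
    ∑ b ∈ Icc 1 N, (if Q b then YY R T b / b else 0) ≤
      C1 * ∑ n ∈ Icc 1 ⌊T⌋₊, (if Q' n then
        ArithmeticFunction.vonMangoldt n ^ 2 / (n * Real.log T ^ 2) else 0) := by
  have h2 : ∑ b ∈ Icc 1 N, (if Q b then YY R T b / b else 0) ≤
      ∑ b ∈ Icc 1 N, ∑ n ∈ Icc 1 ⌊T⌋₊, (if Q' n then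
        (ArithmeticFunction.vonMangoldt n / Real.log T) ^ 2 else 0) *
          (if n ∣ b ∧ Rg R T (b / n) then 1 / (b : ℝ) else 0) := by
    refine Finset.sum_le_sum fun b hb => ?_
    rw [Finset.mem_Icc] at hb
    by_cases hQb : Q b
    · rw [if_pos hQb, YY, div_eq_mul_one_div, Finset.sum_mul]
      refine Finset.sum_le_sum fun n hn => ?_
      rw [Finset.mem_Icc] at hn
      by_cases hc : n ∣ b ∧ Rg R T (b / n)
      · rw [if_pos hc, if_pos hc, if_pos (hQ n b hn.1 hb.1 hc.1 hQb)]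
      · rw [if_neg hc, if_neg hc, zero_mul, mul_zero]
    · rw [if_neg hQb]
      refine Finset.sum_nonneg fun n _ => mul_nonneg ?_ ?_
      · split_ifs
        · positivity
        · exact le_refl 0
      · split_ifs
        · positivity
        · exact le_refl 0
  refine h2.trans ?_
  rw [Finset.sum_comm, Finset.mul_sum]
  refine Finset.sum_le_sum fun n hn => ?_
  rw [Finset.mem_Icc] at hn
  rw [← Finset.mul_sum]
  by_cases hQn : Q' n
  · rw [if_pos hQn, if_pos hQn]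
    refine (mul_le_mul_of_nonneg_left (sum_mult_le R N h1 hn.1) (sq_nonneg _)).trans
      (le_of_eq ?_)
    have hn0 : (n : ℝ) ≠ 0 := by
      have : 0 < n := hn.1
      exact_mod_cast this.ne'
    rw [div_pow]
    by_cases hL : Real.log T = 0
    · rw [hL]
      simp
    · field_simp
  · rw [if_neg hQn, if_neg hQn, zero_mul, mul_zero]

open Classical in
/-- The pointwise bound. -/
lemma point_le (R : ResData) {T : ℝ} (hT : Real.exp 3 ≤ T) (w : ℝ) {a b : ℕ} (ha : 1 ≤ a)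
    (hb : 1 ≤ b) :
    (if (a ≠ 1 ∨ b ≠ 1) ∧ Rg R T a ∧ |Real.log a - Real.log b| ≤ w then
      ZZ R T b ^ 2 / ((a : ℝ) * b) else 0) ≤
    2 * ((if Rg R T a ∧ a ≠ 1 ∧ |Real.log a - Real.log b| ≤ w then 1 / (a : ℝ) else 0) *
        (if Rg R T b then 1 / (b : ℝ) else 0)) +
    2 * ((if Rg R T b ∧ b ≠ 1 ∧ |Real.log b - Real.log a| ≤ w then 1 / (b : ℝ) else 0) *
        (if Rg R T a then 1 / (a : ℝ) else 0)) +
    2 * ((if Rg R T a ∧ a ≠ 1 ∧ |Real.log a - Real.log b| ≤ w then 1 / (a : ℝ) else 0) *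
        (YY R T b / b)) +
    2 * (if a = 1 then (if |Real.log b| ≤ w then YY R T b / b else 0) else 0) := by
  have ha0 : (0 : ℝ) < a := by exact_mod_cast ha
  have hb0 : (0 : ℝ) < b := by exact_mod_cast hb
  have hY := YY_nonneg R T b
  have t1 : 0 ≤ (if Rg R T a ∧ a ≠ 1 ∧ |Real.log a - Real.log b| ≤ w then 1 / (a : ℝ) else 0) := by
    split_ifs
    · positivity
    · exact le_refl 0
  have t2 : 0 ≤ (if Rg R T b ∧ b ≠ 1 ∧ |Real.log b - Real.log a| ≤ w then 1 / (b : ℝ) else 0) := by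
    split_ifs
    · positivity
    · exact le_refl 0
  have t3 : 0 ≤ (if Rg R T b then 1 / (b : ℝ) else 0) := by
    split_ifs
    · positivity
    · exact le_refl 0
  have t4 : 0 ≤ (if Rg R T a then 1 / (a : ℝ) else 0) := by
    split_ifs
    · positivity
    · exact le_refl 0
  have t5 : 0 ≤ (if a = 1 then (if |Real.log b| ≤ w then YY R T b / b else 0) else 0) := by
    split_ifs
    · positivity
    · exact le_refl 0
    · exact le_refl 0
  have t6 : 0 ≤ YY R T b / b := by positivity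
  by_cases hc : (a ≠ 1 ∨ b ≠ 1) ∧ Rg R T a ∧ |Real.log a - Real.log b| ≤ w
  · rw [if_pos hc]
    obtain ⟨hab, hRa, hw⟩ := hc
    have hz := ZZ_sq_le R hT b
    have hz2 : ZZ R T b ^ 2 / ((a : ℝ) * b) ≤
        2 * (1 / (a : ℝ) * (if Rg R T b then 1 / (b : ℝ) else 0)) +
          2 * (1 / (a : ℝ) * (YY R T b / b)) := by
      refine (div_le_div_of_nonneg_right hz (by positivity)).trans (le_of_eq ?_)
      split_ifs
      · field_simp
      · field_simp
        ring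
    refine hz2.trans ?_
    by_cases ha1 : a = 1
    · subst ha1
      have hb1 : b ≠ 1 := by
        rcases hab with h | h
        · exact absurd rfl h
        · exact h
      have hw' : |Real.log b - Real.log ((1 : ℕ) : ℝ)| ≤ w := by
        rw [abs_sub_comm]
        exact hw
      have hw'' : |Real.log b| ≤ w := by
        rw [Nat.cast_one, Real.log_one, sub_zero] at hw'
        exact hw'
      have e4 : (if Rg R T 1 then 1 / ((1 : ℕ) : ℝ) else 0) = 1 := by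
        rw [if_pos hRa]
        simp
      rw [if_pos rfl, if_pos hw'', e4]
      have e1 : 1 / ((1 : ℕ) : ℝ) = 1 := by simp
      rw [e1]
      have h5 : (if Rg R T b then 1 / (b : ℝ) else 0) ≤
          (if Rg R T b ∧ b ≠ 1 ∧ |Real.log b - Real.log ((1 : ℕ) : ℝ)| ≤ w then
            1 / (b : ℝ) else 0) := by
        by_cases hRb : Rg R T b
        · rw [if_pos hRb, if_pos ⟨hRb, hb1, hw'⟩]
        · rw [if_neg hRb]
          exact t2
      have h6 := mul_nonneg t1 t3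
      have h7 := mul_nonneg t1 t6
      rw [e1] at h6 h7
      nlinarith
    · have e1 : (if Rg R T a ∧ a ≠ 1 ∧ |Real.log a - Real.log b| ≤ w then 1 / (a : ℝ) else 0) =
          1 / (a : ℝ) := if_pos ⟨hRa, ha1, hw⟩
      rw [e1]
      have h6 := mul_nonneg t2 t4
      linarith
  · rw [if_neg hc]
    have h6 := mul_nonneg t1 t3
    have h7 := mul_nonneg t2 t4
    have h8 := mul_nonneg t1 t6
    linarith

end NdBAux

open Classical in
/-- The near-diagonal sum. -/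
theorem exists_near (R : ResData) : ∃ C K0 : ℝ, 0 < C ∧ 1 ≤ K0 ∧ ∀ K : ℝ, K0 ≤ K → ∀ T : ℝ,
    Real.exp 3 ≤ T → ∀ N : ℕ,
    ∑ a ∈ Icc 1 N, ∑ b ∈ Icc 1 N, (if (a ≠ 1 ∨ b ≠ 1) ∧ Rg R T a ∧
      |Real.log a - Real.log b| ≤ Real.log T / K then ZZ R T b ^ 2 / ((a : ℝ) * b) else 0) ≤
      C * (1 / K + 1 / Real.log T) := by
  obtain ⟨C1, hC1, h1⟩ := exists_Rg_sum R
  obtain ⟨E0, hE0, hE⟩ := NdBAux.exists_Rg_interval R
  obtain ⟨C3, hC3, h3⟩ := exists_vm_sq
  refine ⟨2 * (C1 * E0) + 2 * (C1 * E0) + 2 * (C1 * C3 * E0) + 2 * (C1 * C3), 1, by positivity,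
    le_refl 1, ?_⟩
  intro K hK T hT N
  have hL3 : 3 ≤ Real.log T := by
    have : Real.log (Real.exp 3) ≤ Real.log T := Real.log_le_log (Real.exp_pos _) hT
    rwa [Real.log_exp] at this
  have hL : 0 < Real.log T := by linarith
  have hK0 : 0 < K := by linarith
  set w : ℝ := Real.log T / K with hw
  have hw0 : 0 ≤ w := by positivity
  set D : ℝ := 1 / K + 1 / Real.log T with hD
  have hD0 : 0 ≤ D := by positivity
  have hwD : (w + 1) / Real.log T = D := by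
    rw [hw, hD]
    field_simp
  have hED : E0 * (w + 1) / Real.log T = E0 * D := by
    rw [mul_div_assoc, hwD]
  have hint : ∀ y : ℝ, ∑ a ∈ Icc 1 N,
      (if Rg R T a ∧ a ≠ 1 ∧ |Real.log a - y| ≤ w then 1 / (a : ℝ) else 0) ≤ E0 * D := by
    intro y
    rw [← hED]
    exact hE T hT N y w hw0
  obtain ⟨h3a, h3b⟩ := h3 T hT
  have hY1 : ∑ b ∈ Icc 1 N, NdBAux.YY R T b / b ≤ C1 * C3 := by
    have h4 := NdBAux.sum_YY_le R N (h1 T hT N) (fun _ => True) (fun _ => True)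
      (fun _ _ _ _ _ _ => trivial)
    simp only [if_true] at h4
    exact h4.trans (mul_le_mul_of_nonneg_left h3a hC1.le)
  have hY2 : ∑ b ∈ Icc 1 N, (if |Real.log b| ≤ w then NdBAux.YY R T b / b else 0) ≤
      C1 * C3 * D := by
    have h4 := NdBAux.sum_YY_le R N (h1 T hT N) (fun b => |Real.log (b : ℝ)| ≤ w)
      (fun n => Real.log (n : ℝ) ≤ w) (by
        intro n b hn hb hnb hQ
        have hn0 : (0 : ℝ) < n := by exact_mod_cast hn
        have hle : (n : ℝ) ≤ b := by exact_mod_cast Nat.le_of_dvd hb hnb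
        exact (Real.log_le_log hn0 hle).trans ((le_abs_self _).trans hQ))
    refine h4.trans ?_
    refine (mul_le_mul_of_nonneg_left (h3b w hw0) hC1.le).trans ?_
    have h5 : C3 * (w * (w + 1)) / Real.log T ^ 2 = C3 * (1 / K) * D := by
      rw [← hwD, hw]
      field_simp
    rw [h5]
    have h6 : 1 / K ≤ 1 := by
      rw [div_le_one hK0]
      exact hK
    have h7 : C3 * (1 / K) * D ≤ C3 * D := by
      have : C3 * (1 / K) ≤ C3 * 1 := mul_le_mul_of_nonneg_left h6 hC3.le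
      rw [mul_one] at this
      exact mul_le_mul_of_nonneg_right this hD0
    rw [mul_assoc C1 C3 D]
    exact mul_le_mul_of_nonneg_left h7 hC1.le
  -- sum of the pointwise bounds
  have hsum : ∑ a ∈ Icc 1 N, ∑ b ∈ Icc 1 N, (if (a ≠ 1 ∨ b ≠ 1) ∧ Rg R T a ∧
      |Real.log a - Real.log b| ≤ w then ZZ R T b ^ 2 / ((a : ℝ) * b) else 0) ≤
      ∑ a ∈ Icc 1 N, ∑ b ∈ Icc 1 N,
      (2 * ((if Rg R T a ∧ a ≠ 1 ∧ |Real.log a - Real.log b| ≤ w then 1 / (a : ℝ) else 0) *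
        (if Rg R T b then 1 / (b : ℝ) else 0)) +
      2 * ((if Rg R T b ∧ b ≠ 1 ∧ |Real.log b - Real.log a| ≤ w then 1 / (b : ℝ) else 0) *
        (if Rg R T a then 1 / (a : ℝ) else 0)) +
      2 * ((if Rg R T a ∧ a ≠ 1 ∧ |Real.log a - Real.log b| ≤ w then 1 / (a : ℝ) else 0) *
        (NdBAux.YY R T b / b)) +
      2 * (if a = 1 then (if |Real.log b| ≤ w then NdBAux.YY R T b / b else 0) else 0)) := by
    refine Finset.sum_le_sum fun a ha => Finset.sum_le_sum fun b hb => ?_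
    rw [Finset.mem_Icc] at ha hb
    exact NdBAux.point_le R hT w ha.1 hb.1
  refine hsum.trans ?_
  simp only [Finset.sum_add_distrib, ← Finset.mul_sum]
  have s1 : ∑ a ∈ Icc 1 N, ∑ b ∈ Icc 1 N,
      ((if Rg R T a ∧ a ≠ 1 ∧ |Real.log a - Real.log b| ≤ w then 1 / (a : ℝ) else 0) *
        (if Rg R T b then 1 / (b : ℝ) else 0)) ≤ C1 * (E0 * D) := by
    rw [Finset.sum_comm]
    refine (Finset.sum_le_sum (g := fun b : ℕ => (E0 * D) *
      (if Rg R T b then 1 / (b : ℝ) else 0)) fun b _ => ?_).trans ?_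
    · rw [← Finset.sum_mul]
      refine mul_le_mul_of_nonneg_right (hint _) ?_
      split_ifs
      · positivity
      · exact le_refl 0
    · rw [← Finset.mul_sum, mul_comm]
      exact mul_le_mul_of_nonneg_right (h1 T hT N) (by positivity)
  have s2 : ∑ a ∈ Icc 1 N, ∑ b ∈ Icc 1 N,
      ((if Rg R T b ∧ b ≠ 1 ∧ |Real.log b - Real.log a| ≤ w then 1 / (b : ℝ) else 0) *
        (if Rg R T a then 1 / (a : ℝ) else 0)) ≤ C1 * (E0 * D) := by
    rw [Finset.sum_comm] at s1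
    exact s1
  have s3 : ∑ a ∈ Icc 1 N, ∑ b ∈ Icc 1 N,
      ((if Rg R T a ∧ a ≠ 1 ∧ |Real.log a - Real.log b| ≤ w then 1 / (a : ℝ) else 0) *
        (NdBAux.YY R T b / b)) ≤ C1 * C3 * (E0 * D) := by
    rw [Finset.sum_comm]
    refine (Finset.sum_le_sum (g := fun b : ℕ => (E0 * D) * (NdBAux.YY R T b / b))
      fun b _ => ?_).trans ?_
    · rw [← Finset.sum_mul]
      exact mul_le_mul_of_nonneg_right (hint _)
        (div_nonneg (NdBAux.YY_nonneg R T b) (Nat.cast_nonneg b))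
    · rw [← Finset.mul_sum, mul_comm]
      exact mul_le_mul_of_nonneg_right hY1 (by positivity)
  have s4 : ∑ a ∈ Icc 1 N, ∑ b ∈ Icc 1 N,
      (if a = 1 then (if |Real.log b| ≤ w then NdBAux.YY R T b / b else 0) else 0) ≤
      C1 * C3 * D := by
    have h8 : ∀ a ∈ Icc 1 N, ∑ b ∈ Icc 1 N,
        (if a = 1 then (if |Real.log b| ≤ w then NdBAux.YY R T b / b else 0) else 0) =
        if a = 1 then ∑ b ∈ Icc 1 N,
          (if |Real.log b| ≤ w then NdBAux.YY R T b / b else 0) else 0 := by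
      intro a _
      split_ifs
      · rfl
      · exact Finset.sum_const_zero
    rw [Finset.sum_congr rfl h8, Finset.sum_ite_eq' (Icc 1 N) 1]
    split_ifs
    · exact hY2
    · positivity
  have e : (2 * (C1 * E0) + 2 * (C1 * E0) + 2 * (C1 * C3 * E0) + 2 * (C1 * C3)) * D =
      2 * (C1 * (E0 * D)) + 2 * (C1 * (E0 * D)) + 2 * (C1 * C3 * (E0 * D)) +
        2 * (C1 * C3 * D) := by ring
  rw [e]
  linarith

end Pool.Agent.TypBlk
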