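import Pool.Agent.TypBlk.Defs

/-!
# The near-diagonal frequencies are separated
-/

namespace Pool.Agent.TypBlk

open MeasureTheory Finset Pool.Agent.ZGap.Res

namespace SepAux

/-- Numerator and denominator of a term. -/
lemma lam_eq {T : ℝ} {q q' : Finset ℕ × Finset ℕ} (hq : q ∈ QQ T)
    (hq' : q' ∈ QQ T) {n : ℕ} (hn : 0 < n) :
    lam n q q' = Real.log ((pr q.1 * pr q'.2 : ℕ) : ℝ) -
      Real.log ((n * (pr q.2 * pr q'.1) : ℕ) : ℝ) := by
  obtain ⟨h1, h2, h3⟩ := mem_QQ.mp hq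
  obtain ⟨h1', h2', h3'⟩ := mem_QQ.mp hq'
  have q1 : (0:ℝ) < pr q.1 := by exact_mod_cast pr_pos h1
  have q2 : (0:ℝ) < pr q.2 := by exact_mod_cast pr_pos h2
  have q1' : (0:ℝ) < pr q'.1 := by exact_mod_cast pr_pos h1'
  have q2' : (0:ℝ) < pr q'.2 := by exact_mod_cast pr_pos h2'
  have qn : (0:ℝ) < n := by exact_mod_cast hn
  push_cast
  rw [Real.log_mul q1.ne' q2'.ne', Real.log_mul qn.ne' (by positivity),
    Real.log_mul q2.ne' q1'.ne']
  unfold lam fr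
  rw [ell_eq h1, ell_eq h2, ell_eq h1', ell_eq h2']
  ring

lemma num_log_le {R : ResData} {T : ℝ} (hT : 1 < T) {q q' : Finset ℕ × Finset ℕ} (hq : q ∈ QQ T)
    (hq' : q' ∈ QQ T) (h : al R T q ≠ 0) (h' : al R T q' ≠ 0) :
    Real.log ((pr q.1 * pr q'.2 : ℕ) : ℝ) ≤ 2 * R.th * Real.log T := by
  obtain ⟨h1, h2, h3⟩ := mem_QQ.mp hq
  obtain ⟨h1', h2', h3'⟩ := mem_QQ.mp hq'
  have q1 : (0:ℝ) < pr q.1 := by exact_mod_cast pr_pos h1
  have q2' : (0:ℝ) < pr q'.2 := by exact_mod_cast pr_pos h2'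
  have e1 : aa R T q.1 ≠ 0 := left_ne_zero_of_mul h
  have e2 : aa R T q'.2 ≠ 0 := right_ne_zero_of_mul h'
  have l1 := ell_lt_of_aa_ne hT e1
  have l2 := ell_lt_of_aa_ne hT e2
  rw [ell_eq h1] at l1
  rw [ell_eq h2'] at l2
  push_cast
  rw [Real.log_mul q1.ne' q2'.ne']
  linarith

/-- Two different naturals, the first one at most `T ^ κ`. -/
lemma sep_aux {T κ C0 : ℝ} (hT : 1 < T) (hC : 2 * C0 ≤ T ^ (1 - κ)) {a b : ℕ} (ha : 0 < a)
    (hb : 0 < b) (hl : Real.log a ≤ κ * Real.log T) (hne : Real.log a - Real.log b ≠ 0) :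
    C0 / T ≤ |Real.log a - Real.log b| := by
  have hTp : 0 < T := by linarith
  have hab : a ≠ b := by
    rintro rfl
    exact hne (sub_self _)
  refine le_trans ?_ (abs_log_sub_ge ha hb hab)
  have ha' : (0 : ℝ) < a := by exact_mod_cast ha
  have h1 : (a : ℝ) ≤ T ^ κ := by
    rw [Real.rpow_def_of_pos hTp, ← Real.log_le_iff_le_exp ha']
    linarith
  have h2 : T ^ (1 - κ) * T ^ κ = T := by
    rw [← Real.rpow_add hTp]; simp
  rw [div_le_div_iff₀ hTp (by positivity)]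
  rcases le_or_gt C0 0 with hc | hc
  · have : C0 * (2 * (a : ℝ)) ≤ 0 := mul_nonpos_of_nonpos_of_nonneg hc (by positivity)
    linarith
  · calc C0 * (2 * (a : ℝ)) = 2 * C0 * a := by ring
      _ ≤ T ^ (1 - κ) * T ^ κ := by gcongr
      _ = 1 * T := by rw [h2, one_mul]

end SepAux

open SepAux in
theorem exists_sep (R : ResData) (hth : R.th < 1 / 4) : ∃ K0 : ℝ, 4 ≤ K0 ∧ ∀ C0 K : ℝ, K0 ≤ K →
    ∃ T0 : ℝ, Real.exp 3 ≤ T0 ∧ ∀ T : ℝ, T0 ≤ T → ∀ n n' : ℕ, 0 < n → 0 < n' →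
      ∀ q ∈ QQ T, ∀ q' ∈ QQ T, ∀ p ∈ QQ T, ∀ p' ∈ QQ T,
      al R T q ≠ 0 → al R T q' ≠ 0 → al R T p ≠ 0 → al R T p' ≠ 0 →
      |lam n q q'| ≤ Real.log T / K → |lam n' p p'| ≤ Real.log T / K →
      |lam n q q'| ≠ |lam n' p p'| →
      C0 / T ≤ |lam n q q' - lam n' p p'| ∧ C0 / T ≤ |lam n q q' + lam n' p p'| := by
  set δ : ℝ := (1 - 4 * R.th) / 2 with hδ
  have hδ0 : 0 < δ := by rw [hδ]; linarith
  refine ⟨max 4 (1 / δ), le_max_left _ _, fun C0 K hK => ?_⟩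
  have hK4 : 4 ≤ K := (le_max_left _ _).trans hK
  have hK0 : 0 < K := by linarith
  have hKδ : 1 / K ≤ δ := by
    rw [div_le_iff₀ hK0]
    have := (le_max_right _ _).trans hK
    rw [div_le_iff₀ hδ0] at this
    linarith
  obtain ⟨T1, hT1⟩ := (((tendsto_rpow_atTop hδ0).eventually_ge_atTop (2 * C0)).and
    (Filter.eventually_ge_atTop (Real.exp 3))).exists_forall_of_atTop
  refine ⟨max T1 (Real.exp 3), le_max_right _ _, fun T hT n n' hn hn' q hq q' hq' p hp p' hp' aq aq'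
    ap ap' hl hl' hne => ?_⟩
  have hTC : 2 * C0 ≤ T ^ δ := (hT1 T ((le_max_left _ _).trans hT)).1
  have hTe : Real.exp 3 ≤ T := (le_max_right _ _).trans hT
  have hT1' : 1 < T := lt_of_lt_of_le (by
    have := Real.add_one_lt_exp (show (3:ℝ) ≠ 0 by norm_num)
    linarith) hTe
  have hL : 0 < Real.log T := Real.log_pos hT1'
  have hth : 0 < R.th := by linarith [R.ep_pos, R.ep_th]
  set κ : ℝ := 4 * R.th + δ with hκ
  have hκδ : 1 - κ = δ := by rw [hκ, hδ]; ring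
  have hC : 2 * C0 ≤ T ^ (1 - κ) := by rw [hκδ]; exact hTC
  -- numerators and denominators
  have ex := lam_eq hq hq' hn
  have ey := lam_eq hp hp' hn'
  have nx := num_log_le hT1' hq hq' aq aq'
  have ny := num_log_le hT1' hp hp' ap ap'
  obtain ⟨h1, h2, h3⟩ := mem_QQ.mp hq
  obtain ⟨h1', h2', h3'⟩ := mem_QQ.mp hq'
  obtain ⟨g1, g2, g3⟩ := mem_QQ.mp hp
  obtain ⟨g1', g2', g3'⟩ := mem_QQ.mp hp'
  have pAx : 0 < pr q.1 * pr q'.2 := Nat.mul_pos (pr_pos h1) (pr_pos h2')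
  have pBx : 0 < n * (pr q.2 * pr q'.1) := Nat.mul_pos hn (Nat.mul_pos (pr_pos h2) (pr_pos h1'))
  have pAy : 0 < pr p.1 * pr p'.2 := Nat.mul_pos (pr_pos g1) (pr_pos g2')
  have pBy : 0 < n' * (pr p.2 * pr p'.1) := Nat.mul_pos hn' (Nat.mul_pos (pr_pos g2) (pr_pos g1'))
  generalize pr q.1 * pr q'.2 = Ax at ex nx pAx
  generalize n * (pr q.2 * pr q'.1) = Bx at ex pBx
  generalize pr p.1 * pr p'.2 = Ay at ey ny pAy
  generalize n' * (pr p.2 * pr p'.1) = By at ey pBy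
  have pAx' : (0:ℝ) < Ax := by exact_mod_cast pAx
  have pBx' : (0:ℝ) < Bx := by exact_mod_cast pBx
  have pAy' : (0:ℝ) < Ay := by exact_mod_cast pAy
  have pBy' : (0:ℝ) < By := by exact_mod_cast pBy
  have hLK : Real.log T / K ≤ δ * Real.log T := by
    have := mul_le_mul_of_nonneg_right hKδ hL.le
    rw [one_div, inv_mul_eq_div] at this
    exact this
  have hBy : Real.log By ≤ (2 * R.th + δ) * Real.log T := by
    have := (abs_le.mp hl').1
    rw [ey] at this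
    linarith
  have hne1 : lam n q q' - lam n' p p' ≠ 0 := by
    intro h0
    apply hne
    rw [sub_eq_zero.mp h0]
  have hne2 : lam n q q' + lam n' p p' ≠ 0 := by
    intro h0
    apply hne
    rw [eq_neg_of_add_eq_zero_left h0, abs_neg]
  constructor
  · have e1 : lam n q q' - lam n' p p' = Real.log ((Ax * By : ℕ) : ℝ) -
        Real.log ((Bx * Ay : ℕ) : ℝ) := by
      push_cast
      rw [Real.log_mul pAx'.ne' pBy'.ne', Real.log_mul pBx'.ne' pAy'.ne', ex, ey]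
      ring
    rw [e1] at hne1 ⊢
    refine sep_aux hT1' hC (Nat.mul_pos pAx pBy) (Nat.mul_pos pBx pAy) ?_ hne1
    push_cast
    rw [Real.log_mul pAx'.ne' pBy'.ne', hκ]
    linarith
  · have e1 : lam n q q' + lam n' p p' = Real.log ((Ax * Ay : ℕ) : ℝ) -
        Real.log ((Bx * By : ℕ) : ℝ) := by
      push_cast
      rw [Real.log_mul pAx'.ne' pAy'.ne', Real.log_mul pBx'.ne' pBy'.ne', ex, ey]
      ring
    rw [e1] at hne2 ⊢
    refine sep_aux hT1' hC (Nat.mul_pos pAx pAy) (Nat.mul_pos pBx pBy) ?_ hne2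
    push_cast
    rw [Real.log_mul pAx'.ne' pAy'.ne', hκ]
    have : 0 ≤ δ * Real.log T := by positivity
    linarith

end Pool.Agent.TypBlk
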