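import Pool.Agent.TypBlk.Exp
import Pool.Agent.TypBlk.MS
import Pool.Agent.TypBlk.Sep
import Pool.Agent.TypBlk.Col
import Pool.Agent.TypBlk.EB
import Pool.Agent.TypBlk.NdB
import Pool.Agent.TypBlk.Grp

/-!
# The variance bound
-/

namespace Pool.Agent.TypBlk

open MeasureTheory Finset Pool.Agent.ZGap.Res

namespace VarAux

lemma kb_nonneg {T : ℝ} (hT : 1 < T) (n : ℕ) : 0 ≤ kb T n := by
  have hL := Real.log_pos hT
  unfold kb
  split_ifs
  · exact zero_le_one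
  · exact div_nonneg ArithmeticFunction.vonMangoldt_nonneg (by positivity)

lemma exists_kap {ψ : ℝ → ℝ} (hψ : RS ψ) : ∃ C : ℝ, 0 < C ∧ ∀ T : ℝ, Real.exp 3 ≤ T → ∀ n : ℕ,
    |kap ψ T n| ≤ C * kb T n := by
  obtain ⟨C1, hC1, h1⟩ := hψ.chat.decay_two
  have hb : ∀ x, |chat ψ x| ≤ C1 := fun x => (h1 x).trans (by
    apply div_le_self hC1.le
    nlinarith [sq_nonneg x])
  have hpi := Real.pi_gt_three
  refine ⟨1 + C1, by positivity, fun T hT n => ?_⟩
  have h1T : 1 < T := lt_of_lt_of_le (Real.one_lt_exp_iff.mpr (by norm_num)) hT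
  have hL := Real.log_pos h1T
  unfold kap kb
  split_ifs with hn
  · rw [mul_one]
    have e1 : |chat ψ 0 / (2 * Real.pi)| ≤ C1 := by
      rw [abs_div, abs_of_pos (by positivity : 0 < 2 * Real.pi)]
      refine (div_le_self (abs_nonneg _) (by linarith)).trans (hb 0)
    calc |1 - chat ψ 0 / (2 * Real.pi)| ≤ |(1:ℝ)| + |chat ψ 0 / (2 * Real.pi)| := abs_sub _ _
      _ ≤ 1 + C1 := by rw [abs_one]; linarith
  · have hv : 0 ≤ ArithmeticFunction.vonMangoldt n := ArithmeticFunction.vonMangoldt_nonneg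
    rw [abs_mul, abs_mul, abs_of_pos (by positivity : 0 < (Real.pi * Real.log T)⁻¹),
      abs_of_nonneg (by positivity : 0 ≤ ArithmeticFunction.vonMangoldt n / Real.sqrt n)]
    have e1 : (Real.pi * Real.log T)⁻¹ ≤ (Real.log T)⁻¹ := by
      apply inv_anti₀ hL
      nlinarith
    calc (Real.pi * Real.log T)⁻¹ * (ArithmeticFunction.vonMangoldt n / Real.sqrt n *
          |chat ψ (Real.log n / Real.log T)|) ≤
          (Real.log T)⁻¹ * (ArithmeticFunction.vonMangoldt n / Real.sqrt n * (1 + C1)) := by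
            gcongr
            linarith [hb (Real.log n / Real.log T)]
      _ = (1 + C1) * (ArithmeticFunction.vonMangoldt n / (Real.sqrt n * Real.log T)) := by
            simp only [div_eq_mul_inv, mul_inv]
            ring

/-- The bound of the coefficient of a ratio. -/
theorem exists_EB (R : ResData) (hF : ∀ x, 0 ≤ x → R.F x ≤ 1) : ∃ C : ℝ, 0 < C ∧ ∀ T : ℝ,
    Real.exp 3 ≤ T → ∀ a b : ℕ, 0 < a → 0 < b → a.Coprime b → (b : ℝ) ≤ T ^ (3 : ℕ) →
    (Rg R T a → ∑ n ∈ Icc 1 ⌊T⌋₊, kb T n * ee R T n a b ≤ C * (ZZ R T b / Real.sqrt (a * b))) ∧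
    (¬ Rg R T a → ∑ n ∈ Icc 1 ⌊T⌋₊, kb T n * ee R T n a b ≤ 0) := by
  classical
  obtain ⟨Cc, hCc, hcol⟩ := exists_col R hF
  obtain ⟨Cp, hCp, hpair⟩ := exists_pair R
  obtain ⟨Cs, hCs, hsum⟩ := exists_sumn R
  refine ⟨Cc * Cp * Cs, by positivity, fun T hT a b ha hb hab hbT => ?_⟩
  have h1T : 1 < T := lt_of_lt_of_le (Real.one_lt_exp_iff.mpr (by norm_num)) hT
  have ha' : (0:ℝ) < a := by exact_mod_cast ha
  have hb' : (0:ℝ) < b := by exact_mod_cast hb
  have key : ∀ n ∈ Icc 1 ⌊T⌋₊, kb T n * ee R T n a b ≤ kb T n * (Cc * (Cp *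
      (if Rg R T a ∧ Rg R T (n / n.gcd b) ∧ Rg R T (b / n.gcd b) then
        (n.gcd b : ℝ) / Real.sqrt (n * a * b) else 0))) := by
    intro n hn
    have hn1 : 0 < n := (mem_Icc.mp hn).1
    apply mul_le_mul_of_nonneg_left _ (kb_nonneg h1T n)
    exact (hcol T hT n a b hn1 ha hb).trans
      (mul_le_mul_of_nonneg_left (hpair T hT n a b hn1 ha hb hab) hCc.le)
  constructor
  · intro hRa
    have h1 := hsum T hT b hb hbT
    calc ∑ n ∈ Icc 1 ⌊T⌋₊, kb T n * ee R T n a b ≤ ∑ n ∈ Icc 1 ⌊T⌋₊, kb T n * (Cc * (Cp *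
          (if Rg R T a ∧ Rg R T (n / n.gcd b) ∧ Rg R T (b / n.gcd b) then
            (n.gcd b : ℝ) / Real.sqrt (n * a * b) else 0))) := sum_le_sum key
      _ = Cc * Cp / Real.sqrt (a * b) * ∑ n ∈ Icc 1 ⌊T⌋₊, kb T n *
          (if Rg R T (n / n.gcd b) ∧ Rg R T (b / n.gcd b) then
            (n.gcd b : ℝ) / Real.sqrt n else 0) := by
          rw [mul_sum]
          refine sum_congr rfl fun n hn => ?_
          have hn1 : (0:ℝ) < n := by exact_mod_cast (mem_Icc.mp hn).1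
          by_cases hc : Rg R T (n / n.gcd b) ∧ Rg R T (b / n.gcd b)
          · rw [if_pos ⟨hRa, hc⟩, if_pos hc, mul_assoc (n : ℝ), Real.sqrt_mul hn1.le]
            field_simp
          · rw [if_neg (fun h => hc h.2), if_neg hc]
            ring
      _ ≤ Cc * Cp / Real.sqrt (a * b) * (Cs * ZZ R T b) :=
          mul_le_mul_of_nonneg_left h1 (by positivity)
      _ = _ := by ring
  · intro hRa
    calc ∑ n ∈ Icc 1 ⌊T⌋₊, kb T n * ee R T n a b ≤ ∑ n ∈ Icc 1 ⌊T⌋₊, kb T n * (Cc * (Cp *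
          (if Rg R T a ∧ Rg R T (n / n.gcd b) ∧ Rg R T (b / n.gcd b) then
            (n.gcd b : ℝ) / Real.sqrt (n * a * b) else 0))) := sum_le_sum key
      _ ≤ 0 := by
          apply le_of_eq
          apply sum_eq_zero
          intro n _
          rw [if_neg (fun h => hRa h.1)]
          ring

/-- The index type of the expansion. -/
abbrev IX : Type := ℕ × ((Finset ℕ × Finset ℕ) × (Finset ℕ × Finset ℕ))

/-- The numerator. -/
def An (x : IX) : ℕ := pr x.2.1.1 * pr x.2.2.2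

/-- The denominator. -/
def Bn (x : IX) : ℕ := x.1 * (pr x.2.1.2 * pr x.2.2.1)

/-- The reduced ratio. -/
def red (A B : ℕ) : ℕ × ℕ := (A / A.gcd B, B / A.gcd B)

lemma red_eq {A B A' B' : ℕ} (hA : 0 < A) (hA' : 0 < A')
    (h : A * B' = A' * B) : red A B = red A' B' := by
  have hg : 0 < A.gcd B := Nat.gcd_pos_of_pos_left _ hA
  have hg' : 0 < A'.gcd B' := Nat.gcd_pos_of_pos_left _ hA'
  have c1 : (A / A.gcd B).Coprime (B / A.gcd B) := Nat.coprime_div_gcd_div_gcd hg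
  have c2 : (A' / A'.gcd B').Coprime (B' / A'.gcd B') := Nat.coprime_div_gcd_div_gcd hg'
  have e1 : A = A / A.gcd B * A.gcd B := (Nat.div_mul_cancel (Nat.gcd_dvd_left A B)).symm
  have e2 : B = B / A.gcd B * A.gcd B := (Nat.div_mul_cancel (Nat.gcd_dvd_right A B)).symm
  have e3 : A' = A' / A'.gcd B' * A'.gcd B' := (Nat.div_mul_cancel (Nat.gcd_dvd_left A' B')).symm
  have e4 : B' = B' / A'.gcd B' * A'.gcd B' := (Nat.div_mul_cancel (Nat.gcd_dvd_right A' B')).symm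
  set a := A / A.gcd B with ha
  set b := B / A.gcd B with hb
  set a' := A' / A'.gcd B' with ha'
  set b' := B' / A'.gcd B' with hb'
  have h1 : a * b' = a' * b := by
    have h2 : (a * b') * (A.gcd B * A'.gcd B') = (a' * b) * (A.gcd B * A'.gcd B') := by
      calc (a * b') * (A.gcd B * A'.gcd B') = (a * A.gcd B) * (b' * A'.gcd B') := by ring
        _ = A * B' := by rw [← e1, ← e4]
        _ = A' * B := h
        _ = (a' * A'.gcd B') * (b * A.gcd B) := by rw [← e3, ← e2]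
        _ = _ := by ring
    exact Nat.eq_of_mul_eq_mul_right (Nat.mul_pos hg hg') h2
  have h2 : a ∣ a' := by
    apply c1.dvd_of_dvd_mul_right
    rw [← h1]
    exact dvd_mul_right _ _
  have h3 : a' ∣ a := by
    apply c2.dvd_of_dvd_mul_right
    rw [h1]
    exact dvd_mul_right _ _
  have h4 : a = a' := Nat.dvd_antisymm h2 h3
  have ha0 : 0 < a := Nat.pos_of_ne_zero (fun h0 => by rw [h0, zero_mul] at e1; omega)
  have h5 : b' = b := by
    rw [← h4] at h1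
    exact Nat.eq_of_mul_eq_mul_left ha0 h1
  unfold red
  rw [← ha, ← hb, ← ha', ← hb', h4, h5]

lemma red_swap (A B : ℕ) : red B A = ((red A B).2, (red A B).1) := by
  unfold red
  rw [Nat.gcd_comm B A]

lemma red_pos {A B : ℕ} (hA : 0 < A) (hB : 0 < B) : 0 < (red A B).1 ∧ 0 < (red A B).2 := by
  have hg : 0 < A.gcd B := Nat.gcd_pos_of_pos_left _ hA
  exact ⟨Nat.div_pos (Nat.le_of_dvd hA (Nat.gcd_dvd_left A B)) hg,
    Nat.div_pos (Nat.le_of_dvd hB (Nat.gcd_dvd_right A B)) hg⟩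

lemma red_coprime {A B : ℕ} (hA : 0 < A) : ((red A B).1).Coprime (red A B).2 :=
  Nat.coprime_div_gcd_div_gcd (Nat.gcd_pos_of_pos_left _ hA)

lemma red_rel (A B : ℕ) : A * (red A B).2 = B * (red A B).1 := by
  unfold red
  simp only
  obtain ⟨k, hk⟩ := Nat.gcd_dvd_left A B
  obtain ⟨l, hl⟩ := Nat.gcd_dvd_right A B
  rw [← Nat.mul_div_assoc _ (Nat.gcd_dvd_right A B), ← Nat.mul_div_assoc _ (Nat.gcd_dvd_left A B),
    mul_comm A B]

lemma red_log {A B : ℕ} (hA : 0 < A) (hB : 0 < B) :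
    Real.log (red A B).1 - Real.log (red A B).2 = Real.log A - Real.log B := by
  obtain ⟨h1, h2⟩ := red_pos hA hB
  have h3 := red_rel A B
  have h1' : (0:ℝ) < (red A B).1 := by exact_mod_cast h1
  have h2' : (0:ℝ) < (red A B).2 := by exact_mod_cast h2
  have hA' : (0:ℝ) < A := by exact_mod_cast hA
  have hB' : (0:ℝ) < B := by exact_mod_cast hB
  have h4 : Real.log ((A : ℝ) * (red A B).2) = Real.log ((B : ℝ) * (red A B).1) := by
    congr 1
    exact_mod_cast h3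
  rw [Real.log_mul hA'.ne' h2'.ne', Real.log_mul hB'.ne' h1'.ne'] at h4
  linarith

lemma red_snd_le {A B : ℕ} : (red A B).2 ≤ B := Nat.div_le_self _ _

lemma red_fst_le {A B : ℕ} : (red A B).1 ≤ A := Nat.div_le_self _ _

/-- The index set. -/
noncomputable def SX (T : ℝ) : Finset IX := Icc 1 ⌊T⌋₊ ×ˢ (QQ T ×ˢ QQ T)

lemma mem_SX {T : ℝ} {x : IX} : x ∈ SX T ↔ x.1 ∈ Icc 1 ⌊T⌋₊ ∧ x.2.1 ∈ QQ T ∧ x.2.2 ∈ QQ T := by
  unfold SX
  rw [mem_product, mem_product]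

lemma AB_pos {T : ℝ} {x : IX} (hx : x ∈ SX T) : 0 < An x ∧ 0 < Bn x := by
  obtain ⟨h0, h1, h2⟩ := mem_SX.mp hx
  obtain ⟨a1, a2, _⟩ := mem_QQ.mp h1
  obtain ⟨b1, b2, _⟩ := mem_QQ.mp h2
  exact ⟨Nat.mul_pos (pr_pos a1) (pr_pos b2),
    Nat.mul_pos (mem_Icc.mp h0).1 (Nat.mul_pos (pr_pos a2) (pr_pos b1))⟩

lemma lam_eq {T : ℝ} {x : IX} (hx : x ∈ SX T) :
    lam x.1 x.2.1 x.2.2 = Real.log (An x) - Real.log (Bn x) := by
  obtain ⟨h0, h1, h2⟩ := mem_SX.mp hx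
  obtain ⟨a1, a2, _⟩ := mem_QQ.mp h1
  obtain ⟨b1, b2, _⟩ := mem_QQ.mp h2
  have q1 : (0:ℝ) < pr x.2.1.1 := by exact_mod_cast pr_pos a1
  have q2 : (0:ℝ) < pr x.2.1.2 := by exact_mod_cast pr_pos a2
  have q1' : (0:ℝ) < pr x.2.2.1 := by exact_mod_cast pr_pos b1
  have q2' : (0:ℝ) < pr x.2.2.2 := by exact_mod_cast pr_pos b2
  have qn : (0:ℝ) < x.1 := by exact_mod_cast (mem_Icc.mp h0).1
  unfold lam An Bn fr
  push_cast
  rw [ell_eq a1, ell_eq a2, ell_eq b1, ell_eq b2, Real.log_mul q1.ne' q2'.ne',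
    Real.log_mul qn.ne' (by positivity), Real.log_mul q2.ne' q1'.ne']
  ring

lemma eq_of_log_eq {a b : ℕ} (ha : 0 < a) (hb : 0 < b) (h : Real.log a = Real.log b) : a = b := by
  have ha' : (0:ℝ) < a := by exact_mod_cast ha
  have hb' : (0:ℝ) < b := by exact_mod_cast hb
  exact_mod_cast Real.log_injOn_pos (Set.mem_Ioi.mpr ha') (Set.mem_Ioi.mpr hb') h

/-- Frequencies equal up to sign belong to the same ratio up to inversion. -/
lemma rel_of_abs_eq {T : ℝ} {x y : IX} (hx : x ∈ SX T) (hy : y ∈ SX T)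
    (h : |lam x.1 x.2.1 x.2.2| = |lam y.1 y.2.1 y.2.2|) :
    red (An y) (Bn y) = red (An x) (Bn x) ∨
      red (An y) (Bn y) = Prod.swap (red (An x) (Bn x)) := by
  obtain ⟨ax, bx⟩ := AB_pos hx
  obtain ⟨ay, by'⟩ := AB_pos hy
  have cax : ((An x : ℕ) : ℝ) ≠ 0 := by exact_mod_cast ax.ne'
  have cbx : ((Bn x : ℕ) : ℝ) ≠ 0 := by exact_mod_cast bx.ne'
  have cay : ((An y : ℕ) : ℝ) ≠ 0 := by exact_mod_cast ay.ne'
  have cby : ((Bn y : ℕ) : ℝ) ≠ 0 := by exact_mod_cast by'.ne'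
  rw [lam_eq hx, lam_eq hy] at h
  rcases abs_eq_abs.mp h with h1 | h1
  · left
    apply red_eq ay ax
    apply eq_of_log_eq (Nat.mul_pos ay bx) (Nat.mul_pos ax by')
    push_cast
    rw [Real.log_mul cay cbx, Real.log_mul cax cby]
    linarith
  · right
    have h2 : red (An y) (Bn y) = red (Bn x) (An x) := by
      apply red_eq ay bx
      apply eq_of_log_eq (Nat.mul_pos ay ax) (Nat.mul_pos bx by')
      push_cast
      rw [Real.log_mul cay cax, Real.log_mul cbx cby]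
      linarith
    rw [h2, red_swap]
    rfl

/-- The weight of an index. -/
noncomputable def ux (R : ResData) (T K : ℝ) (x : IX) : ℝ :=
  if lam x.1 x.2.1 x.2.2 ≠ 0 ∧ |lam x.1 x.2.1 x.2.2| ≤ Real.log T / K then
    kb T x.1 * (|al R T x.2.1| * |al R T x.2.2|) else 0

lemma ux_nonneg {R : ResData} {T K : ℝ} (hT : 1 < T) (x : IX) : 0 ≤ ux R T K x := by
  unfold ux
  split_ifs
  · exact mul_nonneg (kb_nonneg hT _) (by positivity)
  · exact le_rfl

/-- The sum over a fibre. -/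
noncomputable def EE (R : ResData) (T K : ℝ) (i : ℕ × ℕ) : ℝ :=
  ∑ x ∈ (SX T).filter (fun x => red (An x) (Bn x) = i), ux R T K x

lemma EE_nonneg {R : ResData} {T K : ℝ} (hT : 1 < T) (i : ℕ × ℕ) : 0 ≤ EE R T K i :=
  sum_nonneg fun x _ => ux_nonneg hT x

lemma EE_le {R : ResData} {T K : ℝ} (hT : 1 < T) (i : ℕ × ℕ) :
    EE R T K i ≤ ∑ n ∈ Icc 1 ⌊T⌋₊, kb T n * ee R T n i.1 i.2 := by
  classical
  have e1 : ∑ n ∈ Icc 1 ⌊T⌋₊, kb T n * ee R T n i.1 i.2 = ∑ x ∈ SX T,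
      (if pr x.2.1.1 * pr x.2.2.2 * i.2 = x.1 * (pr x.2.1.2 * pr x.2.2.1) * i.1 then
        kb T x.1 * (|al R T x.2.1| * |al R T x.2.2|) else 0) := by
    unfold SX ee
    rw [sum_product]
    refine sum_congr rfl fun n _ => ?_
    rw [sum_product, mul_sum]
    refine sum_congr rfl fun q _ => ?_
    rw [mul_sum]
    refine sum_congr rfl fun q' _ => ?_
    simp only
    split_ifs
    · rfl
    · rw [mul_zero]
  rw [e1]
  unfold EE
  rw [sum_filter]
  refine sum_le_sum fun x hx => ?_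
  by_cases h : red (An x) (Bn x) = i
  · rw [if_pos h]
    have h1 := red_rel (An x) (Bn x)
    rw [h] at h1
    unfold An Bn at h1
    rw [if_pos h1]
    unfold ux
    split_ifs
    · exact le_rfl
    · exact mul_nonneg (kb_nonneg hT _) (by positivity)
  · rw [if_neg h]
    split_ifs
    · exact mul_nonneg (kb_nonneg hT _) (by positivity)
    · exact le_rfl

/-- The facts on a ratio with nonzero coefficient. -/
lemma EE_ne {R : ResData} {T K : ℝ} (hT : 1 < T) {i : ℕ × ℕ} (h : EE R T K i ≠ 0) :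
    0 < i.1 ∧ 0 < i.2 ∧ i.1.Coprime i.2 ∧ (i.1 ≠ 1 ∨ i.2 ≠ 1) ∧
      |Real.log i.1 - Real.log i.2| ≤ Real.log T / K ∧ (i.1 : ℝ) ≤ T ^ (3 : ℕ) ∧
      (i.2 : ℝ) ≤ T ^ (3 : ℕ) := by
  obtain ⟨x, hx, hux⟩ := exists_ne_zero_of_sum_ne_zero h
  obtain ⟨hxS, hxi⟩ := mem_filter.mp hx
  obtain ⟨pA, pB⟩ := AB_pos hxS
  have hcond : lam x.1 x.2.1 x.2.2 ≠ 0 ∧ |lam x.1 x.2.1 x.2.2| ≤ Real.log T / K := by
    by_contra hc
    exact hux (by unfold ux; rw [if_neg hc])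
  have hal : |al R T x.2.1| * |al R T x.2.2| ≠ 0 := by
    intro h0
    apply hux
    unfold ux
    rw [if_pos hcond, h0, mul_zero]
  have ha1 : al R T x.2.1 ≠ 0 := abs_ne_zero.mp (left_ne_zero_of_mul hal)
  have ha2 : al R T x.2.2 ≠ 0 := abs_ne_zero.mp (right_ne_zero_of_mul hal)
  have hl := lam_eq hxS
  have hr := red_log pA pB
  have hp := red_pos pA pB
  have hcop := red_coprime (B := Bn x) pA
  have hs1 := red_fst_le (A := An x) (B := Bn x)
  have hs2 := red_snd_le (A := An x) (B := Bn x)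
  rw [hxi] at hr hp hcop hs1 hs2
  rw [← hl] at hr
  obtain ⟨hm0, hm1, hm2⟩ := mem_SX.mp hxS
  obtain ⟨a1, a2, _⟩ := mem_QQ.mp hm1
  obtain ⟨b1, b2, _⟩ := mem_QQ.mp hm2
  have hTp : 0 < T := by linarith
  have fl : ∀ n : ℕ, n ≤ ⌊T⌋₊ → (n : ℝ) ≤ T := fun n hn =>
    (Nat.cast_le.mpr hn).trans (Nat.floor_le hTp.le)
  have q1 : ((pr x.2.1.1 : ℕ) : ℝ) ≤ T := fl _ (pr_le_of_aa_ne hT a1 (left_ne_zero_of_mul ha1))
  have q2 : ((pr x.2.1.2 : ℕ) : ℝ) ≤ T := fl _ (pr_le_of_aa_ne hT a2 (right_ne_zero_of_mul ha1))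
  have q3 : ((pr x.2.2.1 : ℕ) : ℝ) ≤ T := fl _ (pr_le_of_aa_ne hT b1 (left_ne_zero_of_mul ha2))
  have q4 : ((pr x.2.2.2 : ℕ) : ℝ) ≤ T := fl _ (pr_le_of_aa_ne hT b2 (right_ne_zero_of_mul ha2))
  have q5 : ((x.1 : ℕ) : ℝ) ≤ T := fl _ (mem_Icc.mp hm0).2
  refine ⟨hp.1, hp.2, hcop, ?_, ?_, ?_, ?_⟩
  · by_contra hc
    push Not at hc
    rw [hc.1, hc.2] at hr
    simp only [Nat.cast_one, Real.log_one, sub_zero] at hr
    exact hcond.1 hr.symm
  · rw [hr]
    exact hcond.2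
  · have h1 : (i.1 : ℝ) ≤ (An x : ℕ) := by exact_mod_cast hs1
    refine h1.trans ?_
    unfold An
    push_cast
    calc (pr x.2.1.1 : ℝ) * pr x.2.2.2 ≤ T * T := by gcongr
      _ ≤ T ^ 3 := by nlinarith [mul_pos hTp hTp]
  · have h1 : (i.2 : ℝ) ≤ (Bn x : ℕ) := by exact_mod_cast hs2
    refine h1.trans ?_
    unfold Bn
    push_cast
    calc (x.1 : ℝ) * ((pr x.2.1.2 : ℝ) * pr x.2.2.1) ≤ T * (T * T) := by gcongr
      _ = T ^ 3 := by ring

/-- The sum over all pairs of indices. -/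
theorem exists_pairs (R : ResData) (hF : ∀ x, 0 ≤ x → R.F x ≤ 1) : ∃ C K0 : ℝ, 0 < C ∧ 4 ≤ K0 ∧
    ∀ K : ℝ, K0 ≤ K → ∀ T : ℝ, Real.exp 3 ≤ T →
      ∑ x ∈ SX T, ∑ y ∈ SX T, (if |lam x.1 x.2.1 x.2.2| = |lam y.1 y.2.1 y.2.2| then
        ux R T K x * ux R T K y else 0) ≤ C * (1 / K + 1 / Real.log T) := by
  classical
  obtain ⟨C1, hC1, hEB⟩ := exists_EB R hF
  obtain ⟨Cn, K2, hCn, hK2, hnear⟩ := exists_near R
  refine ⟨2 * (C1 ^ 2 * Cn), max K2 4, by positivity, le_max_right _ _, fun K hK T hT => ?_⟩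
  have hKK2 : K2 ≤ K := (le_max_left _ _).trans hK
  have h1T : 1 < T := lt_of_lt_of_le (Real.one_lt_exp_iff.mpr (by norm_num)) hT
  have hTp : 0 < T := by linarith
  have s1 : ∑ x ∈ SX T, ∑ y ∈ SX T, (if |lam x.1 x.2.1 x.2.2| = |lam y.1 y.2.1 y.2.2| then
        ux R T K x * ux R T K y else 0) ≤
      ∑ x ∈ SX T, ∑ y ∈ SX T, (if red (An y) (Bn y) = red (An x) (Bn x) ∨
        red (An y) (Bn y) = Prod.swap (red (An x) (Bn x)) then
        ux R T K x * ux R T K y else 0) := by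
    refine sum_le_sum fun x hx => sum_le_sum fun y hy => ?_
    have hnn : 0 ≤ ux R T K x * ux R T K y := mul_nonneg (ux_nonneg h1T x) (ux_nonneg h1T y)
    by_cases h : |lam x.1 x.2.1 x.2.2| = |lam y.1 y.2.1 y.2.2|
    · rw [if_pos h, if_pos (rel_of_abs_eq hx hy h)]
    · rw [if_neg h]
      split_ifs
      · exact hnn
      · exact le_rfl
  have s2 := group_le (SX T) (fun x => red (An x) (Bn x)) Prod.swap (fun i => Prod.swap_swap i)
    (ux R T K) (fun x => ux_nonneg h1T x)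
  have s3 : ∑ i ∈ (SX T).image (fun x => red (An x) (Bn x)),
      (∑ x ∈ (SX T).filter (fun x => red (An x) (Bn x) = i), ux R T K x) ^ 2 ≤
      C1 ^ 2 * (Cn * (1 / K + 1 / Real.log T)) := by
    have t1 := hnear K hKK2 T hT ⌊T ^ 3⌋₊
    refine le_trans ?_ (mul_le_mul_of_nonneg_left t1 (by positivity))
    rw [← sum_product', mul_sum]
    have t2 : ∑ i ∈ (SX T).image (fun x => red (An x) (Bn x)),
        (∑ x ∈ (SX T).filter (fun x => red (An x) (Bn x) = i), ux R T K x) ^ 2 =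
        ∑ i ∈ ((SX T).image (fun x => red (An x) (Bn x))).filter (fun i => EE R T K i ≠ 0),
          EE R T K i ^ 2 := by
      rw [sum_filter]
      refine sum_congr rfl fun i _ => ?_
      split_ifs with h
      · rfl
      · rw [not_not] at h
        unfold EE at h
        rw [h]
        ring
    rw [t2]
    refine (sum_le_sum_of_subset_of_nonneg (f := fun i : ℕ × ℕ => C1 ^ 2 *
      (if (i.1 ≠ 1 ∨ i.2 ≠ 1) ∧ Rg R T i.1 ∧ |Real.log i.1 - Real.log i.2| ≤ Real.log T / K then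
        ZZ R T i.2 ^ 2 / ((i.1 : ℝ) * i.2) else 0)) (s := ((SX T).image
          (fun x => red (An x) (Bn x))).filter (fun i => EE R T K i ≠ 0))
      (t := Icc 1 ⌊T ^ 3⌋₊ ×ˢ Icc 1 ⌊T ^ 3⌋₊) ?_ ?_).trans' ?_
    · intro i hi
      obtain ⟨h1, h2, _, _, _, h6, h7⟩ := EE_ne h1T (mem_filter.mp hi).2
      rw [mem_product, mem_Icc, mem_Icc]
      exact ⟨⟨h1, Nat.le_floor h6⟩, ⟨h2, Nat.le_floor h7⟩⟩
    · intro i _ _
      apply mul_nonneg (by positivity)
      split_ifs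
      · positivity
      · exact le_rfl
    · refine sum_le_sum fun i hi => ?_
      obtain ⟨h1, h2, h3, h4, h5, _, h7⟩ := EE_ne h1T (mem_filter.mp hi).2
      have h1' : (0:ℝ) < i.1 := by exact_mod_cast h1
      have h2' : (0:ℝ) < i.2 := by exact_mod_cast h2
      obtain ⟨g1, g2⟩ := hEB T hT i.1 i.2 h1 h2 h3 h7
      have g3 := EE_le (R := R) (K := K) h1T i
      have g0 := EE_nonneg (R := R) (K := K) h1T i
      by_cases hR : Rg R T i.1
      · rw [if_pos ⟨h4, hR, h5⟩]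
        have g4 := g3.trans (g1 hR)
        have g5 := pow_le_pow_left₀ g0 g4 2
        refine g5.trans (le_of_eq ?_)
        rw [mul_pow, div_pow, Real.sq_sqrt (by positivity)]
      · exact absurd (le_antisymm (g3.trans (g2 hR)) g0) (mem_filter.mp hi).2
  calc _ ≤ _ := s1
    _ ≤ _ := s2
    _ ≤ 2 * (C1 ^ 2 * (Cn * (1 / K + 1 / Real.log T))) := by linarith
    _ = _ := by ring

end VarAux

open VarAux

/-- The variance of the local means is `O(1/K)`. -/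
theorem exists_var (R : ResData) (hF : ∀ x, 0 ≤ x → R.F x ≤ 1) (hth : R.th < 1 / 4) {ψ : ℝ → ℝ}
    (hψ : RS ψ) : ∃ C K0 : ℝ, 0 < C ∧ 4 ≤ K0 ∧ ∀ K : ℝ, K0 ≤ K → ∃ T0 : ℝ, Real.exp 3 ≤ T0 ∧
      ∀ T : ℝ, T0 ≤ T → ∫ t0 in T..(2 * T), (DT R ψ K T t0 - mT R ψ T) ^ 2 ≤ C * T / K := by
  classical
  obtain ⟨Cm, C0, hCm, hC0, hms⟩ := exists_ms
  obtain ⟨K1, hK1, hsep⟩ := exists_sep R hth
  obtain ⟨Ck, hCk, hkap⟩ := exists_kap hψ
  obtain ⟨Cp, K2, hCp, hK2, hpairs⟩ := exists_pairs R hF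
  refine ⟨Cm * (Ck ^ 2 * (Cp * 2)), max K1 K2, by positivity, hK1.trans (le_max_left _ _),
    fun K hK => ?_⟩
  have hKK1 : K1 ≤ K := (le_max_left _ _).trans hK
  have hKK2 : K2 ≤ K := (le_max_right _ _).trans hK
  have hK4 : 4 ≤ K := hK1.trans hKK1
  have hKp : 0 < K := by linarith
  obtain ⟨T1, hT1, hs⟩ := hsep C0 K hKK1
  refine ⟨max T1 (Real.exp K), hT1.trans (le_max_left _ _), fun T hT => ?_⟩
  have hTT1 : T1 ≤ T := (le_max_left _ _).trans hT
  have hTK : Real.exp K ≤ T := (le_max_right _ _).trans hT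
  have hTe : Real.exp 3 ≤ T := hT1.trans hTT1
  have h1T : 1 < T := lt_of_lt_of_le (Real.one_lt_exp_iff.mpr (by norm_num)) hTe
  have hTp : 0 < T := by linarith
  have hL : 0 < Real.log T := Real.log_pos h1T
  have hLK : K ≤ Real.log T := by rw [Real.le_log_iff_exp_le hTp]; exact hTK
  set l : IX → ℝ := fun x => lam x.1 x.2.1 x.2.2 with hl
  set c : IX → ℝ := fun x => if lam x.1 x.2.1 x.2.2 = 0 then 0 else
        kap ψ T x.1 * (al R T x.2.1 * al R T x.2.2) * Wh (K / Real.log T * lam x.1 x.2.1 x.2.2)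
    with hc
  have e1 : ∀ t0 : ℝ, (DT R ψ K T t0 - mT R ψ T) ^ 2 =
      (∑ x ∈ SX T, c x * Real.cos (t0 * l x)) ^ 2 := by
    intro t0
    rw [DT_sub_mT R ψ hKp h1T]
    rfl
  simp_rw [e1]
  -- the size of the coefficients
  have hcn : ∀ x, c x ≠ 0 → lam x.1 x.2.1 x.2.2 ≠ 0 ∧ |lam x.1 x.2.1 x.2.2| ≤ Real.log T / K ∧
      al R T x.2.1 ≠ 0 ∧ al R T x.2.2 ≠ 0 := by
    intro x hx
    simp only [hc] at hx
    split_ifs at hx with h0
    · exact absurd rfl hx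
    · have hW := right_ne_zero_of_mul hx
      have hal := right_ne_zero_of_mul (left_ne_zero_of_mul hx)
      refine ⟨h0, ?_, left_ne_zero_of_mul hal, right_ne_zero_of_mul hal⟩
      by_contra hcon
      apply hW
      apply Wh_eq_zero
      rw [abs_mul, abs_of_pos (by positivity : 0 < K / Real.log T)]
      have h2 := not_le.mp hcon
      rw [div_lt_iff₀ hKp] at h2
      rw [div_mul_eq_mul_div, le_div_iff₀ hL]
      linarith
  have hcu : ∀ x, |c x| ≤ Ck * ux R T K x := by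
    intro x
    by_cases hx : c x = 0
    · rw [hx, abs_zero]
      exact mul_nonneg hCk.le (ux_nonneg h1T x)
    · obtain ⟨h1, h2, -, -⟩ := hcn x hx
      unfold ux
      rw [if_pos ⟨h1, h2⟩]
      simp only [hc]
      rw [if_neg h1, abs_mul, abs_mul, abs_mul]
      have h3 := abs_Wh_le (K / Real.log T * lam x.1 x.2.1 x.2.2)
      have h4 := hkap T hTe x.1
      calc |kap ψ T x.1| * (|al R T x.2.1| * |al R T x.2.2|) *
            |Wh (K / Real.log T * lam x.1 x.2.1 x.2.2)| ≤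
            |kap ψ T x.1| * (|al R T x.2.1| * |al R T x.2.2|) * 1 := by gcongr
        _ ≤ (Ck * kb T x.1) * (|al R T x.2.1| * |al R T x.2.2|) * 1 := by gcongr
        _ = _ := by ring
  have hmain := hms (SX T) c l T h1T.le (by
    intro x hx y hy hcx hcy hne
    obtain ⟨_, x2, x3, x4⟩ := hcn x hcx
    obtain ⟨_, y2, y3, y4⟩ := hcn y hcy
    obtain ⟨mx0, mx1, mx2⟩ := mem_SX.mp hx
    obtain ⟨my0, my1, my2⟩ := mem_SX.mp hy
    exact hs T hTT1 x.1 y.1 (mem_Icc.mp mx0).1 (mem_Icc.mp my0).1 _ mx1 _ mx2 _ my1 _ my2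
      x3 x4 y3 y4 x2 y2 hne)
  refine hmain.trans ?_
  have h2 : ∑ x ∈ SX T, ∑ y ∈ SX T, (if |l x| = |l y| then |c x| * |c y| else 0) ≤
      Ck ^ 2 * ∑ x ∈ SX T, ∑ y ∈ SX T, (if |lam x.1 x.2.1 x.2.2| = |lam y.1 y.2.1 y.2.2| then
        ux R T K x * ux R T K y else 0) := by
    rw [mul_sum]
    refine sum_le_sum fun x _ => ?_
    rw [mul_sum]
    refine sum_le_sum fun y _ => ?_
    simp only [hl]
    split_ifs
    · calc |c x| * |c y| ≤ (Ck * ux R T K x) * (Ck * ux R T K y) := by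
            apply mul_le_mul (hcu x) (hcu y) (abs_nonneg _)
            exact mul_nonneg hCk.le (ux_nonneg h1T x)
        _ = _ := by ring
    · rw [mul_zero]
  have h3 := hpairs K hKK2 T hTe
  have h4 : 1 / K + 1 / Real.log T ≤ 2 / K := by
    have : 1 / Real.log T ≤ 1 / K := one_div_le_one_div_of_le hKp hLK
    calc 1 / K + 1 / Real.log T ≤ 1 / K + 1 / K := by linarith
      _ = 2 / K := by ring
  calc Cm * T * ∑ x ∈ SX T, ∑ y ∈ SX T, (if |l x| = |l y| then |c x| * |c y| else 0) ≤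
        Cm * T * (Ck ^ 2 * (Cp * (2 / K))) := by
          apply mul_le_mul_of_nonneg_left _ (by positivity)
          refine h2.trans ?_
          apply mul_le_mul_of_nonneg_left _ (by positivity)
          exact h3.trans (mul_le_mul_of_nonneg_left h4 hCp.le)
    _ = _ := by ring

end Pool.Agent.TypBlk
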