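import Pool.Agent.TypBlk.Win

/-!
# The tails of the window weights
-/

namespace Pool.Agent.TypBlk

open MeasureTheory Set Pool.Agent.ZGap.Res

namespace TailAux

open scoped ENNReal

/-- The kernel of the double integral. -/
noncomputable def FF (a : ℝ) (G : ℝ → ℝ) (S : Set ℝ) (t0 t : ℝ) : ℝ≥0∞ :=
  {p : ℝ × ℝ | (p.2 - p.1) * a ∈ S}.indicator
    (fun p => ENNReal.ofReal (a * WW ((p.2 - p.1) * a) * G p.2)) (t0, t)

lemma FF_eq (a : ℝ) (G : ℝ → ℝ) (S : Set ℝ) (t0 t : ℝ) :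
    FF a G S t0 t = {t : ℝ | (t - t0) * a ∈ S}.indicator
      (fun t => ENNReal.ofReal (a * WW ((t - t0) * a) * G t)) t := by
  unfold FF
  by_cases h : (t - t0) * a ∈ S
  · rw [Set.indicator_of_mem (show (t0, t) ∈ {p : ℝ × ℝ | (p.2 - p.1) * a ∈ S} from h),
      Set.indicator_of_mem (show t ∈ {t : ℝ | (t - t0) * a ∈ S} from h)]
  · rw [Set.indicator_of_notMem (show (t0, t) ∉ {p : ℝ × ℝ | (p.2 - p.1) * a ∈ S} from h),
      Set.indicator_of_notMem (show t ∉ {t : ℝ | (t - t0) * a ∈ S} from h)]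

lemma FF_measurable {a : ℝ} {G : ℝ → ℝ} (hG : Continuous G) {S : Set ℝ} (hS : MeasurableSet S) :
    Measurable (Function.uncurry (FF a G S)) := by
  have h1 : Measurable fun p : ℝ × ℝ => (p.2 - p.1) * a := by fun_prop
  have hW := WW_continuous
  have h2 : Measurable fun p : ℝ × ℝ => ENNReal.ofReal (a * WW ((p.2 - p.1) * a) * G p.2) := by
    apply Measurable.ennreal_ofReal
    exact Continuous.measurable (by fun_prop)
  exact h2.indicator (h1 hS)

/-- The integral over the centres. -/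
lemma lintegral_centre {a : ℝ} (ha : 0 < a) {G : ℝ → ℝ} (hG0 : ∀ t, 0 ≤ G t) {S : Set ℝ}
    (hS : MeasurableSet S) (t : ℝ) :
    ∫⁻ t0 : ℝ, FF a G S t0 t = ENNReal.ofReal (G t) * ∫⁻ s in S, ENNReal.ofReal (WW s) := by
  set f : ℝ → ℝ≥0∞ := S.indicator (fun s => ENNReal.ofReal (WW s)) with hf
  have hfm : Measurable f := by
    apply Measurable.indicator _ hS
    exact WW_continuous.measurable.ennreal_ofReal
  have e1 : ∀ t0 : ℝ, FF a G S t0 t = ENNReal.ofReal (G t) * (ENNReal.ofReal a *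
      f ((t - t0) * a)) := by
    intro t0
    rw [FF_eq, hf]
    by_cases h : (t - t0) * a ∈ S
    · rw [Set.indicator_of_mem (show t ∈ {t : ℝ | (t - t0) * a ∈ S} from h),
        Set.indicator_of_mem h, ← ENNReal.ofReal_mul ha.le, ← ENNReal.ofReal_mul (hG0 t)]
      congr 1
      ring
    · rw [Set.indicator_of_notMem (show t ∉ {t : ℝ | (t - t0) * a ∈ S} from h),
        Set.indicator_of_notMem h, mul_zero, mul_zero]
  simp_rw [e1]
  rw [lintegral_const_mul' _ _ ENNReal.ofReal_ne_top, lintegral_const_mul' _ _ ENNReal.ofReal_ne_top]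
  congr 1
  rw [lintegral_sub_left_eq_self (fun u => f (u * a)) t]
  have e2 : ∫⁻ u : ℝ, f (u * a) = ENNReal.ofReal |a⁻¹| * ∫⁻ s : ℝ, f s := by
    rw [← lintegral_map hfm (measurable_mul_const a), Real.map_volume_mul_right ha.ne',
      lintegral_smul_measure, smul_eq_mul]
  rw [e2, ← mul_assoc, ← ENNReal.ofReal_mul ha.le, abs_of_pos (inv_pos.mpr ha),
    mul_inv_cancel₀ ha.ne', ENNReal.ofReal_one, one_mul, hf, lintegral_indicator hS]

/-- The general bound. -/
lemma gen {a T : ℝ} (ha : 0 < a) (hT : 0 < T) {G : ℝ → ℝ} (hGc : Continuous G)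
    (hG0 : ∀ t, 0 ≤ G t) {S : Set ℝ} (hS : MeasurableSet S) {w g b δ : ℝ} (hw0 : 0 ≤ w)
    (hg0 : 0 ≤ g)
    (hw : ∫⁻ s in S, ENNReal.ofReal (WW s) ≤ ENNReal.ofReal w)
    (hg : ∫ t in Icc (T / 2) (3 * T), G t ≤ g) {B : ℝ → ℝ} (hBi : Integrable B)
    (hB0 : ∀ t, 0 ≤ B t) (hb : ∫ t : ℝ, B t ≤ b)
    (hout : ∀ t0 ∈ Icc T (2 * T), ∀ t, t ∉ Icc (T / 2) (3 * T) →
      a * WW ((t - t0) * a) * G t ≤ B t) (hδ : 0 < δ) :
    volume.real {t0 : ℝ | t0 ∈ Icc T (2 * T) ∧
      δ < ∫ t in {t : ℝ | (t - t0) * a ∈ S}, a * WW ((t - t0) * a) * G t} ≤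
        (w * g + T * b) / δ := by
  have hWc := WW_continuous
  have hb0 : 0 ≤ b := (integral_nonneg hB0).trans hb
  set h : ℝ → ℝ≥0∞ := fun t0 => ∫⁻ t : ℝ, FF a G S t0 t with hh
  have hFm := FF_measurable (a := a) hGc hS
  have hhm : Measurable h := hFm.lintegral_prod_right'
  -- inclusion
  have hsub : {t0 : ℝ | t0 ∈ Icc T (2 * T) ∧
      δ < ∫ t in {t : ℝ | (t - t0) * a ∈ S}, a * WW ((t - t0) * a) * G t} ⊆
      {t0 : ℝ | ENNReal.ofReal δ ≤ h t0} ∩ Icc T (2 * T) := by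
    rintro t0 ⟨h1, h2⟩
    refine ⟨?_, h1⟩
    rw [integral_eq_lintegral_of_nonneg_ae] at h2
    · have h3 := ENNReal.ofReal_le_of_le_toReal h2.le
      refine h3.trans (le_of_eq ?_)
      simp only [hh]
      simp_rw [FF_eq]
      rw [lintegral_indicator]
      have : Measurable fun t : ℝ => (t - t0) * a := by fun_prop
      exact this hS
    · refine Filter.Eventually.of_forall fun t => ?_
      have := WW_nonneg ((t - t0) * a)
      have := hG0 t
      simp only [Pi.zero_apply]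
      positivity
    · exact Continuous.aestronglyMeasurable (by fun_prop)
  -- Markov
  have hmarkov : ENNReal.ofReal δ * volume ({t0 : ℝ | ENNReal.ofReal δ ≤ h t0} ∩ Icc T (2 * T)) ≤
      ∫⁻ t0 in Icc T (2 * T), h t0 := by
    have h1 := mul_meas_ge_le_lintegral (μ := volume.restrict (Icc T (2 * T))) hhm
      (ENNReal.ofReal δ)
    rwa [Measure.restrict_apply (measurableSet_le measurable_const hhm)] at h1
  -- the double integral
  have hdouble : ∫⁻ t0 in Icc T (2 * T), h t0 ≤ ENNReal.ofReal (w * g + T * b) := by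
    have h1 : ∀ t0 ∈ Icc T (2 * T), h t0 ≤ (∫⁻ t in Icc (T / 2) (3 * T), FF a G S t0 t) +
        ENNReal.ofReal b := by
      intro t0 ht0
      simp only [hh]
      rw [← lintegral_add_compl (fun t => FF a G S t0 t) (measurableSet_Icc (a := T / 2)
        (b := 3 * T))]
      gcongr
      calc ∫⁻ t in (Icc (T / 2) (3 * T))ᶜ, FF a G S t0 t ≤
          ∫⁻ t in (Icc (T / 2) (3 * T))ᶜ, ENNReal.ofReal (B t) := by
            apply setLIntegral_mono' measurableSet_Icc.compl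
            intro t ht
            rw [FF_eq]
            refine Set.indicator_apply_le' (fun _ => ?_) (fun _ => zero_le)
            exact ENNReal.ofReal_le_ofReal (hout t0 ht0 t ht)
        _ ≤ ∫⁻ t : ℝ, ENNReal.ofReal (B t) := setLIntegral_le_lintegral _ _
        _ = ENNReal.ofReal (∫ t : ℝ, B t) :=
            (ofReal_integral_eq_lintegral_ofReal hBi (Filter.Eventually.of_forall hB0)).symm
        _ ≤ ENNReal.ofReal b := ENNReal.ofReal_le_ofReal hb
    have h2 : ∫⁻ t0 in Icc T (2 * T), h t0 ≤ (∫⁻ t0 in Icc T (2 * T),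
        ∫⁻ t in Icc (T / 2) (3 * T), FF a G S t0 t) + ENNReal.ofReal (T * b) := by
      calc ∫⁻ t0 in Icc T (2 * T), h t0 ≤ ∫⁻ t0 in Icc T (2 * T),
          ((∫⁻ t in Icc (T / 2) (3 * T), FF a G S t0 t) + ENNReal.ofReal b) :=
            setLIntegral_mono' measurableSet_Icc h1
        _ = (∫⁻ t0 in Icc T (2 * T), ∫⁻ t in Icc (T / 2) (3 * T), FF a G S t0 t) +
            ∫⁻ t0 in Icc T (2 * T), ENNReal.ofReal b :=
              lintegral_add_right _ measurable_const
        _ = _ := by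
            rw [setLIntegral_const, Real.volume_Icc, mul_comm T b, ENNReal.ofReal_mul hb0]
            congr 3
            ring
    have h3 : (∫⁻ t0 in Icc T (2 * T), ∫⁻ t in Icc (T / 2) (3 * T), FF a G S t0 t) ≤
        ENNReal.ofReal (w * g) := by
      rw [lintegral_lintegral_swap hFm.aemeasurable]
      calc ∫⁻ t in Icc (T / 2) (3 * T), ∫⁻ t0 in Icc T (2 * T), FF a G S t0 t ≤
          ∫⁻ t in Icc (T / 2) (3 * T), ENNReal.ofReal (G t) * ENNReal.ofReal w := by
            apply lintegral_mono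
            intro t
            refine (setLIntegral_le_lintegral _ _).trans ?_
            rw [lintegral_centre ha hG0 hS]
            exact mul_le_mul' le_rfl hw
        _ = ENNReal.ofReal w * ENNReal.ofReal (∫ t in Icc (T / 2) (3 * T), G t) := by
            rw [lintegral_mul_const' _ _ ENNReal.ofReal_ne_top, mul_comm]
            rw [ofReal_integral_eq_lintegral_ofReal hGc.integrableOn_Icc
              (Filter.Eventually.of_forall hG0)]
        _ ≤ ENNReal.ofReal w * ENNReal.ofReal g := by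
            gcongr
        _ = _ := (ENNReal.ofReal_mul hw0).symm
    calc ∫⁻ t0 in Icc T (2 * T), h t0 ≤ ENNReal.ofReal (w * g) + ENNReal.ofReal (T * b) :=
          h2.trans (by gcongr)
      _ = _ := (ENNReal.ofReal_add (by positivity) (by positivity)).symm
  -- conclusion
  have hfin : ENNReal.ofReal δ * volume {t0 : ℝ | t0 ∈ Icc T (2 * T) ∧
      δ < ∫ t in {t : ℝ | (t - t0) * a ∈ S}, a * WW ((t - t0) * a) * G t} ≤
      ENNReal.ofReal (w * g + T * b) := by
    refine le_trans ?_ (hmarkov.trans hdouble)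
    gcongr
  rw [le_div_iff₀ hδ]
  have h4 : (ENNReal.ofReal δ * volume {t0 : ℝ | t0 ∈ Icc T (2 * T) ∧
      δ < ∫ t in {t : ℝ | (t - t0) * a ∈ S}, a * WW ((t - t0) * a) * G t}).toReal ≤
      w * g + T * b := by
    have := ENNReal.toReal_mono ENNReal.ofReal_ne_top hfin
    rwa [ENNReal.toReal_ofReal (by positivity)] at this
  rw [ENNReal.toReal_mul, ENNReal.toReal_ofReal hδ.le] at h4
  rw [mul_comm]
  exact h4

/-- The tail of `WW`. -/
lemma WW_tail (j : ℕ) : ∃ C : ℝ, 0 < C ∧ ∀ M : ℝ, 1 ≤ M →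
    ∫⁻ s in {s : ℝ | M < |s|}, ENNReal.ofReal (WW s) ≤ ENNReal.ofReal (C / M ^ j) := by
  obtain ⟨C0, hC0, h0⟩ := WW_decay (j + 2)
  refine ⟨2 * C0 * Real.pi, by positivity, fun M hM => ?_⟩
  have hM0 : 0 < M := by linarith
  have hms : MeasurableSet {s : ℝ | M < |s|} := measurableSet_lt measurable_const (by fun_prop)
  have hpt : ∀ s ∈ {s : ℝ | M < |s|}, ENNReal.ofReal (WW s) ≤
      ENNReal.ofReal (2 * C0 / M ^ j * (1 + s ^ 2)⁻¹) := by
    intro s hs
    rw [mem_setOf_eq] at hs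
    apply ENNReal.ofReal_le_ofReal
    have hs0 : 0 < |s| := by linarith
    have h1 : WW s ≤ C0 / |s| ^ (j + 2) := by
      rw [le_div_iff₀ (by positivity), mul_comm]
      exact h0 s
    refine h1.trans ?_
    have h2 : M ^ j * (1 + s ^ 2) ≤ 2 * |s| ^ (j + 2) := by
      have h3 : M ^ j ≤ |s| ^ j := pow_le_pow_left₀ hM0.le hs.le j
      have h4 : 1 + s ^ 2 ≤ 2 * |s| ^ 2 := by
        have h5 : (1:ℝ) ≤ |s| ^ 2 := one_le_pow₀ (by linarith)
        rw [sq_abs] at *
        linarith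
      calc M ^ j * (1 + s ^ 2) ≤ |s| ^ j * (2 * |s| ^ 2) := by gcongr
        _ = _ := by rw [pow_add]; ring
    rw [div_mul_eq_mul_div, ← div_eq_mul_inv, div_div, div_le_div_iff₀ (by positivity)
      (by positivity)]
    calc C0 * ((1 + s ^ 2) * M ^ j) = C0 * (M ^ j * (1 + s ^ 2)) := by ring
      _ ≤ C0 * (2 * |s| ^ (j + 2)) := by gcongr
      _ = _ := by ring
  calc ∫⁻ s in {s : ℝ | M < |s|}, ENNReal.ofReal (WW s) ≤
      ∫⁻ s in {s : ℝ | M < |s|}, ENNReal.ofReal (2 * C0 / M ^ j * (1 + s ^ 2)⁻¹) :=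
        setLIntegral_mono' hms hpt
    _ ≤ ∫⁻ s : ℝ, ENNReal.ofReal (2 * C0 / M ^ j * (1 + s ^ 2)⁻¹) :=
        setLIntegral_le_lintegral _ _
    _ = ENNReal.ofReal (∫ s : ℝ, 2 * C0 / M ^ j * (1 + s ^ 2)⁻¹) :=
        (ofReal_integral_eq_lintegral_ofReal (integrable_inv_one_add_sq.const_mul _)
          (Filter.Eventually.of_forall fun s => by positivity)).symm
    _ = _ := by
        rw [integral_const_mul, integral_univ_inv_one_add_sq]
        congr 1
        ring

lemma WW_mass : ∫⁻ s in (Set.univ : Set ℝ), ENNReal.ofReal (WW s) ≤ ENNReal.ofReal 1 := by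
  rw [setLIntegral_univ, ← ofReal_integral_eq_lintegral_ofReal WW_integrable
    (Filter.Eventually.of_forall WW_nonneg), WW_integral]

/-- `NC ψ` is controlled by the short prime polynomial. -/
lemma NC_le_W1 (hRH : RiemannHypothesis) {ψ : ℝ → ℝ} {A T : ℝ}
    (hψA : ∀ x, |ψ x| ≤ A / (1 + x ^ 2)) (hL1 : 1 ≤ Real.log T) (t : ℝ) :
    NC ψ T t ≤ A * FM.W1 T t := by
  unfold NC FM.W1
  rw [← tsum_mul_left]
  apply (NC_summable hψA hL1 t).tsum_le_tsum _ ((FM.W1_summable hRH hL1 t).mul_left A)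
  intro ρ
  have h5 := (le_abs_self _).trans (hψA ((t - (ρ : ℂ).im) * Real.log T))
  calc (Pool.Agent.Hadamard.mult ρ : ℝ) * ψ ((t - (ρ : ℂ).im) * Real.log T) ≤
        (Pool.Agent.Hadamard.mult ρ : ℝ) *
        (A / (1 + ((t - (ρ : ℂ).im) * Real.log T) ^ 2)) :=
        mul_le_mul_of_nonneg_left h5 (Nat.cast_nonneg _)
    _ = _ := by rw [mul_comm (t - (ρ : ℂ).im)]; ring

end TailAux

open TailAux

/-- The centres with a large tail or a large mass have small measure. -/
theorem exists_tail (hRH : RiemannHypothesis) (R : ResData) (hF : ∀ x, 0 ≤ x → R.F x ≤ 1)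
    (hth : R.th < 1 / 4) {ψ : ℝ → ℝ} {A : ℝ} (hψ0 : ∀ x, 0 ≤ ψ x) (hψc : Continuous ψ)
    (hψA : ∀ x, |ψ x| ≤ A / (1 + x ^ 2)) (j : ℕ) :
    ∃ C : ℝ, 0 < C ∧ ∀ K : ℝ, 4 ≤ K → ∃ T0 : ℝ, Real.exp 3 ≤ T0 ∧ ∀ T : ℝ, T0 ≤ T → ∀ M : ℝ, 1 ≤ M →
      ∀ δ : ℝ, 0 < δ → volume.real {t0 : ℝ | t0 ∈ Icc T (2 * T) ∧
        δ < ∫ t in {t : ℝ | M * K / Real.log T < |t - t0|}, VL R K T t0 t * (1 + NC ψ T t)} ≤
          C * T / (δ * M ^ j) + C / δ := by
  have hA0 : 0 ≤ A := by
    have := (abs_nonneg _).trans (hψA 0)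
    simpa using this
  obtain ⟨K1, T4, hK1, hT4, hfour⟩ := FM.fourth_moment hRH R
  obtain ⟨C5, T5, hC5, hT5, hW1⟩ := FM.W1_le hRH (k := 4) le_rfl
  obtain ⟨K2, hK2, hQ⟩ := FM.QQ_moment (k := 4) le_rfl
  obtain ⟨C6, hC6, hNCle⟩ := exists_NC_le
  obtain ⟨Cw, hCw, hw⟩ := WW_tail j
  set g0 : ℝ := K1 + 1 / 4 * ((A * C5) ^ 4 * K2) + 5 / 2 with hg0
  have hg0p : 0 < g0 := by positivity
  set b0 : ℝ := (1 + 2 * C6 * A) * Real.pi with hb0
  have hb0p : 0 < b0 := by positivity
  refine ⟨Cw * g0 + b0, by positivity, fun K hK => ?_⟩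
  obtain ⟨T1, hT1, hwin⟩ := exists_win R hF hth hK
  refine ⟨max T1 (max T4 T5), hT1.trans (le_max_left _ _), fun T hT M hM δ hδ => ?_⟩
  have hTT1 : T1 ≤ T := (le_max_left _ _).trans hT
  have hTT4 : T4 ≤ T := (le_max_left _ _).trans ((le_max_right _ _).trans hT)
  have hTT5 : T5 ≤ T := (le_max_right _ _).trans ((le_max_right _ _).trans hT)
  have hTe : Real.exp 3 ≤ T := hT1.trans hTT1
  have h1T : 1 < T := lt_of_lt_of_le (Real.one_lt_exp_iff.mpr (by norm_num)) hTe
  have hTp : 0 < T := by linarith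
  have hL3 : 3 ≤ Real.log T := by rw [Real.le_log_iff_exp_le hTp]; exact hTe
  have hL1 : 1 ≤ Real.log T := by linarith
  have hL : 0 < Real.log T := by linarith
  have hK0 : 0 < K := by linarith
  have hM0 : 0 < M := by linarith
  set a : ℝ := Real.log T / K with ha
  have ha0 : 0 < a := by positivity
  obtain ⟨h2k, hW1T⟩ := hW1 T hTT5
  set G : ℝ → ℝ := fun t => ‖Amp R T t‖ ^ 2 * (1 + NC ψ T t) with hG
  have hNCnn : ∀ t, 0 ≤ NC ψ T t := fun t =>
    tsum_nonneg fun ρ => mul_nonneg (Nat.cast_nonneg _) (hψ0 _)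
  have hNCc : Continuous (NC ψ T) := NC_continuous hψc hψA hL1
  have hAc := Amp_continuous R T
  have hGc : Continuous G := by simp only [hG]; fun_prop
  have hG0 : ∀ t, 0 ≤ G t := fun t => by
    have := hNCnn t
    simp only [hG]; positivity
  -- the mass of `G`
  have hgI : ∫ t in Icc (T / 2) (3 * T), G t ≤ g0 * T := by
    set Q : ℝ → ℝ := fun t => ‖Amp R T t‖ ^ 4 + (1 / 4 * ((A * C5) ^ 4 * FM.QQ 4 T t ^ (2 * 4)) +
      1) with hQdef
    have c2 := FM.QQ_continuous 4 T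
    have hQc : Continuous Q := by simp only [hQdef]; fun_prop
    have hpt : ∀ t ∈ Icc (T / 2) (3 * T), G t ≤ Q t := by
      intro t ht
      have h2 : ‖Amp R T t‖ ^ 2 * NC ψ T t ≤ 1 / 2 * ‖Amp R T t‖ ^ 4 + 1 / 4 * NC ψ T t ^ 4 +
          1 / 4 := by
        have h2' := young (A := ‖Amp R T t‖) (N := NC ψ T t) (μ := 1) (ν := 1) one_pos one_pos
        norm_num at h2' ⊢
        linarith
      have h3 : NC ψ T t ^ 4 ≤ (A * C5) ^ 4 * FM.QQ 4 T t ^ (2 * 4) := by
        have h4 := NC_le_W1 hRH hψA hL1 t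
        have h5 : FM.W1 T t ≤ C5 * FM.QQ 4 T t := hW1T t (by linarith [ht.1]) (by linarith [ht.2])
        have h6 := FM.one_le_QQ (k := 4) h1T.le t
        have h7 : NC ψ T t ≤ A * C5 * FM.QQ 4 T t := by
          refine h4.trans ?_
          rw [mul_assoc]
          exact mul_le_mul_of_nonneg_left h5 hA0
        calc NC ψ T t ^ 4 ≤ (A * C5 * FM.QQ 4 T t) ^ 4 := pow_le_pow_left₀ (hNCnn t) h7 4
          _ = (A * C5) ^ 4 * FM.QQ 4 T t ^ 4 := mul_pow _ _ _
          _ ≤ _ := by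
              apply mul_le_mul_of_nonneg_left _ (by positivity)
              exact pow_le_pow_right₀ h6 (by norm_num)
      have h8 : ‖Amp R T t‖ ^ 2 ≤ 1 / 2 * ‖Amp R T t‖ ^ 4 + 1 / 2 := by
        nlinarith [sq_nonneg (‖Amp R T t‖ ^ 2 - 1)]
      simp only [hG, hQdef]
      rw [mul_add, mul_one]
      have h9 : 1 / 4 * NC ψ T t ^ 4 ≤ 1 / 4 * ((A * C5) ^ 4 * FM.QQ 4 T t ^ (2 * 4)) :=
        mul_le_mul_of_nonneg_left h3 (by norm_num)
      generalize 1 / 4 * ((A * C5) ^ 4 * FM.QQ 4 T t ^ (2 * 4)) = X at h9 ⊢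
      linarith only [h2, h9, h8]
    calc ∫ t in Icc (T / 2) (3 * T), G t ≤ ∫ t in Icc (T / 2) (3 * T), Q t :=
          setIntegral_mono_on hGc.integrableOn_Icc hQc.integrableOn_Icc measurableSet_Icc hpt
      _ ≤ g0 * T := by
          have i1 : IntegrableOn (fun t => ‖Amp R T t‖ ^ 4) (Icc (T / 2) (3 * T)) :=
            (by fun_prop : Continuous fun t => ‖Amp R T t‖ ^ 4).integrableOn_Icc
          have i2 : IntegrableOn (fun t => 1 / 4 * ((A * C5) ^ 4 * FM.QQ 4 T t ^ (2 * 4)))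
              (Icc (T / 2) (3 * T)) :=
            (by fun_prop : Continuous fun t => 1 / 4 * ((A * C5) ^ 4 *
              FM.QQ 4 T t ^ (2 * 4))).integrableOn_Icc
          have i3 : IntegrableOn (fun _ : ℝ => (1:ℝ)) (Icc (T / 2) (3 * T)) :=
            continuous_const.integrableOn_Icc
          have i23 : IntegrableOn (fun t => 1 / 4 * ((A * C5) ^ 4 * FM.QQ 4 T t ^ (2 * 4)) + 1)
              (Icc (T / 2) (3 * T)) := i2.add i3
          simp only [hQdef]
          rw [integral_add i1 i23, integral_add i2 i3, integral_const_mul,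
            integral_const_mul]
          have f1 : ∫ t in Icc (T / 2) (3 * T), ‖Amp R T t‖ ^ 4 ≤ K1 * T := by
            have := hfour T hTT4
            rwa [intervalIntegral.integral_of_le (by linarith),
              ← integral_Icc_eq_integral_Ioc] at this
          have f2 : ∫ t in Icc (T / 2) (3 * T), FM.QQ 4 T t ^ (2 * 4) ≤ K2 * T := by
            refine le_trans ?_ (hQ T h2k)
            apply setIntegral_mono_set
            · exact (by fun_prop : Continuous fun t => FM.QQ 4 T t ^ (2 * 4)).integrableOn_Icc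
            · exact Filter.Eventually.of_forall fun t =>
                pow_nonneg (by linarith [FM.one_le_QQ (k := 4) h1T.le t]) _
            · exact (Icc_subset_Icc (by linarith) (by linarith)).eventuallyLE
          have f3 : ∫ _t in Icc (T / 2) (3 * T), (1:ℝ) = 5 / 2 * T := by
            rw [setIntegral_const, measureReal_def, Real.volume_Icc, smul_eq_mul, mul_one,
              ENNReal.toReal_ofReal (by linarith)]
            ring
          have f4 : 1 / 4 * ((A * C5) ^ 4 * ∫ t in Icc (T / 2) (3 * T), FM.QQ 4 T t ^ (2 * 4)) ≤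
              1 / 4 * ((A * C5) ^ 4 * (K2 * T)) := by gcongr
          rw [f3, hg0]
          linarith
  -- the outside
  set B : ℝ → ℝ := fun t => (T ^ 3)⁻¹ * (1 + 2 * C6 * A) * (1 + t ^ 2)⁻¹ with hB
  have hBi : Integrable B := integrable_inv_one_add_sq.const_mul _
  have hB0 : ∀ t, 0 ≤ B t := fun t => by simp only [hB]; positivity
  have hbI : ∫ t : ℝ, B t ≤ (T ^ 3)⁻¹ * b0 := by
    simp only [hB]
    rw [integral_const_mul, integral_univ_inv_one_add_sq, hb0, mul_assoc]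
  have hout : ∀ t0 ∈ Icc T (2 * T), ∀ t, t ∉ Icc (T / 2) (3 * T) →
      a * WW ((t - t0) * a) * G t ≤ B t := by
    intro t0 ht0 t ht
    obtain ⟨⟨M', hWt⟩, hdec, -⟩ := hwin T hTT1 t0 ht0
    have h1 := hdec t ht
    have h2 := (le_abs_self _).trans (hNCle ψ A T hψA hL1 t)
    have h3 := log_abs_add_two_le t
    have h4 : NC ψ T t ≤ 2 * C6 * A * (1 + t ^ 2) := by
      refine h2.trans ?_
      calc C6 * A * Real.log (|t| + 2) ≤ C6 * A * (2 * (1 + t ^ 2)) := by gcongr
        _ = _ := by ring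
    have h5 : 1 + NC ψ T t ≤ (1 + 2 * C6 * A) * (1 + t ^ 2) := by
      have : 0 ≤ t ^ 2 := sq_nonneg t
      linarith
    have h6 : a * WW ((t - t0) * a) * G t = VL R K T t0 t * (1 + NC ψ T t) := by
      simp only [hG, VL, ww]
      ring
    have h7 := hNCnn t
    have h8 := hWt.nonneg t
    rw [h6]
    calc VL R K T t0 t * (1 + NC ψ T t) ≤ (T ^ 3)⁻¹ / (1 + t ^ 2) ^ 2 *
          ((1 + 2 * C6 * A) * (1 + t ^ 2)) := by gcongr
      _ = B t := by
          simp only [hB]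
          field_simp
  have hmain := gen (S := {s : ℝ | M < |s|}) ha0 hTp hGc hG0
    (measurableSet_lt measurable_const (by fun_prop)) (w := Cw / M ^ j) (g := g0 * T)
    (by positivity) (by positivity) (hw M hM) hgI hBi hB0 hbI hout hδ
  have hset : {t0 : ℝ | t0 ∈ Icc T (2 * T) ∧
        δ < ∫ t in {t : ℝ | M * K / Real.log T < |t - t0|}, VL R K T t0 t * (1 + NC ψ T t)} =
      {t0 : ℝ | t0 ∈ Icc T (2 * T) ∧
      δ < ∫ t in {t : ℝ | (t - t0) * a ∈ {s : ℝ | M < |s|}}, a * WW ((t - t0) * a) * G t} := by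
    ext t0
    have e1 : {t : ℝ | M * K / Real.log T < |t - t0|} =
        {t : ℝ | (t - t0) * a ∈ {s : ℝ | M < |s|}} := by
      ext t
      simp only [mem_setOf_eq]
      rw [abs_mul, abs_of_pos ha0, ha, div_lt_iff₀ hL, ← mul_div_assoc, lt_div_iff₀ hK0]
    have e2 : ∀ t, VL R K T t0 t * (1 + NC ψ T t) = a * WW ((t - t0) * a) * G t := by
      intro t
      simp only [hG, VL, ww]
      ring
    simp only [mem_setOf_eq] at e1 ⊢
    rw [e1]
    simp_rw [e2]
  rw [hset]
  refine hmain.trans ?_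
  have h1 : T * ((T ^ 3)⁻¹ * b0) ≤ b0 := by
    have : T * (T ^ 3)⁻¹ ≤ 1 := by
      rw [← div_eq_mul_inv, div_le_one (by positivity)]
      exact le_self_pow₀ h1T.le (by norm_num)
    calc T * ((T ^ 3)⁻¹ * b0) = T * (T ^ 3)⁻¹ * b0 := by ring
      _ ≤ 1 * b0 := by gcongr
      _ = b0 := one_mul _
  rw [add_div]
  apply add_le_add
  · have h2 : Cw / M ^ j * (g0 * T) / δ = Cw * g0 * T / (δ * M ^ j) := by
      field_simp
    rw [h2]
    gcongr
    linarith
  · gcongr
    have : 0 < Cw * g0 := by positivity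
    linarith

/-- The centres of large mass have small measure. -/
theorem exists_mass (hRH : RiemannHypothesis) (R : ResData) (hF : ∀ x, 0 ≤ x → R.F x ≤ 1)
    (hth : R.th < 1 / 4) :
    ∃ C : ℝ, 0 < C ∧ ∀ K : ℝ, 4 ≤ K → ∃ T0 : ℝ, Real.exp 3 ≤ T0 ∧ ∀ T : ℝ, T0 ≤ T →
      ∀ δ : ℝ, 0 < δ → volume.real {t0 : ℝ | t0 ∈ Icc T (2 * T) ∧
        δ < ∫ t : ℝ, VL R K T t0 t} ≤ C * T / δ := by
  obtain ⟨K1, T4, hK1, hT4, hfour⟩ := FM.fourth_moment hRH R
  set g0 : ℝ := K1 + 5 / 2 with hg0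
  have hg0p : 0 < g0 := by positivity
  refine ⟨g0 + Real.pi, by positivity, fun K hK => ?_⟩
  obtain ⟨T1, hT1, hwin⟩ := exists_win R hF hth hK
  refine ⟨max T1 T4, hT1.trans (le_max_left _ _), fun T hT δ hδ => ?_⟩
  have hTT1 : T1 ≤ T := (le_max_left _ _).trans hT
  have hTT4 : T4 ≤ T := (le_max_right _ _).trans hT
  have hTe : Real.exp 3 ≤ T := hT1.trans hTT1
  have h1T : 1 < T := lt_of_lt_of_le (Real.one_lt_exp_iff.mpr (by norm_num)) hTe
  have hTp : 0 < T := by linarith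
  have hL3 : 3 ≤ Real.log T := by rw [Real.le_log_iff_exp_le hTp]; exact hTe
  have hL : 0 < Real.log T := by linarith
  have hK0 : 0 < K := by linarith
  set a : ℝ := Real.log T / K with ha
  have ha0 : 0 < a := by positivity
  set G : ℝ → ℝ := fun t => ‖Amp R T t‖ ^ 2 with hG
  have hAc := Amp_continuous R T
  have hGc : Continuous G := by simp only [hG]; fun_prop
  have hG0 : ∀ t, 0 ≤ G t := fun t => by simp only [hG]; positivity
  have hgI : ∫ t in Icc (T / 2) (3 * T), G t ≤ g0 * T := by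
    set Q : ℝ → ℝ := fun t => ‖Amp R T t‖ ^ 4 + 1 with hQdef
    have hQc : Continuous Q := by simp only [hQdef]; fun_prop
    have hpt : ∀ t ∈ Icc (T / 2) (3 * T), G t ≤ Q t := by
      intro t ht
      simp only [hG, hQdef]
      nlinarith [sq_nonneg (‖Amp R T t‖ ^ 2 - 1), sq_nonneg (‖Amp R T t‖ ^ 2)]
    calc ∫ t in Icc (T / 2) (3 * T), G t ≤ ∫ t in Icc (T / 2) (3 * T), Q t :=
          setIntegral_mono_on hGc.integrableOn_Icc hQc.integrableOn_Icc measurableSet_Icc hpt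
      _ ≤ g0 * T := by
          have i1 : IntegrableOn (fun t => ‖Amp R T t‖ ^ 4) (Icc (T / 2) (3 * T)) :=
            (by fun_prop : Continuous fun t => ‖Amp R T t‖ ^ 4).integrableOn_Icc
          have i3 : IntegrableOn (fun _ : ℝ => (1:ℝ)) (Icc (T / 2) (3 * T)) :=
            continuous_const.integrableOn_Icc
          simp only [hQdef]
          rw [integral_add i1 i3]
          have f1 : ∫ t in Icc (T / 2) (3 * T), ‖Amp R T t‖ ^ 4 ≤ K1 * T := by
            have := hfour T hTT4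
            rwa [intervalIntegral.integral_of_le (by linarith),
              ← integral_Icc_eq_integral_Ioc] at this
          have f3 : ∫ _t in Icc (T / 2) (3 * T), (1:ℝ) = 5 / 2 * T := by
            rw [setIntegral_const, measureReal_def, Real.volume_Icc, smul_eq_mul, mul_one,
              ENNReal.toReal_ofReal (by linarith)]
            ring
          rw [f3, hg0]
          linarith
  set B : ℝ → ℝ := fun t => (T ^ 3)⁻¹ * (1 + t ^ 2)⁻¹ with hB
  have hBi : Integrable B := integrable_inv_one_add_sq.const_mul _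
  have hB0 : ∀ t, 0 ≤ B t := fun t => by simp only [hB]; positivity
  have hbI : ∫ t : ℝ, B t ≤ (T ^ 3)⁻¹ * Real.pi := by
    simp only [hB]
    rw [integral_const_mul, integral_univ_inv_one_add_sq]
  have hVLeq : ∀ t0 t, a * WW ((t - t0) * a) * G t = VL R K T t0 t := by
    intro t0 t
    simp only [hG, VL, ww, ha]
  have hout : ∀ t0 ∈ Icc T (2 * T), ∀ t, t ∉ Icc (T / 2) (3 * T) →
      a * WW ((t - t0) * a) * G t ≤ B t := by
    intro t0 ht0 t ht
    obtain ⟨⟨M', hWt⟩, hdec, -⟩ := hwin T hTT1 t0 ht0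
    rw [hVLeq]
    refine (hdec t ht).trans ?_
    simp only [hB]
    rw [← div_eq_mul_inv]
    apply div_le_div_of_nonneg_left (by positivity) (by positivity)
    have : 0 ≤ t ^ 2 := sq_nonneg t
    nlinarith
  have hmain := gen (S := Set.univ) ha0 hTp hGc hG0 MeasurableSet.univ (w := 1) (g := g0 * T)
    (by positivity) (by positivity) WW_mass hgI hBi hB0 hbI hout hδ
  have hset : {t0 : ℝ | t0 ∈ Icc T (2 * T) ∧ δ < ∫ t : ℝ, VL R K T t0 t} =
      {t0 : ℝ | t0 ∈ Icc T (2 * T) ∧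
      δ < ∫ t in {t : ℝ | (t - t0) * a ∈ (Set.univ : Set ℝ)}, a * WW ((t - t0) * a) * G t} := by
    ext t0
    simp only [mem_univ, setOf_true, setIntegral_univ, mem_setOf_eq, hVLeq]
  rw [hset]
  refine hmain.trans ?_
  have h1 : T * ((T ^ 3)⁻¹ * Real.pi) ≤ Real.pi * T := by
    have : (T ^ 3)⁻¹ ≤ 1 := inv_le_one_of_one_le₀ (one_le_pow₀ h1T.le)
    have hpi := Real.pi_pos
    calc T * ((T ^ 3)⁻¹ * Real.pi) ≤ T * (1 * Real.pi) := by gcongr
      _ = _ := by ring
  gcongr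
  linarith

end Pool.Agent.TypBlk
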