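import Pool.Agent.TypBlk.Cnt
import Pool.Agent.TypBlk.Var
import Pool.Agent.TypBlk.Tail

/-!
# Almost all windows contain a void window, and almost all contain a crowded window
-/

namespace Pool.Agent.TypBlk

open MeasureTheory Real Set Pool.Agent.ZGap.Res Pool.Agent.Hadamard Pool.Agent.ZetaGaps

namespace GoodVAux

lemma psi_bound {ψ : ℝ → ℝ} {e : ℝ} (hψ00 : ∀ x, 0 ≤ ψ x) (hψle : ∀ x, ψ x ≤ 1)
    (hψ0 : ∀ x, e ≤ |x| → ψ x = 0) (x : ℝ) : |ψ x| ≤ (1 + e ^ 2) / (1 + x ^ 2) := by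
  rw [abs_of_nonneg (hψ00 x), le_div_iff₀ (by positivity)]
  by_cases hx : e ≤ |x|
  · rw [hψ0 x hx, zero_mul]; positivity
  · have h1 : x ^ 2 ≤ e ^ 2 := by
      rw [← sq_abs x]
      exact pow_le_pow_left₀ (abs_nonneg _) (not_le.mp hx).le 2
    calc ψ x * (1 + x ^ 2) ≤ 1 * (1 + e ^ 2) :=
          mul_le_mul (hψle x) (by linarith) (by positivity) zero_le_one
      _ = _ := by rw [one_mul]

/-- The mean value, written with the arithmetic sum. -/
lemma mT_eq (R : ResData) (ψ : ℝ → ℝ) {T : ℝ} (hT : 1 ≤ T) :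
    mT R ψ T = (1 - chat ψ 0 / (2 * π)) * Sig R T + (π * Real.log T)⁻¹ *
      ∑ n ∈ Finset.Icc 1 ⌊T⌋₊, ArithmeticFunction.vonMangoldt n / Real.sqrt n *
        chat ψ (Real.log n / Real.log T) * CC R T n := by
  have h1 : (1 : ℕ) ∈ Finset.Icc 1 ⌊T⌋₊ := by
    rw [Finset.mem_Icc]
    exact ⟨le_rfl, Nat.le_floor (by simpa using hT)⟩
  have h2 : ∀ n ∈ Finset.Icc 1 ⌊T⌋₊, kap ψ T n * CC R T n =
      (if n = 1 then (1 - chat ψ 0 / (2 * π)) * Sig R T else 0) + (π * Real.log T)⁻¹ *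
        (ArithmeticFunction.vonMangoldt n / Real.sqrt n *
          chat ψ (Real.log n / Real.log T) * CC R T n) := by
    intro n _
    unfold kap
    by_cases hn : n = 1
    · subst hn
      rw [if_pos rfl, if_pos rfl, CC_one]
      simp
    · rw [if_neg hn, if_neg hn]
      ring
  unfold mT
  rw [Finset.sum_congr rfl h2, Finset.sum_add_distrib, Finset.sum_ite_eq' , if_pos h1,
    Finset.mul_sum]

lemma mT_ge (R : ResData) {c κ : ℝ} (hκ : 0 < κ) {ψ : ℝ → ℝ}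
    (hψc : chat ψ 0 / (2 * π) ≤ c + κ / 2) {T : ℝ} (hT : 1 ≤ T)
    (h : (c - 1 + κ) * Sig R T ≤ (π * Real.log T)⁻¹ *
      ∑ n ∈ Finset.Icc 1 ⌊T⌋₊, ArithmeticFunction.vonMangoldt n / Real.sqrt n *
        chat ψ (Real.log n / Real.log T) * CC R T n) : κ / 2 * R.F 0 ^ 4 ≤ mT R ψ T := by
  rw [mT_eq R ψ hT]
  have hS : 0 ≤ Sig R T := Finset.sum_nonneg fun _ _ => sq_nonneg _
  have h1 : (1 - (c + κ / 2)) * Sig R T ≤ (1 - chat ψ 0 / (2 * π)) * Sig R T :=
    mul_le_mul_of_nonneg_right (by linarith) hS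
  have h2 : κ / 2 * R.F 0 ^ 4 ≤ κ / 2 * Sig R T :=
    mul_le_mul_of_nonneg_left le_Sig (by positivity)
  have h3 : (1 - (c + κ / 2)) * Sig R T + (c - 1 + κ) * Sig R T = κ / 2 * Sig R T := by ring
  linarith

lemma DT_continuous (R : ResData) (ψ : ℝ → ℝ) {K T : ℝ} (hK : 0 < K) (hT : 1 < T) :
    Continuous (fun t0 => DT R ψ K T t0) := by
  unfold DT
  have h : ∀ n : ℕ, (fun t0 => ∫ t : ℝ, VL R K T t0 t * Real.cos (t * Real.log n)) =
      fun t0 => ∑ q ∈ QQ T, ∑ q' ∈ QQ T, al R T q * al R T q' *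
        (Wh (K / Real.log T * lam n q q') * Real.cos (t0 * lam n q q')) := by
    intro n
    funext t0
    exact int_VL_cos R hK hT n
  refine continuous_finsetSum _ fun n _ => ?_
  refine Continuous.mul continuous_const ?_
  rw [h n]
  fun_prop

/-- Chebyshev's inequality on an interval. -/
lemma cheb {f : ℝ → ℝ} (hf : Continuous f) {m a b s B : ℝ} (hab : a ≤ b) (hs : 0 < s)
    (hB : ∫ x in a..b, (f x - m) ^ 2 ≤ B) {E : Set ℝ}
    (hE : E ⊆ {x | x ∈ Icc a b ∧ f x < m - s}) : volume.real E ≤ B / s ^ 2 := by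
  have hfin : volume {x | x ∈ Icc a b ∧ s ^ 2 ≤ (f x - m) ^ 2} ≠ ⊤ := by
    refine ne_top_of_le_ne_top ?_ (measure_mono (show
      {x | x ∈ Icc a b ∧ s ^ 2 ≤ (f x - m) ^ 2} ⊆ Set.Icc a b from fun t ht => ht.1))
    rw [Real.volume_Icc]; exact ENNReal.ofReal_ne_top
  have h1 : volume.real E ≤ volume.real {x | x ∈ Icc a b ∧ s ^ 2 ≤ (f x - m) ^ 2} := by
    refine measureReal_mono (fun x hx => ?_) hfin
    obtain ⟨h1, h2⟩ := hE hx
    refine ⟨h1, ?_⟩
    have : s ≤ m - f x := by linarith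
    calc s ^ 2 ≤ (m - f x) ^ 2 := pow_le_pow_left₀ hs.le this 2
      _ = _ := by ring
  have hcont : Continuous fun x => (f x - m) ^ 2 := by fun_prop
  have hmeas : MeasurableSet {x | s ^ 2 ≤ (f x - m) ^ 2} :=
    (isClosed_le continuous_const hcont).measurableSet
  have h2 : s ^ 2 * (volume.restrict (Icc a b)).real {x | s ^ 2 ≤ (f x - m) ^ 2} ≤
      ∫ x in Icc a b, (f x - m) ^ 2 :=
    mul_meas_ge_le_integral_of_nonneg (Filter.Eventually.of_forall fun x => sq_nonneg _)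
      hcont.integrableOn_Icc _
  have h3 : (volume.restrict (Icc a b)).real {x | s ^ 2 ≤ (f x - m) ^ 2} =
      volume.real {x | x ∈ Icc a b ∧ s ^ 2 ≤ (f x - m) ^ 2} := by
    rw [measureReal_restrict_apply hmeas, Set.inter_comm]
    rfl
  rw [intervalIntegral.integral_of_le hab, ← integral_Icc_eq_integral_Ioc] at hB
  rw [h3] at h2
  refine h1.trans ?_
  rw [le_div_iff₀ (by positivity), mul_comm]
  exact h2.trans hB

/-- If there is no void window, then the mean is at most the tail. -/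
lemma int_le_tail {V N : ℝ → ℝ} (hV : ∀ t, 0 ≤ V t) (hN : ∀ t, 0 ≤ N t) (hVi : Integrable V)
    (hVN : Integrable fun t => V t * N t) {t0 r : ℝ} (h1 : ∀ t, |t - t0| ≤ r → 1 ≤ N t) :
    (∫ t, V t) - (∫ t, V t * N t) ≤ ∫ t in {t : ℝ | r < |t - t0|}, V t * (1 + N t) := by
  have hm : MeasurableSet {t : ℝ | r < |t - t0|} :=
    (isOpen_lt continuous_const (by fun_prop)).measurableSet
  have hi : Integrable fun t => V t * (1 + N t) := by
    have := hVi.add hVN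
    refine this.congr (Filter.Eventually.of_forall fun t => ?_)
    simp only [Pi.add_apply]
    ring
  rw [← integral_sub hVi hVN, ← integral_indicator hm]
  refine integral_mono (hVi.sub hVN) (hi.indicator hm) fun t => ?_
  simp only
  by_cases ht : r < |t - t0|
  · rw [indicator_of_mem (show t ∈ {t : ℝ | r < |t - t0|} from ht)]
    have := mul_nonneg (hV t) (hN t)
    nlinarith
  · rw [indicator_of_notMem (show t ∉ {t : ℝ | r < |t - t0|} from ht)]
    have h2 := mul_le_mul_of_nonneg_left (h1 t (not_lt.mp ht)) (hV t)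
    linarith

end GoodVAux

open GoodVAux in
/-- Almost all windows of width `2 K ^ (1 + η) / log T` contain the centre of a void window. -/
theorem good_void (hRH : RiemannHypothesis) (R : ResData) (hF : ∀ x, 0 ≤ x → R.F x ≤ 1)
    (hF0 : 0 < R.F 0) (hth : R.th < 1 / 4) {c κ e : ℝ} (hκ : 0 < κ) {ψ : ℝ → ℝ} (hψ : RS ψ)
    (hψ00 : ∀ x, 0 ≤ ψ x) (hψle : ∀ x, ψ x ≤ 1) (hψ1 : ∀ x, |x| ≤ π * c → ψ x = 1)
    (hψ0 : ∀ x, e ≤ |x| → ψ x = 0)
    (hψc : chat ψ 0 / (2 * π) ≤ c + κ / 2) {T1 : ℝ}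
    (harith : ∀ T : ℝ, T1 ≤ T → (c - 1 + κ) * Sig R T ≤ (π * Real.log T)⁻¹ *
      ∑ n ∈ Finset.Icc 1 ⌊T⌋₊, ArithmeticFunction.vonMangoldt n / Real.sqrt n *
        chat ψ (Real.log n / Real.log T) * CC R T n) {η : ℝ} (hη : 0 < η) :
    ∃ C K0 : ℝ, 0 < C ∧ 1 ≤ K0 ∧ ∀ K : ℝ, K0 ≤ K → ∃ T0 : ℝ, ∀ T : ℝ, T0 ≤ T →
      volume.real {t0 : ℝ | t0 ∈ Set.Icc T (2 * T) ∧ ¬ ∃ t : ℝ,
        |t - t0| ≤ K ^ (1 + η) / Real.log T ∧ ∀ ρ ∈ ntz, π * c / Real.log T < |ρ.im - t|} ≤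
          C * T / K := by
  set A : ℝ := 1 + e ^ 2 with hA
  have hψA : ∀ x, |ψ x| ≤ A / (1 + x ^ 2) := psi_bound hψ00 hψle hψ0
  set m0 : ℝ := κ / 2 * R.F 0 ^ 4 with hm0
  have hm0p : 0 < m0 := by positivity
  set j : ℕ := ⌈1 / η⌉₊ with hj
  have hjη : 1 ≤ η * j := by
    have h1 : 1 / η ≤ (j : ℝ) := Nat.le_ceil _
    rw [div_le_iff₀ hη] at h1
    linarith
  obtain ⟨Cv, Kv, hCv, hKv4, hvar⟩ := exists_var R hF hth hψ
  obtain ⟨Ct, hCt, htail⟩ := exists_tail hRH R hF hth hψ00 hψ.continuous hψA j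
  obtain ⟨Cm, hCm, hmass⟩ := exists_mass hRH R hF hth
  obtain ⟨C6, hC6, hNCle⟩ := exists_NC_le
  refine ⟨4 * Cv / m0 ^ 2 + 1 + 16 * Ct / m0, Kv, by positivity, by linarith, fun K hK => ?_⟩
  have hK4 : 4 ≤ K := hKv4.trans hK
  have hK0 : 0 < K := by linarith
  obtain ⟨Tv, hTv3, hvarK⟩ := hvar K hK
  obtain ⟨Cc, Tc, hCc, hTc3, hcnt⟩ := exists_cnt hRH R hF hth hψ hK4
  obtain ⟨Tt, hTt3, htailK⟩ := htail K hK4
  obtain ⟨Tm, hTm3, hmassK⟩ := hmass K hK4
  obtain ⟨Tw, hTw3, hwin⟩ := exists_win R hF hth hK4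
  refine ⟨max (max (max T1 Tv) (max Tc Tt)) (max (max Tm Tw) (max (max K (16 * Cc / m0))
    (Real.exp (8 * Cc * Cm * K / m0)))), fun T hT => ?_⟩
  have hT1 : T1 ≤ T := (le_max_left _ _).trans ((le_max_left _ _).trans ((le_max_left _ _).trans hT))
  have hTv : Tv ≤ T := (le_max_right _ _).trans ((le_max_left _ _).trans ((le_max_left _ _).trans hT))
  have hTc : Tc ≤ T := (le_max_left _ _).trans ((le_max_right _ _).trans ((le_max_left _ _).trans hT))
  have hTt : Tt ≤ T := (le_max_right _ _).trans ((le_max_right _ _).trans ((le_max_left _ _).trans hT))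
  have hTm : Tm ≤ T := (le_max_left _ _).trans ((le_max_left _ _).trans ((le_max_right _ _).trans hT))
  have hTw : Tw ≤ T := (le_max_right _ _).trans ((le_max_left _ _).trans ((le_max_right _ _).trans hT))
  have hTK : K ≤ T := (le_max_left _ _).trans ((le_max_left _ _).trans
    ((le_max_right _ _).trans ((le_max_right _ _).trans hT)))
  have hTCc : 16 * Cc / m0 ≤ T := (le_max_right _ _).trans ((le_max_left _ _).trans
    ((le_max_right _ _).trans ((le_max_right _ _).trans hT)))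
  have hTexp : Real.exp (8 * Cc * Cm * K / m0) ≤ T := (le_max_right _ _).trans
    ((le_max_right _ _).trans ((le_max_right _ _).trans hT))
  have hTe : Real.exp 3 ≤ T := hTv3.trans hTv
  have h1T : 1 < T := lt_of_lt_of_le (Real.one_lt_exp_iff.mpr (by norm_num)) hTe
  have hTp : 0 < T := by linarith
  have hL3 : 3 ≤ Real.log T := by rw [Real.le_log_iff_exp_le hTp]; exact hTe
  have hL1 : 1 ≤ Real.log T := by linarith
  have hL : 0 < Real.log T := by linarith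
  have hLC : 8 * Cc * Cm * K / m0 ≤ Real.log T := by
    rw [Real.le_log_iff_exp_le hTp]; exact hTexp
  have hmT : m0 ≤ mT R ψ T := mT_ge R hκ hψc h1T.le (harith T hT1)
  -- the three bad sets
  set L := Real.log T with hLdef
  set M : ℝ := K ^ η with hM
  have hK1 : 1 ≤ K := by linarith
  have hM1 : 1 ≤ M := Real.one_le_rpow hK1 hη.le
  have hMj : K ≤ M ^ j := by
    rw [hM, ← Real.rpow_natCast, ← Real.rpow_mul hK0.le]
    calc K = K ^ (1 : ℝ) := (Real.rpow_one K).symm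
      _ ≤ _ := Real.rpow_le_rpow_of_exponent_le hK1 hjη
  have hMK : M * K = K ^ (1 + η) := by
    rw [hM, Real.rpow_add hK0, Real.rpow_one, mul_comm]
  set S1 : Set ℝ := {t0 : ℝ | t0 ∈ Icc T (2 * T) ∧ DT R ψ K T t0 < mT R ψ T - m0 / 2} with hS1
  set S2 : Set ℝ := {t0 : ℝ | t0 ∈ Icc T (2 * T) ∧
    m0 * L / (8 * Cc) < ∫ t : ℝ, VL R K T t0 t} with hS2
  set S3 : Set ℝ := {t0 : ℝ | t0 ∈ Icc T (2 * T) ∧
    m0 / 8 < ∫ t in {t : ℝ | M * K / L < |t - t0|}, VL R K T t0 t * (1 + NC ψ T t)} with hS3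
  have hb1 : volume.real S1 ≤ 4 * Cv / m0 ^ 2 * T / K := by
    have h := cheb (DT_continuous R ψ hK0 h1T) (by linarith : T ≤ 2 * T)
      (by positivity : 0 < m0 / 2) (hvarK T hTv) (E := S1) (fun x hx => hx)
    refine h.trans (le_of_eq ?_)
    field_simp
    ring
  have hb2 : volume.real S2 ≤ T / K := by
    refine (hmassK T hTm _ (by positivity)).trans ?_
    rw [div_le_div_iff₀ (by positivity) hK0]
    rw [div_le_iff₀ hm0p] at hLC
    have h1 : Cm * K ≤ m0 * L / (8 * Cc) := by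
      rw [le_div_iff₀ (by positivity)]
      linarith
    calc Cm * T * K = T * (Cm * K) := by ring
      _ ≤ T * (m0 * L / (8 * Cc)) := mul_le_mul_of_nonneg_left h1 hTp.le
  have hb3 : volume.real S3 ≤ 16 * Ct / m0 * T / K := by
    refine (htailK T hTt M hM1 (m0 / 8) (by positivity)).trans ?_
    have h1 : Ct * T / (m0 / 8 * M ^ j) ≤ Ct * T / (m0 / 8 * K) := by gcongr
    have h2 : Ct / (m0 / 8) ≤ Ct * T / (m0 / 8 * K) := by
      rw [div_le_div_iff₀ (by positivity) (by positivity)]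
      have := mul_le_mul_of_nonneg_left hTK (show 0 ≤ Ct * (m0 / 8) by positivity)
      linarith
    calc _ ≤ Ct * T / (m0 / 8 * K) + Ct * T / (m0 / 8 * K) := add_le_add h1 h2
      _ = _ := by field_simp; ring
  have hsub : {t0 : ℝ | t0 ∈ Set.Icc T (2 * T) ∧ ¬ ∃ t : ℝ,
        |t - t0| ≤ K ^ (1 + η) / L ∧ ∀ ρ ∈ ntz, π * c / L < |ρ.im - t|} ⊆ S1 ∪ (S2 ∪ S3) := by
    rintro t0 ⟨ht0, hno⟩
    by_contra hcon
    simp only [mem_union, not_or] at hcon
    obtain ⟨hc1, hc2, hc3⟩ := hcon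
    have hd1 : m0 / 2 ≤ DT R ψ K T t0 := by
      have : ¬ DT R ψ K T t0 < mT R ψ T - m0 / 2 := fun h => hc1 ⟨ht0, h⟩
      linarith [not_lt.mp this]
    have hd2 : (∫ t : ℝ, VL R K T t0 t) ≤ m0 * L / (8 * Cc) :=
      not_lt.mp fun h => hc2 ⟨ht0, h⟩
    have hd3 : (∫ t in {t : ℝ | M * K / L < |t - t0|}, VL R K T t0 t * (1 + NC ψ T t)) ≤ m0 / 8 :=
      not_lt.mp fun h => hc3 ⟨ht0, h⟩
    obtain ⟨⟨Mw, hWt⟩, -, -⟩ := hwin T hTw t0 ht0
    have hiV : Integrable (VL R K T t0) := hWt.integrable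
    have hiVN : Integrable (fun t => VL R K T t0 t * NC ψ T t) := by
      have hcont : Continuous (NC ψ T) := NC_continuous hψ.continuous hψA hL1
      refine hWt.integrable_mul (A := C6 * A * 2) hcont fun t => ?_
      refine (hNCle ψ A T hψA hL1 t).trans ?_
      have := log_abs_add_two_le t
      have hA0 : 0 ≤ A := by rw [hA]; positivity
      calc C6 * A * Real.log (|t| + 2) ≤ C6 * A * (2 * (1 + t ^ 2)) :=
            mul_le_mul_of_nonneg_left this (by positivity)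
        _ = _ := by ring
    have hNCnn : ∀ t, 0 ≤ NC ψ T t := fun t =>
      tsum_nonneg fun ρ => mul_nonneg (Nat.cast_nonneg _) (hψ00 _)
    have hN1 : ∀ t, |t - t0| ≤ M * K / L → 1 ≤ NC ψ T t := by
      intro t ht
      rw [hMK] at ht
      have h1 : ¬ ∀ ρ ∈ ntz, π * c / L < |ρ.im - t| := fun h => hno ⟨t, ht, h⟩
      push Not at h1
      obtain ⟨ρ, hρ, hρt⟩ := h1
      exact one_le_NC hL1 hψ00 hψA hψ1 hρ hρt
    have h4 := int_le_tail hWt.nonneg hNCnn hiV hiVN hN1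
    have h5 := (abs_le.mp (hcnt T hTc t0 ht0)).1
    have h6 : Cc / L * (∫ t : ℝ, VL R K T t0 t) ≤ m0 / 8 := by
      calc Cc / L * (∫ t : ℝ, VL R K T t0 t) ≤ Cc / L * (m0 * L / (8 * Cc)) :=
            mul_le_mul_of_nonneg_left hd2 (by positivity)
        _ = m0 / 8 := by field_simp
    have h7 : Cc / T ≤ m0 / 16 := by
      rw [div_le_iff₀ hm0p] at hTCc
      rw [div_le_iff₀ hTp]
      linarith
    linarith
  have hfin : volume (S1 ∪ (S2 ∪ S3)) ≠ ⊤ := by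
    refine ne_top_of_le_ne_top ?_ (measure_mono (show S1 ∪ (S2 ∪ S3) ⊆ Set.Icc T (2 * T) from ?_))
    · rw [Real.volume_Icc]; exact ENNReal.ofReal_ne_top
    · rintro t (h | h | h)
      · exact h.1
      · exact h.1
      · exact h.1
  calc _ ≤ volume.real (S1 ∪ (S2 ∪ S3)) := measureReal_mono hsub hfin
    _ ≤ volume.real S1 + (volume.real S2 + volume.real S3) :=
        (measureReal_union_le _ _).trans (add_le_add le_rfl (measureReal_union_le _ _))
    _ ≤ 4 * Cv / m0 ^ 2 * T / K + (T / K + 16 * Ct / m0 * T / K) := by linarith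
    _ = _ := by ring

end Pool.Agent.TypBlk
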