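import Pool.Agent.TypBlk.Defs

/-!
# The Fourier expansion of the local means
-/

namespace Pool.Agent.TypBlk

open MeasureTheory Finset Pool.Agent.ZGap.Res

namespace ExpAux

lemma integrable_WW_mul {g : ℝ → ℝ} (hg : Continuous g) (hb : ∀ s, |g s| ≤ 1) :
    Integrable (fun s => WW s * g s) := by
  refine WW_integrable.norm.mono' (WW_continuous.mul hg).aestronglyMeasurable
    (Filter.Eventually.of_forall fun s => ?_)
  rw [norm_mul, Real.norm_eq_abs (g s)]
  exact mul_le_of_le_one_right (norm_nonneg _) (hb s)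

/-- Change of variables. -/
lemma int_ww (K T t0 : ℝ) (hK : 0 < K) (hT : 1 < T) (g : ℝ → ℝ) :
    ∫ t : ℝ, ww K T t0 t * g t = ∫ s : ℝ, WW s * g (t0 + s / (Real.log T / K)) := by
  have hL : 0 < Real.log T := Real.log_pos hT
  set c : ℝ := Real.log T / K with hc
  have hc0 : 0 < c := by positivity
  have e1 : ∀ t : ℝ, ww K T t0 t * g t =
      c * (fun u : ℝ => (fun s : ℝ => WW s * g (t0 + s / c)) (u * c)) (t - t0) := by
    intro t
    simp only
    unfold ww
    rw [← hc, mul_div_assoc, div_self hc0.ne', mul_one, add_sub_cancel]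
    ring
  simp_rw [e1]
  rw [integral_const_mul,
    integral_sub_right_eq_self (μ := volume)
      (fun u : ℝ => (fun s : ℝ => WW s * g (t0 + s / c)) (u * c)) t0,
    Measure.integral_comp_mul_right (fun s : ℝ => WW s * g (t0 + s / c)) c]
  rw [abs_of_pos (by positivity), smul_eq_mul, ← mul_assoc, mul_inv_cancel₀ hc0.ne', one_mul]

lemma ww_nonneg {K T t0 : ℝ} (hK : 0 < K) (hT : 1 < T) (t : ℝ) : 0 ≤ ww K T t0 t := by
  have hL : 0 < Real.log T := Real.log_pos hT
  unfold ww
  exact mul_nonneg (by positivity) (WW_nonneg _)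

lemma ww_continuous (K T t0 : ℝ) : Continuous (ww K T t0) := by
  unfold ww
  have := WW_continuous
  fun_prop

lemma ww_integrable {K T t0 : ℝ} (hK : 0 < K) (hT : 1 < T) : Integrable (ww K T t0) := by
  have hL : 0 < Real.log T := Real.log_pos hT
  have hc0 : Real.log T / K ≠ 0 := by positivity
  unfold ww
  refine Integrable.const_mul ?_ _
  exact (WW_integrable.comp_mul_right' hc0).comp_sub_right t0

lemma ww_integrable_cos {K T t0 : ℝ} (hK : 0 < K) (hT : 1 < T) (l : ℝ) :
    Integrable (fun t => ww K T t0 t * Real.cos (t * l)) := by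
  refine (ww_integrable hK hT (t0 := t0)).norm.mono' ((ww_continuous K T t0).mul
    (by fun_prop)).aestronglyMeasurable (Filter.Eventually.of_forall fun t => ?_)
  rw [norm_mul]
  exact mul_le_of_le_one_right (norm_nonneg _) (Real.abs_cos_le_one _)

end ExpAux

open ExpAux

theorem Wh_zero : Wh 0 = 1 := by
  unfold Wh
  simp only [zero_mul, Real.cos_zero, mul_one]
  exact WW_integral

theorem abs_Wh_le (ξ : ℝ) : |Wh ξ| ≤ 1 := by
  unfold Wh
  rw [← Real.norm_eq_abs]
  refine (norm_integral_le_integral_norm _).trans ?_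
  rw [← WW_integral]
  refine integral_mono (integrable_WW_mul (by fun_prop) fun s => Real.abs_cos_le_one _).norm
    WW_integrable fun s => ?_
  simp only
  rw [norm_mul, Real.norm_of_nonneg (WW_nonneg s)]
  exact mul_le_of_le_one_right (WW_nonneg s) (Real.abs_cos_le_one _)

theorem Wh_eq_zero {ξ : ℝ} (h : 1 ≤ |ξ|) : Wh ξ = 0 := WW_cos h

theorem int_ww_cos {K T t0 : ℝ} (hK : 0 < K) (hT : 1 < T) (l : ℝ) :
    ∫ t : ℝ, ww K T t0 t * Real.cos (t * l) = Wh (K / Real.log T * l) * Real.cos (t0 * l) := by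
  have hL : 0 < Real.log T := Real.log_pos hT
  rw [int_ww K T t0 hK hT (fun t => Real.cos (t * l))]
  have e1 : ∀ s : ℝ, WW s * Real.cos ((t0 + s / (Real.log T / K)) * l) =
      (WW s * Real.cos (K / Real.log T * l * s)) * Real.cos (t0 * l) -
        (WW s * Real.sin (K / Real.log T * l * s)) * Real.sin (t0 * l) := by
    intro s
    have e : (t0 + s / (Real.log T / K)) * l = t0 * l + K / Real.log T * l * s := by
      field_simp
    rw [e, Real.cos_add]
    ring
  simp_rw [e1]
  rw [integral_sub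
      ((integrable_WW_mul (by fun_prop) fun s => Real.abs_cos_le_one _).mul_const _)
      ((integrable_WW_mul (by fun_prop) fun s => Real.abs_sin_le_one _).mul_const _),
    integral_mul_const, integral_mul_const, WW_sin, zero_mul, sub_zero]
  rfl

theorem int_ww_sin {K T t0 : ℝ} (hK : 0 < K) (hT : 1 < T) (l : ℝ) :
    ∫ t : ℝ, ww K T t0 t * Real.sin (t * l) = Wh (K / Real.log T * l) * Real.sin (t0 * l) := by
  have hL : 0 < Real.log T := Real.log_pos hT
  rw [int_ww K T t0 hK hT (fun t => Real.sin (t * l))]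
  have e1 : ∀ s : ℝ, WW s * Real.sin ((t0 + s / (Real.log T / K)) * l) =
      (WW s * Real.cos (K / Real.log T * l * s)) * Real.sin (t0 * l) +
        (WW s * Real.sin (K / Real.log T * l * s)) * Real.cos (t0 * l) := by
    intro s
    have e : (t0 + s / (Real.log T / K)) * l = t0 * l + K / Real.log T * l * s := by
      field_simp
    rw [e, Real.sin_add]
    ring
  simp_rw [e1]
  rw [integral_add
      ((integrable_WW_mul (by fun_prop) fun s => Real.abs_cos_le_one _).mul_const _)
      ((integrable_WW_mul (by fun_prop) fun s => Real.abs_sin_le_one _).mul_const _),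
    integral_mul_const, integral_mul_const, WW_sin, zero_mul, add_zero]
  rfl

theorem int_VL_cos (R : ResData) {K T t0 : ℝ} (hK : 0 < K) (hT : 1 < T) (n : ℕ) :
    ∫ t : ℝ, VL R K T t0 t * Real.cos (t * Real.log n) = ∑ q ∈ QQ T, ∑ q' ∈ QQ T,
      al R T q * al R T q' * (Wh (K / Real.log T * lam n q q') * Real.cos (t0 * lam n q q')) := by
  have e1 : ∀ t : ℝ, VL R K T t0 t * Real.cos (t * Real.log n) =
      ∑ q ∈ QQ T, ∑ q' ∈ QQ T, (al R T q * al R T q' / 2) *
        (ww K T t0 t * Real.cos (t * lam n q q') +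
          ww K T t0 t * Real.cos (t * lam n q' q)) := by
    intro t
    unfold VL
    rw [norm_sq_Amp, mul_assoc, sum_mul, mul_sum]
    refine sum_congr rfl fun q _ => ?_
    rw [sum_mul, mul_sum]
    refine sum_congr rfl fun q' _ => ?_
    have h1 : Real.cos (t * (fr q - fr q')) * Real.cos (t * Real.log n) =
        (Real.cos (t * lam n q q') + Real.cos (t * lam n q' q)) / 2 := by
      unfold lam
      have a1 : t * (fr q - fr q' - Real.log n) = t * (fr q - fr q') - t * Real.log n := by ring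
      have a2 : t * (fr q' - fr q - Real.log n) = -(t * (fr q - fr q') + t * Real.log n) := by ring
      rw [a1, a2, Real.cos_neg, Real.cos_sub, Real.cos_add]
      ring
    calc _ = (al R T q * al R T q') * ww K T t0 t *
        (Real.cos (t * (fr q - fr q')) * Real.cos (t * Real.log n)) := by ring
      _ = _ := by rw [h1]; ring
  have hi : ∀ q ∈ QQ T, ∀ q' ∈ QQ T, Integrable (fun t => (al R T q * al R T q' / 2) *
        (ww K T t0 t * Real.cos (t * lam n q q') +
          ww K T t0 t * Real.cos (t * lam n q' q))) := fun q _ q' _ =>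
    ((ww_integrable_cos hK hT _).add (ww_integrable_cos hK hT _)).const_mul _
  simp_rw [e1]
  rw [integral_finsetSum _ fun q hq => integrable_finsetSum _ fun q' hq' => hi q hq q' hq']
  have e3 : ∀ q ∈ QQ T, ∫ t : ℝ, ∑ q' ∈ QQ T, (al R T q * al R T q' / 2) *
        (ww K T t0 t * Real.cos (t * lam n q q') +
          ww K T t0 t * Real.cos (t * lam n q' q)) =
      ∑ q' ∈ QQ T, ((1 / 2) * (al R T q * al R T q' *
        (Wh (K / Real.log T * lam n q q') * Real.cos (t0 * lam n q q'))) +
        (1 / 2) * (al R T q' * al R T q *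
          (Wh (K / Real.log T * lam n q' q) * Real.cos (t0 * lam n q' q)))) := by
    intro q hq
    rw [integral_finsetSum _ fun q' hq' => hi q hq q' hq']
    refine sum_congr rfl fun q' _ => ?_
    rw [integral_const_mul, integral_add (ww_integrable_cos hK hT _) (ww_integrable_cos hK hT _),
      int_ww_cos hK hT, int_ww_cos hK hT]
    ring
  rw [sum_congr rfl e3]
  simp_rw [sum_add_distrib]
  have e4 : ∑ q ∈ QQ T, ∑ q' ∈ QQ T, (1 / 2) * (al R T q' * al R T q *
          (Wh (K / Real.log T * lam n q' q) * Real.cos (t0 * lam n q' q))) =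
      ∑ q ∈ QQ T, ∑ q' ∈ QQ T, ((1 / 2) * (al R T q * al R T q' *
        (Wh (K / Real.log T * lam n q q') * Real.cos (t0 * lam n q q')))) := by
    rw [sum_comm]
  rw [e4, ← two_mul, mul_sum]
  refine sum_congr rfl fun q hq => ?_
  rw [mul_sum]
  refine sum_congr rfl fun q' hq' => ?_
  ring

namespace ExpAux

/-- The frequency vanishes exactly on the diagonal. -/
lemma lam_eq_zero_iff {T : ℝ} {q q' : Finset ℕ × Finset ℕ} (hq : q ∈ QQ T) (hq' : q' ∈ QQ T)
    {n : ℕ} (hn : 0 < n) :
    lam n q q' = 0 ↔ pr q.1 * pr q'.2 = n * (pr q.2 * pr q'.1) := by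
  obtain ⟨h1, h2, h3⟩ := mem_QQ.mp hq
  obtain ⟨h1', h2', h3'⟩ := mem_QQ.mp hq'
  have q1 : (0:ℝ) < pr q.1 := by exact_mod_cast pr_pos h1
  have q2 : (0:ℝ) < pr q.2 := by exact_mod_cast pr_pos h2
  have q1' : (0:ℝ) < pr q'.1 := by exact_mod_cast pr_pos h1'
  have q2' : (0:ℝ) < pr q'.2 := by exact_mod_cast pr_pos h2'
  have qn : (0:ℝ) < n := by exact_mod_cast hn
  have e : lam n q q' = Real.log ((pr q.1 : ℝ) * pr q'.2) -
      Real.log (n * (pr q.2 * pr q'.1)) := by
    rw [Real.log_mul q1.ne' q2'.ne', Real.log_mul qn.ne' (by positivity),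
      Real.log_mul q2.ne' q1'.ne']
    unfold lam fr
    rw [ell_eq h1, ell_eq h2, ell_eq h1', ell_eq h2']
    ring
  rw [e, sub_eq_zero]
  constructor
  · intro h
    have := Real.log_injOn_pos (Set.mem_Ioi.mpr (by positivity))
      (Set.mem_Ioi.mpr (by positivity)) h
    exact_mod_cast this
  · intro h
    congr 1
    exact_mod_cast h

end ExpAux

/-- The difference of `DT` and its mean is the sum over the nonzero frequencies. -/
theorem DT_sub_mT (R : ResData) (ψ : ℝ → ℝ) {K T t0 : ℝ} (hK : 0 < K) (hT : 1 < T) :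
    DT R ψ K T t0 - mT R ψ T = ∑ x ∈ Icc 1 ⌊T⌋₊ ×ˢ (QQ T ×ˢ QQ T),
      (if lam x.1 x.2.1 x.2.2 = 0 then 0 else
        kap ψ T x.1 * (al R T x.2.1 * al R T x.2.2) * Wh (K / Real.log T * lam x.1 x.2.1 x.2.2)) *
          Real.cos (t0 * lam x.1 x.2.1 x.2.2) := by
  unfold DT mT
  rw [← sum_sub_distrib, sum_product]
  refine sum_congr rfl fun n hn => ?_
  have hn0 : 0 < n := (mem_Icc.mp hn).1
  rw [int_VL_cos R hK hT, sum_product, CC, ← mul_sub, ← sum_sub_distrib, mul_sum]
  refine sum_congr rfl fun q hq => ?_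
  rw [← sum_sub_distrib, mul_sum]
  refine sum_congr rfl fun q' hq' => ?_
  simp only
  have hl := lam_eq_zero_iff hq hq' hn0
  by_cases h : lam n q q' = 0
  · rw [if_pos h, if_pos (hl.mp h), h, mul_zero, mul_zero, Wh_zero, Real.cos_zero]
    ring
  · rw [if_neg h, if_neg (fun h' => h (hl.mpr h'))]
    ring

end Pool.Agent.TypBlk
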