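import Pool.Agent.TypBlk.Win

/-!
# The local explicit formula
-/

namespace Pool.Agent.TypBlk

open MeasureTheory Set Pool.Agent.ZGap.Res

/-- The local mean in the form of the explicit formula. -/
lemma CntAux.DT_eq (R : ResData) (ψ : ℝ → ℝ) (K : ℝ) {T : ℝ} (hT : 1 ≤ T) (t0 : ℝ) :
    DT R ψ K T t0 = (∫ t : ℝ, VL R K T t0 t) -
      (chat ψ 0 / (2 * Real.pi) * (∫ t : ℝ, VL R K T t0 t) -
        (Real.pi * Real.log T)⁻¹ * ∑ n ∈ Finset.Icc 1 ⌊T⌋₊,
          ArithmeticFunction.vonMangoldt n / Real.sqrt n *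
          chat ψ (Real.log n / Real.log T) *
            ∫ t : ℝ, VL R K T t0 t * Real.cos (t * Real.log n)) := by
  have h1 : (1 : ℕ) ∈ Finset.Icc 1 ⌊T⌋₊ := by
    rw [Finset.mem_Icc]
    exact ⟨le_refl 1, Nat.le_floor (by simpa using hT)⟩
  unfold DT
  rw [Finset.mul_sum, ← Finset.add_sum_erase _ _ h1, ← Finset.add_sum_erase _ _ h1]
  have h2 : ∀ n ∈ (Finset.Icc 1 ⌊T⌋₊).erase 1,
      kap ψ T n * ∫ t : ℝ, VL R K T t0 t * Real.cos (t * Real.log n) =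
      (Real.pi * Real.log T)⁻¹ * (ArithmeticFunction.vonMangoldt n / Real.sqrt n *
          chat ψ (Real.log n / Real.log T) *
            ∫ t : ℝ, VL R K T t0 t * Real.cos (t * Real.log n)) := by
    intro n hn
    rw [Finset.mem_erase] at hn
    unfold kap
    rw [if_neg hn.1]
    ring
  rw [Finset.sum_congr rfl h2]
  have h3 : kap ψ T 1 = 1 - chat ψ 0 / (2 * Real.pi) := if_pos rfl
  have h4 : ∫ t : ℝ, VL R K T t0 t * Real.cos (t * Real.log ((1 : ℕ) : ℝ)) =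
      ∫ t : ℝ, VL R K T t0 t := by
    refine integral_congr_ae (Filter.Eventually.of_forall fun t => ?_)
    simp
  rw [h3, h4, ArithmeticFunction.vonMangoldt_apply_one]
  ring

/-- The local mean of `‖Amp‖² (1 - NC ψ)` (RH). -/
theorem exists_cnt (hRH : RiemannHypothesis) (R : ResData) (hF : ∀ x, 0 ≤ x → R.F x ≤ 1)
    (hth : R.th < 1 / 4) {ψ : ℝ → ℝ} (hψ : RS ψ) {K : ℝ} (hK : 4 ≤ K) :
    ∃ C T0 : ℝ, 0 < C ∧ Real.exp 3 ≤ T0 ∧ ∀ T : ℝ, T0 ≤ T → ∀ t0 ∈ Icc T (2 * T),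
      |(∫ t : ℝ, VL R K T t0 t) - (∫ t : ℝ, VL R K T t0 t * NC ψ T t) - DT R ψ K T t0| ≤
        C / Real.log T * (∫ t : ℝ, VL R K T t0 t) + C / T := by
  obtain ⟨C, T0, hC, hT0, h⟩ := exists_count hRH hψ (β := 3 / 4) (by norm_num) (by norm_num)
  obtain ⟨T1, hT1, hV⟩ := exists_win R hF hth hK
  refine ⟨C, max T0 T1, hC, hT1.trans (le_max_right _ _), fun T hT t0 ht0 => ?_⟩
  have hTT0 : T0 ≤ T := (le_max_left _ _).trans hT
  have hTT1 : T1 ≤ T := (le_max_right _ _).trans hT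
  have hTe : Real.exp 3 ≤ T := hT1.trans hTT1
  have h1T : 1 < T := lt_of_lt_of_le (Real.one_lt_exp_iff.mpr (by norm_num)) hTe
  have hTp : 0 < T := by linarith
  have hL : 0 < Real.log T := Real.log_pos h1T
  obtain ⟨⟨M, hWt⟩, hdec, hband⟩ := hV T hTT1 t0 ht0
  have h1 := h T hTT0 (VL R K T t0) M hWt hdec hband ⌊T⌋₊ (by
    have e1 : Real.exp (3 / 4 * Real.log T) ≤ T := by
      calc _ ≤ Real.exp (1 * Real.log T) := Real.exp_le_exp.mpr (by nlinarith)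
        _ = T := by rw [one_mul, Real.exp_log hTp]
    exact e1.trans (Nat.lt_floor_add_one T).le) (Nat.floor_le hTp.le)
  rw [CntAux.DT_eq R ψ K h1T.le t0]
  rw [abs_sub_comm] at h1
  refine le_trans (le_of_eq ?_) h1
  congr 1
  ring

end Pool.Agent.TypBlk
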