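import Pool.Agent.ZGap.Res.Void
import Pool.Agent.ZGap.Res.SmallGaps

/-!
# Typical blocks of gaps: definitions
-/

namespace Pool.Agent.TypBlk

open MeasureTheory Pool.Agent.ZGap.Res

/-- The window weight of width `K / log T` centred at `t0`. -/
noncomputable def ww (K T t0 t : ℝ) : ℝ :=
  Real.log T / K * WW ((t - t0) * (Real.log T / K))

/-- The resonated window weight. -/
noncomputable def VL (R : ResData) (K T t0 t : ℝ) : ℝ := ww K T t0 t * ‖Amp R T t‖ ^ 2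

/-- The cosine transform of `WW`. -/
noncomputable def Wh (ξ : ℝ) : ℝ := ∫ s : ℝ, WW s * Real.cos (ξ * s)

/-- The frequency of a term. -/
noncomputable def lam (n : ℕ) (q q' : Finset ℕ × Finset ℕ) : ℝ := fr q - fr q' - Real.log n

/-- The coefficients of `1 - NC ψ`. -/
noncomputable def kap (ψ : ℝ → ℝ) (T : ℝ) (n : ℕ) : ℝ :=
  if n = 1 then 1 - chat ψ 0 / (2 * Real.pi)
  else (Real.pi * Real.log T)⁻¹ * (ArithmeticFunction.vonMangoldt n / Real.sqrt n *
    chat ψ (Real.log n / Real.log T))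

/-- The local mean of `‖Amp‖² (1 - NC ψ)`, up to a small error. -/
noncomputable def DT (R : ResData) (ψ : ℝ → ℝ) (K T t0 : ℝ) : ℝ :=
  ∑ n ∈ Finset.Icc 1 ⌊T⌋₊, kap ψ T n * ∫ t : ℝ, VL R K T t0 t * Real.cos (t * Real.log n)

/-- The mean value of `DT`. -/
noncomputable def mT (R : ResData) (ψ : ℝ → ℝ) (T : ℝ) : ℝ :=
  ∑ n ∈ Finset.Icc 1 ⌊T⌋₊, kap ψ T n * CC R T n

/-- All prime factors lie in `(T ^ ep, T]`. -/
def Rg (R : ResData) (T : ℝ) (m : ℕ) : Prop :=
  0 < m ∧ ∀ p : ℕ, p.Prime → p ∣ m → R.ep * Real.log T < Real.log p ∧ (p : ℝ) ≤ T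

/-- The bound of the coefficients `kap`, up to a constant. -/
noncomputable def kb (T : ℝ) (n : ℕ) : ℝ :=
  if n = 1 then 1 else ArithmeticFunction.vonMangoldt n / (Real.sqrt n * Real.log T)

open Classical in
/-- The coefficient of a ratio, for given `n`. -/
noncomputable def ee (R : ResData) (T : ℝ) (n a b : ℕ) : ℝ :=
  ∑ q ∈ QQ T, ∑ q' ∈ QQ T,
    if pr q.1 * pr q'.2 * b = n * (pr q.2 * pr q'.1) * a then |al R T q| * |al R T q'| else 0

open Classical in
/-- The same sum over pairs of rough numbers. -/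
noncomputable def hh (R : ResData) (T : ℝ) (n a b : ℕ) : ℝ :=
  ∑ H ∈ Finset.Icc 1 ⌊T⌋₊, ∑ M ∈ Finset.Icc 1 ⌊T⌋₊,
    if Rg R T H ∧ Rg R T M ∧ H * b = n * M * a then 1 / Real.sqrt (H * M) else 0

open Classical in
/-- The weight of the denominator. -/
noncomputable def ZZ (R : ResData) (T : ℝ) (b : ℕ) : ℝ :=
  (if Rg R T b then 1 else 0) + ∑ n ∈ Finset.Icc 1 ⌊T⌋₊,
    if n ∣ b ∧ Rg R T (b / n) ∧ ¬ Rg R T n then ArithmeticFunction.vonMangoldt n / Real.log T else 0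

end Pool.Agent.TypBlk
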