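import Pool.Agent.ZetaGaps.ClusterRuns
import Pool.Agent.ZetaGaps.VoidCount

/-!
# Bad blocks contain no good window
-/

namespace Pool.Agent.TypBlk

open MeasureTheory Real Set Pool.Agent.Hadamard Pool.Agent.ZetaGaps

/-- A block with no large gap contains no void window. -/
theorem exists_badV (hRH : RiemannHypothesis) {c d : ℝ} (hc : 0 < c) (hd : d < c) :
    ∃ T1 : ℝ, ∀ T : ℝ, T1 ≤ T → ∀ n m : ℕ, 1 ≤ n → (∀ j < m, gap (n + j) ≤ d) →
      T ≤ ordinate n → ∀ t : ℝ, ordinate n ≤ t - π * c / Real.log T →
      t + π * c / Real.log T < ordinate (n + m) → t + π * c / Real.log T ≤ 3 * T →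
      ¬ ∀ ρ ∈ ntz, π * c / Real.log T < |ρ.im - t| := by
  refine ⟨2, fun T hT n m hn hgap hTn t ht1 ht2 _ hvoid => ?_⟩
  have hT0 : 0 < T := by linarith
  have hL0 : 0 < Real.log T := Real.log_pos (by linarith)
  have hw0 : 0 < π * c / Real.log T := by positivity
  set k := zeroCount t with hk
  have hnk : n ≤ k := (le_zeroCount_iff (zeroCount_unbounded n) hn).mpr (by linarith)
  have hk1 : 1 ≤ k := hn.trans hnk
  have hkm : k < n + m := by
    by_contra hcon
    push Not at hcon
    have := (le_zeroCount_iff (zeroCount_unbounded (n + m)) (by omega)).mp hcon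
    linarith
  have h1 : ordinate k ≤ t := (le_zeroCount_iff (zeroCount_unbounded k) hk1).mp le_rfl
  have h2 : t < ordinate (k + 1) := by
    by_contra hcon
    push Not at hcon
    have := (le_zeroCount_iff (zeroCount_unbounded (k + 1)) (by omega)).mpr hcon
    omega
  have h3 : T ≤ ordinate k := hTn.trans (ordinate_mono (zeroCount_unbounded k) hn hnk)
  obtain ⟨ρ, hρ, hρ2⟩ := exists_zero_ordinate (zeroCount_unbounded k) hk1
  obtain ⟨ρ', hρ', hρ2'⟩ := exists_zero_ordinate (zeroCount_unbounded (k + 1)) (by omega)
  have h4 := hvoid ρ hρ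
  have h5 := hvoid ρ' hρ'
  rw [hρ2, abs_sub_comm, abs_of_nonneg (by linarith)] at h4
  rw [hρ2', abs_of_nonneg (by linarith)] at h5
  have h6 : 2 * (π * c / Real.log T) < ordinate (k + 1) - ordinate k := by linarith
  have h7 := gap_ge hk1
  have h8 : Real.log T ≤ Real.log (ordinate k) := Real.log_le_log hT0 h3
  have h9 : gap k ≤ d := by
    have := hgap (k - n) (by omega)
    rwa [Nat.add_sub_cancel' hnk] at this
  have hpi := Real.pi_pos
  have e1 : 2 * (π * c / Real.log T) * Real.log T < 2 * π * gap k := by
    refine lt_of_lt_of_le ?_ h7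
    calc 2 * (π * c / Real.log T) * Real.log T < (ordinate (k + 1) - ordinate k) * Real.log T := by
          gcongr
      _ ≤ _ := by
          have : 0 ≤ ordinate (k + 1) - ordinate k := by linarith
          gcongr
  have e3 : 2 * (π * c / Real.log T) * Real.log T = 2 * π * c := by
    rw [mul_assoc, div_mul_cancel₀ _ hL0.ne']; ring
  rw [e3] at e1
  have e4 : c < gap k := lt_of_mul_lt_mul_left e1 (by positivity)
  linarith

/-- A block with no small gap contains no crowded window. -/
theorem exists_badC (hRH : RiemannHypothesis) {c d : ℝ} (hc : 0 < c) (hd : c < d) :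
    ∃ T1 : ℝ, ∀ T : ℝ, T1 ≤ T → ∀ n m : ℕ, 1 ≤ n → (∀ j < m, d ≤ gap (n + j)) →
      T ≤ ordinate n → ∀ t : ℝ, ordinate n ≤ t - π * c / Real.log T →
      t + π * c / Real.log T < ordinate (n + m) → t + π * c / Real.log T ≤ 3 * T →
      ¬ zeroCount (t - π * c / Real.log T) + 2 ≤ zeroCount (t + π * c / Real.log T) := by
  refine ⟨max 2 (Real.exp (c * 4 / (d - c))),
    fun T hT n m hn hgap hTn t ht1 ht2 ht3 hcr => ?_⟩
  have hT2 : 2 ≤ T := (le_max_left _ _).trans hT
  have hT0 : 0 < T := by linarith
  have hdc : 0 < d - c := by linarith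
  have hlogT : c * 4 / (d - c) ≤ Real.log T := by
    rw [Real.le_log_iff_exp_le hT0]
    exact (le_max_right _ _).trans hT
  have hL0 : 0 < Real.log T := Real.log_pos (by linarith)
  set L := Real.log T with hL
  set w := π * c / L with hw
  have hpi := Real.pi_pos
  have hw0 : 0 < w := by positivity
  set k := zeroCount (t - w) + 1 with hk
  have hnk : n ≤ k := by
    have := (le_zeroCount_iff (zeroCount_unbounded n) hn).mpr ht1
    omega
  have hk1 : 1 ≤ k := hn.trans hnk
  have h1 : t - w < ordinate k := by
    by_contra hcon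
    push Not at hcon
    have := (le_zeroCount_iff (zeroCount_unbounded k) hk1).mpr hcon
    omega
  have h2 : ordinate (k + 1) ≤ t + w :=
    (le_zeroCount_iff (zeroCount_unbounded (k + 1)) (by omega)).mp (by omega)
  have h3 := ordinate_mono (zeroCount_unbounded (k + 1)) hk1 (show k ≤ k + 1 by omega)
  have hkm : k < n + m := by
    by_contra hcon
    push Not at hcon
    have h4 := ordinate_mono (zeroCount_unbounded (k + 1)) (show 1 ≤ n + m by omega)
      (show n + m ≤ k + 1 by omega)
    linarith
  have h5 := gap_le hk1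
  have hpos := ordinate_pos (zeroCount_unbounded (k + 1)) (show 1 ≤ k + 1 by omega)
  have h6 : Real.log (ordinate (k + 1)) ≤ L + 2 := by
    have h7 : ordinate (k + 1) ≤ 3 * T := by linarith
    have h8 := Real.log_le_log hpos h7
    rw [Real.log_mul (by norm_num) hT0.ne'] at h8
    have h9 : Real.log 3 ≤ 2 := by
      have := Real.log_le_sub_one_of_pos (show (0:ℝ) < 3 by norm_num)
      linarith
    linarith
  have h9 : gap k < d := by
    have e1 : (ordinate (k + 1) - ordinate k) * (Real.log (ordinate (k + 1)) + 1) ≤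
        2 * w * (L + 3) := by
      have e2 : 0 ≤ ordinate (k + 1) - ordinate k := by linarith
      calc _ ≤ (ordinate (k + 1) - ordinate k) * (L + 3) := by
            apply mul_le_mul_of_nonneg_left (by linarith) e2
        _ ≤ _ := by
            apply mul_le_mul_of_nonneg_right (by linarith) (by linarith)
    have e3 : gap k ≤ 2 * w * (L + 3) / (2 * π) := by
      refine h5.trans ?_
      exact div_le_div_of_nonneg_right e1 (by positivity)
    have e4 : 2 * w * (L + 3) / (2 * π) = c + c * 3 / L := by
      rw [hw]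
      field_simp
    have e5 : c * 4 / L ≤ d - c := by
      rw [div_le_iff₀ (by linarith)] at hlogT
      rw [div_le_iff₀ hL0]
      linarith
    have e6 : c * 3 / L < c * 4 / L := by
      apply div_lt_div_of_pos_right _ hL0
      linarith
    linarith
  have h10 : d ≤ gap k := by
    have := hgap (k - n) (by omega)
    rwa [Nat.add_sub_cancel' hnk] at this
  linarith

end Pool.Agent.TypBlk
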