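import Pool.Agent.ZetaGaps.ClusterRuns
import Pool.Agent.ZetaGaps.VoidCount

/-!
# From windows to blocks of consecutive gaps
-/

namespace Pool.Agent.TypBlk

open MeasureTheory Real Set Pool.Agent.Hadamard Pool.Agent.ZetaGaps

namespace BlkAux

/-- Multiplicity at most `m`. -/
lemma card_mul_le {m : ℕ} (hm : 1 ≤ m) {R : ℝ} (hR : 0 < R) (A : Finset ℕ) {S : Set ℝ}
    (hS : volume S ≠ ⊤) (hA : ∀ n ∈ A, 1 ≤ n ∧ 4 * R ≤ ordinate (n + m) - ordinate n ∧
      Set.Icc (ordinate n + R) (ordinate n + 2 * R) ⊆ S) :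
    (A.card : ℝ) * R ≤ m * volume.real S := by
  classical
  have hj : ∀ j ∈ Finset.range m,
      ((A.filter (fun n => n % m = j)).card : ℝ) * R ≤ volume.real S := by
    intro j _
    set Aj := A.filter (fun n => n % m = j) with hAj
    have hsub : (⋃ n ∈ Aj, Set.Icc (ordinate n + R) (ordinate n + 2 * R)) ⊆ S := by
      intro t ht
      simp only [Set.mem_iUnion, exists_prop] at ht
      obtain ⟨n, hn, ht⟩ := ht
      exact (hA n (Finset.mem_filter.mp hn).1).2.2 ht
    have hlt : ∀ a ∈ Aj, ∀ b ∈ Aj, a < b →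
        Disjoint (Set.Icc (ordinate a + R) (ordinate a + 2 * R))
          (Set.Icc (ordinate b + R) (ordinate b + 2 * R)) := by
      intro a ha b hb hab
      rw [Set.disjoint_left]
      intro t ht1 ht2
      rw [hAj, Finset.mem_filter] at ha hb
      have hmod : a + m ≤ b := by
        have h1 : b % m = a % m := by rw [ha.2, hb.2]
        have h2 := Nat.div_add_mod a m
        have h3 := Nat.div_add_mod b m
        have h4 : a / m < b / m := by
          by_contra hcon
          push Not at hcon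
          have := Nat.mul_le_mul_left m hcon
          omega
        have h5 : m * (a / m + 1) ≤ m * (b / m) := Nat.mul_le_mul_left m h4
        have h6 : m * (a / m + 1) = m * (a / m) + m := by ring
        omega
      have h1 := ordinate_mono (zeroCount_unbounded b) (show 1 ≤ a + m by omega) hmod
      have h2 := (hA a ha.1).2.1
      linarith [ht1.2, ht2.1]
    have hvol : volume (⋃ n ∈ Aj, Set.Icc (ordinate n + R) (ordinate n + 2 * R)) =
        ENNReal.ofReal (Aj.card * R) := by
      rw [measure_biUnion_finset _ (fun n _ => measurableSet_Icc)]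
      · have h1 : ∀ n ∈ Aj, volume (Set.Icc (ordinate n + R) (ordinate n + 2 * R)) =
            ENNReal.ofReal R := by
          intro n _
          rw [Real.volume_Icc]
          congr 1
          ring
        rw [Finset.sum_congr rfl h1, Finset.sum_const, nsmul_eq_mul,
          ENNReal.ofReal_mul (Nat.cast_nonneg _), ENNReal.ofReal_natCast]
      · intro a ha b hb hab
        rcases lt_or_gt_of_ne hab with h | h
        · exact hlt a ha b hb h
        · exact (hlt b hb a ha h).symm
    have h1 := measure_mono (μ := volume) hsub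
    rw [hvol] at h1
    exact (ENNReal.ofReal_le_iff_le_toReal hS).mp h1
  have h1 := Finset.sum_le_sum hj
  rw [← Finset.sum_mul, Finset.sum_const, Finset.card_range, nsmul_eq_mul] at h1
  refine le_trans (le_of_eq ?_) h1
  congr 1
  have h2 := Finset.card_eq_sum_card_fiberwise (f := fun n => n % m) (s := A)
    (t := Finset.range m) (fun n _ => by
      simp only [Finset.coe_range, Set.mem_Iio]
      exact Nat.mod_lt _ (by omega))
  rw [h2]
  push_cast
  rfl

/-- A block which is not short in normalised length is long. -/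
lemma long_of {n m : ℕ} (hn : 1 ≤ n) {T c a r : ℝ} (hc : 0 < c) (ha : a = c / 4)
    (hr : 0 ≤ r) (hrm : 8 * r ≤ c * m) (hm : 1 ≤ m) (hT : 1 ≤ T) (hL : 2 ≤ Real.log T)
    (hT2 : 8 * ((a * m + r) / Real.log T) ≤ T) (h1 : T ≤ ordinate n)
    (h2 : ordinate n ≤ 3 / 2 * T)
    (hs : c * m < ∑ i ∈ Finset.range m, gap (n + i)) :
    4 * ((a * m + r) / Real.log T) ≤ ordinate (n + m) - ordinate n := by
  by_contra hcon
  push Not at hcon
  have hm0 : (0:ℝ) < m := by exact_mod_cast hm
  have e1 : ∑ i ∈ Finset.range m, gap (n + i) = normOrdinate (n + m) - normOrdinate n := by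
    have := Finset.sum_range_sub (fun i => normOrdinate (n + i)) m
    simpa [gap, add_assoc] using this
  rw [e1] at hs
  have hpi := Real.pi_gt_three
  have h3 := ordinate_mono (zeroCount_unbounded (n + m)) hn (show n ≤ n + m by omega)
  have h4 := mul_log_sub_le (ordinate_pos (zeroCount_unbounded n) hn) h3
  have h5 : 2 * Real.pi * (c * m) < ordinate (n + m) * Real.log (ordinate (n + m)) -
      ordinate n * Real.log (ordinate n) := by
    have h6 : normOrdinate (n + m) - normOrdinate n = (ordinate (n + m) *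
        Real.log (ordinate (n + m)) - ordinate n * Real.log (ordinate n)) / (2 * Real.pi) := by
      unfold normOrdinate
      rw [sub_div]
    rw [h6, lt_div_iff₀ (by positivity)] at hs
    linarith
  have h6 : ordinate (n + m) ≤ 2 * T := by linarith
  have h7 : Real.log (ordinate (n + m)) ≤ Real.log T + 1 := by
    have h8 := Real.log_le_log (by linarith : 0 < ordinate (n + m)) h6
    rw [Real.log_mul (by norm_num) (by linarith)] at h8
    have := Real.log_two_lt_d9
    linarith
  set L := Real.log T with hLd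
  have hL0 : 0 < L := by linarith
  have h9 : (ordinate (n + m) - ordinate n) * (Real.log (ordinate (n + m)) + 1) ≤
      4 * ((a * m + r) / L) * (2 * L) := by
    have h10 : 0 ≤ ordinate (n + m) - ordinate n := by linarith
    have hnn : 0 ≤ 4 * ((a * m + r) / L) := by
      rw [ha]; positivity
    exact mul_le_mul hcon.le (by linarith) (by
      have : 0 ≤ Real.log (ordinate (n + m)) := Real.log_nonneg (by linarith)
      linarith) hnn
  have h10 : 4 * ((a * m + r) / L) * (2 * L) = 8 * (a * m + r) := by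
    field_simp
    ring
  rw [h10, ha] at h9
  have hcm : 0 < c * m := mul_pos hc hm0
  nlinarith

end BlkAux

open Classical in
/-- The abstract conversion: `B n m` is the property that the block of the `m` gaps after the
`n`-th ordinate is bad, `G T t` that the window of centre `t` is good at height `T`. -/
theorem blocks_of_good (hRH : RiemannHypothesis) {G : ℝ → ℝ → Prop} {B : ℕ → ℕ → Prop}
    {r η C K0 T1 : ℝ} (hr : 0 ≤ r) (hη : 0 < η) (hC : 0 < C) (hK0 : 1 ≤ K0)
    (hgood : ∀ K : ℝ, K0 ≤ K → ∃ T0 : ℝ, ∀ T : ℝ, T0 ≤ T →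
      volume.real {t0 : ℝ | t0 ∈ Set.Icc T (2 * T) ∧ ¬ ∃ t : ℝ,
        |t - t0| ≤ K ^ (1 + η) / Real.log T ∧ G T t} ≤ C * T / K)
    (hbad : ∀ T : ℝ, T1 ≤ T → ∀ n m : ℕ, 1 ≤ n → B n m → T ≤ ordinate n →
      ∀ t : ℝ, ordinate n ≤ t - r / Real.log T → t + r / Real.log T < ordinate (n + m) →
      t + r / Real.log T ≤ 3 * T → ¬ G T t) :
    ∃ C' : ℝ, ∀ m : ℕ, 1 ≤ m → ∃ N0 : ℕ, ∀ N : ℕ, N0 ≤ N →
      (((Finset.Icc 1 N).filter (fun n => B n m)).card : ℝ) ≤ C' * (m : ℝ) ^ (-(1 / (1 + η))) * N := by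
  classical
  obtain ⟨c, hc, m0, hruns⟩ := clusterTail_runs hRH (1 / 2) (by norm_num)
  obtain ⟨T0', hcl⟩ := exists_countLower hRH
  set a : ℝ := c / 4 with ha
  have ha0 : 0 < a := by positivity
  set β : ℝ := 1 / (1 + η) with hβ
  have hβ0 : 0 < β := by positivity
  have hβ1 : β ≤ 1 := by
    rw [hβ, div_le_one (by linarith)]; linarith
  obtain ⟨m1, hm1⟩ := exists_nat_ge (max (max 2 (8 * r / c)) (K0 ^ (1 + η) / a))
  have hm1a : (2:ℝ) ≤ m1 := ((le_max_left _ _).trans (le_max_left _ _)).trans hm1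
  have hm1b : 8 * r / c ≤ m1 := ((le_max_right _ _).trans (le_max_left _ _)).trans hm1
  have hm1c : K0 ^ (1 + η) / a ≤ m1 := (le_max_right _ _).trans hm1
  set m2 : ℕ := max m1 m0 with hm2
  have hm2pos : (0:ℝ) < m2 := by
    have : (m1:ℝ) ≤ m2 := by exact_mod_cast le_max_left _ _
    linarith
  set C1 : ℝ := 2 + 128 * (C / a * a ^ (-β)) with hC1
  have hC1pos : 0 < C1 := by positivity
  refine ⟨max ((m2:ℝ) ^ β) C1, fun m hm => ?_⟩
  have hm0 : (0:ℝ) < m := by exact_mod_cast hm
  have hmβ : 0 < (m:ℝ) ^ (-β) := Real.rpow_pos_of_pos hm0 _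
  rcases lt_or_ge m m2 with hmm | hmm
  · -- small `m`
    refine ⟨0, fun N _ => ?_⟩
    have h1 : (((Finset.Icc 1 N).filter (fun n => B n m)).card : ℝ) ≤ N := by
      have := Finset.card_filter_le (Finset.Icc 1 N) (fun n => B n m)
      rw [Nat.card_Icc, Nat.add_sub_cancel] at this
      exact_mod_cast this
    have h2 : 1 ≤ max ((m2:ℝ) ^ β) C1 * (m : ℝ) ^ (-β) := by
      have h3 : (m:ℝ) ^ β ≤ (m2:ℝ) ^ β :=
        Real.rpow_le_rpow hm0.le (by exact_mod_cast hmm.le) hβ0.le
      have h4 : (m:ℝ) ^ β * (m:ℝ) ^ (-β) = 1 := by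
        rw [← Real.rpow_add hm0]; simp
      calc (1:ℝ) = (m:ℝ) ^ β * (m:ℝ) ^ (-β) := h4.symm
        _ ≤ _ := mul_le_mul_of_nonneg_right (h3.trans (le_max_left _ _)) hmβ.le
    calc _ ≤ (N:ℝ) := h1
      _ = 1 * N := (one_mul _).symm
      _ ≤ _ := mul_le_mul_of_nonneg_right h2 (Nat.cast_nonneg _)
  -- large `m`
  have hmm1 : (m1:ℝ) ≤ m := by exact_mod_cast (le_max_left _ _).trans hmm
  have hmm0 : m0 ≤ m := (le_max_right _ _).trans hmm
  have hm2' : (2:ℝ) ≤ m := hm1a.trans hmm1
  have hrm : 8 * r ≤ c * m := by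
    have := hm1b.trans hmm1
    rw [div_le_iff₀ hc] at this
    linarith
  set K : ℝ := (a * m) ^ β with hK
  have ham : 0 < a * m := by positivity
  have hKpos : 0 < K := Real.rpow_pos_of_pos ham _
  have hKpow : K ^ (1 + η) = a * m := by
    rw [hK, ← Real.rpow_mul ham.le, hβ, one_div, inv_mul_cancel₀ (by linarith), Real.rpow_one]
  have hKK0 : K0 ≤ K := by
    have h1 : K0 ^ (1 + η) ≤ K ^ (1 + η) := by
      rw [hKpow]
      have := hm1c.trans hmm1
      rw [div_le_iff₀ ha0] at this
      linarith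
    exact (Real.rpow_le_rpow_iff (by linarith) hKpos.le (by linarith)).mp h1
  obtain ⟨T0, hT0⟩ := hgood K hKK0
  -- thresholds
  have hev : ∀ᶠ T : ℝ in Filter.atTop, T0 ≤ T ∧ T1 ≤ T ∧ 1 ≤ T ∧ 2 ≤ Real.log T ∧
      8 * (a * m + r) ≤ T := by
    refine (Filter.eventually_ge_atTop _).and ((Filter.eventually_ge_atTop _).and
      ((Filter.eventually_ge_atTop _).and
      ((Real.tendsto_log_atTop.eventually_ge_atTop _).and (Filter.eventually_ge_atTop _))))
  obtain ⟨T4, hT4⟩ := Filter.eventually_atTop.mp hev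
  -- the count at one height
  set P : ℕ → Prop := fun n => B n m ∧ c * m < ∑ i ∈ Finset.range m, gap (n + i) with hP
  set X : ℝ := C / (a * K) with hX
  have hX0 : 0 < X := by positivity
  have hone : ∀ N : ℕ, ∀ T : ℝ, T4 ≤ T →
      (((Finset.Icc 1 N).filter (fun n => P n ∧ T ≤ ordinate n ∧
        ordinate n ≤ 3 / 2 * T)).card : ℝ) ≤ X * (T * Real.log T) := by
    intro N T hT
    obtain ⟨g1, g2, g3, g4, g5⟩ := hT4 T hT
    set L := Real.log T with hL
    have hL0 : 0 < L := by linarith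
    set R : ℝ := (a * m + r) / L with hR
    have hR0 : 0 < R := by positivity
    have hRT : 8 * R ≤ T := by
      rw [hR, ← mul_div_assoc, div_le_iff₀ hL0]
      nlinarith
    set A := (Finset.Icc 1 N).filter (fun n => P n ∧ T ≤ ordinate n ∧
      ordinate n ≤ 3 / 2 * T) with hA
    set S : Set ℝ := {t0 : ℝ | t0 ∈ Set.Icc T (2 * T) ∧ ¬ ∃ t : ℝ,
        |t - t0| ≤ K ^ (1 + η) / L ∧ G T t} with hS
    have hStop : volume S ≠ ⊤ := by
      have h1 : S ⊆ Set.Icc T (2 * T) := fun t ht => ht.1
      refine ne_top_of_le_ne_top ?_ (measure_mono h1)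
      rw [Real.volume_Icc]; exact ENNReal.ofReal_ne_top
    have hmain := BlkAux.card_mul_le hm hR0 A hStop (by
      intro n hn
      rw [hA, Finset.mem_filter, Finset.mem_Icc] at hn
      obtain ⟨⟨hn1, _⟩, ⟨hB, hlong⟩, h1, h2⟩ := hn
      have h3 := BlkAux.long_of hn1 hc ha hr hrm hm g3 g4 hRT h1 h2 hlong
      refine ⟨hn1, h3, ?_⟩
      rintro t0 ⟨ht1, ht2⟩
      refine ⟨⟨by linarith, by linarith⟩, ?_⟩
      rintro ⟨t, ht, hG⟩
      rw [hKpow] at ht
      obtain ⟨ht3, ht4⟩ := abs_le.mp ht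
      have hRe : R = a * m / L + r / L := by rw [hR, add_div]
      exact hbad T g2 n m hn1 hB h1 t (by linarith) (by linarith) (by linarith) hG)
    have hb := hT0 T g1
    have h1 : (A.card : ℝ) * R ≤ m * (C * T / K) :=
      hmain.trans (mul_le_mul_of_nonneg_left hb (Nat.cast_nonneg _))
    have h2 : (A.card : ℝ) * (a * m / L) ≤ m * (C * T / K) := by
      refine le_trans (mul_le_mul_of_nonneg_left ?_ (Nat.cast_nonneg _)) h1
      rw [hR]
      exact div_le_div_of_nonneg_right (by linarith) hL0.le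
    have h3 : X * (T * L) * (a * m / L) = m * (C * T / K) := by
      rw [hX]
      field_simp
    rw [← h3] at h2
    exact le_of_mul_le_mul_right h2 (by positivity)
  -- summation over the heights
  obtain ⟨g1, g2, g3, g4, g5⟩ := hT4 T4 le_rfl
  set T3 : ℝ := 3 / 2 * T4 with hT3
  have hsum : ∀ N : ℕ, ∀ k : ℕ, ∀ U : ℝ, T4 ≤ U → U ≤ T3 * (3 / 2) ^ k →
      (((Finset.Icc 1 N).filter (fun n => P n ∧ T3 < ordinate n ∧
        ordinate n ≤ U)).card : ℝ) ≤ 2 * X * (U * Real.log U) := by
    intro N k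
    induction k with
    | zero =>
      intro U hU1 hU2
      rw [pow_zero, mul_one] at hU2
      have h1 : (Finset.Icc 1 N).filter (fun n => P n ∧ T3 < ordinate n ∧ ordinate n ≤ U) = ∅ := by
        rw [Finset.filter_eq_empty_iff]
        rintro n _ ⟨_, h2, h3⟩
        linarith
      rw [h1, Finset.card_empty, Nat.cast_zero]
      have : 0 ≤ Real.log U := Real.log_nonneg (by linarith)
      have : 0 ≤ U := by linarith
      positivity
    | succ k ih =>
      intro U hU1 hU2
      have hU0 : 0 < U := by linarith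
      have hlU : 0 ≤ Real.log U := Real.log_nonneg (by linarith)
      rcases le_or_gt U T3 with hU3 | hU3
      · have h1 : (Finset.Icc 1 N).filter (fun n => P n ∧ T3 < ordinate n ∧ ordinate n ≤ U) = ∅ := by
          rw [Finset.filter_eq_empty_iff]
          rintro n _ ⟨_, h2, h3⟩
          linarith
        rw [h1, Finset.card_empty, Nat.cast_zero]
        positivity
      set V : ℝ := 2 / 3 * U with hV
      have hV4 : T4 ≤ V := by rw [hV]; linarith
      have hVk : V ≤ T3 * (3 / 2) ^ k := by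
        rw [pow_succ] at hU2
        rw [hV]; linarith
      have h1 := ih V hV4 hVk
      have h2 := hone N V hV4
      have hlV : Real.log V ≤ Real.log U := Real.log_le_log (by linarith) (by rw [hV]; linarith)
      have hVl : V * Real.log V ≤ 2 / 3 * (U * Real.log U) := by
        have : V * Real.log V ≤ V * Real.log U := mul_le_mul_of_nonneg_left hlV (by linarith)
        rw [hV] at this ⊢
        linarith
      have hsub : (Finset.Icc 1 N).filter (fun n => P n ∧ T3 < ordinate n ∧ ordinate n ≤ U) ⊆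
          (Finset.Icc 1 N).filter (fun n => P n ∧ T3 < ordinate n ∧ ordinate n ≤ V) ∪
          (Finset.Icc 1 N).filter (fun n => P n ∧ V ≤ ordinate n ∧ ordinate n ≤ 3 / 2 * V) := by
        intro n hn
        rw [Finset.mem_filter] at hn
        obtain ⟨hn1, hn2, hn3, hn4⟩ := hn
        rw [Finset.mem_union, Finset.mem_filter, Finset.mem_filter]
        rcases le_or_gt (ordinate n) V with h | h
        · exact Or.inl ⟨hn1, hn2, hn3, h⟩
        · exact Or.inr ⟨hn1, hn2, h.le, by rw [hV]; linarith⟩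
      have h3 := (Finset.card_le_card hsub).trans (Finset.card_union_le _ _)
      have h4 : (((Finset.Icc 1 N).filter (fun n => P n ∧ T3 < ordinate n ∧
          ordinate n ≤ U)).card : ℝ) ≤
          (((Finset.Icc 1 N).filter (fun n => P n ∧ T3 < ordinate n ∧
          ordinate n ≤ V)).card : ℝ) +
          (((Finset.Icc 1 N).filter (fun n => P n ∧ V ≤ ordinate n ∧
          ordinate n ≤ 3 / 2 * V)).card : ℝ) := by exact_mod_cast h3
      have h5 : 2 * X * (V * Real.log V) ≤ 2 * X * (2 / 3 * (U * Real.log U)) :=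
        mul_le_mul_of_nonneg_left hVl (by positivity)
      have h6 : X * (V * Real.log V) ≤ X * (2 / 3 * (U * Real.log U)) :=
        mul_le_mul_of_nonneg_left hVl hX0.le
      linarith
  -- the final count
  have hevN : ∀ᶠ N : ℕ in Filter.atTop, max (max T4 4) (2 * T0') ≤ ordinate N ∧ 1 ≤ N ∧
      (zeroCount T3 : ℝ) * (m:ℝ) ^ β ≤ N := by
    refine (tendsto_ordinate.eventually_ge_atTop _).and ((Filter.eventually_ge_atTop _).and ?_)
    exact tendsto_natCast_atTop_atTop.eventually_ge_atTop _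
  obtain ⟨N0, hN0⟩ := Filter.eventually_atTop.mp hevN
  refine ⟨N0, fun N hN => ?_⟩
  obtain ⟨h1, h2, h3⟩ := hN0 N hN
  have h1a : T4 ≤ ordinate N := ((le_max_left _ _).trans (le_max_left _ _)).trans h1
  have h1b : 4 ≤ ordinate N := ((le_max_right _ _).trans (le_max_left _ _)).trans h1
  have h1c : 2 * T0' ≤ ordinate N := (le_max_right _ _).trans h1
  have hNlog := ordinate_mul_log_le (by norm_num) hcl h2 h1b h1c
  have hN0' : (0:ℝ) < N := by exact_mod_cast h2
  -- three parts
  have hsub : (Finset.Icc 1 N).filter (fun n => B n m) ⊆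
      ((Finset.Icc 1 N).filter (fun n => ∑ i ∈ Finset.range m, gap (n + i) ≤ c * m) ∪
        Finset.Icc 1 (zeroCount T3)) ∪
        (Finset.Icc 1 N).filter (fun n => P n ∧ T3 < ordinate n ∧ ordinate n ≤ ordinate N) := by
    intro n hn
    rw [Finset.mem_filter] at hn
    obtain ⟨hn1, hn2⟩ := hn
    have hn3 := Finset.mem_Icc.mp hn1
    rw [Finset.mem_union, Finset.mem_union, Finset.mem_filter, Finset.mem_filter]
    rcases le_or_gt (∑ i ∈ Finset.range m, gap (n + i)) (c * m) with h | h
    · exact Or.inl (Or.inl ⟨hn1, h⟩)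
    rcases le_or_gt (ordinate n) T3 with h' | h'
    · refine Or.inl (Or.inr (Finset.mem_Icc.mpr ⟨hn3.1, ?_⟩))
      exact (le_zeroCount_iff (zeroCount_unbounded n) hn3.1).mpr h'
    · exact Or.inr ⟨hn1, ⟨hn2, h⟩, h', ordinate_mono (zeroCount_unbounded N) hn3.1 hn3.2⟩
  have hcard : (((Finset.Icc 1 N).filter (fun n => B n m)).card : ℝ) ≤
      (((Finset.Icc 1 N).filter (fun n => ∑ i ∈ Finset.range m, gap (n + i) ≤ c * m)).card : ℝ) +
      (zeroCount T3 : ℝ) + (((Finset.Icc 1 N).filter (fun n => P n ∧ T3 < ordinate n ∧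
        ordinate n ≤ ordinate N)).card : ℝ) := by
    have h4 := (Finset.card_le_card hsub).trans ((Finset.card_union_le _ _).trans
      (Nat.add_le_add_right (Finset.card_union_le _ _) _))
    rw [Nat.card_Icc, Nat.add_sub_cancel] at h4
    exact_mod_cast h4
  have p1 : (((Finset.Icc 1 N).filter (fun n =>
      ∑ i ∈ Finset.range m, gap (n + i) ≤ c * m)).card : ℝ) ≤ N * (m:ℝ) ^ (-β) := by
    refine (hruns m hmm0 N).trans (mul_le_mul_of_nonneg_left ?_ (Nat.cast_nonneg _))
    rw [Real.rpow_def_of_pos hm0, Real.exp_le_exp]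
    have hlm : 0 ≤ Real.log m := Real.log_nonneg (by linarith)
    have : β * Real.log m ≤ 1 / 2 * m * Real.log m :=
      mul_le_mul_of_nonneg_right (by linarith) hlm
    linarith
  have p2 : (zeroCount T3 : ℝ) ≤ N * (m:ℝ) ^ (-β) := by
    have h4 : (m:ℝ) ^ β * (m:ℝ) ^ (-β) = 1 := by
      rw [← Real.rpow_add hm0]; simp
    calc (zeroCount T3 : ℝ) = (zeroCount T3 : ℝ) * (m:ℝ) ^ β * (m:ℝ) ^ (-β) := by
          rw [mul_assoc, h4, mul_one]
      _ ≤ _ := mul_le_mul_of_nonneg_right h3 hmβ.le
  obtain ⟨k, hk⟩ := pow_unbounded_of_one_lt (ordinate N / T3) (by norm_num : (1:ℝ) < 3 / 2)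
  have hT3pos : 0 < T3 := by linarith
  rw [div_lt_iff₀ hT3pos] at hk
  have p3 := hsum N k (ordinate N) h1a (by linarith)
  have p4 : 2 * X * (ordinate N * Real.log (ordinate N)) ≤ 2 * X * (64 * N) := by
    refine mul_le_mul_of_nonneg_left (hNlog.trans (le_of_eq ?_)) (by positivity)
    norm_num
  have p5 : X = C / a * a ^ (-β) * (m:ℝ) ^ (-β) := by
    rw [hX, hK, Real.mul_rpow ha0.le hm0.le, Real.rpow_neg ha0.le, Real.rpow_neg hm0.le]
    field_simp
  have p6 : (((Finset.Icc 1 N).filter (fun n => B n m)).card : ℝ) ≤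
      C1 * (m:ℝ) ^ (-β) * N := by
    refine hcard.trans ?_
    have : C1 * (m:ℝ) ^ (-β) * N = N * (m:ℝ) ^ (-β) + N * (m:ℝ) ^ (-β) + 2 * X * (64 * N) := by
      rw [hC1, p5]; ring
    rw [this]
    linarith
  refine p6.trans ?_
  apply mul_le_mul_of_nonneg_right _ hN0'.le
  exact mul_le_mul_of_nonneg_right (le_max_right _ _) hmβ.le

end Pool.Agent.TypBlk
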