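import Pool.Agent.TypBlk.NdA

/-!
# The bound of the coefficients of the ratios, first part
-/

namespace Pool.Agent.TypBlk

open Finset Pool.Agent.ZGap.Res

namespace EBa

theorem Rg.of_dvd {R : ResData} {T : ℝ} {m k : ℕ} (h : Rg R T m) (hk : k ∣ m) : Rg R T k :=
  ⟨Nat.pos_of_dvd_of_pos hk h.1, fun p hp hpk => h.2 p hp (hpk.trans hk)⟩

theorem sqrt_eq (n a b g : ℝ) (hg : 0 < g) (hn : 0 < n) (ha : 0 < a) (hb : 0 < b) :
    g / Real.sqrt (g * n * a * (g * b)) = 1 / Real.sqrt (n * a * b) := by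
  have h : g * n * a * (g * b) = g ^ 2 * (n * a * b) := by ring
  rw [h, Real.sqrt_mul (by positivity), Real.sqrt_sq hg.le]
  have : 0 < Real.sqrt (n * a * b) := Real.sqrt_pos.mpr (by positivity)
  field_simp

/-- The arithmetic of one term. -/
theorem term {R : ResData} {T : ℝ} {n₁ b₁ g a H M : ℕ} (hg : 0 < g) (hn₁ : 0 < n₁)
    (hb₁ : 0 < b₁) (ha : 0 < a) (hco : n₁.Coprime b₁) (hab : a.Coprime b₁)
    (hH : Rg R T H) (hM : Rg R T M) (h : H * (g * b₁) = g * n₁ * M * a) :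
    b₁ ∣ M ∧ H = n₁ * (M / b₁) * a ∧ Rg R T a ∧ Rg R T n₁ ∧ Rg R T b₁ ∧ Rg R T (M / b₁) ∧
      1 / Real.sqrt (H * M) = 1 / ((M / b₁ : ℕ) : ℝ) * (1 / Real.sqrt (n₁ * a * b₁)) := by
  have h1 : H * b₁ = n₁ * M * a := by
    have : g * (H * b₁) = g * (n₁ * M * a) := by
      calc g * (H * b₁) = H * (g * b₁) := by ring
        _ = g * n₁ * M * a := h
        _ = g * (n₁ * M * a) := by ring
    exact Nat.eq_of_mul_eq_mul_left hg this
  have h2 : b₁ ∣ M := by
    have hd : b₁ ∣ n₁ * (M * a) := ⟨H, by rw [← mul_assoc, ← h1]; ring⟩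
    have hd2 : b₁ ∣ M * a := hco.symm.dvd_of_dvd_mul_left hd
    exact hab.symm.dvd_of_dvd_mul_right hd2
  obtain ⟨m, rfl⟩ := h2
  have hdiv : b₁ * m / b₁ = m := Nat.mul_div_cancel_left m hb₁
  have hHe : H = n₁ * m * a := by
    have : b₁ * H = b₁ * (n₁ * m * a) := by
      calc b₁ * H = H * b₁ := by ring
        _ = n₁ * (b₁ * m) * a := h1
        _ = b₁ * (n₁ * m * a) := by ring
    exact Nat.eq_of_mul_eq_mul_left hb₁ this
  have hm : Rg R T m := Rg.of_dvd hM (Dvd.intro_left b₁ rfl)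
  rw [hdiv]
  refine ⟨Dvd.intro m rfl, hHe, Rg.of_dvd hH (hHe ▸ Dvd.intro_left _ rfl), Rg.of_dvd hH ?_,
    Rg.of_dvd hM (Dvd.intro m rfl), hm, ?_⟩
  · rw [hHe, mul_assoc]; exact Dvd.intro _ rfl
  · have hm0 : (0 : ℝ) < m := by exact_mod_cast hm.1
    have e : ((H : ℝ) * ((b₁ * m : ℕ) : ℝ)) = (m : ℝ) ^ 2 * (n₁ * a * b₁) := by
      rw [hHe]; push_cast; ring
    rw [e, Real.sqrt_mul (by positivity), Real.sqrt_sq hm0.le, one_div_mul_one_div]

end EBa

open Classical in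
/-- The sum over pairs of rough numbers for fixed `n`. -/
theorem exists_pair (R : ResData) : ∃ C : ℝ, 0 < C ∧ ∀ T : ℝ, Real.exp 3 ≤ T → ∀ n a b : ℕ,
    0 < n → 0 < a → 0 < b → a.Coprime b → hh R T n a b ≤
      C * (if Rg R T a ∧ Rg R T (n / n.gcd b) ∧ Rg R T (b / n.gcd b) then
        (n.gcd b : ℝ) / Real.sqrt (n * a * b) else 0) := by
  obtain ⟨C, hC, hsum⟩ := exists_Rg_sum R
  refine ⟨C, hC, fun T hT n a b hn ha hb hab => ?_⟩
  obtain ⟨g, n₁, b₁, hg, hco, hn1, hb1⟩ : ∃ g n₁ b₁ : ℕ, 0 < g ∧ n₁.Coprime b₁ ∧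
      n = n₁ * g ∧ b = b₁ * g := by
    obtain ⟨g, n₁, b₁, hg, h1, h2, h3⟩ := Nat.exists_coprime' (Nat.gcd_pos_of_pos_left b hn)
    exact ⟨g, n₁, b₁, hg, h1, h2, h3⟩
  have hgcd : n.gcd b = g := by
    rw [hn1, hb1, Nat.gcd_mul_right, hco.gcd_eq_one, one_mul]
  have hn₁ : 0 < n₁ := Nat.pos_of_ne_zero fun h => by simp [h] at hn1; omega
  have hb₁ : 0 < b₁ := Nat.pos_of_ne_zero fun h => by simp [h] at hb1; omega
  have hnd : n / n.gcd b = n₁ := by rw [hgcd, hn1, Nat.mul_div_cancel _ hg]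
  have hbd : b / n.gcd b = b₁ := by rw [hgcd, hb1, Nat.mul_div_cancel _ hg]
  rw [hnd, hbd, hgcd]
  have hab1 : a.Coprime b₁ := by
    rw [hb1] at hab
    exact Nat.Coprime.coprime_mul_right_right hab
  have hval : (g : ℝ) / Real.sqrt (n * a * b) = 1 / Real.sqrt (n₁ * a * b₁) := by
    have := EBa.sqrt_eq (n₁ : ℝ) a b₁ g (by exact_mod_cast hg) (by exact_mod_cast hn₁)
      (by exact_mod_cast ha) (by exact_mod_cast hb₁)
    rw [← this, hn1, hb1]
    congr 2
    push_cast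
    ring
  rw [hval]
  set c : ℝ := 1 / Real.sqrt (n₁ * a * b₁) with hc
  have hc0 : 0 ≤ c := by positivity
  set X := ⌊T⌋₊ with hX
  -- every term
  have hterm : ∀ H M : ℕ, Rg R T H ∧ Rg R T M ∧ H * b = n * M * a →
      b₁ ∣ M ∧ H = n₁ * (M / b₁) * a ∧ Rg R T a ∧ Rg R T n₁ ∧ Rg R T b₁ ∧ Rg R T (M / b₁) ∧
      1 / Real.sqrt (H * M) = 1 / ((M / b₁ : ℕ) : ℝ) * c := by
    rintro H M ⟨hH, hM, h⟩
    refine EBa.term hg hn₁ hb₁ ha hco hab1 hH hM ?_
    rw [hn1, hb1] at h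
    calc H * (g * b₁) = H * (b₁ * g) := by ring
      _ = n₁ * g * M * a := h
      _ = g * n₁ * M * a := by ring
  by_cases hA : Rg R T a ∧ Rg R T n₁ ∧ Rg R T b₁
  · rw [if_pos hA]
    set F : ℕ → ℝ := fun M => if b₁ ∣ M ∧ Rg R T (M / b₁) then 1 / ((M / b₁ : ℕ) : ℝ) * c else 0
      with hF
    have hF0 : ∀ M, 0 ≤ F M := fun M => by
      simp only [hF]; split_ifs <;> positivity
    have h1 : hh R T n a b ≤ ∑ M ∈ Icc 1 X, F M := by
      unfold hh
      rw [Finset.sum_comm]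
      refine Finset.sum_le_sum fun M _ => ?_
      calc _ ≤ ∑ H ∈ Icc 1 X, (if H = n₁ * (M / b₁) * a then F M else 0) := by
            refine Finset.sum_le_sum fun H _ => ?_
            by_cases h : Rg R T H ∧ Rg R T M ∧ H * b = n * M * a
            · rw [if_pos h]
              obtain ⟨t1, t2, -, -, -, t3, t4⟩ := hterm H M h
              rw [if_pos t2]
              simp only [hF]
              rw [if_pos ⟨t1, t3⟩, t4]
            · rw [if_neg h]
              split_ifs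
              · exact hF0 M
              · exact le_rfl
        _ ≤ F M := by
            rw [Finset.sum_ite_eq']
            split_ifs
            · exact le_rfl
            · exact hF0 M
    have h2 : ∑ M ∈ Icc 1 X, F M ≤ ∑ m ∈ Icc 1 X, (if Rg R T m then 1 / (m : ℝ) else 0) * c := by
      have e1 : ∑ M ∈ Icc 1 X, F M = ∑ M ∈ (Icc 1 X).filter (fun M => b₁ ∣ M),
          (if Rg R T (M / b₁) then 1 / ((M / b₁ : ℕ) : ℝ) else 0) * c := by
        rw [Finset.sum_filter]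
        refine Finset.sum_congr rfl fun M _ => ?_
        simp only [hF]
        by_cases h1 : b₁ ∣ M <;> by_cases h2 : Rg R T (M / b₁) <;> simp [h1, h2]
      rw [e1, ← Finset.sum_image (s := (Icc 1 X).filter (fun M => b₁ ∣ M)) (g := fun M => M / b₁)
        (f := fun m : ℕ => (if Rg R T m then 1 / (m : ℝ) else 0) * c)]
      · refine Finset.sum_le_sum_of_subset_of_nonneg ?_ ?_
        · intro m hm
          rw [Finset.mem_image] at hm
          obtain ⟨M, hM, rfl⟩ := hm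
          rw [Finset.mem_filter, Finset.mem_Icc] at hM
          rw [Finset.mem_Icc]
          refine ⟨Nat.div_pos (Nat.le_of_dvd (by omega) hM.2) hb₁, (Nat.div_le_self _ _).trans hM.1.2⟩
        · intro m _ _
          split_ifs <;> positivity
      · intro M hM M' hM' h
        simp only [Finset.coe_filter, Set.mem_setOf_eq] at hM hM'
        have h : M / b₁ = M' / b₁ := h
        rw [← Nat.div_mul_cancel hM.2, ← Nat.div_mul_cancel hM'.2, h]
    rw [← Finset.sum_mul] at h2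
    exact (h1.trans h2).trans (mul_le_mul_of_nonneg_right (hsum T hT X) hc0)
  · rw [if_neg hA, mul_zero]
    unfold hh
    refine (Finset.sum_nonpos fun H _ => Finset.sum_nonpos fun M _ => ?_)
    rw [if_neg]
    intro h
    obtain ⟨-, -, t1, t2, t3, -, -⟩ := hterm H M h
    exact hA ⟨t1, t2, t3⟩

end Pool.Agent.TypBlk
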