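import Pool.Agent.TypBlk.Few
import Pool.Agent.ZShort.AALin

/-!
# Small and large gaps in almost every block, with the linear constant
-/

namespace Pool.Agent.TypBlk

open Finset Pool.Agent.ZetaGaps

/-- The property of one exponent. -/
def Prp2 (a κ : ℝ) (n : ℕ) : Prop := ∀ M : ℕ, (n:ℝ) ^ a ≤ M →
  κ * M ≤ (sm a 0.001 n M : ℝ) ∧
  κ * M ≤ (lg (max 1.89 (1.822 + 1.74 * a)) n M : ℝ)

theorem few_one2 (hRH : RiemannHypothesis) {a : ℝ} (ha : 0 < a) (ha1 : a < 1) :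
    ∃ κ : ℝ, 0 < κ ∧ Few (Prp2 a κ) := by
  classical
  obtain ⟨κ, c, hκ, hc, N₀, h⟩ := Pool.Agent.ZShort.almost_all_blocks_lin hRH ha ha1
    (ε := 0.001) (by norm_num)
  refine ⟨κ, hκ, fun δ hδ => ?_⟩
  have ev : ∀ᶠ N : ℕ in Filter.atTop, δ⁻¹ ≤ (N : ℝ) ^ c :=
    ((tendsto_rpow_atTop hc).comp tendsto_natCast_atTop_atTop).eventually_ge_atTop _
  obtain ⟨N3, h3⟩ := Filter.eventually_atTop.mp ev
  refine ⟨max N₀ (max N3 1), fun N hN => ?_⟩
  have g1 : N₀ ≤ N := (le_max_left _ _).trans hN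
  have g2 : N3 ≤ N := (le_max_left _ _).trans ((le_max_right _ _).trans hN)
  have g3 : 1 ≤ N := (le_max_right _ _).trans ((le_max_right _ _).trans hN)
  have hN0 : (0:ℝ) < N := by exact_mod_cast g3
  have e1 := h N g1
  have e2 := h3 N g2
  have e3 : (N:ℝ) ^ (1 - c) ≤ δ * N := by
    have h4 : (N:ℝ) ^ (1 - c) * (N:ℝ) ^ c = N := by
      rw [← Real.rpow_add hN0]
      rw [sub_add_cancel, Real.rpow_one]
    have h5 : 0 < (N:ℝ) ^ (1 - c) := Real.rpow_pos_of_pos hN0 _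
    have h6 : (N:ℝ) ^ (1 - c) * δ⁻¹ ≤ N := by
      calc (N:ℝ) ^ (1 - c) * δ⁻¹ ≤ (N:ℝ) ^ (1 - c) * (N:ℝ) ^ c :=
            mul_le_mul_of_nonneg_left e2 h5.le
        _ = N := h4
    rw [← div_eq_mul_inv, div_le_iff₀ hδ] at h6
    linarith
  refine le_trans ?_ (e1.trans e3)
  refine le_of_eq ?_
  unfold Prp2 sm lg cntIoc
  congr

/-- The net. -/
theorem few_net2 (hRH : RiemannHypothesis) (J : ℕ) (hJ : J < 2000) :
    ∃ κ : ℝ, 0 < κ ∧ Few (fun n => ∀ j : ℕ, 1 ≤ j → j ≤ J → Prp2 (j / 2000) κ n) := by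
  induction J with
  | zero =>
    refine ⟨1, one_pos, few_true.mono fun n _ j h1 h2 => ?_⟩
    omega
  | succ J ih =>
    obtain ⟨κ1, hκ1, h1⟩ := ih (by omega)
    obtain ⟨κ2, hκ2, h2⟩ := few_one2 hRH (a := ((J + 1 : ℕ) : ℝ) / 2000) (by positivity) (by
      rw [div_lt_one (by norm_num)]
      exact_mod_cast hJ)
    refine ⟨min κ1 κ2, lt_min hκ1 hκ2, (h1.and h2).mono fun n hn j hj1 hj2 => ?_⟩
    have hmono : ∀ {a κ : ℝ}, min κ1 κ2 ≤ κ → Prp2 a κ n → Prp2 a (min κ1 κ2) n := by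
      intro a κ hle hp M hM
      obtain ⟨p1, p2⟩ := hp M hM
      have hm := mul_le_mul_of_nonneg_right hle (Nat.cast_nonneg (α := ℝ) M)
      exact ⟨hm.trans p1, hm.trans p2⟩
    rcases Nat.lt_or_ge j (J + 1) with h | h
    · exact hmono (min_le_left _ _) (hn.1 j hj1 (by omega))
    · have e : j = J + 1 := by omega
      rw [e]
      exact hmono (min_le_right _ _) hn.2

end Pool.Agent.TypBlk
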