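import Pool.Agent.TypBlk.FewLin
import Pool.Agent.TypBlk.Every

/-!
# Small and large gaps in the blocks of every length, with the linear constant for the large gaps
-/

namespace Pool.Agent.TypBlk

open Finset Pool.Agent.ZetaGaps

/-- The property of all block lengths `M ≥ m` at the index `n`. -/
def EvrL (κ : ℝ) (m n : ℕ) : Prop := ∀ a : ℝ, 0 ≤ a → a ≤ 1 → ∀ M : ℕ, m ≤ M → (n:ℝ) ^ a ≤ M →
  κ * M ≤ m * (sm a 0.0025 n M : ℝ) ∧
  κ * M ≤ m * (lg (max 1.89 (1.82 + 1.74 * a)) n M : ℝ)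

/-- One index, from the net and the bounded blocks. -/
theorem evr_ofL {κ : ℝ} {n m : ℕ} (hm : 1 ≤ m) (hn : 1 ≤ n)
    (h : ∀ j : ℕ, 1 ≤ j → j ≤ 1999 → PrpL (j / 2000) κ n)
    (h0 : ∀ M : ℕ, m ≤ M → M ≤ 4 * m * sm 0 0.00234 n M ∧ M ≤ 4 * m * lg 1.89 n M) :
    EvrL (min κ (1 / 4)) m n := by
  intro a ha0 ha1 M hmM hM
  have hM0 : (0:ℝ) ≤ M := Nat.cast_nonneg _
  have hm1 : (1:ℝ) ≤ m := by exact_mod_cast hm
  have hn1 : (1:ℝ) ≤ n := by exact_mod_cast hn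
  rcases lt_or_ge a (1 / 2000) with hs | hs
  · obtain ⟨h1, h2⟩ := h0 M hmM
    have h1' : (M : ℝ) ≤ 4 * m * (sm 0 0.00234 n M : ℝ) := by exact_mod_cast h1
    have h2' : (M : ℝ) ≤ 4 * m * (lg 1.89 n M : ℝ) := by exact_mod_cast h2
    have k1 : min κ (1 / 4) * M ≤ 1 / 4 * M := mul_le_mul_of_nonneg_right (min_le_right _ _) hM0
    have e1 : (sm 0 0.00234 n M : ℝ) ≤ (sm a 0.0025 n M : ℝ) := by
      have : sm 0 0.00234 n M ≤ sm a 0.0025 n M := by
        refine sm_mono ?_ n M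
        have h5 : (2:ℝ) / (3 + 0) ≤ 2 / (3 + a) + 0.00012 := by
          rw [← sub_le_iff_le_add, le_div_iff₀ (by linarith)]
          norm_num
          nlinarith
        linarith
      exact_mod_cast this
    have e2 : (lg 1.89 n M : ℝ) ≤
        (lg (max 1.89 (1.82 + 1.74 * a)) n M : ℝ) := by
      have : lg 1.89 n M ≤ lg (max 1.89 (1.82 + 1.74 * a)) n M := by
        refine lg_mono ?_ n M
        refine max_le le_rfl ?_
        nlinarith
      exact_mod_cast this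
    constructor
    · have := mul_le_mul_of_nonneg_left e1 (by linarith : (0:ℝ) ≤ m)
      linarith
    · have := mul_le_mul_of_nonneg_left e2 (by linarith : (0:ℝ) ≤ m)
      linarith
  · obtain ⟨j, hj1, hj2, hja, haj⟩ : ∃ j : ℕ, 1 ≤ j ∧ j ≤ 1999 ∧ (j:ℝ) / 2000 ≤ a ∧
        a ≤ (j:ℝ) / 2000 + 1 / 2000 := by
      rcases lt_or_ge a (1999 / 2000) with h9 | h9
      · refine ⟨⌊2000 * a⌋₊, ?_, ?_, ?_, ?_⟩
        · rw [Nat.one_le_floor_iff]
          linarith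
        · have h5 : ⌊2000 * a⌋₊ < 2000 := by
            rw [Nat.floor_lt (by linarith)]
            norm_num
            linarith
          omega
        · have := Nat.floor_le (a := 2000 * a) (by linarith)
          linarith
        · have := Nat.lt_floor_add_one (2000 * a)
          linarith
      · refine ⟨1999, by norm_num, by norm_num, ?_, ?_⟩
        · norm_num
          linarith
        · norm_num
          linarith
    have hx0 : (0:ℝ) ≤ (j:ℝ) / 2000 := by positivity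
    have hpow : (n:ℝ) ^ ((j:ℝ) / 2000) ≤ M :=
      (Real.rpow_le_rpow_of_exponent_le hn1 hja).trans hM
    obtain ⟨h1, h2⟩ := h j hj1 hj2 M hpow
    have k1 : min κ (1 / 4) * M ≤ κ * M := mul_le_mul_of_nonneg_right (min_le_left _ _) hM0
    have e1 : (sm ((j:ℝ) / 2000) 0.001 n M : ℝ) ≤ (sm a 0.0025 n M : ℝ) := by
      have : sm ((j:ℝ) / 2000) 0.001 n M ≤ sm a 0.0025 n M := by
        refine sm_mono ?_ n M
        have h5 : (2:ℝ) / (3 + (j:ℝ) / 2000) ≤ 2 / (3 + a) + 0.001 := by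
          rw [div_add' _ _ _ (by linarith), div_le_div_iff₀ (by linarith) (by linarith)]
          nlinarith [mul_nonneg hx0 ha0]
        linarith
      exact_mod_cast this
    have e2 : (lg (max 1.89 (1.822 + 1.74 * ((j:ℝ) / 2000))) n M : ℝ) ≤
        (lg (max 1.89 (1.82 + 1.74 * a)) n M : ℝ) := by
      have : lg (max 1.89 (1.822 + 1.74 * ((j:ℝ) / 2000))) n M ≤
          lg (max 1.89 (1.82 + 1.74 * a)) n M := by
        refine lg_mono ?_ n M
        refine max_le_max le_rfl ?_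
        nlinarith
      exact_mod_cast this
    have p1 : (0:ℝ) ≤ (sm a 0.0025 n M : ℝ) := Nat.cast_nonneg _
    have p2 : (0:ℝ) ≤ (lg (max 1.89 (1.82 + 1.74 * a)) n M : ℝ) :=
      Nat.cast_nonneg _
    constructor
    · nlinarith
    · nlinarith

/-- **Almost every block, of every length from a bounded one on** (RH). -/
theorem every_blockL (hRH : RiemannHypothesis) :
    ∃ κ : ℝ, 0 < κ ∧ ∀ ε : ℝ, 0 < ε → ∃ C : ℝ, ∀ m : ℕ, 1 ≤ m → ∃ N₀ : ℕ, ∀ N : ℕ, N₀ ≤ N →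
      ({n : ℕ | 1 ≤ n ∧ n ≤ N ∧ ¬ EvrL κ m n}.ncard : ℝ) ≤ C * (m:ℝ) ^ (-1 + ε) * N := by
  classical
  obtain ⟨κ, hκ, hnet⟩ := few_netL hRH 1999 (by norm_num)
  refine ⟨min κ (1 / 4), lt_min hκ (by norm_num), fun ε hε => ?_⟩
  obtain ⟨C, hC⟩ := typical_all hRH hε
  refine ⟨2 * |C| + 1, fun m hm => ?_⟩
  have hmp : 0 < (m:ℝ) ^ (-1 + ε) := Real.rpow_pos_of_pos (by exact_mod_cast hm) _
  obtain ⟨N1, h1⟩ := hC m hm
  obtain ⟨N2, h2⟩ := hnet ((m:ℝ) ^ (-1 + ε)) hmp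
  refine ⟨max N1 (max N2 1), fun N hN => ?_⟩
  have g1 : N1 ≤ N := (le_max_left _ _).trans hN
  have g2 : N2 ≤ N := (le_max_left _ _).trans ((le_max_right _ _).trans hN)
  have g3 : 1 ≤ N := (le_max_right _ _).trans ((le_max_right _ _).trans hN)
  have hN1 : (1:ℝ) ≤ N := by exact_mod_cast g3
  set S1 : Finset ℕ := {n ∈ Icc 1 N | ¬ ∀ j : ℕ, 1 ≤ j → j ≤ 1999 → PrpL (j / 2000) κ n} with hS1
  set T2 : Finset ℕ := {n ∈ Icc 1 (N + 1) | ∃ M, m ≤ M ∧
        (4 * m * ({j ∈ range M | gap (n + j) < 0.669} : Finset ℕ).card < M ∨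
          4 * m * ({j ∈ range M | 1.89 < gap (n + j)} : Finset ℕ).card < M)} with hT2
  set S2 : Finset ℕ := {n ∈ Icc 1 N | n + 1 ∈ T2} with hS2
  have e1 : (#S1 : ℝ) ≤ (m:ℝ) ^ (-1 + ε) * N := by
    refine le_trans (le_of_eq ?_) (h2 N g2)
    rw [hS1]
    congr
  have e2 : (#T2 : ℝ) ≤ C * (m:ℝ) ^ (-1 + ε) * ((N + 1 : ℕ) : ℝ) := by
    refine le_trans (le_of_eq ?_) (h1 (N + 1) (by omega))
    rw [hT2]
  have e3 : #S2 ≤ #T2 := by
    refine card_le_card_of_injOn (fun n => n + 1) ?_ ?_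
    · intro n hn
      rw [hS2, coe_filter] at hn
      exact hn.2
    · intro x _ y _ hxy
      simpa using hxy
  have e3' : (#S2 : ℝ) ≤ #T2 := by exact_mod_cast e3
  have e4 : (#T2 : ℝ) ≤ 2 * |C| * (m:ℝ) ^ (-1 + ε) * N := by
    refine e2.trans ?_
    push_cast
    have k1 : C ≤ |C| := le_abs_self C
    have k2 : C * (m:ℝ) ^ (-1 + ε) ≤ |C| * (m:ℝ) ^ (-1 + ε) := mul_le_mul_of_nonneg_right k1 hmp.le
    have k3 : 0 ≤ |C| * (m:ℝ) ^ (-1 + ε) := mul_nonneg (abs_nonneg _) hmp.le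
    nlinarith
  have hsub : {n : ℕ | 1 ≤ n ∧ n ≤ N ∧ ¬ EvrL (min κ (1 / 4)) m n} ⊆ ((S1 ∪ S2 : Finset ℕ) : Set ℕ) := by
    rintro n ⟨hn1, hn2, hn3⟩
    by_contra hcon
    rw [mem_coe, mem_union, not_or] at hcon
    obtain ⟨c1, c2⟩ := hcon
    apply hn3
    have hI : n ∈ Icc 1 N := mem_Icc.2 ⟨hn1, hn2⟩
    have hP : ∀ j : ℕ, 1 ≤ j → j ≤ 1999 → PrpL (j / 2000) κ n := by
      by_contra h
      exact c1 (mem_filter.2 ⟨hI, h⟩)
    refine evr_ofL hm hn1 hP fun M hmM => ?_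
    have h3 : ¬ ∃ M, m ≤ M ∧
        (4 * m * ({j ∈ range M | gap (n + 1 + j) < 0.669} : Finset ℕ).card < M ∨
          4 * m * ({j ∈ range M | 1.89 < gap (n + 1 + j)} : Finset ℕ).card < M) := by
      intro h
      exact c2 (mem_filter.2 ⟨hI, mem_filter.2 ⟨mem_Icc.2 ⟨by omega, by omega⟩, h⟩⟩)
    push Not at h3
    obtain ⟨k1, k2⟩ := h3 M hmM
    have s1 := shift_card (fun k => gap k < 0.669) n M
    have s2 := shift_card (fun k => 1.89 < gap k) n M
    have s3 : #{k ∈ Ioc n (n + M) | gap k < 0.669} ≤ sm 0 0.00234 n M := by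
      unfold sm cntIoc
      refine card_le_card ?_
      intro k hk
      rw [mem_filter] at hk ⊢
      refine ⟨hk.1, hk.2.trans_le ?_⟩
      norm_num
    have s4 : #{k ∈ Ioc n (n + M) | 1.89 < gap k} = lg 1.89 n M := by
      unfold lg cntIoc
      congr
    constructor
    · exact k1.trans (Nat.mul_le_mul_left _ (s1.trans s3))
    · exact k2.trans (Nat.mul_le_mul_left _ (s2.trans s4.le))
  have hle := Set.ncard_le_ncard hsub (Finset.finite_toSet _)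
  rw [Set.ncard_coe_finset] at hle
  have hle2 : ({n : ℕ | 1 ≤ n ∧ n ≤ N ∧ ¬ EvrL (min κ (1 / 4)) m n}.ncard : ℝ) ≤
      (#S1 : ℝ) + (#S2 : ℝ) := by exact_mod_cast hle.trans (card_union_le _ _)
  linarith

end Pool.Agent.TypBlk
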