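import Pool.Agent.TypBlk.TypAll
import Pool.Agent.ZShort.AAFinal

/-!
# Small and large gaps in almost every block, of every length from a bounded one on
-/

namespace Pool.Agent.TypBlk

open Finset Pool.Agent.ZetaGaps

open Classical in
/-- `P` fails for few `n`. -/
def Few (P : ℕ → Prop) : Prop :=
  ∀ δ : ℝ, 0 < δ → ∃ N₀ : ℕ, ∀ N : ℕ, N₀ ≤ N → (#{n ∈ Icc 1 N | ¬ P n} : ℝ) ≤ δ * N

theorem Few.and {P Q : ℕ → Prop} (hP : Few P) (hQ : Few Q) : Few (fun n => P n ∧ Q n) := by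
  classical
  intro δ hδ
  obtain ⟨N1, h1⟩ := hP (δ / 2) (by linarith)
  obtain ⟨N2, h2⟩ := hQ (δ / 2) (by linarith)
  refine ⟨max N1 N2, fun N hN => ?_⟩
  have e1 := h1 N ((le_max_left _ _).trans hN)
  have e2 := h2 N ((le_max_right _ _).trans hN)
  have h3 : #{n ∈ Icc 1 N | ¬ (P n ∧ Q n)} ≤
      #{n ∈ Icc 1 N | ¬ P n} + #{n ∈ Icc 1 N | ¬ Q n} := by
    refine (card_le_card ?_).trans (card_union_le _ _)
    intro n hn
    rw [mem_filter] at hn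
    rw [mem_union, mem_filter, mem_filter]
    by_cases h : P n
    · exact Or.inr ⟨hn.1, fun hq => hn.2 ⟨h, hq⟩⟩
    · exact Or.inl ⟨hn.1, h⟩
  have h4 : (#{n ∈ Icc 1 N | ¬ (P n ∧ Q n)} : ℝ) ≤
      (#{n ∈ Icc 1 N | ¬ P n} : ℝ) + (#{n ∈ Icc 1 N | ¬ Q n} : ℝ) := by exact_mod_cast h3
  refine le_trans (le_trans (le_of_eq ?_) h4) ?_
  · congr
  · have e3 : (#{n ∈ Icc 1 N | ¬ P n} : ℝ) + (#{n ∈ Icc 1 N | ¬ Q n} : ℝ) ≤
        δ / 2 * N + δ / 2 * N := by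
      refine add_le_add (le_trans (le_of_eq ?_) e1) (le_trans (le_of_eq ?_) e2) <;> congr
    linarith

theorem Few.mono {P Q : ℕ → Prop} (h : ∀ n, P n → Q n) (hP : Few P) : Few Q := by
  classical
  intro δ hδ
  obtain ⟨N1, h1⟩ := hP δ hδ
  refine ⟨N1, fun N hN => le_trans ?_ (h1 N hN)⟩
  have h2 : #{n ∈ Icc 1 N | ¬ Q n} ≤ #{n ∈ Icc 1 N | ¬ P n} := by
    refine card_le_card ?_
    intro n hn
    rw [mem_filter] at hn ⊢
    exact ⟨hn.1, fun hp => hn.2 (h n hp)⟩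
  have h3 : (#{n ∈ Icc 1 N | ¬ Q n} : ℝ) ≤ (#{n ∈ Icc 1 N | ¬ P n} : ℝ) := by exact_mod_cast h2
  refine le_trans (le_of_eq ?_) (le_trans h3 (le_of_eq ?_)) <;> congr

theorem few_true : Few (fun _ => True) := by
  intro δ hδ
  refine ⟨0, fun N _ => ?_⟩
  simp only [not_true_eq_false, filter_false, card_empty, Nat.cast_zero]
  positivity

open Classical in
/-- The number of `k` with `P` in the block `(n, n + M]`. -/
noncomputable def cntIoc (P : ℕ → Prop) (n M : ℕ) : ℕ := #{k ∈ Ioc n (n + M) | P k}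

/-- Small gaps in the block `(n, n + M]`. -/
noncomputable abbrev sm (a ε : ℝ) (n M : ℕ) : ℕ := cntIoc (fun k => gap k < 2 / (3 + a) + ε) n M

/-- Large gaps in the block `(n, n + M]`. -/
noncomputable abbrev lg (t : ℝ) (n M : ℕ) : ℕ := cntIoc (fun k => t < gap k) n M

theorem sm_mono {a a' ε ε' : ℝ} (h : 2 / (3 + a) + ε ≤ 2 / (3 + a') + ε') (n M : ℕ) :
    sm a ε n M ≤ sm a' ε' n M := by
  classical
  unfold sm cntIoc
  refine card_le_card ?_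
  intro k hk
  rw [mem_filter] at hk ⊢
  exact ⟨hk.1, hk.2.trans_le h⟩

theorem lg_mono {t t' : ℝ} (h : t' ≤ t) (n M : ℕ) : lg t n M ≤ lg t' n M := by
  classical
  unfold lg cntIoc
  refine card_le_card ?_
  intro k hk
  rw [mem_filter] at hk ⊢
  exact ⟨hk.1, h.trans_lt hk.2⟩

/-- The property of one exponent. -/
def Prp (a κ : ℝ) (n : ℕ) : Prop := ∀ M : ℕ, (n:ℝ) ^ a ≤ M →
  κ * M ≤ (sm a 0.001 n M : ℝ) ∧
  κ * M ≤ (lg (max 1.89 (1 + (1 + a) / 2 + ((1 + a) / 2) ^ 2)) n M : ℝ)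

theorem few_one (hRH : RiemannHypothesis) {a : ℝ} (ha : 0 < a) (ha1 : a < 1) :
    ∃ κ : ℝ, 0 < κ ∧ Few (Prp a κ) := by
  classical
  obtain ⟨κ, c, hκ, hc, N₀, h⟩ := Pool.Agent.ZShort.almost_all_blocks hRH ha ha1
    (ε := 0.001) (by norm_num)
  refine ⟨κ, hκ, fun δ hδ => ?_⟩
  have ev : ∀ᶠ N : ℕ in Filter.atTop, δ⁻¹ ≤ (N : ℝ) ^ c :=
    ((tendsto_rpow_atTop hc).comp tendsto_natCast_atTop_atTop).eventually_ge_atTop _
  obtain ⟨N3, h3⟩ := Filter.eventually_atTop.mp ev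
  refine ⟨max N₀ (max N3 1), fun N hN => ?_⟩
  have g1 : N₀ ≤ N := (le_max_left _ _).trans hN
  have g2 : N3 ≤ N := (le_max_left _ _).trans ((le_max_right _ _).trans hN)
  have g3 : 1 ≤ N := (le_max_right _ _).trans ((le_max_right _ _).trans hN)
  have hN0 : (0:ℝ) < N := by exact_mod_cast g3
  have e1 := h N g1
  have e2 := h3 N g2
  have e3 : (N:ℝ) ^ (1 - c) ≤ δ * N := by
    have h4 : (N:ℝ) ^ (1 - c) * (N:ℝ) ^ c = N := by
      rw [← Real.rpow_add hN0]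
      rw [sub_add_cancel, Real.rpow_one]
    have h5 : 0 < (N:ℝ) ^ (1 - c) := Real.rpow_pos_of_pos hN0 _
    have h6 : (N:ℝ) ^ (1 - c) * δ⁻¹ ≤ N := by
      calc (N:ℝ) ^ (1 - c) * δ⁻¹ ≤ (N:ℝ) ^ (1 - c) * (N:ℝ) ^ c :=
            mul_le_mul_of_nonneg_left e2 h5.le
        _ = N := h4
    rw [← div_eq_mul_inv, div_le_iff₀ hδ] at h6
    linarith
  refine le_trans ?_ (e1.trans e3)
  refine le_of_eq ?_
  unfold Prp sm lg cntIoc
  congr

/-- The net. -/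
theorem few_net (hRH : RiemannHypothesis) (J : ℕ) (hJ : J < 2000) :
    ∃ κ : ℝ, 0 < κ ∧ Few (fun n => ∀ j : ℕ, 1 ≤ j → j ≤ J → Prp (j / 2000) κ n) := by
  induction J with
  | zero =>
    refine ⟨1, one_pos, few_true.mono fun n _ j h1 h2 => ?_⟩
    omega
  | succ J ih =>
    obtain ⟨κ1, hκ1, h1⟩ := ih (by omega)
    obtain ⟨κ2, hκ2, h2⟩ := few_one hRH (a := ((J + 1 : ℕ) : ℝ) / 2000) (by positivity) (by
      rw [div_lt_one (by norm_num)]
      exact_mod_cast hJ)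
    refine ⟨min κ1 κ2, lt_min hκ1 hκ2, (h1.and h2).mono fun n hn j hj1 hj2 => ?_⟩
    have hmono : ∀ {a κ : ℝ}, min κ1 κ2 ≤ κ → Prp a κ n → Prp a (min κ1 κ2) n := by
      intro a κ hle hp M hM
      obtain ⟨p1, p2⟩ := hp M hM
      have hm := mul_le_mul_of_nonneg_right hle (Nat.cast_nonneg (α := ℝ) M)
      exact ⟨hm.trans p1, hm.trans p2⟩
    rcases Nat.lt_or_ge j (J + 1) with h | h
    · exact hmono (min_le_left _ _) (hn.1 j hj1 (by omega))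
    · have e : j = J + 1 := by omega
      rw [e]
      exact hmono (min_le_right _ _) hn.2

end Pool.Agent.TypBlk
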