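import Pool.Agent.TypBlk.Cnt
import Pool.Agent.TypBlk.Var
import Pool.Agent.TypBlk.Tail

/-!
# Almost all windows contain a crowded window
-/

namespace Pool.Agent.TypBlk

open MeasureTheory Real Set Pool.Agent.ZGap.Res Pool.Agent.Hadamard Pool.Agent.ZetaGaps

namespace GoodCAux

/-- `DT` is continuous in the centre. -/
theorem continuous_DT (R : ResData) (ψ : ℝ → ℝ) {K T : ℝ} (hK : 0 < K) (hT : 1 < T) :
    Continuous fun t0 => DT R ψ K T t0 - mT R ψ T := by
  have h : (fun t0 => DT R ψ K T t0 - mT R ψ T) = fun t0 =>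
      ∑ x ∈ Finset.Icc 1 ⌊T⌋₊ ×ˢ (QQ T ×ˢ QQ T),
      (if lam x.1 x.2.1 x.2.2 = 0 then 0 else
        kap ψ T x.1 * (al R T x.2.1 * al R T x.2.2) * Wh (K / Real.log T * lam x.1 x.2.1 x.2.2)) *
          Real.cos (t0 * lam x.1 x.2.1 x.2.2) := funext fun t0 => DT_sub_mT R ψ hK hT
  rw [h]
  refine continuous_finsetSum _ fun x _ => ?_
  fun_prop

theorem subset_fin {T : ℝ} (P : ℝ → Prop) :
    volume {t0 : ℝ | t0 ∈ Icc T (2 * T) ∧ P t0} ≠ ⊤ := by
  refine ne_top_of_le_ne_top ?_ (measure_mono (show {t0 : ℝ | t0 ∈ Icc T (2 * T) ∧ P t0} ⊆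
    Icc T (2 * T) from fun t ht => ht.1))
  rw [Real.volume_Icc]
  exact ENNReal.ofReal_ne_top

/-- Chebyshev. -/
theorem cheb {T ε B : ℝ} (hT : 0 < T) (hε : 0 < ε) {f : ℝ → ℝ} (hf : Continuous f)
    (hB : ∫ t0 in T..(2 * T), (f t0) ^ 2 ≤ B) :
    volume.real {t0 : ℝ | t0 ∈ Icc T (2 * T) ∧ ε ≤ |f t0|} ≤ B / ε ^ 2 := by
  rw [intervalIntegral.integral_of_le (by linarith), ← integral_Icc_eq_integral_Ioc] at hB
  have h1 := mul_meas_ge_le_integral_of_nonneg (μ := volume.restrict (Icc T (2 * T)))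
    (f := fun t => (f t) ^ 2) (Filter.Eventually.of_forall fun t => sq_nonneg _)
    (hf.pow 2).integrableOn_Icc (ε ^ 2)
  rw [measureReal_restrict_apply' measurableSet_Icc] at h1
  have h2 : {t0 : ℝ | t0 ∈ Icc T (2 * T) ∧ ε ≤ |f t0|} = {x | ε ^ 2 ≤ (f x) ^ 2} ∩ Icc T (2 * T) := by
    ext t
    simp only [mem_ofPred_eq, mem_inter_iff]
    rw [and_comm, sq_le_sq, abs_of_pos hε]
  rw [h2, le_div_iff₀ (by positivity)]
  linarith

/-- The set of bad centres. -/
theorem exists_bad (hRH : RiemannHypothesis) (R : ResData) (hF : ∀ x, 0 ≤ x → R.F x ≤ 1)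
    (hth : R.th < 1 / 4) {ψ : ℝ → ℝ} (hψ : RS ψ) (hψ00 : ∀ x, 0 ≤ ψ x) {A : ℝ}
    (hψA : ∀ x, |ψ x| ≤ A / (1 + x ^ 2)) {m0 : ℝ} (hm0 : 0 < m0) {η : ℝ} (hη : 0 < η) :
    ∃ C K0 : ℝ, 0 < C ∧ 4 ≤ K0 ∧ ∀ K : ℝ, K0 ≤ K → ∃ T0 : ℝ, Real.exp 3 ≤ T0 ∧ ∀ T : ℝ, T0 ≤ T →
      volume.real {t0 : ℝ | t0 ∈ Icc T (2 * T) ∧ ¬ (|DT R ψ K T t0 - mT R ψ T| < m0 / 2 ∧
        (∫ t in {t : ℝ | K ^ η * K / Real.log T < |t - t0|}, VL R K T t0 t * (1 + NC ψ T t)) ≤
          m0 / 8 ∧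
        |(∫ t : ℝ, VL R K T t0 t) - (∫ t : ℝ, VL R K T t0 t * NC ψ T t) - DT R ψ K T t0| ≤
          m0 / 8)} ≤ C * T / K := by
  obtain ⟨Cv, K0, hCv, hK0, hvar⟩ := exists_var R hF hth hψ
  obtain ⟨Ct, hCt, htail⟩ := exists_tail hRH R hF hth hψ00 hψ.continuous hψA ⌈1 / η⌉₊
  obtain ⟨Cm, hCm, hmass⟩ := exists_mass hRH R hF hth
  refine ⟨4 * Cv / m0 ^ 2 + 8 * Ct / m0 + 2, K0, by positivity, hK0, fun K hK => ?_⟩
  have hK4 : 4 ≤ K := hK0.trans hK
  have hKp : 0 < K := by linarith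
  obtain ⟨T1, hT1, hvar1⟩ := hvar K hK
  obtain ⟨T2, hT2, htail1⟩ := htail K hK4
  obtain ⟨T3, hT3, hmass1⟩ := hmass K hK4
  obtain ⟨C4, T4, hC4, hT4, hcnt⟩ := exists_cnt hRH R hF hth hψ hK4
  refine ⟨max (max (max T1 T2) (max T3 T4)) (max (max (8 * Ct * K / m0) (16 * C4 / m0))
    (Real.exp (16 * Cm * C4 * K / m0))), ?_, fun T hT => ?_⟩
  · exact hT1.trans ((le_max_left _ _).trans ((le_max_left _ _).trans (le_max_left _ _)))
  have hTT1 : T1 ≤ T := (le_max_left _ _).trans ((le_max_left _ _).trans ((le_max_left _ _).trans hT))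
  have hTT2 : T2 ≤ T := (le_max_right _ _).trans ((le_max_left _ _).trans ((le_max_left _ _).trans hT))
  have hTT3 : T3 ≤ T := (le_max_left _ _).trans ((le_max_right _ _).trans ((le_max_left _ _).trans hT))
  have hTT4 : T4 ≤ T := (le_max_right _ _).trans ((le_max_right _ _).trans ((le_max_left _ _).trans hT))
  have hTT5 : 8 * Ct * K / m0 ≤ T :=
    (le_max_left _ _).trans ((le_max_left _ _).trans ((le_max_right _ _).trans hT))
  have hTT6 : 16 * C4 / m0 ≤ T :=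
    (le_max_right _ _).trans ((le_max_left _ _).trans ((le_max_right _ _).trans hT))
  have hTT7 : Real.exp (16 * Cm * C4 * K / m0) ≤ T :=
    (le_max_right _ _).trans ((le_max_right _ _).trans hT)
  have hTe : Real.exp 3 ≤ T := hT1.trans hTT1
  have h1T : 1 < T := lt_of_lt_of_le (Real.one_lt_exp_iff.mpr (by norm_num)) hTe
  have hTp : 0 < T := by linarith
  have hL3 : 3 ≤ Real.log T := by rw [Real.le_log_iff_exp_le hTp]; exact hTe
  have hL : 0 < Real.log T := by linarith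
  set δ' : ℝ := m0 * Real.log T / (16 * C4) with hδ'
  have hδ'0 : 0 < δ' := by positivity
  set B1 : Set ℝ := {t0 : ℝ | t0 ∈ Icc T (2 * T) ∧ m0 / 2 ≤ |DT R ψ K T t0 - mT R ψ T|} with hB1
  set B2 : Set ℝ := {t0 : ℝ | t0 ∈ Icc T (2 * T) ∧ m0 / 8 <
    ∫ t in {t : ℝ | K ^ η * K / Real.log T < |t - t0|}, VL R K T t0 t * (1 + NC ψ T t)} with hB2
  set B3 : Set ℝ := {t0 : ℝ | t0 ∈ Icc T (2 * T) ∧ δ' < ∫ t : ℝ, VL R K T t0 t} with hB3
  have b1 : volume.real B1 ≤ 4 * Cv / m0 ^ 2 * T / K := by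
    refine (cheb hTp (by positivity) (continuous_DT R ψ hKp h1T) (hvar1 T hTT1)).trans_eq ?_
    rw [div_pow]
    field_simp
    norm_num
  have hM1 : 1 ≤ K ^ η := Real.one_le_rpow (by linarith) hη.le
  have hMj : K ≤ (K ^ η) ^ ⌈1 / η⌉₊ := by
    rw [← Real.rpow_natCast, ← Real.rpow_mul hKp.le]
    calc K = K ^ (1 : ℝ) := (Real.rpow_one K).symm
      _ ≤ K ^ (η * (⌈1 / η⌉₊ : ℝ)) := by
          apply Real.rpow_le_rpow_of_exponent_le (by linarith)
          have := Nat.le_ceil (1 / η)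
          rw [div_le_iff₀ hη] at this
          linarith
  have b2 : volume.real B2 ≤ 8 * Ct / m0 * T / K + T / K := by
    refine (htail1 T hTT2 (K ^ η) hM1 (m0 / 8) (by positivity)).trans ?_
    have e1 : Ct * T / (m0 / 8 * (K ^ η) ^ ⌈1 / η⌉₊) ≤ 8 * Ct / m0 * T / K := by
      calc Ct * T / (m0 / 8 * (K ^ η) ^ ⌈1 / η⌉₊) ≤ Ct * T / (m0 / 8 * K) := by gcongr
        _ = _ := by field_simp
    have e2 : Ct / (m0 / 8) ≤ T / K := by
      rw [div_le_div_iff₀ (by positivity) hKp]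
      rw [div_le_iff₀ hm0] at hTT5
      linarith
    linarith
  have b3 : volume.real B3 ≤ T / K := by
    refine (hmass1 T hTT3 δ' hδ'0).trans ?_
    rw [div_le_div_iff₀ hδ'0 hKp, hδ']
    have h1 : 16 * Cm * C4 * K / m0 ≤ Real.log T := by
      rw [Real.le_log_iff_exp_le hTp]; exact hTT7
    rw [div_le_iff₀ hm0] at h1
    have h2 : Cm * K ≤ m0 * Real.log T / (16 * C4) := by
      rw [le_div_iff₀ (by positivity)]
      linarith
    calc Cm * T * K = T * (Cm * K) := by ring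
      _ ≤ T * (m0 * Real.log T / (16 * C4)) := mul_le_mul_of_nonneg_left h2 hTp.le
  have hsub : {t0 : ℝ | t0 ∈ Icc T (2 * T) ∧ ¬ (|DT R ψ K T t0 - mT R ψ T| < m0 / 2 ∧
        (∫ t in {t : ℝ | K ^ η * K / Real.log T < |t - t0|}, VL R K T t0 t * (1 + NC ψ T t)) ≤
          m0 / 8 ∧
        |(∫ t : ℝ, VL R K T t0 t) - (∫ t : ℝ, VL R K T t0 t * NC ψ T t) - DT R ψ K T t0| ≤
          m0 / 8)} ⊆ (B1 ∪ B2) ∪ B3 := by
    rintro t0 ⟨ht0, hnot⟩
    by_contra hcon
    simp only [mem_union, not_or] at hcon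
    obtain ⟨⟨n1, n2⟩, n3⟩ := hcon
    apply hnot
    refine ⟨?_, ?_, ?_⟩
    · by_contra h
      exact n1 ⟨ht0, not_lt.mp h⟩
    · by_contra h
      exact n2 ⟨ht0, not_le.mp h⟩
    · have h3 : (∫ t : ℝ, VL R K T t0 t) ≤ δ' := by
        by_contra h
        exact n3 ⟨ht0, not_le.mp h⟩
      refine (hcnt T hTT4 t0 ht0).trans ?_
      have e1 : C4 / Real.log T * (∫ t : ℝ, VL R K T t0 t) ≤ m0 / 16 := by
        calc C4 / Real.log T * (∫ t : ℝ, VL R K T t0 t) ≤ C4 / Real.log T * δ' := by gcongr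
          _ = m0 / 16 := by
              rw [hδ']
              field_simp
      have e2 : C4 / T ≤ m0 / 16 := by
        rw [div_le_iff₀ hTp]
        rw [div_le_iff₀ hm0] at hTT6
        linarith
      linarith
  have hfin : volume ((B1 ∪ B2) ∪ B3) ≠ ⊤ := by
    apply measure_union_ne_top
    · apply measure_union_ne_top
      · exact subset_fin _
      · exact subset_fin _
    · exact subset_fin _
  calc _ ≤ volume.real ((B1 ∪ B2) ∪ B3) := measureReal_mono hsub hfin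
    _ ≤ volume.real (B1 ∪ B2) + volume.real B3 := measureReal_union_le _ _
    _ ≤ volume.real B1 + volume.real B2 + volume.real B3 := by
        have := measureReal_union_le (μ := volume) B1 B2
        linarith
    _ ≤ 4 * Cv / m0 ^ 2 * T / K + (8 * Ct / m0 * T / K + T / K) + T / K := by linarith
    _ = _ := by ring

/-- The mean value `mT` in terms of the arithmetic sum. -/
theorem mT_eq (R : ResData) (ψ : ℝ → ℝ) {T : ℝ} (hT : 1 ≤ T) :
    mT R ψ T = (1 - chat ψ 0 / (2 * π)) * Sig R T + (π * Real.log T)⁻¹ *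
      ∑ n ∈ Finset.Icc 1 ⌊T⌋₊, ArithmeticFunction.vonMangoldt n / Real.sqrt n *
        chat ψ (Real.log n / Real.log T) * CC R T n := by
  unfold mT
  have h1 : ∀ n ∈ Finset.Icc 1 ⌊T⌋₊, kap ψ T n * CC R T n =
      (if n = 1 then (1 - chat ψ 0 / (2 * π)) * CC R T 1 else 0) + (π * Real.log T)⁻¹ *
        (ArithmeticFunction.vonMangoldt n / Real.sqrt n *
        chat ψ (Real.log n / Real.log T) * CC R T n) := by
    intro n _
    unfold kap
    by_cases hn : n = 1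
    · subst hn
      rw [if_pos rfl, if_pos rfl, ArithmeticFunction.vonMangoldt_apply_one]
      ring
    · rw [if_neg hn, if_neg hn]
      ring
  rw [Finset.sum_congr rfl h1, Finset.sum_add_distrib, Finset.sum_ite_eq',
    if_pos (Finset.mem_Icc.mpr ⟨le_rfl, Nat.le_floor (by exact_mod_cast hT)⟩), CC_one,
    ← Finset.mul_sum]

end GoodCAux

open GoodCAux in
/-- Almost all windows of width `2 K ^ (1 + η) / log T` contain the centre of a crowded window. -/
theorem good_crowd (hRH : RiemannHypothesis) (R : ResData) (hF : ∀ x, 0 ≤ x → R.F x ≤ 1)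
    (hF0 : 0 < R.F 0) (hth : R.th < 1 / 4) {c κ : ℝ} (hc : 0 < c) (hκ : 0 < κ) {ψ : ℝ → ℝ}
    (hψ : RS ψ) (hψ00 : ∀ x, 0 ≤ ψ x) (hψ1 : ∀ x, ψ x ≤ 1) (hψ0 : ∀ x, π * c ≤ |x| → ψ x = 0)
    (hψc : c - κ / 2 ≤ chat ψ 0 / (2 * π)) {T1 : ℝ}
    (harith : ∀ T : ℝ, T1 ≤ T → (1 - c + κ) * Sig R T ≤ -((π * Real.log T)⁻¹ *
      ∑ n ∈ Finset.Icc 1 ⌊T⌋₊, ArithmeticFunction.vonMangoldt n / Real.sqrt n *
        chat ψ (Real.log n / Real.log T) * CC R T n)) {η : ℝ} (hη : 0 < η) :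
    ∃ C K0 : ℝ, 0 < C ∧ 1 ≤ K0 ∧ ∀ K : ℝ, K0 ≤ K → ∃ T0 : ℝ, ∀ T : ℝ, T0 ≤ T →
      volume.real {t0 : ℝ | t0 ∈ Set.Icc T (2 * T) ∧ ¬ ∃ t : ℝ,
        |t - t0| ≤ K ^ (1 + η) / Real.log T ∧
          zeroCount (t - π * c / Real.log T) + 2 ≤ zeroCount (t + π * c / Real.log T)} ≤
          C * T / K := by
  have hpi := Real.pi_pos
  set A : ℝ := 1 + (π * c) ^ 2 with hA
  have hA0 : 0 < A := by positivity
  have hψA : ∀ x, |ψ x| ≤ A / (1 + x ^ 2) := by
    intro x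
    rw [abs_of_nonneg (hψ00 x), le_div_iff₀ (by positivity)]
    by_cases hx : π * c ≤ |x|
    · rw [hψ0 x hx, zero_mul]; exact hA0.le
    · have h1 : x ^ 2 ≤ (π * c) ^ 2 := by
        rw [← sq_abs x]
        exact pow_le_pow_left₀ (abs_nonneg _) (not_le.mp hx).le 2
      calc ψ x * (1 + x ^ 2) ≤ 1 * (1 + (π * c) ^ 2) :=
            mul_le_mul (hψ1 x) (by linarith) (by positivity) zero_le_one
        _ = A := by rw [hA, one_mul]
  set m0 : ℝ := κ / 2 * R.F 0 ^ 4 with hm0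
  have hm0p : 0 < m0 := by positivity
  obtain ⟨C, K0, hC, hK0, hbad⟩ := exists_bad hRH R hF hth hψ hψ00 hψA hm0p hη
  refine ⟨C, K0, hC, by linarith, fun K hK => ?_⟩
  have hK4 : 4 ≤ K := hK0.trans hK
  have hKp : 0 < K := by linarith
  obtain ⟨T2, hT2, hbad1⟩ := hbad K hK
  obtain ⟨T3, hT3, hwin⟩ := exists_win R hF hth hK4
  obtain ⟨C6, hC6, hNCle⟩ := exists_NC_le
  refine ⟨max (max T1 T2) (max T3 (K ^ (1 + η) + π * c + 1)), fun T hT => ?_⟩
  have hTT1 : T1 ≤ T := (le_max_left _ _).trans ((le_max_left _ _).trans hT)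
  have hTT2 : T2 ≤ T := (le_max_right _ _).trans ((le_max_left _ _).trans hT)
  have hTT3 : T3 ≤ T := (le_max_left _ _).trans ((le_max_right _ _).trans hT)
  have hTT4 : K ^ (1 + η) + π * c + 1 ≤ T := (le_max_right _ _).trans ((le_max_right _ _).trans hT)
  have hTe : Real.exp 3 ≤ T := hT2.trans hTT2
  have h1T : 1 < T := lt_of_lt_of_le (Real.one_lt_exp_iff.mpr (by norm_num)) hTe
  have hTp : 0 < T := by linarith
  have hL3 : 3 ≤ Real.log T := by rw [Real.le_log_iff_exp_le hTp]; exact hTe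
  have hL1 : 1 ≤ Real.log T := by linarith
  have hL : 0 < Real.log T := by linarith
  have hKη : K ^ (1 + η) = K ^ η * K := by
    rw [Real.rpow_add hKp, Real.rpow_one, mul_comm]
  have hKη0 : 0 < K ^ (1 + η) := Real.rpow_pos_of_pos hKp _
  refine (measureReal_mono ?_ (subset_fin _)).trans (hbad1 T hTT2)
  rintro t0 ⟨ht0, hno⟩
  refine ⟨ht0, ?_⟩
  rintro ⟨g1, g2, g3⟩
  obtain ⟨⟨M, hWt⟩, -, -⟩ := hwin T hTT3 t0 ht0
  have hNCnn : ∀ t, 0 ≤ NC ψ T t := fun t =>
    tsum_nonneg fun ρ => mul_nonneg (Nat.cast_nonneg _) (hψ00 _)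
  have hiV : Integrable (VL R K T t0) := hWt.integrable
  have hiVN : Integrable (fun t => VL R K T t0 t * NC ψ T t) := by
    have hcont : Continuous (NC ψ T) := NC_continuous hψ.continuous hψA hL1
    refine hWt.integrable_mul (A := C6 * A * 2) hcont fun t => ?_
    refine (hNCle ψ A T hψA hL1 t).trans ?_
    have := log_abs_add_two_le t
    calc C6 * A * Real.log (|t| + 2) ≤ C6 * A * (2 * (1 + t ^ 2)) :=
          mul_le_mul_of_nonneg_left this (by positivity)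
      _ = _ := by ring
  set O : Set ℝ := {t : ℝ | K ^ η * K / Real.log T < |t - t0|} with hO
  have hOm : MeasurableSet O := measurableSet_lt measurable_const
    (measurable_id.sub_const t0).abs
  have hi1 : Integrable (fun t => VL R K T t0 t * (1 + NC ψ T t)) := by
    have : (fun t => VL R K T t0 t * (1 + NC ψ T t)) = fun t => VL R K T t0 t +
        VL R K T t0 t * NC ψ T t := by
      funext t; ring
    rw [this]
    exact hiV.add hiVN
  have hiO : Integrable (O.indicator fun t => VL R K T t0 t * (1 + NC ψ T t)) :=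
    hi1.indicator hOm
  have hpt : ∀ t, VL R K T t0 t * NC ψ T t ≤ VL R K T t0 t +
      (O.indicator fun t => VL R K T t0 t * (1 + NC ψ T t)) t := by
    intro t
    have hV := hWt.nonneg t
    by_cases ht : t ∈ O
    · rw [Set.indicator_of_mem ht]
      linarith
    · rw [Set.indicator_of_notMem ht, add_zero]
      have hle : |t - t0| ≤ K ^ (1 + η) / Real.log T := by
        rw [hKη]
        exact not_lt.mp ht
      have h1 : ¬ zeroCount (t - π * c / Real.log T) + 2 ≤ zeroCount (t + π * c / Real.log T) :=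
        fun h => hno ⟨t, hle, h⟩
      have h2 : NC ψ T t ≤ 1 := by
        have h3 : π * c / Real.log T < t := by
          have h4 : K ^ (1 + η) / Real.log T ≤ K ^ (1 + η) := div_le_self hKη0.le hL1
          have h5 : π * c / Real.log T ≤ π * c := div_le_self (by positivity) hL1
          have h6 := (abs_le.mp hle).1
          have h7 := ht0.1
          linarith
        have h4 := NC_le_count (T := T) hL1 hψ1 hψA hψ0 (t := t) h3 hc
        have h5 : zeroCount (t + π * c / Real.log T) ≤ zeroCount (t - π * c / Real.log T) + 1 := by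
          omega
        have h6 : (zeroCount (t + π * c / Real.log T) : ℝ) ≤
            zeroCount (t - π * c / Real.log T) + 1 := by exact_mod_cast h5
        linarith
      exact mul_le_of_le_one_right hV h2
  have hint : (∫ t : ℝ, VL R K T t0 t * NC ψ T t) ≤ (∫ t : ℝ, VL R K T t0 t) +
      ∫ t in O, VL R K T t0 t * (1 + NC ψ T t) := by
    rw [← integral_indicator hOm, ← integral_add hiV hiO]
    exact integral_mono hiVN (hiV.add hiO) hpt
  have hmT : mT R ψ T ≤ -m0 := by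
    rw [mT_eq R ψ h1T.le]
    have h1 := harith T hTT1
    have h2 : R.F 0 ^ 4 ≤ Sig R T := le_Sig
    have hS : 0 ≤ Sig R T := Finset.sum_nonneg fun _ _ => sq_nonneg _
    have h3 : (c - κ / 2) * Sig R T ≤ chat ψ 0 / (2 * π) * Sig R T :=
      mul_le_mul_of_nonneg_right hψc hS
    have h4 : κ / 2 * R.F 0 ^ 4 ≤ κ / 2 * Sig R T := mul_le_mul_of_nonneg_left h2 (by positivity)
    rw [hm0]
    linarith
  have h1 := (abs_lt.mp g1).2
  have h2 := (abs_le.mp g3).2
  linarith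

end Pool.Agent.TypBlk
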