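import Pool.Agent.TypBlk.GoodV
import Pool.Agent.TypBlk.GoodC
import Pool.Agent.TypBlk.Blocks
import Pool.Agent.TypBlk.BadV

/-!
# Typical blocks of gaps (RH)
-/

namespace Pool.Agent.TypBlk

open Pool.Agent.ZGap.Res Pool.Agent.ZetaGaps

theorem num_void : |(18905 / 10000 : ℝ) - 1| * Den (7 / 10) (3 / 10) ((6 / 5) ^ 2) <
    2 / Real.pi * (|(6 / 5 : ℝ)| * Num (Real.pi * (18905 / 10000) * (2499 / 10000))
      (7 / 10) (3 / 10) ((6 / 5) ^ 2) 2) := by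
  have hpi := Real.pi_pos
  have e : 2 / Real.pi * (|(6 / 5 : ℝ)| * Num (Real.pi * (18905 / 10000) * (2499 / 10000))
      (7 / 10) (3 / 10) ((6 / 5) ^ 2) 2) = (6 / 5) *
      (4 * ((18905 / 10000) * (2499 / 10000)) * term (7 / 10) (3 / 10) 0 (rho ((6 / 5) ^ 2)) -
      2 / 3 * Real.pi ^ 2 * ((18905 / 10000) * (2499 / 10000)) ^ 3 *
        term (7 / 10) (3 / 10) 1 (rho ((6 / 5) ^ 2)) +
      1 / 30 * Real.pi ^ 4 * ((18905 / 10000) * (2499 / 10000)) ^ 5 *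
        term (7 / 10) (3 / 10) 2 (rho ((6 / 5) ^ 2)) -
      1 / 1260 * Real.pi ^ 6 * ((18905 / 10000) * (2499 / 10000)) ^ 7 *
        term (7 / 10) (3 / 10) 3 (rho ((6 / 5) ^ 2))) := by
    have h1 : |(6 / 5 : ℝ)| = 6 / 5 := by norm_num [abs_of_pos]
    rw [h1]
    unfold Pool.Agent.ZGap.Res.Num sk
    simp only [Finset.sum_range_succ, Finset.sum_range_zero, Nat.factorial, show 2 * 2 = 4 from rfl]
    field_simp
    ring
  rw [e]
  have b1 := Real.pi_gt_d6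
  have b2 := Real.pi_lt_d6
  have p2 : Real.pi ^ 2 < 3.141593 ^ 2 := by gcongr
  have p4 : 3.141592 ^ 4 < Real.pi ^ 4 := by gcongr
  have p6 : Real.pi ^ 6 < 3.141593 ^ 6 := by gcongr
  have habs : |(18905 / 10000 : ℝ) - 1| = 18905 / 10000 - 1 := by
    rw [abs_of_pos (by norm_num)]
  rw [habs]
  unfold Den term
  simp only [rho, Nat.cast_ofNat, Nat.cast_zero, Nat.cast_one, mul_zero, mul_one, zero_add]
  norm_num
  nlinarith [p2, p4, p6]

theorem num_crowd : |(6689 / 10000 : ℝ) - 1| * Den (9 / 10) (1 / 10) ((-(21 / 20)) ^ 2) <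
    2 / Real.pi * (|(-(21 / 20) : ℝ)| * Num (Real.pi * (6689 / 10000) * (2499 / 10000))
      (9 / 10) (1 / 10) ((-(21 / 20)) ^ 2) 2) := by
  have hpi := Real.pi_pos
  have e : 2 / Real.pi * (|(-(21 / 20) : ℝ)| * Num (Real.pi * (6689 / 10000) * (2499 / 10000))
      (9 / 10) (1 / 10) ((-(21 / 20)) ^ 2) 2) = (21 / 20) *
      (4 * ((6689 / 10000) * (2499 / 10000)) * term (9 / 10) (1 / 10) 0 (rho ((-(21 / 20)) ^ 2)) -
      2 / 3 * Real.pi ^ 2 * ((6689 / 10000) * (2499 / 10000)) ^ 3 *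
        term (9 / 10) (1 / 10) 1 (rho ((-(21 / 20)) ^ 2)) +
      1 / 30 * Real.pi ^ 4 * ((6689 / 10000) * (2499 / 10000)) ^ 5 *
        term (9 / 10) (1 / 10) 2 (rho ((-(21 / 20)) ^ 2)) -
      1 / 1260 * Real.pi ^ 6 * ((6689 / 10000) * (2499 / 10000)) ^ 7 *
        term (9 / 10) (1 / 10) 3 (rho ((-(21 / 20)) ^ 2))) := by
    have h1 : |(-(21 / 20) : ℝ)| = 21 / 20 := by norm_num [abs_of_pos]
    rw [h1]
    unfold Pool.Agent.ZGap.Res.Num sk
    simp only [Finset.sum_range_succ, Finset.sum_range_zero, Nat.factorial, show 2 * 2 = 4 from rfl]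
    field_simp
    ring
  rw [e]
  have b1 := Real.pi_gt_d6
  have b2 := Real.pi_lt_d6
  have p2 : Real.pi ^ 2 < 3.141593 ^ 2 := by gcongr
  have p4 : 3.141592 ^ 4 < Real.pi ^ 4 := by gcongr
  have p6 : Real.pi ^ 6 < 3.141593 ^ 6 := by gcongr
  have habs : |(6689 / 10000 : ℝ) - 1| = 1 - 6689 / 10000 := by
    rw [abs_of_neg (by norm_num)]; ring
  rw [habs]
  unfold Den term
  simp only [rho, Nat.cast_ofNat, Nat.cast_zero, Nat.cast_one, mul_zero, mul_one, zero_add]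
  norm_num
  nlinarith [p2, p4, p6]

open Classical in
/-- The exceptional blocks without large gap. -/
theorem blocks_void (hRH : RiemannHypothesis) {r θ c a b : ℝ} {m0 : ℕ} (hm : m0 ≠ 0)
    (hθ : 0 < θ) (hθ' : θ < 1 / 4) (hc1 : 1 ≤ c) (ha : 0 ≤ a) (hb : 0 ≤ b)
    (hab : a + b ≤ 1) (h0 : 0 < a + b) (hr : 0 ≤ r)
    (hgap : |c - 1| * Den a b (r ^ 2) < 2 / Real.pi * (|r| * Num (Real.pi * c * θ) a b (r ^ 2) m0))
    {d : ℝ} (hd : d < c) {η : ℝ} (hη : 0 < η) : ∃ C : ℝ, ∀ m : ℕ, 1 ≤ m →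
    ∃ N0 : ℕ, ∀ N : ℕ, N0 ≤ N →
      (((Finset.Icc 1 N).filter (fun n => ∀ j < m, gap (n + j) ≤ d)).card : ℝ) ≤
        C * (m : ℝ) ^ (-(1 / (1 + η))) * N := by
  have hpi := Real.pi_pos
  have hc : 0 < c := by linarith
  obtain ⟨κ, hκ, e, he, main⟩ := arith_sum hm hθ (by linarith) hc.le ha hb hab h0 hgap
  set ep := min e (θ / 4) with hep
  have hep0 : 0 < ep := lt_min he (by linarith)
  have hep1 : ep ≤ θ / 4 := min_le_right _ _
  set δ := min e (1 / 2) with hδ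
  have hδ0 : 0 < δ := lt_min he (by norm_num)
  obtain ⟨R, hRth, hRep, hRr, hLP⟩ := exists_linProf (th := θ) (ep := ep) (δ := δ) r hep0
    (by linarith) (by linarith) ha hb hab hδ0 (min_le_right _ _)
  set e' := min e (Real.pi * κ) with he'
  have he'0 : 0 < e' := lt_min he (by positivity)
  obtain ⟨ψ, hψ, hψ00, hψle, hψ1, hψ0, ⟨K, M, hK, hlip, hbd⟩, hclose⟩ := exists_majorant hc he'0
  obtain ⟨T1, hT1, harith⟩ := main R hRr hRth (by rw [hRep]; exact min_le_left _ _) δ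
    (min_le_left _ _) hLP (chat ψ) K M e' 1 hK hlip hbd he'0.le (min_le_left _ _)
    (fun x _ _ => hclose x) (by norm_num) (by rw [abs_of_nonneg hr]; ring)
  have hF : ∀ x, 0 ≤ x → R.F x ≤ 1 := fun x hx => hLP.F_le_one hx
  have hF0 : 0 < R.F 0 := by
    rw [hLP.eq 0 le_rfl (by linarith [hLP.hδ'])]
    linarith
  have hψc : chat ψ 0 / (2 * Real.pi) ≤ c + κ / 2 := by
    have h1 := (abs_le.mp (hclose 0)).2
    have h2 : k0 c 0 = 2 * (Real.pi * c) := by unfold k0; simp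
    have h3 : e' ≤ Real.pi * κ := min_le_right _ _
    rw [div_le_iff₀ (by positivity)]
    rw [h2] at h1
    linarith only [h1, h3]
  obtain ⟨C, K0, hC, hK0, hgood⟩ := good_void hRH R hF hF0 (by rw [hRth]; exact hθ') hκ hψ hψ00 hψle
    hψ1 hψ0 hψc (T1 := T1) (fun T hT => by
      have h1 := harith T hT ⌊T⌋₊ le_rfl
      rw [abs_of_nonneg (by linarith)] at h1
      linarith) hη
  obtain ⟨T2, hbad⟩ := exists_badV hRH hc hd
  obtain ⟨C', h'⟩ := blocks_of_good hRH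
    (G := fun T t => ∀ ρ ∈ Pool.Agent.Hadamard.ntz, Real.pi * c / Real.log T < |ρ.im - t|)
    (B := fun n m => ∀ j < m, gap (n + j) ≤ d) (r := Real.pi * c) (η := η) (C := C) (K0 := K0)
    (T1 := T2) (by positivity) hη hC hK0 hgood
    (fun T hT n m hn hB hTn t h1 h2 h3 => hbad T hT n m hn hB hTn t h1 h2 h3)
  refine ⟨C', fun m hm1 => ?_⟩
  obtain ⟨N0, hN0⟩ := h' m hm1
  refine ⟨N0, fun N hN => ?_⟩
  have h'' := hN0 N hN
  convert h''

open Classical in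
/-- The exceptional blocks without small gap. -/
theorem blocks_crowd (hRH : RiemannHypothesis) {r θ c a b : ℝ} {m0 : ℕ} (hm : m0 ≠ 0)
    (hθ : 0 < θ) (hθ' : θ < 1 / 4) (hc : 0 < c) (hc1 : c ≤ 1) (ha : 0 ≤ a) (hb : 0 ≤ b)
    (hab : a + b ≤ 1) (h0 : 0 < a + b) (hr : r ≤ 0)
    (hgap : |c - 1| * Den a b (r ^ 2) < 2 / Real.pi * (|r| * Num (Real.pi * c * θ) a b (r ^ 2) m0))
    {d : ℝ} (hd : c < d) {η : ℝ} (hη : 0 < η) : ∃ C : ℝ, ∀ m : ℕ, 1 ≤ m →
    ∃ N0 : ℕ, ∀ N : ℕ, N0 ≤ N →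
      (((Finset.Icc 1 N).filter (fun n => ∀ j < m, d ≤ gap (n + j))).card : ℝ) ≤
        C * (m : ℝ) ^ (-(1 / (1 + η))) * N := by
  have hpi := Real.pi_pos
  obtain ⟨κ, hκ, e, he, main⟩ := arith_sum hm hθ (by linarith) hc.le ha hb hab h0 hgap
  set ep := min e (θ / 4) with hep
  have hep0 : 0 < ep := lt_min he (by linarith)
  have hep1 : ep ≤ θ / 4 := min_le_right _ _
  set δ := min e (1 / 2) with hδ
  have hδ0 : 0 < δ := lt_min he (by norm_num)
  obtain ⟨R, hRth, hRep, hRr, hLP⟩ := exists_linProf (th := θ) (ep := ep) (δ := δ) r hep0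
    (by linarith) (by linarith) ha hb hab hδ0 (min_le_right _ _)
  set e' := min e (Real.pi * κ) with he'
  have he'0 : 0 < e' := lt_min he (by positivity)
  obtain ⟨ψ, hψ, hψ00, hψ1, hψ0, ⟨K, M, hK, hlip, hbd⟩, hclose⟩ := exists_minorant hc he'0
  obtain ⟨T1, hT1, harith⟩ := main R hRr hRth (by rw [hRep]; exact min_le_left _ _) δ
    (min_le_left _ _) hLP (chat ψ) K M e' (-1) hK hlip hbd he'0.le (min_le_left _ _)
    (fun x _ _ => hclose x) (by norm_num) (by rw [abs_of_nonpos hr]; ring)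
  have hF : ∀ x, 0 ≤ x → R.F x ≤ 1 := fun x hx => hLP.F_le_one hx
  have hF0 : 0 < R.F 0 := by
    rw [hLP.eq 0 le_rfl (by linarith [hLP.hδ'])]
    linarith
  have hψc : c - κ / 2 ≤ chat ψ 0 / (2 * Real.pi) := by
    have h1 := (abs_le.mp (hclose 0)).1
    have h2 : k0 c 0 = 2 * (Real.pi * c) := by unfold k0; simp
    have h3 : e' ≤ Real.pi * κ := min_le_right _ _
    rw [le_div_iff₀ (by positivity)]
    rw [h2] at h1
    nlinarith
  obtain ⟨C, K0, hC, hK0, hgood⟩ := good_crowd hRH R hF hF0 (by rw [hRth]; exact hθ') hc hκ hψ hψ00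
    hψ1 hψ0 hψc (T1 := T1) (fun T hT => by
      have h1 := harith T hT ⌊T⌋₊ le_rfl
      rw [abs_of_nonpos (by linarith)] at h1
      linarith) hη
  obtain ⟨T2, hbad⟩ := exists_badC hRH hc hd
  obtain ⟨C', h'⟩ := blocks_of_good hRH
    (G := fun T t => zeroCount (t - Real.pi * c / Real.log T) + 2 ≤
      zeroCount (t + Real.pi * c / Real.log T))
    (B := fun n m => ∀ j < m, d ≤ gap (n + j)) (r := Real.pi * c) (η := η) (C := C) (K0 := K0)
    (T1 := T2) (by positivity) hη hC hK0 hgood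
    (fun T hT n m hn hB hTn t h1 h2 h3 => hbad T hT n m hn hB hTn t h1 h2 h3)
  refine ⟨C', fun m hm1 => ?_⟩
  obtain ⟨N0, hN0⟩ := h' m hm1
  refine ⟨N0, fun N hN => ?_⟩
  have h'' := hN0 N hN
  convert h''

open Classical in
theorem typical_blocks (hRH : RiemannHypothesis) {ε : ℝ} (hε : 0 < ε) : ∃ C : ℝ, ∀ m : ℕ, 1 ≤ m →
    ∃ N0 : ℕ, ∀ N : ℕ, N0 ≤ N →
      (((Finset.Icc 1 N).filter (fun n => (∀ j < m, 0.669 ≤ gap (n + j)) ∨
        (∀ j < m, gap (n + j) ≤ 1.89))).card : ℝ) ≤ C * (m : ℝ) ^ (-1 + ε) * N := by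
  obtain ⟨C1, h1⟩ := blocks_void hRH (r := 6 / 5) (θ := 2499 / 10000) (c := 18905 / 10000)
    (a := 7 / 10) (b := 3 / 10) (m0 := 2) (by norm_num) (by norm_num) (by norm_num)
    (by norm_num) (by norm_num) (by norm_num) (by norm_num) (by norm_num) (by norm_num)
    num_void (d := 1.89) (by norm_num) hε
  obtain ⟨C2, h2⟩ := blocks_crowd hRH (r := -(21 / 20)) (θ := 2499 / 10000) (c := 6689 / 10000)
    (a := 9 / 10) (b := 1 / 10) (m0 := 2) (by norm_num) (by norm_num) (by norm_num)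
    (by norm_num) (by norm_num) (by norm_num) (by norm_num) (by norm_num) (by norm_num)
    (by norm_num) num_crowd (d := 0.669) (by norm_num) hε
  refine ⟨|C1| + |C2|, fun m hm => ?_⟩
  obtain ⟨N1, hN1⟩ := h1 m hm
  obtain ⟨N2, hN2⟩ := h2 m hm
  refine ⟨max N1 N2, fun N hN => ?_⟩
  have a1 := hN1 N ((le_max_left _ _).trans hN)
  have a2 := hN2 N ((le_max_right _ _).trans hN)
  have hm1 : (1:ℝ) ≤ m := by exact_mod_cast hm
  have e1 : (m : ℝ) ^ (-(1 / (1 + ε))) ≤ (m : ℝ) ^ (-1 + ε) := by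
    apply Real.rpow_le_rpow_of_exponent_le hm1
    have h3 : 1 - ε ≤ 1 / (1 + ε) := by
      rw [le_div_iff₀ (by linarith)]
      nlinarith [sq_nonneg ε]
    linarith
  have hN0 : (0:ℝ) ≤ N := Nat.cast_nonneg _
  have e2 : ∀ C : ℝ, C * (m : ℝ) ^ (-(1 / (1 + ε))) * N ≤ |C| * (m : ℝ) ^ (-1 + ε) * N := by
    intro C
    apply mul_le_mul_of_nonneg_right _ hN0
    have h4 : 0 ≤ (m : ℝ) ^ (-(1 / (1 + ε))) := by positivity
    calc C * (m : ℝ) ^ (-(1 / (1 + ε))) ≤ |C| * (m : ℝ) ^ (-(1 / (1 + ε))) :=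
          mul_le_mul_of_nonneg_right (le_abs_self C) h4
      _ ≤ _ := mul_le_mul_of_nonneg_left e1 (abs_nonneg C)
  have e3 : ((Finset.Icc 1 N).filter (fun n => (∀ j < m, 0.669 ≤ gap (n + j)) ∨
        (∀ j < m, gap (n + j) ≤ 1.89))).card ≤
      ((Finset.Icc 1 N).filter (fun n => ∀ j < m, gap (n + j) ≤ 1.89)).card +
      ((Finset.Icc 1 N).filter (fun n => ∀ j < m, 0.669 ≤ gap (n + j))).card := by
    rw [Finset.filter_or]
    refine (Finset.card_union_le _ _).trans ?_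
    rw [add_comm]
  have e4 : ((((Finset.Icc 1 N).filter (fun n => (∀ j < m, 0.669 ≤ gap (n + j)) ∨
        (∀ j < m, gap (n + j) ≤ 1.89))).card : ℕ) : ℝ) ≤
      (((Finset.Icc 1 N).filter (fun n => ∀ j < m, gap (n + j) ≤ 1.89)).card : ℝ) +
      (((Finset.Icc 1 N).filter (fun n => ∀ j < m, 0.669 ≤ gap (n + j))).card : ℝ) := by
    exact_mod_cast e3
  have b1 := e2 C1
  have b2 := e2 C2
  calc _ ≤ _ := e4
    _ ≤ |C1| * (m : ℝ) ^ (-1 + ε) * N + |C2| * (m : ℝ) ^ (-1 + ε) * N := by linarith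
    _ = _ := by ring

end Pool.Agent.TypBlk
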