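import Mathlib

/-!
# Local density from typical blocks (finite counting)

If for every block length `m` at most `C m^(-1+ε) N` of the `n ≤ N` start a block of length `m`
without an element of `S` or without an element of `L`, then for all `m, r ≥ 1` all but
`4 C m^(-1+ε) N` of the `n ≤ N` have at least `r / 2` elements of `S` and at least `r / 2` elements
of `L` in `[n, n + m r)`.
-/

namespace Pool.Agent.TypBlk.LocDens

open Finset

/-- The block `[n, n+m)` misses `S` or misses `L`. -/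
def Bad (S L : ℕ → Prop) (m n : ℕ) : Prop := (∀ j < m, ¬ S (n + j)) ∨ (∀ j < m, ¬ L (n + j))

/-- Number of elements of `S` in `[n, n+m)`. -/
noncomputable def cnt (S : ℕ → Prop) (m n : ℕ) : ℕ := by
  classical exact #{j ∈ range m | S (n + j)}

open Classical in
/-- If each of at least `q` of the `r` sub-blocks of length `K` has an element of `S`, then
`[n, n + K r)` has at least `q` elements of `S`. -/
theorem card_le_cnt (S : ℕ → Prop) (K r m n : ℕ) (hm : K * r ≤ m) :
    #{j ∈ range r | ∃ i < K, S (n + K * j + i)} ≤ cnt S m n := by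
  unfold cnt
  have hK : ∀ j, (∃ i < K, S (n + K * j + i)) → 0 < K := by
    rintro j ⟨i, hi, _⟩; omega
  choose! f hf using fun (j : ℕ) (h : ∃ i < K, S (n + K * j + i)) => h
  refine Finset.card_le_card_of_injOn (fun j => K * j + f j) ?_ ?_
  · intro j hj
    simp only [Finset.coe_filter, Finset.mem_range, Set.mem_ofPred_eq] at hj ⊢
    obtain ⟨h1, h2⟩ := hj
    obtain ⟨h3, h4⟩ := hf j h2
    refine ⟨?_, by rw [← add_assoc]; exact h4⟩
    have : K * (j + 1) ≤ K * r := Nat.mul_le_mul_left _ h1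
    rw [Nat.mul_add, Nat.mul_one] at this
    omega
  · intro a ha b hb hab
    simp only [Finset.coe_filter, Finset.mem_range, Set.mem_ofPred_eq] at ha hb
    have hKa := hK a ha.2
    obtain ⟨ha3, _⟩ := hf a ha.2
    obtain ⟨hb3, _⟩ := hf b hb.2
    simp only at hab
    have e1 : (K * a + f a) / K = a := by
      rw [Nat.mul_add_div hKa, Nat.div_eq_of_lt ha3, add_zero]
    have e2 : (K * b + f b) / K = b := by
      rw [Nat.mul_add_div hKa, Nat.div_eq_of_lt hb3, add_zero]
    rw [← e1, ← e2, hab]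

open Classical in
/-- Double counting of the bad sub-blocks. -/
theorem sum_bad_le (S L : ℕ → Prop) (K r m N : ℕ) (hm : K * r ≤ m) :
    ∑ n ∈ Icc 1 N, #{j ∈ range r | Bad S L K (n + K * j)} ≤
      r * #{n ∈ Icc 1 (N + m) | Bad S L K n} := by
  have h1 : ∑ n ∈ Icc 1 N, #{j ∈ range r | Bad S L K (n + K * j)} =
      ∑ j ∈ range r, #{n ∈ Icc 1 N | Bad S L K (n + K * j)} := by
    simp only [Finset.card_filter]
    exact Finset.sum_comm
  rw [h1]
  have h2 : ∀ j ∈ range r, #{n ∈ Icc 1 N | Bad S L K (n + K * j)} ≤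
      #{n ∈ Icc 1 (N + m) | Bad S L K n} := by
    intro j hj
    have hj' : j < r := Finset.mem_range.1 hj
    have h3 : K * j ≤ m := le_trans (Nat.mul_le_mul_left _ hj'.le) hm
    refine Finset.card_le_card_of_injOn (fun n => n + K * j) ?_ ?_
    · intro n hn
      simp only [Finset.coe_filter, Finset.mem_Icc, Set.mem_ofPred_eq] at hn ⊢
      exact ⟨⟨by omega, by omega⟩, hn.2⟩
    · intro a _ b _ hab
      simpa using hab
  calc _ ≤ ∑ _j ∈ range r, #{n ∈ Icc 1 (N + m) | Bad S L K n} := Finset.sum_le_sum h2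
    _ = _ := by rw [Finset.sum_const, Finset.card_range, smul_eq_mul]

open Classical in
/-- Local density: at least half of the sub-blocks have an element of `S`, and at least half have
an element of `L`, for almost all starting points. -/
theorem local_density (S L : ℕ → Prop) (C ε : ℝ)
    (h : ∀ m : ℕ, 1 ≤ m → ∃ N₀ : ℕ, ∀ N : ℕ, N₀ ≤ N →
      (#{n ∈ Icc 1 N | Bad S L m n} : ℝ) ≤ C * (m : ℝ) ^ (-1 + ε) * N)
    (m r : ℕ) (hm : 1 ≤ m) (hr : 1 ≤ r) : ∃ N₀ : ℕ, ∀ N : ℕ, N₀ ≤ N →
      (#{n ∈ Icc 1 N | 2 * cnt S (m * r) n < r ∨ 2 * cnt L (m * r) n < r} : ℝ) ≤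
        4 * C * (m : ℝ) ^ (-1 + ε) * N := by
  have hr0 : (0 : ℝ) < r := by exact_mod_cast hr
  obtain ⟨N₁, hN₁⟩ := h m hm
  have hC0 : 0 ≤ C * (m : ℝ) ^ (-1 + ε) := by
    have h1 := hN₁ (N₁ + 1) (by omega)
    have h2 : (0 : ℝ) ≤ C * (m : ℝ) ^ (-1 + ε) * ((N₁ + 1 : ℕ) : ℝ) := le_trans (by positivity) h1
    have h3 : (0 : ℝ) < ((N₁ + 1 : ℕ) : ℝ) := by positivity
    exact nonneg_of_mul_nonneg_left h2 h3
  refine ⟨max N₁ (m * r), fun N hN => ?_⟩
  have hN1 : N₁ ≤ N := le_trans (le_max_left _ _) hN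
  have hN2 : m * r ≤ N := le_trans (le_max_right _ _) hN
  -- a failing `n` has at least `r / 2` bad sub-blocks
  have key : ∀ n : ℕ, (2 * cnt S (m * r) n < r ∨ 2 * cnt L (m * r) n < r) →
      (r : ℝ) / 2 ≤ #{j ∈ range r | Bad S L m (n + m * j)} := by
    have aux : ∀ (A : ℕ → Prop) (n : ℕ), (∀ k, ¬ Bad S L m k → ∃ i < m, A (k + i)) →
        2 * cnt A (m * r) n < r →
        (r : ℝ) / 2 ≤ #{j ∈ range r | Bad S L m (n + m * j)} := by
      intro A n hA hlt
      have h1 := card_le_cnt A m r (m * r) n le_rfl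
      have h2 : #{j ∈ range r | ¬ Bad S L m (n + m * j)} ≤
          #{j ∈ range r | ∃ i < m, A (n + m * j + i)} :=
        Finset.card_le_card (fun j hj => by
          simp only [Finset.mem_filter] at hj ⊢
          exact ⟨hj.1, hA _ hj.2⟩)
      have h3 : #{j ∈ range r | Bad S L m (n + m * j)} +
          #{j ∈ range r | ¬ Bad S L m (n + m * j)} = r := by
        rw [Finset.card_filter_add_card_filter_not, Finset.card_range]
      have h4 : r ≤ 2 * #{j ∈ range r | Bad S L m (n + m * j)} := by omega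
      have h5 : (r : ℝ) ≤ 2 * #{j ∈ range r | Bad S L m (n + m * j)} := by exact_mod_cast h4
      linarith
    intro n hn
    rcases hn with hn | hn
    · refine aux S n (fun k hk => ?_) hn
      unfold Bad at hk
      push Not at hk
      exact hk.1
    · refine aux L n (fun k hk => ?_) hn
      unfold Bad at hk
      push Not at hk
      exact hk.2
  have hsum := sum_bad_le S L m r (m * r) N le_rfl
  have hbad := hN₁ (N + m * r) (by omega)
  set F := {n ∈ Icc 1 N | 2 * cnt S (m * r) n < r ∨ 2 * cnt L (m * r) n < r} with hF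
  have h7 : (#F : ℝ) * (r / 2) ≤ ∑ n ∈ Icc 1 N, (#{j ∈ range r | Bad S L m (n + m * j)} : ℝ) := by
    calc (#F : ℝ) * (r / 2) = ∑ _n ∈ F, (r : ℝ) / 2 := by
          rw [Finset.sum_const, nsmul_eq_mul]
      _ ≤ ∑ n ∈ F, (#{j ∈ range r | Bad S L m (n + m * j)} : ℝ) := by
          refine Finset.sum_le_sum (fun n hn => key n ?_)
          rw [hF, Finset.mem_filter] at hn
          exact hn.2
      _ ≤ _ := by
          refine Finset.sum_le_sum_of_subset_of_nonneg (Finset.filter_subset _ _) ?_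
          intro _ _ _
          positivity
  have h8 : ∑ n ∈ Icc 1 N, (#{j ∈ range r | Bad S L m (n + m * j)} : ℝ) ≤
      r * #{n ∈ Icc 1 (N + m * r) | Bad S L m n} := by exact_mod_cast hsum
  have h9 : (#{n ∈ Icc 1 (N + m * r) | Bad S L m n} : ℝ) ≤ C * (m : ℝ) ^ (-1 + ε) * (2 * N) := by
    refine hbad.trans (mul_le_mul_of_nonneg_left ?_ hC0)
    have : N + m * r ≤ 2 * N := by omega
    exact_mod_cast this
  have h10 : (#F : ℝ) * (r / 2) ≤ r * (C * (m : ℝ) ^ (-1 + ε) * (2 * N)) :=
    h7.trans (h8.trans (mul_le_mul_of_nonneg_left h9 hr0.le))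
  have h11 : (#F : ℝ) * (r / 2) ≤ (4 * C * (m : ℝ) ^ (-1 + ε) * N) * (r / 2) := by linarith
  exact le_of_mul_le_mul_right h11 (by positivity)

end Pool.Agent.TypBlk.LocDens
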