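import Pool.Agent.TypBlk.LocDens

/-!
# All block lengths at once from typical blocks (one sided maximal inequality on the integers)

If at most `C m^(-1+ε) N` of the `n ≤ N` start a block of length `m` without an element of `S` or
without an element of `L`, then for all but `8 C m^(-1+ε) N` of the `n ≤ N` the block `[n, n+M)` has
for EVERY `M ≥ m` at least `M / (4 m)` elements of `S` and at least `M / (4 m)` elements of `L`.
-/

namespace Pool.Agent.TypBlk.LocDens

open Finset

open Classical in
/-- The greedy covering. -/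
theorem card_cover (B : ℕ → Prop) (K b : ℕ) : ∀ (c : ℕ) (F : Finset ℕ), #F ≤ c → ∀ a : ℕ,
    (∀ n ∈ F, a ≤ n ∧ n + K ≤ b) →
    (∀ n ∈ F, ∃ M, 1 ≤ M ∧ M ≤ K ∧ M < 2 * #{j ∈ range M | B (n + j)}) →
    #F ≤ 2 * #{n ∈ Ico a b | B n} := by
  intro c
  induction c with
  | zero =>
    intro F hF a _ _
    omega
  | succ c ih =>
    intro F hF a ha h
    rcases F.eq_empty_or_nonempty with rfl | hne
    · simp
    set n0 := F.min' hne with hn0
    have hmem : n0 ∈ F := F.min'_mem hne
    obtain ⟨M, hM1, hMK, hM⟩ := h n0 hmem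
    obtain ⟨ha0, hb0⟩ := ha n0 hmem
    set F' := F.filter (fun n => n0 + M ≤ n) with hF'
    have hsub : F ⊆ Ico n0 (n0 + M) ∪ F' := by
      intro n hn
      rw [mem_union, mem_Ico, hF', mem_filter]
      have := F.min'_le n hn
      by_cases h1 : n0 + M ≤ n
      · exact Or.inr ⟨hn, h1⟩
      · exact Or.inl ⟨this, by omega⟩
    have hcard : #F ≤ M + #F' := by
      refine (card_le_card hsub).trans ((card_union_le _ _).trans ?_)
      rw [Nat.card_Ico]
      omega
    have hlt : #F' ≤ c := by
      have h1 : F' ⊂ F := by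
        refine ⟨filter_subset _ _, fun h2 => ?_⟩
        have := h2 hmem
        rw [hF', mem_filter] at this
        omega
      have := card_lt_card h1
      omega
    have hih := ih F' hlt (n0 + M) (fun n hn => by
        rw [hF', mem_filter] at hn
        exact ⟨hn.2, (ha n hn.1).2⟩) (fun n hn => by
        rw [hF', mem_filter] at hn
        exact h n hn.1)
    have e1 : #{j ∈ range M | B (n0 + j)} ≤ #{n ∈ Ico n0 (n0 + M) | B n} := by
      refine card_le_card_of_injOn (fun j => n0 + j) ?_ ?_
      · intro j hj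
        simp only [coe_filter, mem_range, mem_Ico, Set.mem_ofPred_eq] at hj ⊢
        exact ⟨⟨by omega, by omega⟩, hj.2⟩
      · intro x _ y _ hxy
        simpa using hxy
    have e2 : #{n ∈ Ico n0 (n0 + M) | B n} + #{n ∈ Ico (n0 + M) b | B n} ≤
        #{n ∈ Ico a b | B n} := by
      rw [← card_union_of_disjoint]
      · refine card_le_card ?_
        intro n hn
        rw [mem_union, mem_filter, mem_filter, mem_Ico, mem_Ico] at hn
        rw [mem_filter, mem_Ico]
        rcases hn with hn | hn
        · exact ⟨⟨by omega, by omega⟩, hn.2⟩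
        · exact ⟨⟨by omega, by omega⟩, hn.2⟩
      · rw [disjoint_left]
        intro n h1 h2
        rw [mem_filter, mem_Ico] at h1 h2
        omega
    omega

open Classical in
/-- Few bad starting points in every block `[n, n+M)` give many elements. -/
theorem le_cnt_of_good (A B : ℕ → Prop) (m n : ℕ) (hm : 1 ≤ m)
    (hA : ∀ k, ¬ B k → ∃ i < m, A (k + i))
    (hB : ∀ M, 1 ≤ M → 2 * #{j ∈ range M | B (n + j)} ≤ M) (M : ℕ) (hM : m ≤ M) :
    M ≤ 4 * m * cnt A M n := by
  by_cases h4 : M ≤ 4 * m
  · have h1 : ¬ B n := by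
      intro hBn
      have h2 := hB 1 le_rfl
      have h3 : #{j ∈ range 1 | B (n + j)} = 1 := by
        rw [card_eq_one]
        refine ⟨0, ?_⟩
        ext j
        simp only [mem_filter, mem_range, mem_singleton]
        constructor
        · rintro ⟨h5, _⟩
          omega
        · rintro rfl
          exact ⟨by omega, by simpa using hBn⟩
      omega
    obtain ⟨i, hi, hAi⟩ := hA n h1
    have h2 : 1 ≤ cnt A M n := by
      unfold cnt
      rw [Nat.one_le_iff_ne_zero, Finset.card_ne_zero]
      exact ⟨i, by simp only [mem_filter, mem_range]; exact ⟨by omega, hAi⟩⟩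
    nlinarith
  · push Not at h4
    have h1 := hB (M - m) (by omega)
    have h2 : #{j ∈ range (M - m) | B (n + j)} + #{j ∈ range (M - m) | ¬ B (n + j)} = M - m := by
      rw [card_filter_add_card_filter_not, card_range]
    choose! f hf using hA
    have h3 : #{j ∈ range (M - m) | ¬ B (n + j)} ≤ m * cnt A M n := by
      unfold cnt
      refine card_le_mul_card_image_of_maps_to (f := fun j => j + f (n + j)) ?_ m ?_
      · intro j hj
        rw [mem_filter, mem_range] at hj
        obtain ⟨h5, h6⟩ := hf (n + j) hj.2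
        rw [mem_filter, mem_range]
        exact ⟨by omega, by rw [← add_assoc]; exact h6⟩
      · intro b _
        have h5 : ({j ∈ {j ∈ range (M - m) | ¬ B (n + j)} | j + f (n + j) = b}) ⊆
            Ico (b + 1 - m) (b + 1) := by
          intro j hj
          rw [mem_filter, mem_filter] at hj
          obtain ⟨h6, _⟩ := hf (n + j) hj.1.2
          rw [mem_Ico]
          omega
        refine (card_le_card h5).trans ?_
        rw [Nat.card_Ico]
        omega
    have h6 : M - m ≤ 2 * (m * cnt A M n) := by omega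
    have h7 : 4 * m * cnt A M n = 2 * (2 * (m * cnt A M n)) := by ring
    rw [h7]
    omega

open Classical in
/-- All block lengths at once. -/
theorem maximal (S L : ℕ → Prop) (C ε : ℝ)
    (h : ∀ m : ℕ, 1 ≤ m → ∃ N₀ : ℕ, ∀ N : ℕ, N₀ ≤ N →
      (#{n ∈ Icc 1 N | Bad S L m n} : ℝ) ≤ C * (m : ℝ) ^ (-1 + ε) * N)
    (m : ℕ) (hm : 1 ≤ m) : ∃ N₀ : ℕ, ∀ N : ℕ, N₀ ≤ N →
      (#{n ∈ Icc 1 N | ∃ M, m ≤ M ∧ (4 * m * cnt S M n < M ∨ 4 * m * cnt L M n < M)} : ℝ) ≤
        8 * C * (m : ℝ) ^ (-1 + ε) * N := by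
  obtain ⟨N₁, hN₁⟩ := h m hm
  set η : ℝ := C * (m : ℝ) ^ (-1 + ε) with hη
  refine ⟨max N₁ 1, fun N hN => ?_⟩
  have hN1 : N₁ ≤ N := le_trans (le_max_left _ _) hN
  have hN2 : 1 ≤ N := le_trans (le_max_right _ _) hN
  have hNr : (0:ℝ) < N := by exact_mod_cast hN2
  set F := {n ∈ Icc 1 N | ∃ M, m ≤ M ∧ (4 * m * cnt S M n < M ∨ 4 * m * cnt L M n < M)} with hF
  have e8 : 8 * C * (m : ℝ) ^ (-1 + ε) * N = 8 * η * N := by rw [hη]; ring
  rw [e8]
  rcases le_or_gt (1 / 8) η with h8 | h8
  · have h1 : #F ≤ N := by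
      refine (card_le_card (filter_subset _ _)).trans ?_
      rw [Nat.card_Icc]
      omega
    have h2 : (#F : ℝ) ≤ N := by exact_mod_cast h1
    nlinarith
  have hbad : ∀ n ∈ F, ∃ M, 1 ≤ M ∧ M ≤ N ∧ M < 2 * #{j ∈ range M | Bad S L m (n + j)} := by
    intro n hn
    rw [hF, mem_filter, mem_Icc] at hn
    obtain ⟨⟨hn1, hnN⟩, M, hmM, hM⟩ := hn
    have h1 : ∃ M', 1 ≤ M' ∧ M' < 2 * #{j ∈ range M' | Bad S L m (n + j)} := by
      by_contra hcon
      push Not at hcon
      rcases hM with hM | hM
      · refine absurd (le_cnt_of_good S (Bad S L m) m n hm (fun k hk => ?_) hcon M hmM) (by omega)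
        unfold Bad at hk
        push Not at hk
        exact hk.1
      · refine absurd (le_cnt_of_good L (Bad S L m) m n hm (fun k hk => ?_) hcon M hmM) (by omega)
        unfold Bad at hk
        push Not at hk
        exact hk.2
    obtain ⟨M', h1, h2⟩ := h1
    refine ⟨M', h1, ?_, h2⟩
    by_contra h3
    push Not at h3
    have h4 := hN₁ (n + M') (by omega)
    have h5 : #{j ∈ range M' | Bad S L m (n + j)} ≤ #{k ∈ Icc 1 (n + M') | Bad S L m k} := by
      refine card_le_card_of_injOn (fun j => n + j) ?_ ?_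
      · intro j hj
        simp only [coe_filter, mem_range, mem_Icc, Set.mem_ofPred_eq] at hj ⊢
        exact ⟨⟨by omega, by omega⟩, hj.2⟩
      · intro x _ y _ hxy
        simpa using hxy
    have h6 : (#{j ∈ range M' | Bad S L m (n + j)} : ℝ) ≤ η * ((n + M' : ℕ) : ℝ) :=
      le_trans (by exact_mod_cast h5) h4
    have h7 : (M' : ℝ) < 2 * (#{j ∈ range M' | Bad S L m (n + j)} : ℝ) := by exact_mod_cast h2
    have h9 : (n : ℝ) ≤ M' := by
      have : n ≤ M' := by omega
      exact_mod_cast this
    push_cast at h6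
    have h10 : (0:ℝ) < M' := by exact_mod_cast h1
    have h11 : η * ((n : ℝ) + M') ≤ 1 / 8 * ((n : ℝ) + M') :=
      mul_le_mul_of_nonneg_right h8.le (by positivity)
    linarith
  have hcov := card_cover (Bad S L m) N (2 * N + 1) (#F) F le_rfl 1 (fun n hn => by
    rw [hF, mem_filter, mem_Icc] at hn
    omega) hbad
  have h1 := hN₁ (2 * N) (by omega)
  have h2 : #{n ∈ Ico 1 (2 * N + 1) | Bad S L m n} = #{n ∈ Icc 1 (2 * N) | Bad S L m n} := by
    congr 1
  rw [h2] at hcov
  have h3 : (#F : ℝ) ≤ 2 * (#{n ∈ Icc 1 (2 * N) | Bad S L m n} : ℝ) := by exact_mod_cast hcov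
  push_cast at h1
  have hη0 : 0 ≤ η := by
    have : (0:ℝ) ≤ η * (2 * N) := le_trans (by positivity) h1
    exact nonneg_of_mul_nonneg_left this (by positivity)
  nlinarith

end Pool.Agent.TypBlk.LocDens
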