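import Pool.Agent.TypBlk.Defs
import Pool.Agent.Lib.ANT.MertensE

/-!
# Sums over rough numbers and over primes in short intervals
-/

namespace Pool.Agent.TypBlk

open Finset Pool.Agent.ZGap.Res

namespace NdA

open ArithmeticFunction

/-- Mertens' first theorem, upper bound at a real point, in the variable `u = log x`. -/
theorem mert_upper {C : ℝ} (hC : ∀ N : ℕ, 1 ≤ N →
    |∑ n ∈ Finset.Icc 1 N, vonMangoldt n / n - Real.log N| ≤ C) (u : ℝ) (hu : 0 ≤ u) :
    ∑ n ∈ Finset.Icc 1 ⌊Real.exp u⌋₊, vonMangoldt n / n ≤ u + C := by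
  have h1 : 1 ≤ ⌊Real.exp u⌋₊ := by
    rw [Nat.one_le_floor_iff]
    exact Real.one_le_exp hu
  have h2 := (abs_le.1 (hC _ h1)).2
  have h3 : Real.log (⌊Real.exp u⌋₊ : ℝ) ≤ u := by
    rw [Real.log_le_iff_le_exp (by exact_mod_cast h1)]
    exact Nat.floor_le (Real.exp_pos u).le
  linarith

theorem mert_lower {C : ℝ} (hC : ∀ N : ℕ, 1 ≤ N →
    |∑ n ∈ Finset.Icc 1 N, vonMangoldt n / n - Real.log N| ≤ C) (u : ℝ) (hu : 0 ≤ u) :
    u - 1 - C ≤ ∑ n ∈ Finset.Icc 1 ⌊Real.exp u⌋₊, vonMangoldt n / n := by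
  have h1 : 1 ≤ ⌊Real.exp u⌋₊ := by
    rw [Nat.one_le_floor_iff]
    exact Real.one_le_exp hu
  have h2 := (abs_le.1 (hC _ h1)).1
  have h3 : u - 1 ≤ Real.log (⌊Real.exp u⌋₊ : ℝ) := by
    rw [Real.le_log_iff_exp_le (by exact_mod_cast h1)]
    have h4 : Real.exp u < (⌊Real.exp u⌋₊ : ℝ) + 1 := Nat.lt_floor_add_one _
    have h5 : (1 : ℝ) ≤ (⌊Real.exp u⌋₊ : ℝ) := by exact_mod_cast h1
    have h6 : Real.exp (u - 1) * Real.exp 1 = Real.exp u := by rw [← Real.exp_add]; ring_nf
    have h7 : (2 : ℝ) ≤ Real.exp 1 := by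
      have := Real.add_one_le_exp (1 : ℝ); linarith
    have h8 : Real.exp (u - 1) * 2 ≤ Real.exp u := by
      rw [← h6]
      exact mul_le_mul_of_nonneg_left h7 (Real.exp_pos _).le
    linarith
  linarith

/-- `Λ(n)/n` in an interval of the variable `log n`. -/
theorem mert_interval {C : ℝ} (hC0 : 0 ≤ C) (hC : ∀ N : ℕ, 1 ≤ N →
    |∑ n ∈ Finset.Icc 1 N, vonMangoldt n / n - Real.log N| ≤ C) (y w : ℝ) (hw : 0 ≤ w) (N : ℕ) :
    ∑ n ∈ Finset.Icc 1 N, (if |Real.log n - y| ≤ w then vonMangoldt n / (n : ℝ) else 0) ≤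
      2 * w + (2 * C + 2) := by
  have hnn : ∀ n : ℕ, 0 ≤ vonMangoldt n / (n : ℝ) := fun n =>
    div_nonneg vonMangoldt_nonneg (Nat.cast_nonneg n)
  rw [← Finset.sum_filter]
  by_cases h0 : y + w < 0
  · have : (Finset.Icc 1 N).filter (fun n : ℕ => |Real.log n - y| ≤ w) = ∅ := by
      rw [Finset.filter_eq_empty_iff]
      intro n hn habs
      have hn1 : (1 : ℝ) ≤ n := by exact_mod_cast (Finset.mem_Icc.1 hn).1
      have h1 := Real.log_nonneg hn1
      have h2 := (abs_le.1 habs).2
      linarith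
    rw [this, Finset.sum_empty]
    positivity
  push Not at h0
  have hup := mert_upper hC (y + w) h0
  -- the upper cutoff
  have hmemU : ∀ n ∈ (Finset.Icc 1 N).filter (fun n : ℕ => |Real.log n - y| ≤ w),
      n ∈ Finset.Icc 1 ⌊Real.exp (y + w)⌋₊ := by
    intro n hn
    rw [Finset.mem_filter, Finset.mem_Icc] at hn
    rw [Finset.mem_Icc]
    refine ⟨hn.1.1, Nat.le_floor ?_⟩
    have hn1 : (0 : ℝ) < n := by exact_mod_cast hn.1.1
    rw [← Real.log_le_iff_le_exp hn1]
    linarith [(abs_le.1 hn.2).2]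
  by_cases h1 : y - w - 1 < 0
  · calc _ ≤ ∑ n ∈ Finset.Icc 1 ⌊Real.exp (y + w)⌋₊, vonMangoldt n / (n : ℝ) :=
          Finset.sum_le_sum_of_subset_of_nonneg hmemU fun n _ _ => hnn n
      _ ≤ y + w + C := hup
      _ ≤ _ := by linarith
  · push Not at h1
    have hlow := mert_lower hC (y - w - 1) h1
    have hsub : Finset.Icc 1 ⌊Real.exp (y - w - 1)⌋₊ ⊆ Finset.Icc 1 ⌊Real.exp (y + w)⌋₊ := by
      apply Finset.Icc_subset_Icc_right
      apply Nat.floor_mono
      apply Real.exp_le_exp.2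
      linarith
    have hmem : (Finset.Icc 1 N).filter (fun n : ℕ => |Real.log n - y| ≤ w) ⊆
        Finset.Icc 1 ⌊Real.exp (y + w)⌋₊ \ Finset.Icc 1 ⌊Real.exp (y - w - 1)⌋₊ := by
      intro n hn
      rw [Finset.mem_sdiff]
      refine ⟨hmemU n hn, ?_⟩
      intro hn2
      rw [Finset.mem_filter, Finset.mem_Icc] at hn
      have hn1 : (0 : ℝ) < n := by exact_mod_cast hn.1.1
      have h3 : (n : ℝ) ≤ Real.exp (y - w - 1) :=
        (Nat.le_floor_iff (Real.exp_pos _).le).1 (Finset.mem_Icc.1 hn2).2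
      rw [← Real.log_le_iff_le_exp hn1] at h3
      linarith [(abs_le.1 hn.2).1]
    have h4 := Finset.sum_sdiff (f := fun n : ℕ => vonMangoldt n / (n : ℝ)) hsub
    calc _ ≤ ∑ n ∈ Finset.Icc 1 ⌊Real.exp (y + w)⌋₊ \ Finset.Icc 1 ⌊Real.exp (y - w - 1)⌋₊,
            vonMangoldt n / (n : ℝ) :=
          Finset.sum_le_sum_of_subset_of_nonneg hmem fun n _ _ => hnn n
      _ ≤ _ := by linarith

theorem log_pos3 {T : ℝ} (hT : Real.exp 3 ≤ T) : 3 ≤ Real.log T := by
  rw [Real.le_log_iff_exp_le (lt_of_lt_of_le (Real.exp_pos 3) hT)]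
  exact hT

end NdA

/-- Large primes in a short interval, in the variable `log p`. -/
theorem exists_prime_interval (R : ResData) : ∃ C : ℝ, 0 < C ∧ ∀ T : ℝ, Real.exp 3 ≤ T →
    ∀ y w : ℝ, 0 ≤ w →
    ∑ p ∈ PP T, (if R.ep * Real.log T < Real.log p ∧ |Real.log p - y| ≤ w then 1 / (p : ℝ) else 0) ≤
      C * (w + 1) / Real.log T := by
  obtain ⟨C, hC0, hC⟩ := Pool.Agent.ANTE.mertens_one
  refine ⟨(2 * C + 2) / R.ep, div_pos (by positivity) R.ep_pos, fun T hT y w hw => ?_⟩
  have hL := NdA.log_pos3 hT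
  have hep := R.ep_pos
  have hepL : 0 < R.ep * Real.log T := by positivity
  have h1 := NdA.mert_interval hC0.le hC y w hw ⌊T⌋₊
  have h2 : ∀ p ∈ PP T,
      (if R.ep * Real.log T < Real.log p ∧ |Real.log p - y| ≤ w then 1 / (p : ℝ) else 0) ≤
      (R.ep * Real.log T)⁻¹ *
        (if |Real.log p - y| ≤ w then ArithmeticFunction.vonMangoldt p / (p : ℝ) else 0) := by
    intro p hp
    have hpp : p.Prime := (Finset.mem_filter.1 hp).2
    have hp0 : (0 : ℝ) < p := by exact_mod_cast hpp.pos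
    have hvm : ArithmeticFunction.vonMangoldt p = Real.log p :=
      ArithmeticFunction.vonMangoldt_apply_prime hpp
    split_ifs with h3 h4 h4
    · rw [hvm, inv_mul_eq_div, le_div_iff₀ hepL, div_mul_eq_mul_div, one_mul]
      exact div_le_div_of_nonneg_right h3.1.le hp0.le
    · exact absurd h3.2 h4
    · exact mul_nonneg (by positivity)
        (div_nonneg ArithmeticFunction.vonMangoldt_nonneg hp0.le)
    · simp
  calc _ ≤ ∑ p ∈ PP T, (R.ep * Real.log T)⁻¹ *
        (if |Real.log p - y| ≤ w then ArithmeticFunction.vonMangoldt p / (p : ℝ) else 0) :=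
        Finset.sum_le_sum h2
    _ = (R.ep * Real.log T)⁻¹ * ∑ p ∈ PP T,
        (if |Real.log p - y| ≤ w then ArithmeticFunction.vonMangoldt p / (p : ℝ) else 0) := by
        rw [Finset.mul_sum]
    _ ≤ (R.ep * Real.log T)⁻¹ * ∑ p ∈ Finset.Icc 1 ⌊T⌋₊,
        (if |Real.log p - y| ≤ w then ArithmeticFunction.vonMangoldt p / (p : ℝ) else 0) := by
        refine mul_le_mul_of_nonneg_left ?_ (by positivity)
        refine Finset.sum_le_sum_of_subset_of_nonneg (Finset.filter_subset _ _) fun n _ _ => ?_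
        split_ifs
        · exact div_nonneg ArithmeticFunction.vonMangoldt_nonneg (Nat.cast_nonneg n)
        · exact le_rfl
    _ ≤ (R.ep * Real.log T)⁻¹ * (2 * w + (2 * C + 2)) :=
        mul_le_mul_of_nonneg_left h1 (by positivity)
    _ ≤ (R.ep * Real.log T)⁻¹ * ((2 * C + 2) * (w + 1)) := by
        refine mul_le_mul_of_nonneg_left ?_ (by positivity)
        nlinarith
    _ = _ := by
        field_simp

/-- The prime powers below a bound. -/
theorem exists_vm_sq : ∃ C : ℝ, 0 < C ∧ ∀ T : ℝ, Real.exp 3 ≤ T →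
    ∑ n ∈ Icc 1 ⌊T⌋₊, ArithmeticFunction.vonMangoldt n ^ 2 / (n * Real.log T ^ 2) ≤ C ∧
    ∀ w : ℝ, 0 ≤ w → ∑ n ∈ Icc 1 ⌊T⌋₊, (if Real.log n ≤ w then
      ArithmeticFunction.vonMangoldt n ^ 2 / (n * Real.log T ^ 2) else 0) ≤
        C * (w * (w + 1)) / Real.log T ^ 2 := by
  obtain ⟨C, hC0, hC⟩ := Pool.Agent.ANTE.mertens_one
  have hvn : ∀ n : ℕ, 0 ≤ ArithmeticFunction.vonMangoldt n := fun n =>
    ArithmeticFunction.vonMangoldt_nonneg
  have key : ∀ T : ℝ, Real.exp 3 ≤ T → ∀ w : ℝ, 0 ≤ w →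
      ∑ n ∈ Icc 1 ⌊T⌋₊, (if Real.log n ≤ w then
        ArithmeticFunction.vonMangoldt n ^ 2 / (n * Real.log T ^ 2) else 0) ≤
        w * (w + C) / Real.log T ^ 2 := by
    intro T hT w hw
    have hL := NdA.log_pos3 hT
    have hup := NdA.mert_upper hC w hw
    calc _ ≤ ∑ n ∈ Icc 1 ⌊T⌋₊, (if Real.log n ≤ w then
        w / Real.log T ^ 2 * (ArithmeticFunction.vonMangoldt n / n) else 0) := by
          refine Finset.sum_le_sum fun n hn => ?_
          split_ifs with h
          · have hn1 : (1 : ℝ) ≤ n := by exact_mod_cast (Finset.mem_Icc.1 hn).1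
            have h1 : ArithmeticFunction.vonMangoldt n ≤ w :=
              ArithmeticFunction.vonMangoldt_le_log.trans h
            rw [div_mul_div_comm, mul_comm (n : ℝ)]
            refine div_le_div_of_nonneg_right ?_ (by positivity)
            rw [sq]
            exact mul_le_mul_of_nonneg_right h1 (hvn n)
          · exact le_rfl
      _ = w / Real.log T ^ 2 * ∑ n ∈ (Icc 1 ⌊T⌋₊).filter (fun n : ℕ => Real.log n ≤ w),
          ArithmeticFunction.vonMangoldt n / n := by
          rw [← Finset.sum_filter, Finset.mul_sum]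
      _ ≤ w / Real.log T ^ 2 * ∑ n ∈ Icc 1 ⌊Real.exp w⌋₊, ArithmeticFunction.vonMangoldt n / n := by
          refine mul_le_mul_of_nonneg_left ?_ (by positivity)
          refine Finset.sum_le_sum_of_subset_of_nonneg ?_ fun n _ _ =>
            div_nonneg (hvn n) (Nat.cast_nonneg n)
          intro n hn
          rw [Finset.mem_filter, Finset.mem_Icc] at hn
          rw [Finset.mem_Icc]
          refine ⟨hn.1.1, Nat.le_floor ?_⟩
          have hn1 : (0 : ℝ) < n := by exact_mod_cast hn.1.1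
          rw [← Real.log_le_iff_le_exp hn1]
          exact hn.2
      _ ≤ w / Real.log T ^ 2 * (w + C) := mul_le_mul_of_nonneg_left hup (by positivity)
      _ = _ := by ring
  refine ⟨1 + C, by positivity, fun T hT => ⟨?_, fun w hw => ?_⟩⟩
  · have hL := NdA.log_pos3 hT
    have hT0 : 0 < T := lt_of_lt_of_le (Real.exp_pos 3) hT
    have h1 := key T hT (Real.log T) (by linarith)
    have h2 : ∑ n ∈ Icc 1 ⌊T⌋₊, (if Real.log n ≤ Real.log T then
        ArithmeticFunction.vonMangoldt n ^ 2 / (n * Real.log T ^ 2) else 0) =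
        ∑ n ∈ Icc 1 ⌊T⌋₊, ArithmeticFunction.vonMangoldt n ^ 2 / (n * Real.log T ^ 2) := by
      refine Finset.sum_congr rfl fun n hn => ?_
      rw [if_pos]
      have hn0 : (0 : ℝ) < n := by exact_mod_cast (Finset.mem_Icc.1 hn).1
      exact Real.log_le_log hn0 ((Nat.le_floor_iff hT0.le).1 (Finset.mem_Icc.1 hn).2)
    rw [h2] at h1
    refine h1.trans ?_
    rw [div_le_iff₀ (by positivity)]
    nlinarith [mul_nonneg hC0.le (mul_nonneg (by linarith : (0 : ℝ) ≤ Real.log T)
      (by linarith : (0 : ℝ) ≤ Real.log T - 1))]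
  · have hL := NdA.log_pos3 hT
    refine (key T hT w hw).trans ?_
    refine div_le_div_of_nonneg_right ?_ (by positivity)
    nlinarith [mul_nonneg hC0.le hw, mul_nonneg hC0.le (mul_nonneg hw hw)]

/-- A rough number has few prime factors. -/
theorem Rg.card_le {R : ResData} {T : ℝ} {m : ℕ} (h : Rg R T m) (hT : 1 < T) {B : ℝ}
    (hm : (m : ℝ) ≤ T ^ B) : (m.primeFactorsList.length : ℝ) ≤ B / R.ep := by
  have hL : 0 < Real.log T := Real.log_pos hT
  have hep := R.ep_pos
  have hm0 : (0 : ℝ) < m := by exact_mod_cast h.1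
  have h1 : Real.log m ≤ B * Real.log T := by
    rw [← Real.log_rpow (by linarith)]
    exact Real.log_le_log hm0 hm
  have h2 : ∀ l : List ℕ, (∀ p ∈ l, 0 < p ∧ R.ep * Real.log T < Real.log p) →
      (l.length : ℝ) * (R.ep * Real.log T) ≤ Real.log (l.prod : ℕ) := by
    intro l
    induction l with
    | nil => intro _; simp
    | cons a l ih =>
      intro hl
      have h3 := ih fun p hp => hl p (List.mem_cons_of_mem _ hp)
      have h4 := hl a List.mem_cons_self
      have h5 : l.prod ≠ 0 := by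
        rw [Ne, List.prod_eq_zero_iff]
        intro h0
        exact (hl 0 (List.mem_cons_of_mem _ h0)).1.ne' rfl
      rw [List.prod_cons, Nat.cast_mul, Real.log_mul
        (by exact_mod_cast h4.1.ne') (by exact_mod_cast h5), List.length_cons, Nat.cast_add,
        Nat.cast_one]
      linarith [h4.2]
  have h3 := h2 m.primeFactorsList fun p hp => by
    have hpp := Nat.prime_of_mem_primeFactorsList hp
    exact ⟨hpp.pos, (h.2 p hpp (Nat.dvd_of_mem_primeFactorsList hp)).1⟩
  rw [Nat.prod_primeFactorsList h.1.ne'] at h3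
  rw [le_div_iff₀ hep]
  have h4 : (m.primeFactorsList.length : ℝ) * R.ep * Real.log T ≤ B * Real.log T := by
    calc _ = (m.primeFactorsList.length : ℝ) * (R.ep * Real.log T) := by ring
      _ ≤ _ := h3.trans h1
  exact le_of_mul_le_mul_right h4 hL

/-- The completely multiplicative function `1/n`. -/
noncomputable def NdA.invHom : ℕ →* ℝ where
  toFun n := 1 / (n : ℝ)
  map_one' := by simp
  map_mul' a b := by
    push_cast
    rw [one_div_mul_one_div]

open Classical in
/-- The sum of `1/m` over the rough numbers is bounded. -/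
theorem exists_Rg_sum (R : ResData) : ∃ C : ℝ, 0 < C ∧ ∀ T : ℝ, Real.exp 3 ≤ T → ∀ N : ℕ,
    ∑ m ∈ Icc 1 N, (if Rg R T m then 1 / (m : ℝ) else 0) ≤ C := by
  obtain ⟨C, hC0, hC⟩ := exists_prime_interval R
  refine ⟨Real.exp (2 * (2 * C)), Real.exp_pos _, fun T hT N => ?_⟩
  have hL := NdA.log_pos3 hT
  have hT0 : 0 < T := lt_of_lt_of_le (Real.exp_pos 3) hT
  set s : Finset ℕ := (PP T).filter fun p => R.ep * Real.log T < Real.log p with hs
  have hbd : ∀ {p : ℕ}, p.Prime → ‖NdA.invHom p‖ < 1 := by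
    intro p hp
    have hp2 : (2 : ℝ) ≤ p := by exact_mod_cast hp.two_le
    change ‖1 / (p : ℝ)‖ < 1
    rw [Real.norm_of_nonneg (by positivity), div_lt_one (by linarith)]
    linarith
  obtain ⟨hsum, hhas⟩ :=
    EulerProduct.summable_and_hasSum_factoredNumbers_prod_filter_prime_geometric hbd s
  -- the product is bounded
  have hprod : ∏ p ∈ s with p.Prime, (1 - NdA.invHom p)⁻¹ ≤ Real.exp (2 * (2 * C)) := by
    have hfs : s.filter Nat.Prime = s := by
      rw [Finset.filter_eq_self]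
      intro p hp
      exact (Finset.mem_filter.1 (Finset.mem_filter.1 hp).1).2
    rw [hfs]
    have h1 : ∀ p ∈ s, (1 - NdA.invHom p)⁻¹ ≤ Real.exp (2 * (1 / (p : ℝ))) := by
      intro p hp
      have hpp : p.Prime := (Finset.mem_filter.1 (Finset.mem_filter.1 hp).1).2
      have hp2 : (2 : ℝ) ≤ p := by exact_mod_cast hpp.two_le
      set x : ℝ := 1 / (p : ℝ) with hx
      have hx0 : 0 < x := by positivity
      have hx2 : x ≤ 1 / 2 := one_div_le_one_div_of_le (by norm_num) hp2
      change (1 - x)⁻¹ ≤ _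
      rw [inv_le_comm₀ (by linarith) (Real.exp_pos _), ← Real.exp_neg]
      have h2 : Real.exp (-(2 * x)) * Real.exp (2 * x) = 1 := by
        rw [← Real.exp_add]; simp
      have h3 := Real.add_one_le_exp (2 * x)
      have h4 := Real.exp_pos (-(2 * x))
      have h5 : Real.exp (-(2 * x)) * (1 + 2 * x) ≤ 1 := by
        nlinarith
      have h6 : 1 ≤ (1 - x) * (1 + 2 * x) := by nlinarith
      have h7 : 0 < 1 + 2 * x := by linarith
      nlinarith
    calc ∏ p ∈ s, (1 - NdA.invHom p)⁻¹ ≤ ∏ p ∈ s, Real.exp (2 * (1 / (p : ℝ))) := by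
          refine Finset.prod_le_prod (fun p hp => ?_) h1
          have hpp : p.Prime := (Finset.mem_filter.1 (Finset.mem_filter.1 hp).1).2
          have := hbd hpp
          rw [Real.norm_eq_abs] at this
          have := (abs_lt.1 this).2
          exact inv_nonneg.2 (by linarith)
      _ = Real.exp (2 * ∑ p ∈ s, 1 / (p : ℝ)) := by
          rw [← Real.exp_sum, Finset.mul_sum]
      _ ≤ _ := by
          rw [Real.exp_le_exp]
          refine mul_le_mul_of_nonneg_left ?_ (by norm_num)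
          have h8 := hC T hT (Real.log T / 2) (Real.log T / 2) (by linarith)
          have h9 : ∑ p ∈ s, 1 / (p : ℝ) = ∑ p ∈ PP T, (if R.ep * Real.log T < Real.log p ∧
              |Real.log p - Real.log T / 2| ≤ Real.log T / 2 then 1 / (p : ℝ) else 0) := by
            rw [hs, Finset.sum_filter]
            refine Finset.sum_congr rfl fun p hp => ?_
            have hp' := Finset.mem_filter.1 hp
            have hp1 : (1 : ℝ) ≤ p := by exact_mod_cast hp'.2.one_lt.le
            have hpT : (p : ℝ) ≤ T :=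
              (Nat.le_floor_iff hT0.le).1 (Finset.mem_Icc.1 hp'.1).2
            have h10 : |Real.log p - Real.log T / 2| ≤ Real.log T / 2 := by
              rw [abs_le]
              have h11 := Real.log_nonneg hp1
              have h12 := Real.log_le_log (by linarith) hpT
              constructor <;> linarith
            simp only [h10, and_true]
          rw [h9]
          refine h8.trans ?_
          rw [div_le_iff₀ (by linarith)]
          nlinarith
  refine le_trans ?_ hprod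
  -- the sum
  have hmem : ∀ m ∈ (Icc 1 N).filter (fun m => Rg R T m), m ∈ Nat.factoredNumbers s := by
    intro m hm
    rw [Finset.mem_filter] at hm
    rw [Nat.mem_factoredNumbers]
    refine ⟨hm.2.1.ne', fun p hp => ?_⟩
    have hpp := Nat.prime_of_mem_primeFactorsList hp
    have h1 := hm.2.2 p hpp (Nat.dvd_of_mem_primeFactorsList hp)
    rw [hs, Finset.mem_filter, PP, Finset.mem_filter, Finset.mem_Icc]
    exact ⟨⟨⟨hpp.one_lt.le, Nat.le_floor h1.2⟩, hpp⟩, h1.1⟩
  rw [← Finset.sum_filter]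
  set A := (Icc 1 N).filter (fun m => Rg R T m) with hA
  have h1 : ∑ m ∈ A, 1 / (m : ℝ) =
      ∑ m ∈ A.attach.map ⟨fun m => (⟨m.1, hmem m.1 m.2⟩ : Nat.factoredNumbers s), by
        intro a b hab
        exact Subtype.ext (congrArg (fun z : Nat.factoredNumbers s => (z : ℕ)) hab)⟩,
        NdA.invHom (m : ℕ) := by
    rw [Finset.sum_map, ← Finset.sum_attach]
    rfl
  rw [h1]
  exact sum_le_hasSum _ (fun m _ => by
    change 0 ≤ 1 / ((m : ℕ) : ℝ)
    positivity) hhas

end Pool.Agent.TypBlk
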