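import Pool.Agent.TypBlk.Fin
import Pool.Agent.TypBlk.Maximal

/-!
# Small and large gaps in almost every block, for all block lengths at once
-/

namespace Pool.Agent.TypBlk

open Pool.Agent.ZetaGaps

open Classical in
/-- For all but `C m^(-1+ε) N` of the `n ≤ N`, for EVERY `M ≥ m` at least `M / (4 m)` of the `M`
gaps `δ_n, …, δ_(n+M-1)` are below `0.669`, and at least `M / (4 m)` are above `1.89`. -/
theorem typical_all (hRH : RiemannHypothesis) {ε : ℝ} (hε : 0 < ε) :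
    ∃ C : ℝ, ∀ m : ℕ, 1 ≤ m → ∃ N₀ : ℕ, ∀ N : ℕ, N₀ ≤ N →
      (({n ∈ Finset.Icc 1 N | ∃ M, m ≤ M ∧
        (4 * m * ({j ∈ Finset.range M | gap (n + j) < 0.669} : Finset ℕ).card < M ∨
          4 * m * ({j ∈ Finset.range M | 1.89 < gap (n + j)} : Finset ℕ).card < M)} :
          Finset ℕ).card : ℝ) ≤ C * (m : ℝ) ^ (-1 + ε) * N := by
  classical
  obtain ⟨C, h⟩ := Pool.Agent.TypBlk.typical_blocks hRH hε
  refine ⟨8 * C, fun m hm => ?_⟩
  obtain ⟨N₀, hN₀⟩ := Pool.Agent.TypBlk.LocDens.maximal (fun k => gap k < 0.669)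
    (fun k => 1.89 < gap k) C ε (fun m' hm' => by
      obtain ⟨N1, hN1⟩ := h m' hm'
      refine ⟨N1, fun N hN => ?_⟩
      have h' := hN1 N hN
      simp only [Pool.Agent.TypBlk.LocDens.Bad, not_lt]
      convert h') m hm
  refine ⟨N₀, fun N hN => ?_⟩
  have h'' := hN₀ N hN
  simp only [Pool.Agent.TypBlk.LocDens.cnt] at h''
  convert h''

end Pool.Agent.TypBlk
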