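import Pool.Agent.TypBlk.Defs

/-!
# The window weights are admissible
-/

namespace Pool.Agent.TypBlk

open MeasureTheory Set Pool.Agent.ZGap.Res

namespace WinAux

lemma ww_continuous (K T t0 : ℝ) : Continuous (ww K T t0) := by
  have := WW_continuous
  unfold ww
  fun_prop

lemma ww_nonneg {K T : ℝ} (hK : 0 < K) (hT : 1 < T) (t0 t : ℝ) : 0 ≤ ww K T t0 t := by
  have hL := Real.log_pos hT
  exact mul_nonneg (by positivity) (WW_nonneg _)

lemma WW_bound4 : ∃ C : ℝ, 0 < C ∧ ∀ s, WW s ≤ C / (1 + s ^ 2) ^ 2 := by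
  obtain ⟨C0, hC0, h0⟩ := WW_decay 0
  obtain ⟨C4, hC4, h4⟩ := WW_decay 4
  refine ⟨2 * C0 + 2 * C4, by positivity, fun s => ?_⟩
  have h3 := h0 s
  have h5 := h4 s
  simp only [pow_zero, one_mul] at h3
  have h6 : |s| ^ 4 = s ^ 4 := by
    rw [← abs_pow, abs_of_nonneg (by positivity)]
  rw [h6] at h5
  rw [le_div_iff₀ (by positivity)]
  have hW := WW_nonneg s
  have h7 : (1 + s ^ 2) ^ 2 ≤ 2 + 2 * s ^ 4 := by nlinarith [sq_nonneg (s ^ 2 - 1)]
  calc WW s * (1 + s ^ 2) ^ 2 ≤ WW s * (2 + 2 * s ^ 4) := mul_le_mul_of_nonneg_left h7 hW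
    _ = 2 * WW s + 2 * (s ^ 4 * WW s) := by ring
    _ ≤ _ := by linarith

/-- pointwise bound of the window weight -/
lemma ww_bound {K T : ℝ} (hK : 0 < K) (hT : 1 < T) (t0 : ℝ) :
    ∃ M : ℝ, 0 < M ∧ ∀ t, ww K T t0 t ≤ M / (1 + t ^ 2) ^ 2 := by
  obtain ⟨C, hC, h⟩ := WW_bound4
  have hL := Real.log_pos hT
  set a := Real.log T / K with ha
  have ha0 : 0 < a := by positivity
  set M0 := 1 + 2 * t0 ^ 2 + 2 / a ^ 2 with hM0
  have hM0p : 0 < M0 := by positivity
  refine ⟨a * C * M0 ^ 2, by positivity, fun t => ?_⟩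
  have h1 := h ((t - t0) * a)
  have h2 : 1 + t ^ 2 ≤ M0 * (1 + ((t - t0) * a) ^ 2) := by
    have e1 : M0 * (1 + ((t - t0) * a) ^ 2) = M0 + (1 + 2 * t0 ^ 2) * ((t - t0) * a) ^ 2 +
        2 * (t - t0) ^ 2 := by
      rw [hM0]; field_simp; ring
    rw [e1]
    have h3 : 0 ≤ (1 + 2 * t0 ^ 2) * ((t - t0) * a) ^ 2 := by positivity
    have h4 : 0 < 2 / a ^ 2 := by positivity
    nlinarith [sq_nonneg (t - 2 * t0)]
  have h3 : (1 + t ^ 2) ^ 2 ≤ M0 ^ 2 * (1 + ((t - t0) * a) ^ 2) ^ 2 := by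
    rw [← mul_pow]
    exact pow_le_pow_left₀ (by positivity) h2 2
  rw [le_div_iff₀ (by positivity)]
  have h4 : WW ((t - t0) * a) * (1 + ((t - t0) * a) ^ 2) ^ 2 ≤ C := by
    rwa [le_div_iff₀ (by positivity)] at h1
  unfold ww
  rw [← ha]
  calc a * WW ((t - t0) * a) * (1 + t ^ 2) ^ 2
      ≤ a * WW ((t - t0) * a) * (M0 ^ 2 * (1 + ((t - t0) * a) ^ 2) ^ 2) :=
        mul_le_mul_of_nonneg_left h3 (mul_nonneg ha0.le (WW_nonneg _))
    _ = a * M0 ^ 2 * (WW ((t - t0) * a) * (1 + ((t - t0) * a) ^ 2) ^ 2) := by ring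
    _ ≤ a * M0 ^ 2 * C := mul_le_mul_of_nonneg_left h4 (by positivity)
    _ = a * C * M0 ^ 2 := by ring

lemma ww_integrable {K T : ℝ} (hK : 0 < K) (hT : 1 < T) (t0 : ℝ) : Integrable (ww K T t0) := by
  obtain ⟨M, hM, h⟩ := ww_bound hK hT t0
  exact Wt.integrable (V := ww K T t0) (M := M)
    ⟨ww_continuous K T t0, fun t => ww_nonneg hK hT t0 t, h⟩

/-- change of variables -/
lemma ww_swap {K T : ℝ} (hK : 0 < K) (hT : 1 < T) (t0 : ℝ) (G : ℝ → ℝ) :
    ∫ t : ℝ, ww K T t0 t * G t =
      ∫ s : ℝ, WW s * G (t0 + s / (Real.log T / K)) := by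
  have hL := Real.log_pos hT
  set a := Real.log T / K with ha
  have ha0 : 0 < a := by positivity
  have h1 := integral_sub_right_eq_self (fun u : ℝ => a * WW (u * a) * G (t0 + u)) t0
    (μ := volume)
  have e3 : ∀ x : ℝ, a * WW ((x - t0) * a) * G (t0 + (x - t0)) = ww K T t0 x * G x := by
    intro x
    unfold ww
    rw [← ha]
    congr 2
    ring
  simp_rw [e3] at h1
  rw [h1]
  have h2 := Measure.integral_comp_mul_right (fun u : ℝ => WW u * G (t0 + u / a)) a
  rw [abs_of_pos (by positivity : 0 < a⁻¹), smul_eq_mul] at h2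
  have e4 : ∀ x : ℝ, a * WW (x * a) * G (t0 + x) = a * (WW (x * a) * G (t0 + x * a / a)) := by
    intro x
    rw [mul_div_cancel_right₀ _ ha0.ne']
    ring
  simp_rw [e4]
  rw [MeasureTheory.integral_const_mul, h2, ← mul_assoc, mul_inv_cancel₀ ha0.ne', one_mul]

lemma WW_mul_cos_int (c : ℝ) : Integrable (fun s => WW s * Real.cos (c * s)) := by
  have := WW_continuous
  refine WW_integrable.norm.mono' (Continuous.aestronglyMeasurable (by fun_prop))
    (Filter.Eventually.of_forall fun s => ?_)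
  rw [norm_mul]
  exact mul_le_of_le_one_right (norm_nonneg _) (Real.abs_cos_le_one _)

lemma WW_mul_sin_int (c : ℝ) : Integrable (fun s => WW s * Real.sin (c * s)) := by
  have := WW_continuous
  refine WW_integrable.norm.mono' (Continuous.aestronglyMeasurable (by fun_prop))
    (Filter.Eventually.of_forall fun s => ?_)
  rw [norm_mul]
  exact mul_le_of_le_one_right (norm_nonneg _) (Real.abs_sin_le_one _)

lemma ww_cos {K T : ℝ} (hK : 0 < K) (hT : 1 < T) (t0 : ℝ) {l : ℝ}
    (hl : Real.log T / K ≤ |l|) : ∫ t : ℝ, ww K T t0 t * Real.cos (l * t) = 0 := by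
  have hL := Real.log_pos hT
  have ha0 : 0 < Real.log T / K := by positivity
  rw [ww_swap hK hT]
  set a := Real.log T / K with ha
  have e : ∀ s : ℝ, WW s * Real.cos (l * (t0 + s / a)) =
      Real.cos (l * t0) * (WW s * Real.cos (l / a * s)) -
        Real.sin (l * t0) * (WW s * Real.sin (l / a * s)) := by
    intro s
    have : l * (t0 + s / a) = l * t0 + l / a * s := by ring
    rw [this, Real.cos_add]
    ring
  simp_rw [e]
  rw [integral_sub ((WW_mul_cos_int _).const_mul _) ((WW_mul_sin_int _).const_mul _),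
    MeasureTheory.integral_const_mul, MeasureTheory.integral_const_mul, WW_sin, WW_cos]
  · ring
  · rw [abs_div, abs_of_pos ha0, one_le_div ha0]
    exact hl

lemma ww_sin {K T : ℝ} (hK : 0 < K) (hT : 1 < T) (t0 : ℝ) {l : ℝ}
    (hl : Real.log T / K ≤ |l|) : ∫ t : ℝ, ww K T t0 t * Real.sin (l * t) = 0 := by
  have hL := Real.log_pos hT
  have ha0 : 0 < Real.log T / K := by positivity
  rw [ww_swap hK hT]
  set a := Real.log T / K with ha
  have e : ∀ s : ℝ, WW s * Real.sin (l * (t0 + s / a)) =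
      Real.sin (l * t0) * (WW s * Real.cos (l / a * s)) +
        Real.cos (l * t0) * (WW s * Real.sin (l / a * s)) := by
    intro s
    have : l * (t0 + s / a) = l * t0 + l / a * s := by ring
    rw [this, Real.sin_add]
    ring
  simp_rw [e]
  rw [integral_add ((WW_mul_cos_int _).const_mul _) ((WW_mul_sin_int _).const_mul _),
    MeasureTheory.integral_const_mul, MeasureTheory.integral_const_mul, WW_sin, WW_cos]
  · ring
  · rw [abs_div, abs_of_pos ha0, one_le_div ha0]
    exact hl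

/-- decay far from `[T, 2T]` -/
lemma ww_far : ∃ C : ℝ, 0 < C ∧ ∀ K T : ℝ, 0 < K → 8 ≤ T → K ≤ Real.log T →
    ∀ t0 ∈ Icc T (2 * T), ∀ t, t ∉ Icc (T / 2) (3 * T) →
      ww K T t0 t ≤ C * (T ^ 6)⁻¹ / (1 + t ^ 2) ^ 2 := by
  obtain ⟨C, hC, h⟩ := WW_decay 10
  refine ⟨C * 20736, by positivity, fun K T hK hT hKT t0 ht0 t ht => ?_⟩
  obtain ⟨h1, h2⟩ := far_facts hT ht ht0.1 ht0.2
  have hT0 : 0 < T := by linarith
  set a := Real.log T / K with ha
  have ha1 : 1 ≤ a := by rw [ha, one_le_div hK]; exact hKT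
  have ha0 : 0 < a := by linarith
  have hd0 : 0 < |t - t0| := by linarith
  have h3 := h ((t - t0) * a)
  rw [abs_mul, abs_of_pos ha0, mul_pow] at h3
  have hW := WW_nonneg ((t - t0) * a)
  have h4 : ((1 + t ^ 2) / 18) ^ 2 * (T / 2) ^ 6 ≤ |t - t0| ^ 10 := by
    calc ((1 + t ^ 2) / 18) ^ 2 * (T / 2) ^ 6 ≤ (|t - t0| ^ 2) ^ 2 * |t - t0| ^ 6 :=
          mul_le_mul (pow_le_pow_left₀ (by positivity) h2 2)
            (pow_le_pow_left₀ (by positivity) h1 6) (by positivity) (by positivity)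
      _ = |t - t0| ^ 10 := by ring
  have h5 : a ≤ a ^ 10 := le_self_pow₀ ha1 (by norm_num)
  have h6 : a * WW ((t - t0) * a) * (((1 + t ^ 2) / 18) ^ 2 * (T / 2) ^ 6) ≤ C := by
    calc a * WW ((t - t0) * a) * (((1 + t ^ 2) / 18) ^ 2 * (T / 2) ^ 6)
        ≤ a ^ 10 * WW ((t - t0) * a) * |t - t0| ^ 10 :=
          mul_le_mul (mul_le_mul_of_nonneg_right h5 hW) h4 (by positivity) (by positivity)
      _ = |t - t0| ^ 10 * a ^ 10 * WW ((t - t0) * a) := by ring
      _ ≤ C := h3
  unfold ww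
  rw [← ha, le_div_iff₀ (by positivity), ← div_eq_mul_inv, le_div_iff₀ (by positivity)]
  have h7 : a * WW ((t - t0) * a) * (((1 + t ^ 2) / 18) ^ 2 * (T / 2) ^ 6) * 20736 =
      a * WW ((t - t0) * a) * (1 + t ^ 2) ^ 2 * T ^ 6 := by ring
  rw [← h7]
  exact mul_le_mul_of_nonneg_right h6 (by norm_num)

end WinAux

open WinAux

/-- All facts on the resonated window weight, uniformly in the centre. -/
theorem exists_win (R : ResData) (hF : ∀ x, 0 ≤ x → R.F x ≤ 1) (hth : R.th < 1 / 4) {K : ℝ}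
    (hK : 4 ≤ K) : ∃ T0 : ℝ, Real.exp 3 ≤ T0 ∧ ∀ T : ℝ, T0 ≤ T → ∀ t0 ∈ Icc T (2 * T),
      (∃ M : ℝ, Wt (VL R K T t0) M) ∧
      (∀ t, t ∉ Icc (T / 2) (3 * T) → VL R K T t0 t ≤ (T ^ 3)⁻¹ / (1 + t ^ 2) ^ 2) ∧
      Band (VL R K T t0) (3 / 4 * Real.log T) := by
  obtain ⟨C, hC, hfar⟩ := ww_far
  have hE1 := E1_pos (R := R)
  have hK0 : 0 < K := by linarith
  refine ⟨max (max (Real.exp 3) (Real.exp K)) (C * E1 R ^ 2),
    (le_max_left _ _).trans (le_max_left _ _), fun T hT t0 ht0 => ?_⟩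
  have hTe : Real.exp 3 ≤ T := (le_max_left _ _).trans ((le_max_left _ _).trans hT)
  have hTK : Real.exp K ≤ T := (le_max_right _ _).trans ((le_max_left _ _).trans hT)
  have hTC : C * E1 R ^ 2 ≤ T := (le_max_right _ _).trans hT
  have h1T : 1 < T := lt_of_lt_of_le (Real.one_lt_exp_iff.mpr (by norm_num)) hTe
  have h8 : 8 ≤ T := by
    have := Real.quadratic_le_exp_of_nonneg (x := 3) (by norm_num)
    linarith
  have hT0 : 0 < T := by linarith
  have hL : 0 < Real.log T := Real.log_pos h1T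
  have hKL : K ≤ Real.log T := by rwa [Real.le_log_iff_exp_le hT0]
  have hAE : ∀ t, ‖Amp R T t‖ ^ 2 ≤ T ^ 2 * E1 R ^ 2 := by
    intro t
    rw [← mul_pow]
    apply pow_le_pow_left₀ (norm_nonneg _)
    exact (norm_Amp_le h1T hF t).trans (mul_le_mul_of_nonneg_left (E0_le_E1 hTe) hT0.le)
  refine ⟨?_, fun t ht => ?_, ?_⟩
  · obtain ⟨M, hM, hb⟩ := ww_bound hK0 h1T t0
    refine ⟨M * (T ^ 2 * E1 R ^ 2), ?_, fun t => ?_, fun t => ?_⟩
    · have h1 := ww_continuous K T t0
      have h2 := Amp_continuous R T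
      unfold VL
      fun_prop
    · exact mul_nonneg (ww_nonneg hK0 h1T t0 t) (by positivity)
    · unfold VL
      calc _ ≤ M / (1 + t ^ 2) ^ 2 * (T ^ 2 * E1 R ^ 2) :=
            mul_le_mul (hb t) (hAE t) (by positivity) (by positivity)
        _ = _ := by ring
  · have h1 := hfar K T hK0 h8 hKL t0 ht0 t ht
    unfold VL
    calc _ ≤ C * (T ^ 6)⁻¹ / (1 + t ^ 2) ^ 2 * (T ^ 2 * E1 R ^ 2) :=
          mul_le_mul h1 (hAE t) (by positivity) (by positivity)
      _ = (C * E1 R ^ 2) * (T ^ 4)⁻¹ / (1 + t ^ 2) ^ 2 := by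
          field_simp
      _ ≤ T * (T ^ 4)⁻¹ / (1 + t ^ 2) ^ 2 := by gcongr
      _ = _ := by
          congr 1
          field_simp
  · -- the band
    have hVeq : ∀ t, VL R K T t0 t = ∑ q ∈ QQ T, ∑ q' ∈ QQ T, al R T q * al R T q' *
        (ww K T t0 t * Real.cos (t * (fr q - fr q'))) := by
      intro t
      unfold VL
      rw [norm_sq_Amp, Finset.mul_sum]
      refine Finset.sum_congr rfl fun q _ => ?_
      rw [Finset.mul_sum]
      refine Finset.sum_congr rfl fun q' _ => ?_
      ring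
    have hint := ww_integrable hK0 h1T t0
    have hicos : ∀ la : ℝ, Integrable (fun t => ww K T t0 t * Real.cos (t * la)) := by
      intro la
      refine hint.norm.mono' (hint.aestronglyMeasurable.mul
        (Continuous.aestronglyMeasurable (by fun_prop))) (Filter.Eventually.of_forall fun t => ?_)
      rw [norm_mul]
      exact mul_le_of_le_one_right (norm_nonneg _) (Real.abs_cos_le_one _)
    have hisin : ∀ la : ℝ, Integrable (fun t => ww K T t0 t * Real.sin (t * la)) := by
      intro la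
      refine hint.norm.mono' (hint.aestronglyMeasurable.mul
        (Continuous.aestronglyMeasurable (by fun_prop))) (Filter.Eventually.of_forall fun t => ?_)
      rw [norm_mul]
      exact mul_le_of_le_one_right (norm_nonneg _) (Real.abs_sin_le_one _)
    have hcos : ∀ la : ℝ, Real.log T / K ≤ |la| →
        ∫ t : ℝ, ww K T t0 t * Real.cos (t * la) = 0 := by
      intro la hla
      have := ww_cos hK0 h1T t0 hla
      simpa [mul_comm] using this
    have hsin : ∀ la : ℝ, Real.log T / K ≤ |la| →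
        ∫ t : ℝ, ww K T t0 t * Real.sin (t * la) = 0 := by
      intro la hla
      have := ww_sin hK0 h1T t0 hla
      simpa [mul_comm] using this
    have hlarge : ∀ q q' : Finset ℕ × Finset ℕ, al R T q ≠ 0 → al R T q' ≠ 0 → ∀ l : ℝ,
        3 / 4 * Real.log T ≤ l →
        Real.log T / K ≤ |l + (fr q - fr q')| ∧ Real.log T / K ≤ |l - (fr q - fr q')| := by
      intro q q' h h' l hl
      have a1 := abs_le.mp (abs_fr_le h1T h)
      have a2 := abs_le.mp (abs_fr_le h1T h')
      have a3 : Real.log T / K ≤ Real.log T / 4 := div_le_div_of_nonneg_left hL.le (by norm_num) hK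
      have a4 : R.th * Real.log T ≤ 1 / 4 * Real.log T :=
        mul_le_mul_of_nonneg_right hth.le hL.le
      constructor
      · refine a3.trans (le_trans ?_ (le_abs_self _))
        linarith [a1.1, a1.2, a2.1, a2.2]
      · refine a3.trans (le_trans ?_ (le_abs_self _))
        linarith [a1.1, a1.2, a2.1, a2.2]
    intro l hl
    constructor
    · have e1 : ∀ t, VL R K T t0 t * Real.cos (l * t) = ∑ q ∈ QQ T, ∑ q' ∈ QQ T,
          (al R T q * al R T q' / 2) * (ww K T t0 t * Real.cos (t * (l + (fr q - fr q'))) +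
            ww K T t0 t * Real.cos (t * (l - (fr q - fr q')))) := by
        intro t
        rw [hVeq, Finset.sum_mul]
        refine Finset.sum_congr rfl fun q _ => ?_
        rw [Finset.sum_mul]
        refine Finset.sum_congr rfl fun q' _ => ?_
        rw [mul_add t, mul_sub t l, Real.cos_add, Real.cos_sub, mul_comm l t]
        ring
      simp_rw [e1]
      have hi : ∀ q ∈ QQ T, ∀ q' ∈ QQ T, Integrable (fun t =>
          (al R T q * al R T q' / 2) * (ww K T t0 t * Real.cos (t * (l + (fr q - fr q'))) +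
            ww K T t0 t * Real.cos (t * (l - (fr q - fr q'))))) := fun q _ q' _ =>
        ((hicos _).add (hicos _)).const_mul _
      rw [integral_finsetSum _ fun q hq => integrable_finsetSum _ fun q' hq' => hi q hq q' hq']
      refine Finset.sum_eq_zero fun q hq => ?_
      rw [integral_finsetSum _ fun q' hq' => hi q hq q' hq']
      refine Finset.sum_eq_zero fun q' hq' => ?_
      by_cases hz : al R T q = 0
      · rw [hz]; simp
      by_cases hz' : al R T q' = 0
      · rw [hz']; simp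
      obtain ⟨b1, b2⟩ := hlarge q q' hz hz' l hl
      rw [integral_const_mul, integral_add (hicos _) (hicos _), hcos _ b1, hcos _ b2]
      simp
    · have e1 : ∀ t, VL R K T t0 t * Real.sin (l * t) = ∑ q ∈ QQ T, ∑ q' ∈ QQ T,
          (al R T q * al R T q' / 2) * (ww K T t0 t * Real.sin (t * (l + (fr q - fr q'))) +
            ww K T t0 t * Real.sin (t * (l - (fr q - fr q')))) := by
        intro t
        rw [hVeq, Finset.sum_mul]
        refine Finset.sum_congr rfl fun q _ => ?_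
        rw [Finset.sum_mul]
        refine Finset.sum_congr rfl fun q' _ => ?_
        rw [mul_add t, mul_sub t l, Real.sin_add, Real.sin_sub, mul_comm l t]
        ring
      simp_rw [e1]
      have hi : ∀ q ∈ QQ T, ∀ q' ∈ QQ T, Integrable (fun t =>
          (al R T q * al R T q' / 2) * (ww K T t0 t * Real.sin (t * (l + (fr q - fr q'))) +
            ww K T t0 t * Real.sin (t * (l - (fr q - fr q'))))) := fun q _ q' _ =>
        ((hisin _).add (hisin _)).const_mul _
      rw [integral_finsetSum _ fun q hq => integrable_finsetSum _ fun q' hq' => hi q hq q' hq']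
      refine Finset.sum_eq_zero fun q hq => ?_
      rw [integral_finsetSum _ fun q' hq' => hi q hq q' hq']
      refine Finset.sum_eq_zero fun q' hq' => ?_
      by_cases hz : al R T q = 0
      · rw [hz]; simp
      by_cases hz' : al R T q' = 0
      · rw [hz']; simp
      obtain ⟨b1, b2⟩ := hlarge q q' hz hz' l hl
      rw [integral_const_mul, integral_add (hisin _) (hisin _), hsin _ b1, hsin _ b2]
      simp

end Pool.Agent.TypBlk
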